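import Pool.Agent.Lib.MP_33650d_pr.X.EFin
import Pool.Agent.Lib.MP_33650d_pr.X.CLeaf
import Pool.Agent.Lib.MP_33650d_pr.X.CKChk
import Pool.Agent.Lib.MP_33650d_pr.G.IaC0

set_option linter.defProp false

namespace Pool.Agent.Lib.MP_33650d_pr.X

theorem IaE0000_ok : Tab JI IaE0000 := IaE0000_k.tabI
theorem IaE0001_ok : Tab JI IaE0001 := IaE0001_k.tabI
theorem IaE000_ok : Tab JI IaE000 := E.Tab.node IaE0000_ok IaE0001_ok
theorem IaE0010_ok : Tab JI IaE0010 := IaE0010_k.tabI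
theorem IaE0011_ok : Tab JI IaE0011 := IaE0011_k.tabI
theorem IaE001_ok : Tab JI IaE001 := E.Tab.node IaE0010_ok IaE0011_ok
theorem IaE00_ok : Tab JI IaE00 := E.Tab.node IaE000_ok IaE001_ok
theorem IaE0100_ok : Tab JI IaE0100 := IaE0100_k.tabI
theorem IaE0101_ok : Tab JI IaE0101 := IaE0101_k.tabI
theorem IaE010_ok : Tab JI IaE010 := E.Tab.node IaE0100_ok IaE0101_ok
theorem IaE0110_ok : Tab JI IaE0110 := IaE0110_k.tabI
theorem IaE0111_ok : Tab JI IaE0111 := IaE0111_k.tabI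
theorem IaE011_ok : Tab JI IaE011 := E.Tab.node IaE0110_ok IaE0111_ok
theorem IaE01_ok : Tab JI IaE01 := E.Tab.node IaE010_ok IaE011_ok
theorem IaE0_ok : Tab JI IaE0 := E.Tab.node IaE00_ok IaE01_ok
theorem IaE1000_ok : Tab JI IaE1000 := IaE1000_k.tabI
theorem IaE1001_ok : Tab JI IaE1001 := IaE1001_k.tabI
theorem IaE100_ok : Tab JI IaE100 := E.Tab.node IaE1000_ok IaE1001_ok
theorem IaE1010_ok : Tab JI IaE1010 := IaE1010_k.tabI
theorem IaE1011_ok : Tab JI IaE1011 := IaE1011_k.tabI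
theorem IaE101_ok : Tab JI IaE101 := E.Tab.node IaE1010_ok IaE1011_ok
theorem IaE10_ok : Tab JI IaE10 := E.Tab.node IaE100_ok IaE101_ok
theorem IaE1100_ok : Tab JI IaE1100 := IaE1100_k.tabI
theorem IaE1101_ok : Tab JI IaE1101 := IaE1101_k.tabI
theorem IaE110_ok : Tab JI IaE110 := E.Tab.node IaE1100_ok IaE1101_ok
theorem IaE1110_ok : Tab JI IaE1110 := IaE1110_k.tabI
theorem IaE1111_ok : Tab JI IaE1111 := IaE1111_k.tabI
theorem IaE111_ok : Tab JI IaE111 := E.Tab.node IaE1110_ok IaE1111_ok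
theorem IaE11_ok : Tab JI IaE11 := E.Tab.node IaE110_ok IaE111_ok
theorem IaE1_ok : Tab JI IaE1 := E.Tab.node IaE10_ok IaE11_ok
theorem IaE_ok : Tab JI IaE := E.Tab.node IaE0_ok IaE1_ok
theorem IaK00_ok : IaK00.All (KV 24) := chkKT_sound (by decide) IaK00_k
theorem IaK01_ok : IaK01.All (KV 24) := chkKT_sound (by decide) IaK01_k
theorem IaK0_ok : IaK0.All (KV 24) := ⟨IaK00_ok, IaK01_ok⟩
theorem IaK10_ok : IaK10.All (KV 24) := chkKT_sound (by decide) IaK10_k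
theorem IaK11_ok : IaK11.All (KV 24) := chkKT_sound (by decide) IaK11_k
theorem IaK1_ok : IaK1.All (KV 24) := ⟨IaK10_ok, IaK11_ok⟩
theorem IaK_ok : IaK.All (KV 24) := ⟨IaK0_ok, IaK1_ok⟩
theorem IaP_ok : IaP.Ok JI :=
  ⟨Nat.succ_pos 15, (by decide : 24 ≤ 48), (by decide : 14 ≤ 255), IaE_ok, IaK_ok⟩
theorem IaT0_c : CovC JI 183500 367002 ⟨1310720, 2097152, 0, 524288, 0, 294912, 0, 33554432⟩ :=
  chkC_sound IaP_ok IaT0 _ IaT0_k
theorem IaT1_c : CovC JI 183500 367002 ⟨1310720, 1703936, 524288, 1048576, 0, 147456, 0, 33554432⟩ :=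
  chkC_sound IaP_ok IaT1 _ IaT1_k
theorem IaT2_c : CovC JI 183500 367002 ⟨1703936, 2097152, 524288, 786432, 0, 73728, 0, 33554432⟩ :=
  chkC_sound IaP_ok IaT2 _ IaT2_k
theorem IaT3_c : CovC JI 183500 367002 ⟨1703936, 2097152, 786432, 1048576, 0, 73728, 0, 33554432⟩ :=
  chkC_sound IaP_ok IaT3 _ IaT3_k
theorem IaT4_c : CovC JI 183500 367002 ⟨1703936, 2097152, 524288, 1048576, 73728, 147456, 0, 33554432⟩ :=
  chkC_sound IaP_ok IaT4 _ IaT4_k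
theorem IaT5_c : CovC JI 183500 367002 ⟨1310720, 2097152, 524288, 1048576, 147456, 294912, 0, 33554432⟩ :=
  chkC_sound IaP_ok IaT5 _ IaT5_k
theorem IaT6_c : CovC JI 183500 367002 ⟨1310720, 2097152, 1048576, 2097152, 0, 294912, 0, 33554432⟩ :=
  chkC_sound IaP_ok IaT6 _ IaT6_k
theorem Ia_cov  : CovC JI 183500 367002 ⟨1310720, 2097152, 0, 2097152, 0, 294912, 0, 33554432⟩ :=
 (CovC.sK 1048576 (CovC.sK 524288 IaT0_c
 (CovC.sJ 147456 (CovC.sN 1703936 IaT1_c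
 (CovC.sJ 73728 (CovC.sK 786432 IaT2_c
 IaT3_c)
 IaT4_c))
 IaT5_c))
 IaT6_c)
end Pool.Agent.Lib.MP_33650d_pr.X
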