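import Pool.Agent.Lib.MP_33650d_pr.X.EFin
import Pool.Agent.Lib.MP_33650d_pr.X.CLeaf
import Pool.Agent.Lib.MP_33650d_pr.X.CKChk
import Pool.Agent.Lib.MP_33650d_pr.G.IbC0

set_option linter.defProp false

namespace Pool.Agent.Lib.MP_33650d_pr.X

theorem IbE000000_ok : Tab JI IbE000000 := IbE000000_k.tabI
theorem IbE000001_ok : Tab JI IbE000001 := IbE000001_k.tabI
theorem IbE00000_ok : Tab JI IbE00000 := E.Tab.node IbE000000_ok IbE000001_ok
theorem IbE000010_ok : Tab JI IbE000010 := IbE000010_k.tabI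
theorem IbE000011_ok : Tab JI IbE000011 := IbE000011_k.tabI
theorem IbE00001_ok : Tab JI IbE00001 := E.Tab.node IbE000010_ok IbE000011_ok
theorem IbE0000_ok : Tab JI IbE0000 := E.Tab.node IbE00000_ok IbE00001_ok
theorem IbE000100_ok : Tab JI IbE000100 := IbE000100_k.tabI
theorem IbE000101_ok : Tab JI IbE000101 := IbE000101_k.tabI
theorem IbE00010_ok : Tab JI IbE00010 := E.Tab.node IbE000100_ok IbE000101_ok
theorem IbE000110_ok : Tab JI IbE000110 := IbE000110_k.tabI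
theorem IbE000111_ok : Tab JI IbE000111 := IbE000111_k.tabI
theorem IbE00011_ok : Tab JI IbE00011 := E.Tab.node IbE000110_ok IbE000111_ok
theorem IbE0001_ok : Tab JI IbE0001 := E.Tab.node IbE00010_ok IbE00011_ok
theorem IbE000_ok : Tab JI IbE000 := E.Tab.node IbE0000_ok IbE0001_ok
theorem IbE001000_ok : Tab JI IbE001000 := IbE001000_k.tabI
theorem IbE001001_ok : Tab JI IbE001001 := IbE001001_k.tabI
theorem IbE00100_ok : Tab JI IbE00100 := E.Tab.node IbE001000_ok IbE001001_ok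
theorem IbE001010_ok : Tab JI IbE001010 := IbE001010_k.tabI
theorem IbE001011_ok : Tab JI IbE001011 := IbE001011_k.tabI
theorem IbE00101_ok : Tab JI IbE00101 := E.Tab.node IbE001010_ok IbE001011_ok
theorem IbE0010_ok : Tab JI IbE0010 := E.Tab.node IbE00100_ok IbE00101_ok
theorem IbE001100_ok : Tab JI IbE001100 := IbE001100_k.tabI
theorem IbE001101_ok : Tab JI IbE001101 := IbE001101_k.tabI
theorem IbE00110_ok : Tab JI IbE00110 := E.Tab.node IbE001100_ok IbE001101_ok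
theorem IbE001110_ok : Tab JI IbE001110 := IbE001110_k.tabI
theorem IbE001111_ok : Tab JI IbE001111 := IbE001111_k.tabI
theorem IbE00111_ok : Tab JI IbE00111 := E.Tab.node IbE001110_ok IbE001111_ok
theorem IbE0011_ok : Tab JI IbE0011 := E.Tab.node IbE00110_ok IbE00111_ok
theorem IbE001_ok : Tab JI IbE001 := E.Tab.node IbE0010_ok IbE0011_ok
theorem IbE00_ok : Tab JI IbE00 := E.Tab.node IbE000_ok IbE001_ok
theorem IbE010000_ok : Tab JI IbE010000 := IbE010000_k.tabI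
theorem IbE010001_ok : Tab JI IbE010001 := IbE010001_k.tabI
theorem IbE01000_ok : Tab JI IbE01000 := E.Tab.node IbE010000_ok IbE010001_ok
theorem IbE010010_ok : Tab JI IbE010010 := IbE010010_k.tabI
theorem IbE010011_ok : Tab JI IbE010011 := IbE010011_k.tabI
theorem IbE01001_ok : Tab JI IbE01001 := E.Tab.node IbE010010_ok IbE010011_ok
theorem IbE0100_ok : Tab JI IbE0100 := E.Tab.node IbE01000_ok IbE01001_ok
theorem IbE010100_ok : Tab JI IbE010100 := IbE010100_k.tabI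
theorem IbE010101_ok : Tab JI IbE010101 := IbE010101_k.tabI
theorem IbE01010_ok : Tab JI IbE01010 := E.Tab.node IbE010100_ok IbE010101_ok
theorem IbE010110_ok : Tab JI IbE010110 := IbE010110_k.tabI
theorem IbE0101110_ok : Tab JI IbE0101110 := IbE0101110_k.tabI
theorem IbE0101111_ok : Tab JI IbE0101111 := IbE0101111_k.tabI
theorem IbE010111_ok : Tab JI IbE010111 := E.Tab.node IbE0101110_ok IbE0101111_ok
theorem IbE01011_ok : Tab JI IbE01011 := E.Tab.node IbE010110_ok IbE010111_ok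
theorem IbE0101_ok : Tab JI IbE0101 := E.Tab.node IbE01010_ok IbE01011_ok
theorem IbE010_ok : Tab JI IbE010 := E.Tab.node IbE0100_ok IbE0101_ok
theorem IbE011000_ok : Tab JI IbE011000 := IbE011000_k.tabI
theorem IbE011001_ok : Tab JI IbE011001 := IbE011001_k.tabI
theorem IbE01100_ok : Tab JI IbE01100 := E.Tab.node IbE011000_ok IbE011001_ok
theorem IbE011010_ok : Tab JI IbE011010 := IbE011010_k.tabI
theorem IbE011011_ok : Tab JI IbE011011 := IbE011011_k.tabI
theorem IbE01101_ok : Tab JI IbE01101 := E.Tab.node IbE011010_ok IbE011011_ok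
theorem IbE0110_ok : Tab JI IbE0110 := E.Tab.node IbE01100_ok IbE01101_ok
theorem IbE011100_ok : Tab JI IbE011100 := IbE011100_k.tabI
theorem IbE011101_ok : Tab JI IbE011101 := IbE011101_k.tabI
theorem IbE01110_ok : Tab JI IbE01110 := E.Tab.node IbE011100_ok IbE011101_ok
theorem IbE011110_ok : Tab JI IbE011110 := IbE011110_k.tabI
theorem IbE011111_ok : Tab JI IbE011111 := IbE011111_k.tabI
theorem IbE01111_ok : Tab JI IbE01111 := E.Tab.node IbE011110_ok IbE011111_ok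
theorem IbE0111_ok : Tab JI IbE0111 := E.Tab.node IbE01110_ok IbE01111_ok
theorem IbE011_ok : Tab JI IbE011 := E.Tab.node IbE0110_ok IbE0111_ok
theorem IbE01_ok : Tab JI IbE01 := E.Tab.node IbE010_ok IbE011_ok
theorem IbE0_ok : Tab JI IbE0 := E.Tab.node IbE00_ok IbE01_ok
theorem IbE100000_ok : Tab JI IbE100000 := IbE100000_k.tabI
theorem IbE100001_ok : Tab JI IbE100001 := IbE100001_k.tabI
theorem IbE10000_ok : Tab JI IbE10000 := E.Tab.node IbE100000_ok IbE100001_ok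
theorem IbE100010_ok : Tab JI IbE100010 := IbE100010_k.tabI
theorem IbE100011_ok : Tab JI IbE100011 := IbE100011_k.tabI
theorem IbE10001_ok : Tab JI IbE10001 := E.Tab.node IbE100010_ok IbE100011_ok
theorem IbE1000_ok : Tab JI IbE1000 := E.Tab.node IbE10000_ok IbE10001_ok
theorem IbE100100_ok : Tab JI IbE100100 := IbE100100_k.tabI
theorem IbE100101_ok : Tab JI IbE100101 := IbE100101_k.tabI
theorem IbE10010_ok : Tab JI IbE10010 := E.Tab.node IbE100100_ok IbE100101_ok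
theorem IbE100110_ok : Tab JI IbE100110 := IbE100110_k.tabI
theorem IbE100111_ok : Tab JI IbE100111 := IbE100111_k.tabI
theorem IbE10011_ok : Tab JI IbE10011 := E.Tab.node IbE100110_ok IbE100111_ok
theorem IbE1001_ok : Tab JI IbE1001 := E.Tab.node IbE10010_ok IbE10011_ok
theorem IbE100_ok : Tab JI IbE100 := E.Tab.node IbE1000_ok IbE1001_ok
theorem IbE101000_ok : Tab JI IbE101000 := IbE101000_k.tabI
theorem IbE101001_ok : Tab JI IbE101001 := IbE101001_k.tabI
theorem IbE10100_ok : Tab JI IbE10100 := E.Tab.node IbE101000_ok IbE101001_ok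
theorem IbE101010_ok : Tab JI IbE101010 := IbE101010_k.tabI
theorem IbE101011_ok : Tab JI IbE101011 := IbE101011_k.tabI
theorem IbE10101_ok : Tab JI IbE10101 := E.Tab.node IbE101010_ok IbE101011_ok
theorem IbE1010_ok : Tab JI IbE1010 := E.Tab.node IbE10100_ok IbE10101_ok
theorem IbE101100_ok : Tab JI IbE101100 := IbE101100_k.tabI
theorem IbE101101_ok : Tab JI IbE101101 := IbE101101_k.tabI
theorem IbE10110_ok : Tab JI IbE10110 := E.Tab.node IbE101100_ok IbE101101_ok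
theorem IbE101110_ok : Tab JI IbE101110 := IbE101110_k.tabI
theorem IbE101111_ok : Tab JI IbE101111 := IbE101111_k.tabI
theorem IbE10111_ok : Tab JI IbE10111 := E.Tab.node IbE101110_ok IbE101111_ok
theorem IbE1011_ok : Tab JI IbE1011 := E.Tab.node IbE10110_ok IbE10111_ok
theorem IbE101_ok : Tab JI IbE101 := E.Tab.node IbE1010_ok IbE1011_ok
theorem IbE10_ok : Tab JI IbE10 := E.Tab.node IbE100_ok IbE101_ok
theorem IbE110000_ok : Tab JI IbE110000 := IbE110000_k.tabI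
theorem IbE110001_ok : Tab JI IbE110001 := IbE110001_k.tabI
theorem IbE11000_ok : Tab JI IbE11000 := E.Tab.node IbE110000_ok IbE110001_ok
theorem IbE110010_ok : Tab JI IbE110010 := IbE110010_k.tabI
theorem IbE110011_ok : Tab JI IbE110011 := IbE110011_k.tabI
theorem IbE11001_ok : Tab JI IbE11001 := E.Tab.node IbE110010_ok IbE110011_ok
theorem IbE1100_ok : Tab JI IbE1100 := E.Tab.node IbE11000_ok IbE11001_ok
theorem IbE110100_ok : Tab JI IbE110100 := IbE110100_k.tabI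
theorem IbE110101_ok : Tab JI IbE110101 := IbE110101_k.tabI
theorem IbE11010_ok : Tab JI IbE11010 := E.Tab.node IbE110100_ok IbE110101_ok
theorem IbE110110_ok : Tab JI IbE110110 := IbE110110_k.tabI
theorem IbE1101110_ok : Tab JI IbE1101110 := IbE1101110_k.tabI
theorem IbE1101111_ok : Tab JI IbE1101111 := IbE1101111_k.tabI
theorem IbE110111_ok : Tab JI IbE110111 := E.Tab.node IbE1101110_ok IbE1101111_ok
theorem IbE11011_ok : Tab JI IbE11011 := E.Tab.node IbE110110_ok IbE110111_ok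
theorem IbE1101_ok : Tab JI IbE1101 := E.Tab.node IbE11010_ok IbE11011_ok
theorem IbE110_ok : Tab JI IbE110 := E.Tab.node IbE1100_ok IbE1101_ok
theorem IbE111000_ok : Tab JI IbE111000 := IbE111000_k.tabI
theorem IbE111001_ok : Tab JI IbE111001 := IbE111001_k.tabI
theorem IbE11100_ok : Tab JI IbE11100 := E.Tab.node IbE111000_ok IbE111001_ok
theorem IbE111010_ok : Tab JI IbE111010 := IbE111010_k.tabI
theorem IbE111011_ok : Tab JI IbE111011 := IbE111011_k.tabI
theorem IbE11101_ok : Tab JI IbE11101 := E.Tab.node IbE111010_ok IbE111011_ok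
theorem IbE1110_ok : Tab JI IbE1110 := E.Tab.node IbE11100_ok IbE11101_ok
theorem IbE111100_ok : Tab JI IbE111100 := IbE111100_k.tabI
theorem IbE111101_ok : Tab JI IbE111101 := IbE111101_k.tabI
theorem IbE11110_ok : Tab JI IbE11110 := E.Tab.node IbE111100_ok IbE111101_ok
theorem IbE111110_ok : Tab JI IbE111110 := IbE111110_k.tabI
theorem IbE111111_ok : Tab JI IbE111111 := IbE111111_k.tabI
theorem IbE11111_ok : Tab JI IbE11111 := E.Tab.node IbE111110_ok IbE111111_ok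
theorem IbE1111_ok : Tab JI IbE1111 := E.Tab.node IbE11110_ok IbE11111_ok
theorem IbE111_ok : Tab JI IbE111 := E.Tab.node IbE1110_ok IbE1111_ok
theorem IbE11_ok : Tab JI IbE11 := E.Tab.node IbE110_ok IbE111_ok
theorem IbE1_ok : Tab JI IbE1 := E.Tab.node IbE10_ok IbE11_ok
theorem IbE_ok : Tab JI IbE := E.Tab.node IbE0_ok IbE1_ok
theorem IbK0000_ok : IbK0000.All (KV 24) := chkKT_sound (by decide) IbK0000_k
theorem IbK0001_ok : IbK0001.All (KV 24) := chkKT_sound (by decide) IbK0001_k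
theorem IbK000_ok : IbK000.All (KV 24) := ⟨IbK0000_ok, IbK0001_ok⟩
theorem IbK0010_ok : IbK0010.All (KV 24) := chkKT_sound (by decide) IbK0010_k
theorem IbK0011_ok : IbK0011.All (KV 24) := chkKT_sound (by decide) IbK0011_k
theorem IbK001_ok : IbK001.All (KV 24) := ⟨IbK0010_ok, IbK0011_ok⟩
theorem IbK00_ok : IbK00.All (KV 24) := ⟨IbK000_ok, IbK001_ok⟩
theorem IbK0100_ok : IbK0100.All (KV 24) := chkKT_sound (by decide) IbK0100_k
theorem IbK0101_ok : IbK0101.All (KV 24) := chkKT_sound (by decide) IbK0101_k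
theorem IbK010_ok : IbK010.All (KV 24) := ⟨IbK0100_ok, IbK0101_ok⟩
theorem IbK0110_ok : IbK0110.All (KV 24) := chkKT_sound (by decide) IbK0110_k
theorem IbK0111_ok : IbK0111.All (KV 24) := chkKT_sound (by decide) IbK0111_k
theorem IbK011_ok : IbK011.All (KV 24) := ⟨IbK0110_ok, IbK0111_ok⟩
theorem IbK01_ok : IbK01.All (KV 24) := ⟨IbK010_ok, IbK011_ok⟩
theorem IbK0_ok : IbK0.All (KV 24) := ⟨IbK00_ok, IbK01_ok⟩
theorem IbK1000_ok : IbK1000.All (KV 24) := chkKT_sound (by decide) IbK1000_k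
theorem IbK1001_ok : IbK1001.All (KV 24) := chkKT_sound (by decide) IbK1001_k
theorem IbK100_ok : IbK100.All (KV 24) := ⟨IbK1000_ok, IbK1001_ok⟩
theorem IbK1010_ok : IbK1010.All (KV 24) := chkKT_sound (by decide) IbK1010_k
theorem IbK1011_ok : IbK1011.All (KV 24) := chkKT_sound (by decide) IbK1011_k
theorem IbK101_ok : IbK101.All (KV 24) := ⟨IbK1010_ok, IbK1011_ok⟩
theorem IbK10_ok : IbK10.All (KV 24) := ⟨IbK100_ok, IbK101_ok⟩
theorem IbK1100_ok : IbK1100.All (KV 24) := chkKT_sound (by decide) IbK1100_k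
theorem IbK1101_ok : IbK1101.All (KV 24) := chkKT_sound (by decide) IbK1101_k
theorem IbK110_ok : IbK110.All (KV 24) := ⟨IbK1100_ok, IbK1101_ok⟩
theorem IbK1110_ok : IbK1110.All (KV 24) := chkKT_sound (by decide) IbK1110_k
theorem IbK1111_ok : IbK1111.All (KV 24) := chkKT_sound (by decide) IbK1111_k
theorem IbK111_ok : IbK111.All (KV 24) := ⟨IbK1110_ok, IbK1111_ok⟩
theorem IbK11_ok : IbK11.All (KV 24) := ⟨IbK110_ok, IbK111_ok⟩
theorem IbK1_ok : IbK1.All (KV 24) := ⟨IbK10_ok, IbK11_ok⟩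
theorem IbK_ok : IbK.All (KV 24) := ⟨IbK0_ok, IbK1_ok⟩
theorem IbP_ok : IbP.Ok JI :=
  ⟨Nat.succ_pos 15, (by decide : 24 ≤ 48), (by decide : 11 ≤ 255), IbE_ok, IbK_ok⟩
theorem IbT0_c : CovC JI 183500 367002 ⟨2097152, 3145728, 0, 524288, 0, 294912, 0, 33554432⟩ :=
  chkC_sound IbP_ok IbT0 _ IbT0_k
theorem IbT1_c : CovC JI 183500 367002 ⟨2097152, 2621440, 524288, 1048576, 0, 36864, 0, 33554432⟩ :=
  chkC_sound IbP_ok IbT1 _ IbT1_k
theorem IbT2_c : CovC JI 183500 367002 ⟨2621440, 3145728, 524288, 1048576, 0, 36864, 0, 33554432⟩ :=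
  chkC_sound IbP_ok IbT2 _ IbT2_k
theorem IbT3_c : CovC JI 183500 367002 ⟨2097152, 3145728, 524288, 1048576, 36864, 73728, 0, 33554432⟩ :=
  chkC_sound IbP_ok IbT3 _ IbT3_k
theorem IbT4_c : CovC JI 183500 367002 ⟨2097152, 3145728, 524288, 1048576, 73728, 147456, 0, 33554432⟩ :=
  chkC_sound IbP_ok IbT4 _ IbT4_k
theorem IbT5_c : CovC JI 183500 367002 ⟨2097152, 3145728, 524288, 1048576, 147456, 294912, 0, 33554432⟩ :=
  chkC_sound IbP_ok IbT5 _ IbT5_k
theorem IbT6_c : CovC JI 183500 367002 ⟨2097152, 2621440, 1048576, 1179648, 0, 18432, 0, 33554432⟩ :=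
  chkC_sound IbP_ok IbT6 _ IbT6_k
theorem IbT7_c : CovC JI 183500 367002 ⟨2097152, 2621440, 1048576, 1179648, 18432, 36864, 0, 33554432⟩ :=
  chkC_sound IbP_ok IbT7 _ IbT7_k
theorem IbT8_c : CovC JI 183500 367002 ⟨2097152, 2359296, 1179648, 1310720, 0, 18432, 0, 33554432⟩ :=
  chkC_sound IbP_ok IbT8 _ IbT8_k
theorem IbT9_c : CovC JI 183500 367002 ⟨2359296, 2621440, 1179648, 1310720, 0, 18432, 0, 33554432⟩ :=
  chkC_sound IbP_ok IbT9 _ IbT9_k
theorem IbT10_c : CovC JI 183500 367002 ⟨2097152, 2621440, 1179648, 1310720, 18432, 36864, 0, 33554432⟩ :=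
  chkC_sound IbP_ok IbT10 _ IbT10_k
theorem IbT11_c : CovC JI 183500 367002 ⟨2097152, 2621440, 1048576, 1310720, 36864, 73728, 0, 33554432⟩ :=
  chkC_sound IbP_ok IbT11 _ IbT11_k
theorem IbT12_c : CovC JI 183500 367002 ⟨2621440, 3145728, 1048576, 1310720, 0, 9216, 0, 33554432⟩ :=
  chkC_sound IbP_ok IbT12 _ IbT12_k
theorem IbT13_c : CovC JI 183500 367002 ⟨2621440, 3145728, 1048576, 1310720, 9216, 18432, 0, 33554432⟩ :=
  chkC_sound IbP_ok IbT13 _ IbT13_k
theorem IbT14_c : CovC JI 183500 367002 ⟨2621440, 3145728, 1048576, 1310720, 18432, 36864, 0, 33554432⟩ :=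
  chkC_sound IbP_ok IbT14 _ IbT14_k
theorem IbT15_c : CovC JI 183500 367002 ⟨2621440, 3145728, 1048576, 1310720, 36864, 73728, 0, 33554432⟩ :=
  chkC_sound IbP_ok IbT15 _ IbT15_k
theorem IbT16_c : CovC JI 183500 367002 ⟨2097152, 2621440, 1310720, 1572864, 0, 73728, 0, 33554432⟩ :=
  chkC_sound IbP_ok IbT16 _ IbT16_k
theorem IbT17_c : CovC JI 183500 367002 ⟨2621440, 3145728, 1310720, 1572864, 0, 73728, 0, 33554432⟩ :=
  chkC_sound IbP_ok IbT17 _ IbT17_k
theorem IbT18_c : CovC JI 183500 367002 ⟨2097152, 3145728, 1048576, 1572864, 73728, 147456, 0, 33554432⟩ :=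
  chkC_sound IbP_ok IbT18 _ IbT18_k
theorem IbT19_c : CovC JI 183500 367002 ⟨2097152, 3145728, 1048576, 1572864, 147456, 294912, 0, 33554432⟩ :=
  chkC_sound IbP_ok IbT19 _ IbT19_k
theorem IbT20_c : CovC JI 183500 367002 ⟨2097152, 3145728, 1572864, 2097152, 0, 294912, 0, 33554432⟩ :=
  chkC_sound IbP_ok IbT20 _ IbT20_k
theorem Ib_cov  : CovC JI 183500 367002 ⟨2097152, 3145728, 0, 2097152, 0, 294912, 0, 33554432⟩ :=
 (CovC.sK 1048576 (CovC.sK 524288 IbT0_c
 (CovC.sJ 147456 (CovC.sJ 73728 (CovC.sJ 36864 (CovC.sN 2621440 IbT1_c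
 IbT2_c)
 IbT3_c)
 IbT4_c)
 IbT5_c))
 (CovC.sK 1572864 (CovC.sJ 147456 (CovC.sJ 73728 (CovC.sK 1310720 (CovC.sN 2621440 (CovC.sJ 36864 (CovC.sK 1179648 (CovC.sJ 18432 IbT6_c
 IbT7_c)
 (CovC.sJ 18432 (CovC.sN 2359296 IbT8_c
 IbT9_c)
 IbT10_c))
 IbT11_c)
 (CovC.sJ 36864 (CovC.sJ 18432 (CovC.sJ 9216 IbT12_c
 IbT13_c)
 IbT14_c)
 IbT15_c))
 (CovC.sN 2621440 IbT16_c
 IbT17_c))
 IbT18_c)
 IbT19_c)
 IbT20_c))
end Pool.Agent.Lib.MP_33650d_pr.X
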