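import Pool.Agent.Lib.MP_33650d_pr.X.EFin
import Pool.Agent.Lib.MP_33650d_pr.X.CLeaf
import Pool.Agent.Lib.MP_33650d_pr.X.CKChk
import Pool.Agent.Lib.MP_33650d_pr.G.IcC0

set_option linter.defProp false

namespace Pool.Agent.Lib.MP_33650d_pr.X

theorem IcE0000000_ok : Tab JI IcE0000000 := IcE0000000_k.tabI
theorem IcE0000001_ok : Tab JI IcE0000001 := IcE0000001_k.tabI
theorem IcE000000_ok : Tab JI IcE000000 := E.Tab.node IcE0000000_ok IcE0000001_ok
theorem IcE000001_ok : Tab JI IcE000001 := IcE000001_k.tabI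
theorem IcE00000_ok : Tab JI IcE00000 := E.Tab.node IcE000000_ok IcE000001_ok
theorem IcE000010_ok : Tab JI IcE000010 := IcE000010_k.tabI
theorem IcE000011_ok : Tab JI IcE000011 := IcE000011_k.tabI
theorem IcE00001_ok : Tab JI IcE00001 := E.Tab.node IcE000010_ok IcE000011_ok
theorem IcE0000_ok : Tab JI IcE0000 := E.Tab.node IcE00000_ok IcE00001_ok
theorem IcE000100_ok : Tab JI IcE000100 := IcE000100_k.tabI
theorem IcE000101_ok : Tab JI IcE000101 := IcE000101_k.tabI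
theorem IcE00010_ok : Tab JI IcE00010 := E.Tab.node IcE000100_ok IcE000101_ok
theorem IcE00011_ok : Tab JI IcE00011 := IcE00011_k.tabI
theorem IcE0001_ok : Tab JI IcE0001 := E.Tab.node IcE00010_ok IcE00011_ok
theorem IcE000_ok : Tab JI IcE000 := E.Tab.node IcE0000_ok IcE0001_ok
theorem IcE00100_ok : Tab JI IcE00100 := IcE00100_k.tabI
theorem IcE00101_ok : Tab JI IcE00101 := IcE00101_k.tabI
theorem IcE0010_ok : Tab JI IcE0010 := E.Tab.node IcE00100_ok IcE00101_ok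
theorem IcE00110_ok : Tab JI IcE00110 := IcE00110_k.tabI
theorem IcE00111_ok : Tab JI IcE00111 := IcE00111_k.tabI
theorem IcE0011_ok : Tab JI IcE0011 := E.Tab.node IcE00110_ok IcE00111_ok
theorem IcE001_ok : Tab JI IcE001 := E.Tab.node IcE0010_ok IcE0011_ok
theorem IcE00_ok : Tab JI IcE00 := E.Tab.node IcE000_ok IcE001_ok
theorem IcE010000_ok : Tab JI IcE010000 := IcE010000_k.tabI
theorem IcE010001_ok : Tab JI IcE010001 := IcE010001_k.tabI
theorem IcE01000_ok : Tab JI IcE01000 := E.Tab.node IcE010000_ok IcE010001_ok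
theorem IcE010010_ok : Tab JI IcE010010 := IcE010010_k.tabI
theorem IcE010011_ok : Tab JI IcE010011 := IcE010011_k.tabI
theorem IcE01001_ok : Tab JI IcE01001 := E.Tab.node IcE010010_ok IcE010011_ok
theorem IcE0100_ok : Tab JI IcE0100 := E.Tab.node IcE01000_ok IcE01001_ok
theorem IcE010100_ok : Tab JI IcE010100 := IcE010100_k.tabI
theorem IcE010101_ok : Tab JI IcE010101 := IcE010101_k.tabI
theorem IcE01010_ok : Tab JI IcE01010 := E.Tab.node IcE010100_ok IcE010101_ok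
theorem IcE01011_ok : Tab JI IcE01011 := IcE01011_k.tabI
theorem IcE0101_ok : Tab JI IcE0101 := E.Tab.node IcE01010_ok IcE01011_ok
theorem IcE010_ok : Tab JI IcE010 := E.Tab.node IcE0100_ok IcE0101_ok
theorem IcE01100_ok : Tab JI IcE01100 := IcE01100_k.tabI
theorem IcE01101_ok : Tab JI IcE01101 := IcE01101_k.tabI
theorem IcE0110_ok : Tab JI IcE0110 := E.Tab.node IcE01100_ok IcE01101_ok
theorem IcE011100_ok : Tab JI IcE011100 := IcE011100_k.tabI
theorem IcE011101_ok : Tab JI IcE011101 := IcE011101_k.tabI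
theorem IcE01110_ok : Tab JI IcE01110 := E.Tab.node IcE011100_ok IcE011101_ok
theorem IcE01111_ok : Tab JI IcE01111 := IcE01111_k.tabI
theorem IcE0111_ok : Tab JI IcE0111 := E.Tab.node IcE01110_ok IcE01111_ok
theorem IcE011_ok : Tab JI IcE011 := E.Tab.node IcE0110_ok IcE0111_ok
theorem IcE01_ok : Tab JI IcE01 := E.Tab.node IcE010_ok IcE011_ok
theorem IcE0_ok : Tab JI IcE0 := E.Tab.node IcE00_ok IcE01_ok
theorem IcE100000_ok : Tab JI IcE100000 := IcE100000_k.tabI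
theorem IcE100001_ok : Tab JI IcE100001 := IcE100001_k.tabI
theorem IcE10000_ok : Tab JI IcE10000 := E.Tab.node IcE100000_ok IcE100001_ok
theorem IcE10001_ok : Tab JI IcE10001 := IcE10001_k.tabI
theorem IcE1000_ok : Tab JI IcE1000 := E.Tab.node IcE10000_ok IcE10001_ok
theorem IcE100100_ok : Tab JI IcE100100 := IcE100100_k.tabI
theorem IcE100101_ok : Tab JI IcE100101 := IcE100101_k.tabI
theorem IcE10010_ok : Tab JI IcE10010 := E.Tab.node IcE100100_ok IcE100101_ok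
theorem IcE10011_ok : Tab JI IcE10011 := IcE10011_k.tabI
theorem IcE1001_ok : Tab JI IcE1001 := E.Tab.node IcE10010_ok IcE10011_ok
theorem IcE100_ok : Tab JI IcE100 := E.Tab.node IcE1000_ok IcE1001_ok
theorem IcE101000_ok : Tab JI IcE101000 := IcE101000_k.tabI
theorem IcE101001_ok : Tab JI IcE101001 := IcE101001_k.tabI
theorem IcE10100_ok : Tab JI IcE10100 := E.Tab.node IcE101000_ok IcE101001_ok
theorem IcE10101_ok : Tab JI IcE10101 := IcE10101_k.tabI
theorem IcE1010_ok : Tab JI IcE1010 := E.Tab.node IcE10100_ok IcE10101_ok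
theorem IcE10110_ok : Tab JI IcE10110 := IcE10110_k.tabI
theorem IcE10111_ok : Tab JI IcE10111 := IcE10111_k.tabI
theorem IcE1011_ok : Tab JI IcE1011 := E.Tab.node IcE10110_ok IcE10111_ok
theorem IcE101_ok : Tab JI IcE101 := E.Tab.node IcE1010_ok IcE1011_ok
theorem IcE10_ok : Tab JI IcE10 := E.Tab.node IcE100_ok IcE101_ok
theorem IcE110000_ok : Tab JI IcE110000 := IcE110000_k.tabI
theorem IcE110001_ok : Tab JI IcE110001 := IcE110001_k.tabI
theorem IcE11000_ok : Tab JI IcE11000 := E.Tab.node IcE110000_ok IcE110001_ok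
theorem IcE11001_ok : Tab JI IcE11001 := IcE11001_k.tabI
theorem IcE1100_ok : Tab JI IcE1100 := E.Tab.node IcE11000_ok IcE11001_ok
theorem IcE11010_ok : Tab JI IcE11010 := IcE11010_k.tabI
theorem IcE11011_ok : Tab JI IcE11011 := IcE11011_k.tabI
theorem IcE1101_ok : Tab JI IcE1101 := E.Tab.node IcE11010_ok IcE11011_ok
theorem IcE110_ok : Tab JI IcE110 := E.Tab.node IcE1100_ok IcE1101_ok
theorem IcE111000_ok : Tab JI IcE111000 := IcE111000_k.tabI
theorem IcE111001_ok : Tab JI IcE111001 := IcE111001_k.tabI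
theorem IcE11100_ok : Tab JI IcE11100 := E.Tab.node IcE111000_ok IcE111001_ok
theorem IcE111010_ok : Tab JI IcE111010 := IcE111010_k.tabI
theorem IcE111011_ok : Tab JI IcE111011 := IcE111011_k.tabI
theorem IcE11101_ok : Tab JI IcE11101 := E.Tab.node IcE111010_ok IcE111011_ok
theorem IcE1110_ok : Tab JI IcE1110 := E.Tab.node IcE11100_ok IcE11101_ok
theorem IcE11110_ok : Tab JI IcE11110 := IcE11110_k.tabI
theorem IcE11111_ok : Tab JI IcE11111 := IcE11111_k.tabI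
theorem IcE1111_ok : Tab JI IcE1111 := E.Tab.node IcE11110_ok IcE11111_ok
theorem IcE111_ok : Tab JI IcE111 := E.Tab.node IcE1110_ok IcE1111_ok
theorem IcE11_ok : Tab JI IcE11 := E.Tab.node IcE110_ok IcE111_ok
theorem IcE1_ok : Tab JI IcE1 := E.Tab.node IcE10_ok IcE11_ok
theorem IcE_ok : Tab JI IcE := E.Tab.node IcE0_ok IcE1_ok
theorem IcK000_ok : IcK000.All (KV 24) := chkKT_sound (by decide) IcK000_k
theorem IcK001_ok : IcK001.All (KV 24) := chkKT_sound (by decide) IcK001_k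
theorem IcK00_ok : IcK00.All (KV 24) := ⟨IcK000_ok, IcK001_ok⟩
theorem IcK010_ok : IcK010.All (KV 24) := chkKT_sound (by decide) IcK010_k
theorem IcK011_ok : IcK011.All (KV 24) := chkKT_sound (by decide) IcK011_k
theorem IcK01_ok : IcK01.All (KV 24) := ⟨IcK010_ok, IcK011_ok⟩
theorem IcK0_ok : IcK0.All (KV 24) := ⟨IcK00_ok, IcK01_ok⟩
theorem IcK100_ok : IcK100.All (KV 24) := chkKT_sound (by decide) IcK100_k
theorem IcK101_ok : IcK101.All (KV 24) := chkKT_sound (by decide) IcK101_k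
theorem IcK10_ok : IcK10.All (KV 24) := ⟨IcK100_ok, IcK101_ok⟩
theorem IcK110_ok : IcK110.All (KV 24) := chkKT_sound (by decide) IcK110_k
theorem IcK111_ok : IcK111.All (KV 24) := chkKT_sound (by decide) IcK111_k
theorem IcK11_ok : IcK11.All (KV 24) := ⟨IcK110_ok, IcK111_ok⟩
theorem IcK1_ok : IcK1.All (KV 24) := ⟨IcK10_ok, IcK11_ok⟩
theorem IcK_ok : IcK.All (KV 24) := ⟨IcK0_ok, IcK1_ok⟩
theorem IcP_ok : IcP.Ok JI :=
  ⟨Nat.succ_pos 15, (by decide : 24 ≤ 48), (by decide : 9 ≤ 255), IcE_ok, IcK_ok⟩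
theorem IcT0_c : CovC JI 183500 367002 ⟨3145728, 4194304, 0, 524288, 0, 294912, 0, 33554432⟩ :=
  chkC_sound IcP_ok IcT0 _ IcT0_k
theorem IcT1_c : CovC JI 183500 367002 ⟨3145728, 3670016, 524288, 1048576, 0, 147456, 0, 33554432⟩ :=
  chkC_sound IcP_ok IcT1 _ IcT1_k
theorem IcT2_c : CovC JI 183500 367002 ⟨3670016, 4194304, 524288, 1048576, 0, 147456, 0, 33554432⟩ :=
  chkC_sound IcP_ok IcT2 _ IcT2_k
theorem IcT3_c : CovC JI 183500 367002 ⟨3145728, 4194304, 524288, 1048576, 147456, 294912, 0, 33554432⟩ :=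
  chkC_sound IcP_ok IcT3 _ IcT3_k
theorem IcT4_c : CovC JI 183500 367002 ⟨3145728, 3670016, 1048576, 1179648, 0, 18432, 0, 33554432⟩ :=
  chkC_sound IcP_ok IcT4 _ IcT4_k
theorem IcT5_c : CovC JI 183500 367002 ⟨3145728, 3670016, 1179648, 1310720, 0, 18432, 0, 33554432⟩ :=
  chkC_sound IcP_ok IcT5 _ IcT5_k
theorem IcT6_c : CovC JI 183500 367002 ⟨3145728, 3670016, 1048576, 1310720, 18432, 36864, 0, 33554432⟩ :=
  chkC_sound IcP_ok IcT6 _ IcT6_k
theorem IcT7_c : CovC JI 183500 367002 ⟨3145728, 3670016, 1048576, 1310720, 36864, 73728, 0, 33554432⟩ :=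
  chkC_sound IcP_ok IcT7 _ IcT7_k
theorem IcT8_c : CovC JI 183500 367002 ⟨3670016, 3932160, 1048576, 1310720, 0, 18432, 0, 33554432⟩ :=
  chkC_sound IcP_ok IcT8 _ IcT8_k
theorem IcT9_c : CovC JI 183500 367002 ⟨3932160, 4194304, 1048576, 1310720, 0, 18432, 0, 33554432⟩ :=
  chkC_sound IcP_ok IcT9 _ IcT9_k
theorem IcT10_c : CovC JI 183500 367002 ⟨3670016, 4194304, 1048576, 1310720, 18432, 36864, 0, 33554432⟩ :=
  chkC_sound IcP_ok IcT10 _ IcT10_k
theorem IcT11_c : CovC JI 183500 367002 ⟨3670016, 4194304, 1048576, 1310720, 36864, 73728, 0, 33554432⟩ :=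
  chkC_sound IcP_ok IcT11 _ IcT11_k
theorem IcT12_c : CovC JI 183500 367002 ⟨3145728, 4194304, 1310720, 1572864, 0, 73728, 0, 33554432⟩ :=
  chkC_sound IcP_ok IcT12 _ IcT12_k
theorem IcT13_c : CovC JI 183500 367002 ⟨3145728, 4194304, 1048576, 1572864, 73728, 147456, 0, 33554432⟩ :=
  chkC_sound IcP_ok IcT13 _ IcT13_k
theorem IcT14_c : CovC JI 183500 367002 ⟨3145728, 4194304, 1048576, 1572864, 147456, 294912, 0, 33554432⟩ :=
  chkC_sound IcP_ok IcT14 _ IcT14_k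
theorem IcT15_c : CovC JI 183500 367002 ⟨3145728, 4194304, 1572864, 2097152, 0, 294912, 0, 33554432⟩ :=
  chkC_sound IcP_ok IcT15 _ IcT15_k
theorem Ic_cov  : CovC JI 183500 367002 ⟨3145728, 4194304, 0, 2097152, 0, 294912, 0, 33554432⟩ :=
 (CovC.sK 1048576 (CovC.sK 524288 IcT0_c
 (CovC.sJ 147456 (CovC.sN 3670016 IcT1_c
 IcT2_c)
 IcT3_c))
 (CovC.sK 1572864 (CovC.sJ 147456 (CovC.sJ 73728 (CovC.sK 1310720 (CovC.sN 3670016 (CovC.sJ 36864 (CovC.sJ 18432 (CovC.sK 1179648 IcT4_c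
 IcT5_c)
 IcT6_c)
 IcT7_c)
 (CovC.sJ 36864 (CovC.sJ 18432 (CovC.sN 3932160 IcT8_c
 IcT9_c)
 IcT10_c)
 IcT11_c))
 IcT12_c)
 IcT13_c)
 IcT14_c)
 IcT15_c))
end Pool.Agent.Lib.MP_33650d_pr.X
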