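import Pool.Agent.Lib.MP_33650d_pr.X.EFin
import Pool.Agent.Lib.MP_33650d_pr.X.CLeaf
import Pool.Agent.Lib.MP_33650d_pr.X.CKChk
import Pool.Agent.Lib.MP_33650d_pr.G.IdC0

set_option linter.defProp false

namespace Pool.Agent.Lib.MP_33650d_pr.X

theorem IdE000000_ok : Tab JI IdE000000 := IdE000000_k.tabI
theorem IdE000001_ok : Tab JI IdE000001 := IdE000001_k.tabI
theorem IdE00000_ok : Tab JI IdE00000 := E.Tab.node IdE000000_ok IdE000001_ok
theorem IdE000010_ok : Tab JI IdE000010 := IdE000010_k.tabI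
theorem IdE000011_ok : Tab JI IdE000011 := IdE000011_k.tabI
theorem IdE00001_ok : Tab JI IdE00001 := E.Tab.node IdE000010_ok IdE000011_ok
theorem IdE0000_ok : Tab JI IdE0000 := E.Tab.node IdE00000_ok IdE00001_ok
theorem IdE000100_ok : Tab JI IdE000100 := IdE000100_k.tabI
theorem IdE000101_ok : Tab JI IdE000101 := IdE000101_k.tabI
theorem IdE00010_ok : Tab JI IdE00010 := E.Tab.node IdE000100_ok IdE000101_ok
theorem IdE000110_ok : Tab JI IdE000110 := IdE000110_k.tabI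
theorem IdE0001110_ok : Tab JI IdE0001110 := IdE0001110_k.tabI
theorem IdE0001111_ok : Tab JI IdE0001111 := IdE0001111_k.tabI
theorem IdE000111_ok : Tab JI IdE000111 := E.Tab.node IdE0001110_ok IdE0001111_ok
theorem IdE00011_ok : Tab JI IdE00011 := E.Tab.node IdE000110_ok IdE000111_ok
theorem IdE0001_ok : Tab JI IdE0001 := E.Tab.node IdE00010_ok IdE00011_ok
theorem IdE000_ok : Tab JI IdE000 := E.Tab.node IdE0000_ok IdE0001_ok
theorem IdE001000_ok : Tab JI IdE001000 := IdE001000_k.tabI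
theorem IdE001001_ok : Tab JI IdE001001 := IdE001001_k.tabI
theorem IdE00100_ok : Tab JI IdE00100 := E.Tab.node IdE001000_ok IdE001001_ok
theorem IdE001010_ok : Tab JI IdE001010 := IdE001010_k.tabI
theorem IdE001011_ok : Tab JI IdE001011 := IdE001011_k.tabI
theorem IdE00101_ok : Tab JI IdE00101 := E.Tab.node IdE001010_ok IdE001011_ok
theorem IdE0010_ok : Tab JI IdE0010 := E.Tab.node IdE00100_ok IdE00101_ok
theorem IdE001100_ok : Tab JI IdE001100 := IdE001100_k.tabI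
theorem IdE001101_ok : Tab JI IdE001101 := IdE001101_k.tabI
theorem IdE00110_ok : Tab JI IdE00110 := E.Tab.node IdE001100_ok IdE001101_ok
theorem IdE001110_ok : Tab JI IdE001110 := IdE001110_k.tabI
theorem IdE001111_ok : Tab JI IdE001111 := IdE001111_k.tabI
theorem IdE00111_ok : Tab JI IdE00111 := E.Tab.node IdE001110_ok IdE001111_ok
theorem IdE0011_ok : Tab JI IdE0011 := E.Tab.node IdE00110_ok IdE00111_ok
theorem IdE001_ok : Tab JI IdE001 := E.Tab.node IdE0010_ok IdE0011_ok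
theorem IdE00_ok : Tab JI IdE00 := E.Tab.node IdE000_ok IdE001_ok
theorem IdE010000_ok : Tab JI IdE010000 := IdE010000_k.tabI
theorem IdE010001_ok : Tab JI IdE010001 := IdE010001_k.tabI
theorem IdE01000_ok : Tab JI IdE01000 := E.Tab.node IdE010000_ok IdE010001_ok
theorem IdE010010_ok : Tab JI IdE010010 := IdE010010_k.tabI
theorem IdE010011_ok : Tab JI IdE010011 := IdE010011_k.tabI
theorem IdE01001_ok : Tab JI IdE01001 := E.Tab.node IdE010010_ok IdE010011_ok
theorem IdE0100_ok : Tab JI IdE0100 := E.Tab.node IdE01000_ok IdE01001_ok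
theorem IdE010100_ok : Tab JI IdE010100 := IdE010100_k.tabI
theorem IdE010101_ok : Tab JI IdE010101 := IdE010101_k.tabI
theorem IdE01010_ok : Tab JI IdE01010 := E.Tab.node IdE010100_ok IdE010101_ok
theorem IdE010110_ok : Tab JI IdE010110 := IdE010110_k.tabI
theorem IdE010111_ok : Tab JI IdE010111 := IdE010111_k.tabI
theorem IdE01011_ok : Tab JI IdE01011 := E.Tab.node IdE010110_ok IdE010111_ok
theorem IdE0101_ok : Tab JI IdE0101 := E.Tab.node IdE01010_ok IdE01011_ok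
theorem IdE010_ok : Tab JI IdE010 := E.Tab.node IdE0100_ok IdE0101_ok
theorem IdE011000_ok : Tab JI IdE011000 := IdE011000_k.tabI
theorem IdE011001_ok : Tab JI IdE011001 := IdE011001_k.tabI
theorem IdE01100_ok : Tab JI IdE01100 := E.Tab.node IdE011000_ok IdE011001_ok
theorem IdE01101_ok : Tab JI IdE01101 := IdE01101_k.tabI
theorem IdE0110_ok : Tab JI IdE0110 := E.Tab.node IdE01100_ok IdE01101_ok
theorem IdE011100_ok : Tab JI IdE011100 := IdE011100_k.tabI
theorem IdE0111010_ok : Tab JI IdE0111010 := IdE0111010_k.tabI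
theorem IdE0111011_ok : Tab JI IdE0111011 := IdE0111011_k.tabI
theorem IdE011101_ok : Tab JI IdE011101 := E.Tab.node IdE0111010_ok IdE0111011_ok
theorem IdE01110_ok : Tab JI IdE01110 := E.Tab.node IdE011100_ok IdE011101_ok
theorem IdE011110_ok : Tab JI IdE011110 := IdE011110_k.tabI
theorem IdE011111_ok : Tab JI IdE011111 := IdE011111_k.tabI
theorem IdE01111_ok : Tab JI IdE01111 := E.Tab.node IdE011110_ok IdE011111_ok
theorem IdE0111_ok : Tab JI IdE0111 := E.Tab.node IdE01110_ok IdE01111_ok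
theorem IdE011_ok : Tab JI IdE011 := E.Tab.node IdE0110_ok IdE0111_ok
theorem IdE01_ok : Tab JI IdE01 := E.Tab.node IdE010_ok IdE011_ok
theorem IdE0_ok : Tab JI IdE0 := E.Tab.node IdE00_ok IdE01_ok
theorem IdE100000_ok : Tab JI IdE100000 := IdE100000_k.tabI
theorem IdE100001_ok : Tab JI IdE100001 := IdE100001_k.tabI
theorem IdE10000_ok : Tab JI IdE10000 := E.Tab.node IdE100000_ok IdE100001_ok
theorem IdE100010_ok : Tab JI IdE100010 := IdE100010_k.tabI
theorem IdE100011_ok : Tab JI IdE100011 := IdE100011_k.tabI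
theorem IdE10001_ok : Tab JI IdE10001 := E.Tab.node IdE100010_ok IdE100011_ok
theorem IdE1000_ok : Tab JI IdE1000 := E.Tab.node IdE10000_ok IdE10001_ok
theorem IdE100100_ok : Tab JI IdE100100 := IdE100100_k.tabI
theorem IdE100101_ok : Tab JI IdE100101 := IdE100101_k.tabI
theorem IdE10010_ok : Tab JI IdE10010 := E.Tab.node IdE100100_ok IdE100101_ok
theorem IdE100110_ok : Tab JI IdE100110 := IdE100110_k.tabI
theorem IdE100111_ok : Tab JI IdE100111 := IdE100111_k.tabI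
theorem IdE10011_ok : Tab JI IdE10011 := E.Tab.node IdE100110_ok IdE100111_ok
theorem IdE1001_ok : Tab JI IdE1001 := E.Tab.node IdE10010_ok IdE10011_ok
theorem IdE100_ok : Tab JI IdE100 := E.Tab.node IdE1000_ok IdE1001_ok
theorem IdE101000_ok : Tab JI IdE101000 := IdE101000_k.tabI
theorem IdE101001_ok : Tab JI IdE101001 := IdE101001_k.tabI
theorem IdE10100_ok : Tab JI IdE10100 := E.Tab.node IdE101000_ok IdE101001_ok
theorem IdE101010_ok : Tab JI IdE101010 := IdE101010_k.tabI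
theorem IdE101011_ok : Tab JI IdE101011 := IdE101011_k.tabI
theorem IdE10101_ok : Tab JI IdE10101 := E.Tab.node IdE101010_ok IdE101011_ok
theorem IdE1010_ok : Tab JI IdE1010 := E.Tab.node IdE10100_ok IdE10101_ok
theorem IdE101100_ok : Tab JI IdE101100 := IdE101100_k.tabI
theorem IdE1011010_ok : Tab JI IdE1011010 := IdE1011010_k.tabI
theorem IdE1011011_ok : Tab JI IdE1011011 := IdE1011011_k.tabI
theorem IdE101101_ok : Tab JI IdE101101 := E.Tab.node IdE1011010_ok IdE1011011_ok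
theorem IdE10110_ok : Tab JI IdE10110 := E.Tab.node IdE101100_ok IdE101101_ok
theorem IdE101110_ok : Tab JI IdE101110 := IdE101110_k.tabI
theorem IdE101111_ok : Tab JI IdE101111 := IdE101111_k.tabI
theorem IdE10111_ok : Tab JI IdE10111 := E.Tab.node IdE101110_ok IdE101111_ok
theorem IdE1011_ok : Tab JI IdE1011 := E.Tab.node IdE10110_ok IdE10111_ok
theorem IdE101_ok : Tab JI IdE101 := E.Tab.node IdE1010_ok IdE1011_ok
theorem IdE10_ok : Tab JI IdE10 := E.Tab.node IdE100_ok IdE101_ok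
theorem IdE110000_ok : Tab JI IdE110000 := IdE110000_k.tabI
theorem IdE110001_ok : Tab JI IdE110001 := IdE110001_k.tabI
theorem IdE11000_ok : Tab JI IdE11000 := E.Tab.node IdE110000_ok IdE110001_ok
theorem IdE110010_ok : Tab JI IdE110010 := IdE110010_k.tabI
theorem IdE110011_ok : Tab JI IdE110011 := IdE110011_k.tabI
theorem IdE11001_ok : Tab JI IdE11001 := E.Tab.node IdE110010_ok IdE110011_ok
theorem IdE1100_ok : Tab JI IdE1100 := E.Tab.node IdE11000_ok IdE11001_ok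
theorem IdE110100_ok : Tab JI IdE110100 := IdE110100_k.tabI
theorem IdE110101_ok : Tab JI IdE110101 := IdE110101_k.tabI
theorem IdE11010_ok : Tab JI IdE11010 := E.Tab.node IdE110100_ok IdE110101_ok
theorem IdE110110_ok : Tab JI IdE110110 := IdE110110_k.tabI
theorem IdE110111_ok : Tab JI IdE110111 := IdE110111_k.tabI
theorem IdE11011_ok : Tab JI IdE11011 := E.Tab.node IdE110110_ok IdE110111_ok
theorem IdE1101_ok : Tab JI IdE1101 := E.Tab.node IdE11010_ok IdE11011_ok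
theorem IdE110_ok : Tab JI IdE110 := E.Tab.node IdE1100_ok IdE1101_ok
theorem IdE111000_ok : Tab JI IdE111000 := IdE111000_k.tabI
theorem IdE111001_ok : Tab JI IdE111001 := IdE111001_k.tabI
theorem IdE11100_ok : Tab JI IdE11100 := E.Tab.node IdE111000_ok IdE111001_ok
theorem IdE111010_ok : Tab JI IdE111010 := IdE111010_k.tabI
theorem IdE111011_ok : Tab JI IdE111011 := IdE111011_k.tabI
theorem IdE11101_ok : Tab JI IdE11101 := E.Tab.node IdE111010_ok IdE111011_ok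
theorem IdE1110_ok : Tab JI IdE1110 := E.Tab.node IdE11100_ok IdE11101_ok
theorem IdE111100_ok : Tab JI IdE111100 := IdE111100_k.tabI
theorem IdE111101_ok : Tab JI IdE111101 := IdE111101_k.tabI
theorem IdE11110_ok : Tab JI IdE11110 := E.Tab.node IdE111100_ok IdE111101_ok
theorem IdE111110_ok : Tab JI IdE111110 := IdE111110_k.tabI
theorem IdE111111_ok : Tab JI IdE111111 := IdE111111_k.tabI
theorem IdE11111_ok : Tab JI IdE11111 := E.Tab.node IdE111110_ok IdE111111_ok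
theorem IdE1111_ok : Tab JI IdE1111 := E.Tab.node IdE11110_ok IdE11111_ok
theorem IdE111_ok : Tab JI IdE111 := E.Tab.node IdE1110_ok IdE1111_ok
theorem IdE11_ok : Tab JI IdE11 := E.Tab.node IdE110_ok IdE111_ok
theorem IdE1_ok : Tab JI IdE1 := E.Tab.node IdE10_ok IdE11_ok
theorem IdE_ok : Tab JI IdE := E.Tab.node IdE0_ok IdE1_ok
theorem IdK0000_ok : IdK0000.All (KV 36) := chkKT_sound (by decide) IdK0000_k
theorem IdK0001_ok : IdK0001.All (KV 36) := chkKT_sound (by decide) IdK0001_k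
theorem IdK000_ok : IdK000.All (KV 36) := ⟨IdK0000_ok, IdK0001_ok⟩
theorem IdK0010_ok : IdK0010.All (KV 36) := chkKT_sound (by decide) IdK0010_k
theorem IdK0011_ok : IdK0011.All (KV 36) := chkKT_sound (by decide) IdK0011_k
theorem IdK001_ok : IdK001.All (KV 36) := ⟨IdK0010_ok, IdK0011_ok⟩
theorem IdK00_ok : IdK00.All (KV 36) := ⟨IdK000_ok, IdK001_ok⟩
theorem IdK0100_ok : IdK0100.All (KV 36) := chkKT_sound (by decide) IdK0100_k
theorem IdK0101_ok : IdK0101.All (KV 36) := chkKT_sound (by decide) IdK0101_k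
theorem IdK010_ok : IdK010.All (KV 36) := ⟨IdK0100_ok, IdK0101_ok⟩
theorem IdK0110_ok : IdK0110.All (KV 36) := chkKT_sound (by decide) IdK0110_k
theorem IdK0111_ok : IdK0111.All (KV 36) := chkKT_sound (by decide) IdK0111_k
theorem IdK011_ok : IdK011.All (KV 36) := ⟨IdK0110_ok, IdK0111_ok⟩
theorem IdK01_ok : IdK01.All (KV 36) := ⟨IdK010_ok, IdK011_ok⟩
theorem IdK0_ok : IdK0.All (KV 36) := ⟨IdK00_ok, IdK01_ok⟩
theorem IdK1000_ok : IdK1000.All (KV 36) := chkKT_sound (by decide) IdK1000_k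
theorem IdK1001_ok : IdK1001.All (KV 36) := chkKT_sound (by decide) IdK1001_k
theorem IdK100_ok : IdK100.All (KV 36) := ⟨IdK1000_ok, IdK1001_ok⟩
theorem IdK1010_ok : IdK1010.All (KV 36) := chkKT_sound (by decide) IdK1010_k
theorem IdK1011_ok : IdK1011.All (KV 36) := chkKT_sound (by decide) IdK1011_k
theorem IdK101_ok : IdK101.All (KV 36) := ⟨IdK1010_ok, IdK1011_ok⟩
theorem IdK10_ok : IdK10.All (KV 36) := ⟨IdK100_ok, IdK101_ok⟩
theorem IdK1100_ok : IdK1100.All (KV 36) := chkKT_sound (by decide) IdK1100_k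
theorem IdK1101_ok : IdK1101.All (KV 36) := chkKT_sound (by decide) IdK1101_k
theorem IdK110_ok : IdK110.All (KV 36) := ⟨IdK1100_ok, IdK1101_ok⟩
theorem IdK1110_ok : IdK1110.All (KV 36) := chkKT_sound (by decide) IdK1110_k
theorem IdK1111_ok : IdK1111.All (KV 36) := chkKT_sound (by decide) IdK1111_k
theorem IdK111_ok : IdK111.All (KV 36) := ⟨IdK1110_ok, IdK1111_ok⟩
theorem IdK11_ok : IdK11.All (KV 36) := ⟨IdK110_ok, IdK111_ok⟩
theorem IdK1_ok : IdK1.All (KV 36) := ⟨IdK10_ok, IdK11_ok⟩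
theorem IdK_ok : IdK.All (KV 36) := ⟨IdK0_ok, IdK1_ok⟩
theorem IdP_ok : IdP.Ok JI :=
  ⟨Nat.succ_pos 23, (by decide : 36 ≤ 48), (by decide : 12 ≤ 255), IdE_ok, IdK_ok⟩
theorem IdT0_c : CovC JI 183500 367002 ⟨4194304, 6291456, 0, 524288, 0, 294912, 0, 33554432⟩ :=
  chkC_sound IdP_ok IdT0 _ IdT0_k
theorem IdT1_c : CovC JI 183500 367002 ⟨4194304, 5242880, 524288, 1048576, 0, 147456, 0, 33554432⟩ :=
  chkC_sound IdP_ok IdT1 _ IdT1_k
theorem IdT2_c : CovC JI 183500 367002 ⟨5242880, 6291456, 524288, 1048576, 0, 147456, 0, 33554432⟩ :=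
  chkC_sound IdP_ok IdT2 _ IdT2_k
theorem IdT3_c : CovC JI 183500 367002 ⟨4194304, 6291456, 524288, 1048576, 147456, 294912, 0, 33554432⟩ :=
  chkC_sound IdP_ok IdT3 _ IdT3_k
theorem IdT4_c : CovC JI 183500 367002 ⟨4194304, 4456448, 1048576, 1310720, 0, 36864, 0, 33554432⟩ :=
  chkC_sound IdP_ok IdT4 _ IdT4_k
theorem IdT5_c : CovC JI 183500 367002 ⟨4456448, 4718592, 1048576, 1179648, 0, 36864, 0, 33554432⟩ :=
  chkC_sound IdP_ok IdT5 _ IdT5_k
theorem IdT6_c : CovC JI 183500 367002 ⟨4456448, 4718592, 1179648, 1310720, 0, 36864, 0, 33554432⟩ :=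
  chkC_sound IdP_ok IdT6 _ IdT6_k
theorem IdT7_c : CovC JI 183500 367002 ⟨4718592, 5242880, 1048576, 1179648, 0, 36864, 0, 33554432⟩ :=
  chkC_sound IdP_ok IdT7 _ IdT7_k
theorem IdT8_c : CovC JI 183500 367002 ⟨4718592, 5242880, 1179648, 1245184, 0, 36864, 0, 33554432⟩ :=
  chkC_sound IdP_ok IdT8 _ IdT8_k
theorem IdT9_c : CovC JI 183500 367002 ⟨4718592, 5242880, 1245184, 1310720, 0, 36864, 0, 33554432⟩ :=
  chkC_sound IdP_ok IdT9 _ IdT9_k
theorem IdT10_c : CovC JI 183500 367002 ⟨4194304, 5242880, 1048576, 1310720, 36864, 73728, 0, 33554432⟩ :=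
  chkC_sound IdP_ok IdT10 _ IdT10_k
theorem IdT11_c : CovC JI 183500 367002 ⟨4194304, 5242880, 1310720, 1572864, 0, 73728, 0, 33554432⟩ :=
  chkC_sound IdP_ok IdT11 _ IdT11_k
theorem IdT12_c : CovC JI 183500 367002 ⟨5242880, 6291456, 1048576, 1179648, 0, 73728, 0, 33554432⟩ :=
  chkC_sound IdP_ok IdT12 _ IdT12_k
theorem IdT13_c : CovC JI 183500 367002 ⟨5242880, 5767168, 1179648, 1310720, 0, 36864, 0, 33554432⟩ :=
  chkC_sound IdP_ok IdT13 _ IdT13_k
theorem IdT14_c : CovC JI 183500 367002 ⟨5767168, 6291456, 1179648, 1310720, 0, 18432, 0, 33554432⟩ :=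
  chkC_sound IdP_ok IdT14 _ IdT14_k
theorem IdT15_c : CovC JI 183500 367002 ⟨5767168, 6291456, 1179648, 1310720, 18432, 36864, 0, 33554432⟩ :=
  chkC_sound IdP_ok IdT15 _ IdT15_k
theorem IdT16_c : CovC JI 183500 367002 ⟨5242880, 6291456, 1179648, 1310720, 36864, 73728, 0, 33554432⟩ :=
  chkC_sound IdP_ok IdT16 _ IdT16_k
theorem IdT17_c : CovC JI 183500 367002 ⟨5242880, 6291456, 1310720, 1572864, 0, 73728, 0, 33554432⟩ :=
  chkC_sound IdP_ok IdT17 _ IdT17_k
theorem IdT18_c : CovC JI 183500 367002 ⟨4194304, 6291456, 1048576, 1572864, 73728, 147456, 0, 33554432⟩ :=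
  chkC_sound IdP_ok IdT18 _ IdT18_k
theorem IdT19_c : CovC JI 183500 367002 ⟨4194304, 6291456, 1048576, 1572864, 147456, 294912, 0, 33554432⟩ :=
  chkC_sound IdP_ok IdT19 _ IdT19_k
theorem IdT20_c : CovC JI 183500 367002 ⟨4194304, 6291456, 1572864, 2097152, 0, 147456, 0, 33554432⟩ :=
  chkC_sound IdP_ok IdT20 _ IdT20_k
theorem IdT21_c : CovC JI 183500 367002 ⟨4194304, 6291456, 1572864, 2097152, 147456, 294912, 0, 33554432⟩ :=
  chkC_sound IdP_ok IdT21 _ IdT21_k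
theorem Id_cov  : CovC JI 183500 367002 ⟨4194304, 6291456, 0, 2097152, 0, 294912, 0, 33554432⟩ :=
 (CovC.sK 1048576 (CovC.sK 524288 IdT0_c
 (CovC.sJ 147456 (CovC.sN 5242880 IdT1_c
 IdT2_c)
 IdT3_c))
 (CovC.sK 1572864 (CovC.sJ 147456 (CovC.sJ 73728 (CovC.sN 5242880 (CovC.sK 1310720 (CovC.sJ 36864 (CovC.sN 4718592 (CovC.sN 4456448 IdT4_c
 (CovC.sK 1179648 IdT5_c
 IdT6_c))
 (CovC.sK 1179648 IdT7_c
 (CovC.sK 1245184 IdT8_c
 IdT9_c)))
 IdT10_c)
 IdT11_c)
 (CovC.sK 1310720 (CovC.sK 1179648 IdT12_c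
 (CovC.sJ 36864 (CovC.sN 5767168 IdT13_c
 (CovC.sJ 18432 IdT14_c
 IdT15_c))
 IdT16_c))
 IdT17_c))
 IdT18_c)
 IdT19_c)
 (CovC.sJ 147456 IdT20_c
 IdT21_c)))
end Pool.Agent.Lib.MP_33650d_pr.X
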