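import Pool.Agent.Lib.MP_33650d_pr.X.EFin
import Pool.Agent.Lib.MP_33650d_pr.X.CLeaf
import Pool.Agent.Lib.MP_33650d_pr.X.CKChk
import Pool.Agent.Lib.MP_33650d_pr.G.IeC0

set_option linter.defProp false

namespace Pool.Agent.Lib.MP_33650d_pr.X

theorem IeE00000_ok : Tab JI IeE00000 := IeE00000_k.tabI
theorem IeE000010_ok : Tab JI IeE000010 := IeE000010_k.tabI
theorem IeE000011_ok : Tab JI IeE000011 := IeE000011_k.tabI
theorem IeE00001_ok : Tab JI IeE00001 := E.Tab.node IeE000010_ok IeE000011_ok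
theorem IeE0000_ok : Tab JI IeE0000 := E.Tab.node IeE00000_ok IeE00001_ok
theorem IeE000100_ok : Tab JI IeE000100 := IeE000100_k.tabI
theorem IeE000101_ok : Tab JI IeE000101 := IeE000101_k.tabI
theorem IeE00010_ok : Tab JI IeE00010 := E.Tab.node IeE000100_ok IeE000101_ok
theorem IeE000110_ok : Tab JI IeE000110 := IeE000110_k.tabI
theorem IeE000111_ok : Tab JI IeE000111 := IeE000111_k.tabI
theorem IeE00011_ok : Tab JI IeE00011 := E.Tab.node IeE000110_ok IeE000111_ok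
theorem IeE0001_ok : Tab JI IeE0001 := E.Tab.node IeE00010_ok IeE00011_ok
theorem IeE000_ok : Tab JI IeE000 := E.Tab.node IeE0000_ok IeE0001_ok
theorem IeE001000_ok : Tab JI IeE001000 := IeE001000_k.tabI
theorem IeE001001_ok : Tab JI IeE001001 := IeE001001_k.tabI
theorem IeE00100_ok : Tab JI IeE00100 := E.Tab.node IeE001000_ok IeE001001_ok
theorem IeE00101_ok : Tab JI IeE00101 := IeE00101_k.tabI
theorem IeE0010_ok : Tab JI IeE0010 := E.Tab.node IeE00100_ok IeE00101_ok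
theorem IeE001100_ok : Tab JI IeE001100 := IeE001100_k.tabI
theorem IeE001101_ok : Tab JI IeE001101 := IeE001101_k.tabI
theorem IeE00110_ok : Tab JI IeE00110 := E.Tab.node IeE001100_ok IeE001101_ok
theorem IeE00111_ok : Tab JI IeE00111 := IeE00111_k.tabI
theorem IeE0011_ok : Tab JI IeE0011 := E.Tab.node IeE00110_ok IeE00111_ok
theorem IeE001_ok : Tab JI IeE001 := E.Tab.node IeE0010_ok IeE0011_ok
theorem IeE00_ok : Tab JI IeE00 := E.Tab.node IeE000_ok IeE001_ok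
theorem IeE010000_ok : Tab JI IeE010000 := IeE010000_k.tabI
theorem IeE010001_ok : Tab JI IeE010001 := IeE010001_k.tabI
theorem IeE01000_ok : Tab JI IeE01000 := E.Tab.node IeE010000_ok IeE010001_ok
theorem IeE010010_ok : Tab JI IeE010010 := IeE010010_k.tabI
theorem IeE0100110_ok : Tab JI IeE0100110 := IeE0100110_k.tabI
theorem IeE0100111_ok : Tab JI IeE0100111 := IeE0100111_k.tabI
theorem IeE010011_ok : Tab JI IeE010011 := E.Tab.node IeE0100110_ok IeE0100111_ok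
theorem IeE01001_ok : Tab JI IeE01001 := E.Tab.node IeE010010_ok IeE010011_ok
theorem IeE0100_ok : Tab JI IeE0100 := E.Tab.node IeE01000_ok IeE01001_ok
theorem IeE01010_ok : Tab JI IeE01010 := IeE01010_k.tabI
theorem IeE010110_ok : Tab JI IeE010110 := IeE010110_k.tabI
theorem IeE010111_ok : Tab JI IeE010111 := IeE010111_k.tabI
theorem IeE01011_ok : Tab JI IeE01011 := E.Tab.node IeE010110_ok IeE010111_ok
theorem IeE0101_ok : Tab JI IeE0101 := E.Tab.node IeE01010_ok IeE01011_ok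
theorem IeE010_ok : Tab JI IeE010 := E.Tab.node IeE0100_ok IeE0101_ok
theorem IeE011000_ok : Tab JI IeE011000 := IeE011000_k.tabI
theorem IeE011001_ok : Tab JI IeE011001 := IeE011001_k.tabI
theorem IeE01100_ok : Tab JI IeE01100 := E.Tab.node IeE011000_ok IeE011001_ok
theorem IeE011010_ok : Tab JI IeE011010 := IeE011010_k.tabI
theorem IeE011011_ok : Tab JI IeE011011 := IeE011011_k.tabI
theorem IeE01101_ok : Tab JI IeE01101 := E.Tab.node IeE011010_ok IeE011011_ok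
theorem IeE0110_ok : Tab JI IeE0110 := E.Tab.node IeE01100_ok IeE01101_ok
theorem IeE011100_ok : Tab JI IeE011100 := IeE011100_k.tabI
theorem IeE011101_ok : Tab JI IeE011101 := IeE011101_k.tabI
theorem IeE01110_ok : Tab JI IeE01110 := E.Tab.node IeE011100_ok IeE011101_ok
theorem IeE01111_ok : Tab JI IeE01111 := IeE01111_k.tabI
theorem IeE0111_ok : Tab JI IeE0111 := E.Tab.node IeE01110_ok IeE01111_ok
theorem IeE011_ok : Tab JI IeE011 := E.Tab.node IeE0110_ok IeE0111_ok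
theorem IeE01_ok : Tab JI IeE01 := E.Tab.node IeE010_ok IeE011_ok
theorem IeE0_ok : Tab JI IeE0 := E.Tab.node IeE00_ok IeE01_ok
theorem IeE10000_ok : Tab JI IeE10000 := IeE10000_k.tabI
theorem IeE100010_ok : Tab JI IeE100010 := IeE100010_k.tabI
theorem IeE1000110_ok : Tab JI IeE1000110 := IeE1000110_k.tabI
theorem IeE1000111_ok : Tab JI IeE1000111 := IeE1000111_k.tabI
theorem IeE100011_ok : Tab JI IeE100011 := E.Tab.node IeE1000110_ok IeE1000111_ok
theorem IeE10001_ok : Tab JI IeE10001 := E.Tab.node IeE100010_ok IeE100011_ok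
theorem IeE1000_ok : Tab JI IeE1000 := E.Tab.node IeE10000_ok IeE10001_ok
theorem IeE10010_ok : Tab JI IeE10010 := IeE10010_k.tabI
theorem IeE100110_ok : Tab JI IeE100110 := IeE100110_k.tabI
theorem IeE100111_ok : Tab JI IeE100111 := IeE100111_k.tabI
theorem IeE10011_ok : Tab JI IeE10011 := E.Tab.node IeE100110_ok IeE100111_ok
theorem IeE1001_ok : Tab JI IeE1001 := E.Tab.node IeE10010_ok IeE10011_ok
theorem IeE100_ok : Tab JI IeE100 := E.Tab.node IeE1000_ok IeE1001_ok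
theorem IeE101000_ok : Tab JI IeE101000 := IeE101000_k.tabI
theorem IeE101001_ok : Tab JI IeE101001 := IeE101001_k.tabI
theorem IeE10100_ok : Tab JI IeE10100 := E.Tab.node IeE101000_ok IeE101001_ok
theorem IeE101010_ok : Tab JI IeE101010 := IeE101010_k.tabI
theorem IeE101011_ok : Tab JI IeE101011 := IeE101011_k.tabI
theorem IeE10101_ok : Tab JI IeE10101 := E.Tab.node IeE101010_ok IeE101011_ok
theorem IeE1010_ok : Tab JI IeE1010 := E.Tab.node IeE10100_ok IeE10101_ok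
theorem IeE10110_ok : Tab JI IeE10110 := IeE10110_k.tabI
theorem IeE101110_ok : Tab JI IeE101110 := IeE101110_k.tabI
theorem IeE101111_ok : Tab JI IeE101111 := IeE101111_k.tabI
theorem IeE10111_ok : Tab JI IeE10111 := E.Tab.node IeE101110_ok IeE101111_ok
theorem IeE1011_ok : Tab JI IeE1011 := E.Tab.node IeE10110_ok IeE10111_ok
theorem IeE101_ok : Tab JI IeE101 := E.Tab.node IeE1010_ok IeE1011_ok
theorem IeE10_ok : Tab JI IeE10 := E.Tab.node IeE100_ok IeE101_ok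
theorem IeE110000_ok : Tab JI IeE110000 := IeE110000_k.tabI
theorem IeE110001_ok : Tab JI IeE110001 := IeE110001_k.tabI
theorem IeE11000_ok : Tab JI IeE11000 := E.Tab.node IeE110000_ok IeE110001_ok
theorem IeE110010_ok : Tab JI IeE110010 := IeE110010_k.tabI
theorem IeE110011_ok : Tab JI IeE110011 := IeE110011_k.tabI
theorem IeE11001_ok : Tab JI IeE11001 := E.Tab.node IeE110010_ok IeE110011_ok
theorem IeE1100_ok : Tab JI IeE1100 := E.Tab.node IeE11000_ok IeE11001_ok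
theorem IeE110100_ok : Tab JI IeE110100 := IeE110100_k.tabI
theorem IeE110101_ok : Tab JI IeE110101 := IeE110101_k.tabI
theorem IeE11010_ok : Tab JI IeE11010 := E.Tab.node IeE110100_ok IeE110101_ok
theorem IeE11011_ok : Tab JI IeE11011 := IeE11011_k.tabI
theorem IeE1101_ok : Tab JI IeE1101 := E.Tab.node IeE11010_ok IeE11011_ok
theorem IeE110_ok : Tab JI IeE110 := E.Tab.node IeE1100_ok IeE1101_ok
theorem IeE111000_ok : Tab JI IeE111000 := IeE111000_k.tabI
theorem IeE111001_ok : Tab JI IeE111001 := IeE111001_k.tabI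
theorem IeE11100_ok : Tab JI IeE11100 := E.Tab.node IeE111000_ok IeE111001_ok
theorem IeE111010_ok : Tab JI IeE111010 := IeE111010_k.tabI
theorem IeE111011_ok : Tab JI IeE111011 := IeE111011_k.tabI
theorem IeE11101_ok : Tab JI IeE11101 := E.Tab.node IeE111010_ok IeE111011_ok
theorem IeE1110_ok : Tab JI IeE1110 := E.Tab.node IeE11100_ok IeE11101_ok
theorem IeE111100_ok : Tab JI IeE111100 := IeE111100_k.tabI
theorem IeE111101_ok : Tab JI IeE111101 := IeE111101_k.tabI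
theorem IeE11110_ok : Tab JI IeE11110 := E.Tab.node IeE111100_ok IeE111101_ok
theorem IeE11111_ok : Tab JI IeE11111 := IeE11111_k.tabI
theorem IeE1111_ok : Tab JI IeE1111 := E.Tab.node IeE11110_ok IeE11111_ok
theorem IeE111_ok : Tab JI IeE111 := E.Tab.node IeE1110_ok IeE1111_ok
theorem IeE11_ok : Tab JI IeE11 := E.Tab.node IeE110_ok IeE111_ok
theorem IeE1_ok : Tab JI IeE1 := E.Tab.node IeE10_ok IeE11_ok
theorem IeE_ok : Tab JI IeE := E.Tab.node IeE0_ok IeE1_ok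
theorem IeK000_ok : IeK000.All (KV 36) := chkKT_sound (by decide) IeK000_k
theorem IeK001_ok : IeK001.All (KV 36) := chkKT_sound (by decide) IeK001_k
theorem IeK00_ok : IeK00.All (KV 36) := ⟨IeK000_ok, IeK001_ok⟩
theorem IeK010_ok : IeK010.All (KV 36) := chkKT_sound (by decide) IeK010_k
theorem IeK011_ok : IeK011.All (KV 36) := chkKT_sound (by decide) IeK011_k
theorem IeK01_ok : IeK01.All (KV 36) := ⟨IeK010_ok, IeK011_ok⟩
theorem IeK0_ok : IeK0.All (KV 36) := ⟨IeK00_ok, IeK01_ok⟩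
theorem IeK100_ok : IeK100.All (KV 36) := chkKT_sound (by decide) IeK100_k
theorem IeK101_ok : IeK101.All (KV 36) := chkKT_sound (by decide) IeK101_k
theorem IeK10_ok : IeK10.All (KV 36) := ⟨IeK100_ok, IeK101_ok⟩
theorem IeK110_ok : IeK110.All (KV 36) := chkKT_sound (by decide) IeK110_k
theorem IeK111_ok : IeK111.All (KV 36) := chkKT_sound (by decide) IeK111_k
theorem IeK11_ok : IeK11.All (KV 36) := ⟨IeK110_ok, IeK111_ok⟩
theorem IeK1_ok : IeK1.All (KV 36) := ⟨IeK10_ok, IeK11_ok⟩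
theorem IeK_ok : IeK.All (KV 36) := ⟨IeK0_ok, IeK1_ok⟩
theorem IeP_ok : IeP.Ok JI :=
  ⟨Nat.succ_pos 23, (by decide : 36 ≤ 48), (by decide : 10 ≤ 255), IeE_ok, IeK_ok⟩
theorem IeT0_c : CovC JI 183500 367002 ⟨6291456, 8388608, 0, 524288, 0, 294912, 0, 33554432⟩ :=
  chkC_sound IeP_ok IeT0 _ IeT0_k
theorem IeT1_c : CovC JI 183500 367002 ⟨6291456, 8388608, 524288, 1048576, 0, 147456, 0, 33554432⟩ :=
  chkC_sound IeP_ok IeT1 _ IeT1_k
theorem IeT2_c : CovC JI 183500 367002 ⟨6291456, 8388608, 524288, 1048576, 147456, 294912, 0, 33554432⟩ :=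
  chkC_sound IeP_ok IeT2 _ IeT2_k
theorem IeT3_c : CovC JI 183500 367002 ⟨6291456, 6815744, 1048576, 1179648, 0, 18432, 0, 33554432⟩ :=
  chkC_sound IeP_ok IeT3 _ IeT3_k
theorem IeT4_c : CovC JI 183500 367002 ⟨6291456, 6815744, 1179648, 1310720, 0, 18432, 0, 33554432⟩ :=
  chkC_sound IeP_ok IeT4 _ IeT4_k
theorem IeT5_c : CovC JI 183500 367002 ⟨6815744, 7340032, 1048576, 1310720, 0, 18432, 0, 33554432⟩ :=
  chkC_sound IeP_ok IeT5 _ IeT5_k
theorem IeT6_c : CovC JI 183500 367002 ⟨6291456, 7340032, 1048576, 1310720, 18432, 36864, 0, 33554432⟩ :=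
  chkC_sound IeP_ok IeT6 _ IeT6_k
theorem IeT7_c : CovC JI 183500 367002 ⟨7340032, 8388608, 1048576, 1179648, 0, 36864, 0, 33554432⟩ :=
  chkC_sound IeP_ok IeT7 _ IeT7_k
theorem IeT8_c : CovC JI 183500 367002 ⟨7340032, 7864320, 1179648, 1245184, 0, 18432, 0, 33554432⟩ :=
  chkC_sound IeP_ok IeT8 _ IeT8_k
theorem IeT9_c : CovC JI 183500 367002 ⟨7864320, 8388608, 1179648, 1245184, 0, 18432, 0, 33554432⟩ :=
  chkC_sound IeP_ok IeT9 _ IeT9_k
theorem IeT10_c : CovC JI 183500 367002 ⟨7340032, 8388608, 1179648, 1245184, 18432, 36864, 0, 33554432⟩ :=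
  chkC_sound IeP_ok IeT10 _ IeT10_k
theorem IeT11_c : CovC JI 183500 367002 ⟨7340032, 8388608, 1245184, 1310720, 0, 36864, 0, 33554432⟩ :=
  chkC_sound IeP_ok IeT11 _ IeT11_k
theorem IeT12_c : CovC JI 183500 367002 ⟨6291456, 8388608, 1310720, 1572864, 0, 36864, 0, 33554432⟩ :=
  chkC_sound IeP_ok IeT12 _ IeT12_k
theorem IeT13_c : CovC JI 183500 367002 ⟨6291456, 8388608, 1048576, 1572864, 36864, 73728, 0, 33554432⟩ :=
  chkC_sound IeP_ok IeT13 _ IeT13_k
theorem IeT14_c : CovC JI 183500 367002 ⟨6291456, 8388608, 1048576, 1572864, 73728, 147456, 0, 33554432⟩ :=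
  chkC_sound IeP_ok IeT14 _ IeT14_k
theorem IeT15_c : CovC JI 183500 367002 ⟨6291456, 8388608, 1048576, 1572864, 147456, 294912, 0, 33554432⟩ :=
  chkC_sound IeP_ok IeT15 _ IeT15_k
theorem IeT16_c : CovC JI 183500 367002 ⟨6291456, 8388608, 1572864, 2097152, 0, 294912, 0, 33554432⟩ :=
  chkC_sound IeP_ok IeT16 _ IeT16_k
theorem Ie_cov  : CovC JI 183500 367002 ⟨6291456, 8388608, 0, 2097152, 0, 294912, 0, 33554432⟩ :=
 (CovC.sK 1048576 (CovC.sK 524288 IeT0_c
 (CovC.sJ 147456 IeT1_c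
 IeT2_c))
 (CovC.sK 1572864 (CovC.sJ 147456 (CovC.sJ 73728 (CovC.sJ 36864 (CovC.sK 1310720 (CovC.sN 7340032 (CovC.sJ 18432 (CovC.sN 6815744 (CovC.sK 1179648 IeT3_c
 IeT4_c)
 IeT5_c)
 IeT6_c)
 (CovC.sK 1179648 IeT7_c
 (CovC.sK 1245184 (CovC.sJ 18432 (CovC.sN 7864320 IeT8_c
 IeT9_c)
 IeT10_c)
 IeT11_c)))
 IeT12_c)
 IeT13_c)
 IeT14_c)
 IeT15_c)
 IeT16_c))
end Pool.Agent.Lib.MP_33650d_pr.X
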