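import Pool.Agent.Lib.MP_33650d_pr.X.EFin
import Pool.Agent.Lib.MP_33650d_pr.X.CLeaf
import Pool.Agent.Lib.MP_33650d_pr.X.CKChk
import Pool.Agent.Lib.MP_33650d_pr.G.IfC0

set_option linter.defProp false

namespace Pool.Agent.Lib.MP_33650d_pr.X

theorem IfE000000_ok : Tab JI IfE000000 := IfE000000_k.tabI
theorem IfE000001_ok : Tab JI IfE000001 := IfE000001_k.tabI
theorem IfE00000_ok : Tab JI IfE00000 := E.Tab.node IfE000000_ok IfE000001_ok
theorem IfE000010_ok : Tab JI IfE000010 := IfE000010_k.tabI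
theorem IfE000011_ok : Tab JI IfE000011 := IfE000011_k.tabI
theorem IfE00001_ok : Tab JI IfE00001 := E.Tab.node IfE000010_ok IfE000011_ok
theorem IfE0000_ok : Tab JI IfE0000 := E.Tab.node IfE00000_ok IfE00001_ok
theorem IfE000100_ok : Tab JI IfE000100 := IfE000100_k.tabI
theorem IfE000101_ok : Tab JI IfE000101 := IfE000101_k.tabI
theorem IfE00010_ok : Tab JI IfE00010 := E.Tab.node IfE000100_ok IfE000101_ok
theorem IfE00011_ok : Tab JI IfE00011 := IfE00011_k.tabI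
theorem IfE0001_ok : Tab JI IfE0001 := E.Tab.node IfE00010_ok IfE00011_ok
theorem IfE000_ok : Tab JI IfE000 := E.Tab.node IfE0000_ok IfE0001_ok
theorem IfE001000_ok : Tab JI IfE001000 := IfE001000_k.tabI
theorem IfE001001_ok : Tab JI IfE001001 := IfE001001_k.tabI
theorem IfE00100_ok : Tab JI IfE00100 := E.Tab.node IfE001000_ok IfE001001_ok
theorem IfE00101_ok : Tab JI IfE00101 := IfE00101_k.tabI
theorem IfE0010_ok : Tab JI IfE0010 := E.Tab.node IfE00100_ok IfE00101_ok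
theorem IfE001100_ok : Tab JI IfE001100 := IfE001100_k.tabI
theorem IfE001101_ok : Tab JI IfE001101 := IfE001101_k.tabI
theorem IfE00110_ok : Tab JI IfE00110 := E.Tab.node IfE001100_ok IfE001101_ok
theorem IfE001110_ok : Tab JI IfE001110 := IfE001110_k.tabI
theorem IfE001111_ok : Tab JI IfE001111 := IfE001111_k.tabI
theorem IfE00111_ok : Tab JI IfE00111 := E.Tab.node IfE001110_ok IfE001111_ok
theorem IfE0011_ok : Tab JI IfE0011 := E.Tab.node IfE00110_ok IfE00111_ok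
theorem IfE001_ok : Tab JI IfE001 := E.Tab.node IfE0010_ok IfE0011_ok
theorem IfE00_ok : Tab JI IfE00 := E.Tab.node IfE000_ok IfE001_ok
theorem IfE010000_ok : Tab JI IfE010000 := IfE010000_k.tabI
theorem IfE0100010_ok : Tab JI IfE0100010 := IfE0100010_k.tabI
theorem IfE0100011_ok : Tab JI IfE0100011 := IfE0100011_k.tabI
theorem IfE010001_ok : Tab JI IfE010001 := E.Tab.node IfE0100010_ok IfE0100011_ok
theorem IfE01000_ok : Tab JI IfE01000 := E.Tab.node IfE010000_ok IfE010001_ok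
theorem IfE010010_ok : Tab JI IfE010010 := IfE010010_k.tabI
theorem IfE010011_ok : Tab JI IfE010011 := IfE010011_k.tabI
theorem IfE01001_ok : Tab JI IfE01001 := E.Tab.node IfE010010_ok IfE010011_ok
theorem IfE0100_ok : Tab JI IfE0100 := E.Tab.node IfE01000_ok IfE01001_ok
theorem IfE0101000_ok : Tab JI IfE0101000 := IfE0101000_k.tabI
theorem IfE0101001_ok : Tab JI IfE0101001 := IfE0101001_k.tabI
theorem IfE010100_ok : Tab JI IfE010100 := E.Tab.node IfE0101000_ok IfE0101001_ok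
theorem IfE010101_ok : Tab JI IfE010101 := IfE010101_k.tabI
theorem IfE01010_ok : Tab JI IfE01010 := E.Tab.node IfE010100_ok IfE010101_ok
theorem IfE010110_ok : Tab JI IfE010110 := IfE010110_k.tabI
theorem IfE010111_ok : Tab JI IfE010111 := IfE010111_k.tabI
theorem IfE01011_ok : Tab JI IfE01011 := E.Tab.node IfE010110_ok IfE010111_ok
theorem IfE0101_ok : Tab JI IfE0101 := E.Tab.node IfE01010_ok IfE01011_ok
theorem IfE010_ok : Tab JI IfE010 := E.Tab.node IfE0100_ok IfE0101_ok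
theorem IfE011000_ok : Tab JI IfE011000 := IfE011000_k.tabI
theorem IfE011001_ok : Tab JI IfE011001 := IfE011001_k.tabI
theorem IfE01100_ok : Tab JI IfE01100 := E.Tab.node IfE011000_ok IfE011001_ok
theorem IfE01101_ok : Tab JI IfE01101 := IfE01101_k.tabI
theorem IfE0110_ok : Tab JI IfE0110 := E.Tab.node IfE01100_ok IfE01101_ok
theorem IfE011100_ok : Tab JI IfE011100 := IfE011100_k.tabI
theorem IfE011101_ok : Tab JI IfE011101 := IfE011101_k.tabI
theorem IfE01110_ok : Tab JI IfE01110 := E.Tab.node IfE011100_ok IfE011101_ok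
theorem IfE01111_ok : Tab JI IfE01111 := IfE01111_k.tabI
theorem IfE0111_ok : Tab JI IfE0111 := E.Tab.node IfE01110_ok IfE01111_ok
theorem IfE011_ok : Tab JI IfE011 := E.Tab.node IfE0110_ok IfE0111_ok
theorem IfE01_ok : Tab JI IfE01 := E.Tab.node IfE010_ok IfE011_ok
theorem IfE0_ok : Tab JI IfE0 := E.Tab.node IfE00_ok IfE01_ok
theorem IfE100000_ok : Tab JI IfE100000 := IfE100000_k.tabI
theorem IfE100001_ok : Tab JI IfE100001 := IfE100001_k.tabI
theorem IfE10000_ok : Tab JI IfE10000 := E.Tab.node IfE100000_ok IfE100001_ok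
theorem IfE100010_ok : Tab JI IfE100010 := IfE100010_k.tabI
theorem IfE100011_ok : Tab JI IfE100011 := IfE100011_k.tabI
theorem IfE10001_ok : Tab JI IfE10001 := E.Tab.node IfE100010_ok IfE100011_ok
theorem IfE1000_ok : Tab JI IfE1000 := E.Tab.node IfE10000_ok IfE10001_ok
theorem IfE1001000_ok : Tab JI IfE1001000 := IfE1001000_k.tabI
theorem IfE1001001_ok : Tab JI IfE1001001 := IfE1001001_k.tabI
theorem IfE100100_ok : Tab JI IfE100100 := E.Tab.node IfE1001000_ok IfE1001001_ok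
theorem IfE100101_ok : Tab JI IfE100101 := IfE100101_k.tabI
theorem IfE10010_ok : Tab JI IfE10010 := E.Tab.node IfE100100_ok IfE100101_ok
theorem IfE100110_ok : Tab JI IfE100110 := IfE100110_k.tabI
theorem IfE100111_ok : Tab JI IfE100111 := IfE100111_k.tabI
theorem IfE10011_ok : Tab JI IfE10011 := E.Tab.node IfE100110_ok IfE100111_ok
theorem IfE1001_ok : Tab JI IfE1001 := E.Tab.node IfE10010_ok IfE10011_ok
theorem IfE100_ok : Tab JI IfE100 := E.Tab.node IfE1000_ok IfE1001_ok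
theorem IfE101000_ok : Tab JI IfE101000 := IfE101000_k.tabI
theorem IfE101001_ok : Tab JI IfE101001 := IfE101001_k.tabI
theorem IfE10100_ok : Tab JI IfE10100 := E.Tab.node IfE101000_ok IfE101001_ok
theorem IfE10101_ok : Tab JI IfE10101 := IfE10101_k.tabI
theorem IfE1010_ok : Tab JI IfE1010 := E.Tab.node IfE10100_ok IfE10101_ok
theorem IfE101100_ok : Tab JI IfE101100 := IfE101100_k.tabI
theorem IfE101101_ok : Tab JI IfE101101 := IfE101101_k.tabI
theorem IfE10110_ok : Tab JI IfE10110 := E.Tab.node IfE101100_ok IfE101101_ok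
theorem IfE101110_ok : Tab JI IfE101110 := IfE101110_k.tabI
theorem IfE101111_ok : Tab JI IfE101111 := IfE101111_k.tabI
theorem IfE10111_ok : Tab JI IfE10111 := E.Tab.node IfE101110_ok IfE101111_ok
theorem IfE1011_ok : Tab JI IfE1011 := E.Tab.node IfE10110_ok IfE10111_ok
theorem IfE101_ok : Tab JI IfE101 := E.Tab.node IfE1010_ok IfE1011_ok
theorem IfE10_ok : Tab JI IfE10 := E.Tab.node IfE100_ok IfE101_ok
theorem IfE110000_ok : Tab JI IfE110000 := IfE110000_k.tabI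
theorem IfE110001_ok : Tab JI IfE110001 := IfE110001_k.tabI
theorem IfE11000_ok : Tab JI IfE11000 := E.Tab.node IfE110000_ok IfE110001_ok
theorem IfE11001_ok : Tab JI IfE11001 := IfE11001_k.tabI
theorem IfE1100_ok : Tab JI IfE1100 := E.Tab.node IfE11000_ok IfE11001_ok
theorem IfE110100_ok : Tab JI IfE110100 := IfE110100_k.tabI
theorem IfE1101010_ok : Tab JI IfE1101010 := IfE1101010_k.tabI
theorem IfE1101011_ok : Tab JI IfE1101011 := IfE1101011_k.tabI
theorem IfE110101_ok : Tab JI IfE110101 := E.Tab.node IfE1101010_ok IfE1101011_ok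
theorem IfE11010_ok : Tab JI IfE11010 := E.Tab.node IfE110100_ok IfE110101_ok
theorem IfE110110_ok : Tab JI IfE110110 := IfE110110_k.tabI
theorem IfE110111_ok : Tab JI IfE110111 := IfE110111_k.tabI
theorem IfE11011_ok : Tab JI IfE11011 := E.Tab.node IfE110110_ok IfE110111_ok
theorem IfE1101_ok : Tab JI IfE1101 := E.Tab.node IfE11010_ok IfE11011_ok
theorem IfE110_ok : Tab JI IfE110 := E.Tab.node IfE1100_ok IfE1101_ok
theorem IfE1110000_ok : Tab JI IfE1110000 := IfE1110000_k.tabI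
theorem IfE1110001_ok : Tab JI IfE1110001 := IfE1110001_k.tabI
theorem IfE111000_ok : Tab JI IfE111000 := E.Tab.node IfE1110000_ok IfE1110001_ok
theorem IfE111001_ok : Tab JI IfE111001 := IfE111001_k.tabI
theorem IfE11100_ok : Tab JI IfE11100 := E.Tab.node IfE111000_ok IfE111001_ok
theorem IfE11101_ok : Tab JI IfE11101 := IfE11101_k.tabI
theorem IfE1110_ok : Tab JI IfE1110 := E.Tab.node IfE11100_ok IfE11101_ok
theorem IfE1111000_ok : Tab JI IfE1111000 := IfE1111000_k.tabI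
theorem IfE1111001_ok : Tab JI IfE1111001 := IfE1111001_k.tabI
theorem IfE111100_ok : Tab JI IfE111100 := E.Tab.node IfE1111000_ok IfE1111001_ok
theorem IfE1111010_ok : Tab JI IfE1111010 := IfE1111010_k.tabI
theorem IfE1111011_ok : Tab JI IfE1111011 := IfE1111011_k.tabI
theorem IfE111101_ok : Tab JI IfE111101 := E.Tab.node IfE1111010_ok IfE1111011_ok
theorem IfE11110_ok : Tab JI IfE11110 := E.Tab.node IfE111100_ok IfE111101_ok
theorem IfE11111_ok : Tab JI IfE11111 := IfE11111_k.tabI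
theorem IfE1111_ok : Tab JI IfE1111 := E.Tab.node IfE11110_ok IfE11111_ok
theorem IfE111_ok : Tab JI IfE111 := E.Tab.node IfE1110_ok IfE1111_ok
theorem IfE11_ok : Tab JI IfE11 := E.Tab.node IfE110_ok IfE111_ok
theorem IfE1_ok : Tab JI IfE1 := E.Tab.node IfE10_ok IfE11_ok
theorem IfE_ok : Tab JI IfE := E.Tab.node IfE0_ok IfE1_ok
theorem IfK0000_ok : IfK0000.All (KV 36) := chkKT_sound (by decide) IfK0000_k
theorem IfK0001_ok : IfK0001.All (KV 36) := chkKT_sound (by decide) IfK0001_k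
theorem IfK000_ok : IfK000.All (KV 36) := ⟨IfK0000_ok, IfK0001_ok⟩
theorem IfK0010_ok : IfK0010.All (KV 36) := chkKT_sound (by decide) IfK0010_k
theorem IfK0011_ok : IfK0011.All (KV 36) := chkKT_sound (by decide) IfK0011_k
theorem IfK001_ok : IfK001.All (KV 36) := ⟨IfK0010_ok, IfK0011_ok⟩
theorem IfK00_ok : IfK00.All (KV 36) := ⟨IfK000_ok, IfK001_ok⟩
theorem IfK0100_ok : IfK0100.All (KV 36) := chkKT_sound (by decide) IfK0100_k
theorem IfK0101_ok : IfK0101.All (KV 36) := chkKT_sound (by decide) IfK0101_k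
theorem IfK010_ok : IfK010.All (KV 36) := ⟨IfK0100_ok, IfK0101_ok⟩
theorem IfK0110_ok : IfK0110.All (KV 36) := chkKT_sound (by decide) IfK0110_k
theorem IfK0111_ok : IfK0111.All (KV 36) := chkKT_sound (by decide) IfK0111_k
theorem IfK011_ok : IfK011.All (KV 36) := ⟨IfK0110_ok, IfK0111_ok⟩
theorem IfK01_ok : IfK01.All (KV 36) := ⟨IfK010_ok, IfK011_ok⟩
theorem IfK0_ok : IfK0.All (KV 36) := ⟨IfK00_ok, IfK01_ok⟩
theorem IfK1000_ok : IfK1000.All (KV 36) := chkKT_sound (by decide) IfK1000_k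
theorem IfK1001_ok : IfK1001.All (KV 36) := chkKT_sound (by decide) IfK1001_k
theorem IfK100_ok : IfK100.All (KV 36) := ⟨IfK1000_ok, IfK1001_ok⟩
theorem IfK1010_ok : IfK1010.All (KV 36) := chkKT_sound (by decide) IfK1010_k
theorem IfK1011_ok : IfK1011.All (KV 36) := chkKT_sound (by decide) IfK1011_k
theorem IfK101_ok : IfK101.All (KV 36) := ⟨IfK1010_ok, IfK1011_ok⟩
theorem IfK10_ok : IfK10.All (KV 36) := ⟨IfK100_ok, IfK101_ok⟩
theorem IfK1100_ok : IfK1100.All (KV 36) := chkKT_sound (by decide) IfK1100_k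
theorem IfK1101_ok : IfK1101.All (KV 36) := chkKT_sound (by decide) IfK1101_k
theorem IfK110_ok : IfK110.All (KV 36) := ⟨IfK1100_ok, IfK1101_ok⟩
theorem IfK1110_ok : IfK1110.All (KV 36) := chkKT_sound (by decide) IfK1110_k
theorem IfK1111_ok : IfK1111.All (KV 36) := chkKT_sound (by decide) IfK1111_k
theorem IfK111_ok : IfK111.All (KV 36) := ⟨IfK1110_ok, IfK1111_ok⟩
theorem IfK11_ok : IfK11.All (KV 36) := ⟨IfK110_ok, IfK111_ok⟩
theorem IfK1_ok : IfK1.All (KV 36) := ⟨IfK10_ok, IfK11_ok⟩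
theorem IfK_ok : IfK.All (KV 36) := ⟨IfK0_ok, IfK1_ok⟩
theorem IfP_ok : IfP.Ok JI :=
  ⟨Nat.succ_pos 23, (by decide : 36 ≤ 48), (by decide : 8 ≤ 255), IfE_ok, IfK_ok⟩
theorem IfT0_c : CovC JI 183500 367002 ⟨8388608, 10485760, 0, 524288, 0, 294912, 0, 33554432⟩ :=
  chkC_sound IfP_ok IfT0 _ IfT0_k
theorem IfT1_c : CovC JI 183500 367002 ⟨8388608, 9437184, 524288, 1048576, 0, 147456, 0, 33554432⟩ :=
  chkC_sound IfP_ok IfT1 _ IfT1_k
theorem IfT2_c : CovC JI 183500 367002 ⟨9437184, 10485760, 524288, 1048576, 0, 147456, 0, 33554432⟩ :=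
  chkC_sound IfP_ok IfT2 _ IfT2_k
theorem IfT3_c : CovC JI 183500 367002 ⟨8388608, 10485760, 524288, 1048576, 147456, 294912, 0, 33554432⟩ :=
  chkC_sound IfP_ok IfT3 _ IfT3_k
theorem IfT4_c : CovC JI 183500 367002 ⟨8388608, 9437184, 1048576, 1179648, 0, 36864, 0, 33554432⟩ :=
  chkC_sound IfP_ok IfT4 _ IfT4_k
theorem IfT5_c : CovC JI 183500 367002 ⟨9437184, 10485760, 1048576, 1179648, 0, 36864, 0, 33554432⟩ :=
  chkC_sound IfP_ok IfT5 _ IfT5_k
theorem IfT6_c : CovC JI 183500 367002 ⟨8388608, 8912896, 1179648, 1212416, 0, 18432, 0, 33554432⟩ :=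
  chkC_sound IfP_ok IfT6 _ IfT6_k
theorem IfT7_c : CovC JI 183500 367002 ⟨8388608, 8912896, 1212416, 1228800, 0, 18432, 0, 33554432⟩ :=
  chkC_sound IfP_ok IfT7 _ IfT7_k
theorem IfT8_c : CovC JI 183500 367002 ⟨8388608, 8912896, 1228800, 1245184, 0, 18432, 0, 33554432⟩ :=
  chkC_sound IfP_ok IfT8 _ IfT8_k
theorem IfT9_c : CovC JI 183500 367002 ⟨8912896, 9437184, 1179648, 1212416, 0, 18432, 0, 33554432⟩ :=
  chkC_sound IfP_ok IfT9 _ IfT9_k
theorem IfT10_c : CovC JI 183500 367002 ⟨8912896, 9437184, 1212416, 1245184, 0, 9216, 0, 33554432⟩ :=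
  chkC_sound IfP_ok IfT10 _ IfT10_k
theorem IfT11_c : CovC JI 183500 367002 ⟨8912896, 9437184, 1212416, 1245184, 9216, 18432, 0, 33554432⟩ :=
  chkC_sound IfP_ok IfT11 _ IfT11_k
theorem IfT12_c : CovC JI 183500 367002 ⟨8388608, 9437184, 1245184, 1310720, 0, 18432, 0, 33554432⟩ :=
  chkC_sound IfP_ok IfT12 _ IfT12_k
theorem IfT13_c : CovC JI 183500 367002 ⟨8388608, 9437184, 1179648, 1310720, 18432, 36864, 0, 33554432⟩ :=
  chkC_sound IfP_ok IfT13 _ IfT13_k
theorem IfT14_c : CovC JI 183500 367002 ⟨9437184, 9961472, 1179648, 1245184, 0, 18432, 0, 33554432⟩ :=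
  chkC_sound IfP_ok IfT14 _ IfT14_k
theorem IfT15_c : CovC JI 183500 367002 ⟨9437184, 9961472, 1245184, 1310720, 0, 18432, 0, 33554432⟩ :=
  chkC_sound IfP_ok IfT15 _ IfT15_k
theorem IfT16_c : CovC JI 183500 367002 ⟨9961472, 10485760, 1179648, 1310720, 0, 18432, 0, 33554432⟩ :=
  chkC_sound IfP_ok IfT16 _ IfT16_k
theorem IfT17_c : CovC JI 183500 367002 ⟨9437184, 10485760, 1179648, 1310720, 18432, 36864, 0, 33554432⟩ :=
  chkC_sound IfP_ok IfT17 _ IfT17_k
theorem IfT18_c : CovC JI 183500 367002 ⟨8388608, 10485760, 1310720, 1572864, 0, 36864, 0, 33554432⟩ :=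
  chkC_sound IfP_ok IfT18 _ IfT18_k
theorem IfT19_c : CovC JI 183500 367002 ⟨8388608, 10485760, 1048576, 1572864, 36864, 73728, 0, 33554432⟩ :=
  chkC_sound IfP_ok IfT19 _ IfT19_k
theorem IfT20_c : CovC JI 183500 367002 ⟨8388608, 10485760, 1048576, 1572864, 73728, 147456, 0, 33554432⟩ :=
  chkC_sound IfP_ok IfT20 _ IfT20_k
theorem IfT21_c : CovC JI 183500 367002 ⟨8388608, 10485760, 1048576, 1572864, 147456, 294912, 0, 33554432⟩ :=
  chkC_sound IfP_ok IfT21 _ IfT21_k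
theorem IfT22_c : CovC JI 183500 367002 ⟨8388608, 9437184, 1572864, 2097152, 0, 147456, 0, 33554432⟩ :=
  chkC_sound IfP_ok IfT22 _ IfT22_k
theorem IfT23_c : CovC JI 183500 367002 ⟨9437184, 10485760, 1572864, 2097152, 0, 147456, 0, 33554432⟩ :=
  chkC_sound IfP_ok IfT23 _ IfT23_k
theorem IfT24_c : CovC JI 183500 367002 ⟨8388608, 10485760, 1572864, 2097152, 147456, 294912, 0, 33554432⟩ :=
  chkC_sound IfP_ok IfT24 _ IfT24_k
theorem If_cov  : CovC JI 183500 367002 ⟨8388608, 10485760, 0, 2097152, 0, 294912, 0, 33554432⟩ :=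
 (CovC.sK 1048576 (CovC.sK 524288 IfT0_c
 (CovC.sJ 147456 (CovC.sN 9437184 IfT1_c
 IfT2_c)
 IfT3_c))
 (CovC.sK 1572864 (CovC.sJ 147456 (CovC.sJ 73728 (CovC.sJ 36864 (CovC.sK 1310720 (CovC.sK 1179648 (CovC.sN 9437184 IfT4_c
 IfT5_c)
 (CovC.sN 9437184 (CovC.sJ 18432 (CovC.sK 1245184 (CovC.sN 8912896 (CovC.sK 1212416 IfT6_c
 (CovC.sK 1228800 IfT7_c
 IfT8_c))
 (CovC.sK 1212416 IfT9_c
 (CovC.sJ 9216 IfT10_c
 IfT11_c)))
 IfT12_c)
 IfT13_c)
 (CovC.sJ 18432 (CovC.sN 9961472 (CovC.sK 1245184 IfT14_c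
 IfT15_c)
 IfT16_c)
 IfT17_c)))
 IfT18_c)
 IfT19_c)
 IfT20_c)
 IfT21_c)
 (CovC.sJ 147456 (CovC.sN 9437184 IfT22_c
 IfT23_c)
 IfT24_c)))
end Pool.Agent.Lib.MP_33650d_pr.X
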