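import Pool.Agent.Lib.MP_33650d_pr.X.EFin
import Pool.Agent.Lib.MP_33650d_pr.X.CLeaf
import Pool.Agent.Lib.MP_33650d_pr.X.CKChk
import Pool.Agent.Lib.MP_33650d_pr.G.IgC0

set_option linter.defProp false

namespace Pool.Agent.Lib.MP_33650d_pr.X

theorem IgE00000_ok : Tab JI IgE00000 := IgE00000_k.tabI
theorem IgE00001_ok : Tab JI IgE00001 := IgE00001_k.tabI
theorem IgE0000_ok : Tab JI IgE0000 := E.Tab.node IgE00000_ok IgE00001_ok
theorem IgE00010_ok : Tab JI IgE00010 := IgE00010_k.tabI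
theorem IgE00011_ok : Tab JI IgE00011 := IgE00011_k.tabI
theorem IgE0001_ok : Tab JI IgE0001 := E.Tab.node IgE00010_ok IgE00011_ok
theorem IgE000_ok : Tab JI IgE000 := E.Tab.node IgE0000_ok IgE0001_ok
theorem IgE0010_ok : Tab JI IgE0010 := IgE0010_k.tabI
theorem IgE00110_ok : Tab JI IgE00110 := IgE00110_k.tabI
theorem IgE00111_ok : Tab JI IgE00111 := IgE00111_k.tabI
theorem IgE0011_ok : Tab JI IgE0011 := E.Tab.node IgE00110_ok IgE00111_ok
theorem IgE001_ok : Tab JI IgE001 := E.Tab.node IgE0010_ok IgE0011_ok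
theorem IgE00_ok : Tab JI IgE00 := E.Tab.node IgE000_ok IgE001_ok
theorem IgE01000_ok : Tab JI IgE01000 := IgE01000_k.tabI
theorem IgE01001_ok : Tab JI IgE01001 := IgE01001_k.tabI
theorem IgE0100_ok : Tab JI IgE0100 := E.Tab.node IgE01000_ok IgE01001_ok
theorem IgE01010_ok : Tab JI IgE01010 := IgE01010_k.tabI
theorem IgE01011_ok : Tab JI IgE01011 := IgE01011_k.tabI
theorem IgE0101_ok : Tab JI IgE0101 := E.Tab.node IgE01010_ok IgE01011_ok
theorem IgE010_ok : Tab JI IgE010 := E.Tab.node IgE0100_ok IgE0101_ok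
theorem IgE0110_ok : Tab JI IgE0110 := IgE0110_k.tabI
theorem IgE01110_ok : Tab JI IgE01110 := IgE01110_k.tabI
theorem IgE01111_ok : Tab JI IgE01111 := IgE01111_k.tabI
theorem IgE0111_ok : Tab JI IgE0111 := E.Tab.node IgE01110_ok IgE01111_ok
theorem IgE011_ok : Tab JI IgE011 := E.Tab.node IgE0110_ok IgE0111_ok
theorem IgE01_ok : Tab JI IgE01 := E.Tab.node IgE010_ok IgE011_ok
theorem IgE0_ok : Tab JI IgE0 := E.Tab.node IgE00_ok IgE01_ok
theorem IgE10000_ok : Tab JI IgE10000 := IgE10000_k.tabI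
theorem IgE10001_ok : Tab JI IgE10001 := IgE10001_k.tabI
theorem IgE1000_ok : Tab JI IgE1000 := E.Tab.node IgE10000_ok IgE10001_ok
theorem IgE10010_ok : Tab JI IgE10010 := IgE10010_k.tabI
theorem IgE10011_ok : Tab JI IgE10011 := IgE10011_k.tabI
theorem IgE1001_ok : Tab JI IgE1001 := E.Tab.node IgE10010_ok IgE10011_ok
theorem IgE100_ok : Tab JI IgE100 := E.Tab.node IgE1000_ok IgE1001_ok
theorem IgE1010_ok : Tab JI IgE1010 := IgE1010_k.tabI
theorem IgE10110_ok : Tab JI IgE10110 := IgE10110_k.tabI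
theorem IgE101110_ok : Tab JI IgE101110 := IgE101110_k.tabI
theorem IgE101111_ok : Tab JI IgE101111 := IgE101111_k.tabI
theorem IgE10111_ok : Tab JI IgE10111 := E.Tab.node IgE101110_ok IgE101111_ok
theorem IgE1011_ok : Tab JI IgE1011 := E.Tab.node IgE10110_ok IgE10111_ok
theorem IgE101_ok : Tab JI IgE101 := E.Tab.node IgE1010_ok IgE1011_ok
theorem IgE10_ok : Tab JI IgE10 := E.Tab.node IgE100_ok IgE101_ok
theorem IgE1100_ok : Tab JI IgE1100 := IgE1100_k.tabI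
theorem IgE11010_ok : Tab JI IgE11010 := IgE11010_k.tabI
theorem IgE11011_ok : Tab JI IgE11011 := IgE11011_k.tabI
theorem IgE1101_ok : Tab JI IgE1101 := E.Tab.node IgE11010_ok IgE11011_ok
theorem IgE110_ok : Tab JI IgE110 := E.Tab.node IgE1100_ok IgE1101_ok
theorem IgE1110_ok : Tab JI IgE1110 := IgE1110_k.tabI
theorem IgE11110_ok : Tab JI IgE11110 := IgE11110_k.tabI
theorem IgE11111_ok : Tab JI IgE11111 := IgE11111_k.tabI
theorem IgE1111_ok : Tab JI IgE1111 := E.Tab.node IgE11110_ok IgE11111_ok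
theorem IgE111_ok : Tab JI IgE111 := E.Tab.node IgE1110_ok IgE1111_ok
theorem IgE11_ok : Tab JI IgE11 := E.Tab.node IgE110_ok IgE111_ok
theorem IgE1_ok : Tab JI IgE1 := E.Tab.node IgE10_ok IgE11_ok
theorem IgE_ok : Tab JI IgE := E.Tab.node IgE0_ok IgE1_ok
theorem IgK00_ok : IgK00.All (KV 36) := chkKT_sound (by decide) IgK00_k
theorem IgK01_ok : IgK01.All (KV 36) := chkKT_sound (by decide) IgK01_k
theorem IgK0_ok : IgK0.All (KV 36) := ⟨IgK00_ok, IgK01_ok⟩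
theorem IgK10_ok : IgK10.All (KV 36) := chkKT_sound (by decide) IgK10_k
theorem IgK11_ok : IgK11.All (KV 36) := chkKT_sound (by decide) IgK11_k
theorem IgK1_ok : IgK1.All (KV 36) := ⟨IgK10_ok, IgK11_ok⟩
theorem IgK_ok : IgK.All (KV 36) := ⟨IgK0_ok, IgK1_ok⟩
theorem IgP_ok : IgP.Ok JI :=
  ⟨Nat.succ_pos 23, (by decide : 36 ≤ 48), (by decide : 8 ≤ 255), IgE_ok, IgK_ok⟩
theorem IgT0_c : CovC JI 183500 367002 ⟨10485760, 12582912, 0, 524288, 0, 294912, 0, 33554432⟩ :=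
  chkC_sound IgP_ok IgT0 _ IgT0_k
theorem IgT1_c : CovC JI 183500 367002 ⟨10485760, 12582912, 524288, 1048576, 0, 294912, 0, 33554432⟩ :=
  chkC_sound IgP_ok IgT1 _ IgT1_k
theorem IgT2_c : CovC JI 183500 367002 ⟨10485760, 12582912, 1048576, 1310720, 0, 73728, 0, 33554432⟩ :=
  chkC_sound IgP_ok IgT2 _ IgT2_k
theorem IgT3_c : CovC JI 183500 367002 ⟨10485760, 12582912, 1310720, 1572864, 0, 73728, 0, 33554432⟩ :=
  chkC_sound IgP_ok IgT3 _ IgT3_k
theorem IgT4_c : CovC JI 183500 367002 ⟨10485760, 12582912, 1048576, 1572864, 73728, 147456, 0, 33554432⟩ :=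
  chkC_sound IgP_ok IgT4 _ IgT4_k
theorem IgT5_c : CovC JI 183500 367002 ⟨10485760, 12582912, 1048576, 1572864, 147456, 294912, 0, 33554432⟩ :=
  chkC_sound IgP_ok IgT5 _ IgT5_k
theorem IgT6_c : CovC JI 183500 367002 ⟨10485760, 12582912, 1572864, 2097152, 0, 294912, 0, 33554432⟩ :=
  chkC_sound IgP_ok IgT6 _ IgT6_k
theorem Ig_cov  : CovC JI 183500 367002 ⟨10485760, 12582912, 0, 2097152, 0, 294912, 0, 33554432⟩ :=
 (CovC.sK 1048576 (CovC.sK 524288 IgT0_c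
 IgT1_c)
 (CovC.sK 1572864 (CovC.sJ 147456 (CovC.sJ 73728 (CovC.sK 1310720 IgT2_c
 IgT3_c)
 IgT4_c)
 IgT5_c)
 IgT6_c))
end Pool.Agent.Lib.MP_33650d_pr.X
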