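import Pool.Agent.Lib.MP_33650d_pr.X.EFin
import Pool.Agent.Lib.MP_33650d_pr.X.CLeaf
import Pool.Agent.Lib.MP_33650d_pr.X.CKChk
import Pool.Agent.Lib.MP_33650d_pr.G.IhC0

set_option linter.defProp false

namespace Pool.Agent.Lib.MP_33650d_pr.X

theorem IhE00000_ok : Tab JI IhE00000 := IhE00000_k.tabI
theorem IhE00001_ok : Tab JI IhE00001 := IhE00001_k.tabI
theorem IhE0000_ok : Tab JI IhE0000 := E.Tab.node IhE00000_ok IhE00001_ok
theorem IhE0001_ok : Tab JI IhE0001 := IhE0001_k.tabI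
theorem IhE000_ok : Tab JI IhE000 := E.Tab.node IhE0000_ok IhE0001_ok
theorem IhE0010_ok : Tab JI IhE0010 := IhE0010_k.tabI
theorem IhE0011_ok : Tab JI IhE0011 := IhE0011_k.tabI
theorem IhE001_ok : Tab JI IhE001 := E.Tab.node IhE0010_ok IhE0011_ok
theorem IhE00_ok : Tab JI IhE00 := E.Tab.node IhE000_ok IhE001_ok
theorem IhE0100_ok : Tab JI IhE0100 := IhE0100_k.tabI
theorem IhE0101_ok : Tab JI IhE0101 := IhE0101_k.tabI
theorem IhE010_ok : Tab JI IhE010 := E.Tab.node IhE0100_ok IhE0101_ok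
theorem IhE01100_ok : Tab JI IhE01100 := IhE01100_k.tabI
theorem IhE01101_ok : Tab JI IhE01101 := IhE01101_k.tabI
theorem IhE0110_ok : Tab JI IhE0110 := E.Tab.node IhE01100_ok IhE01101_ok
theorem IhE01110_ok : Tab JI IhE01110 := IhE01110_k.tabI
theorem IhE01111_ok : Tab JI IhE01111 := IhE01111_k.tabI
theorem IhE0111_ok : Tab JI IhE0111 := E.Tab.node IhE01110_ok IhE01111_ok
theorem IhE011_ok : Tab JI IhE011 := E.Tab.node IhE0110_ok IhE0111_ok
theorem IhE01_ok : Tab JI IhE01 := E.Tab.node IhE010_ok IhE011_ok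
theorem IhE0_ok : Tab JI IhE0 := E.Tab.node IhE00_ok IhE01_ok
theorem IhE10000_ok : Tab JI IhE10000 := IhE10000_k.tabI
theorem IhE10001_ok : Tab JI IhE10001 := IhE10001_k.tabI
theorem IhE1000_ok : Tab JI IhE1000 := E.Tab.node IhE10000_ok IhE10001_ok
theorem IhE10010_ok : Tab JI IhE10010 := IhE10010_k.tabI
theorem IhE10011_ok : Tab JI IhE10011 := IhE10011_k.tabI
theorem IhE1001_ok : Tab JI IhE1001 := E.Tab.node IhE10010_ok IhE10011_ok
theorem IhE100_ok : Tab JI IhE100 := E.Tab.node IhE1000_ok IhE1001_ok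
theorem IhE1010_ok : Tab JI IhE1010 := IhE1010_k.tabI
theorem IhE1011_ok : Tab JI IhE1011 := IhE1011_k.tabI
theorem IhE101_ok : Tab JI IhE101 := E.Tab.node IhE1010_ok IhE1011_ok
theorem IhE10_ok : Tab JI IhE10 := E.Tab.node IhE100_ok IhE101_ok
theorem IhE1100_ok : Tab JI IhE1100 := IhE1100_k.tabI
theorem IhE1101_ok : Tab JI IhE1101 := IhE1101_k.tabI
theorem IhE110_ok : Tab JI IhE110 := E.Tab.node IhE1100_ok IhE1101_ok
theorem IhE11100_ok : Tab JI IhE11100 := IhE11100_k.tabI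
theorem IhE11101_ok : Tab JI IhE11101 := IhE11101_k.tabI
theorem IhE1110_ok : Tab JI IhE1110 := E.Tab.node IhE11100_ok IhE11101_ok
theorem IhE11110_ok : Tab JI IhE11110 := IhE11110_k.tabI
theorem IhE111110_ok : Tab JI IhE111110 := IhE111110_k.tabI
theorem IhE111111_ok : Tab JI IhE111111 := IhE111111_k.tabI
theorem IhE11111_ok : Tab JI IhE11111 := E.Tab.node IhE111110_ok IhE111111_ok
theorem IhE1111_ok : Tab JI IhE1111 := E.Tab.node IhE11110_ok IhE11111_ok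
theorem IhE111_ok : Tab JI IhE111 := E.Tab.node IhE1110_ok IhE1111_ok
theorem IhE11_ok : Tab JI IhE11 := E.Tab.node IhE110_ok IhE111_ok
theorem IhE1_ok : Tab JI IhE1 := E.Tab.node IhE10_ok IhE11_ok
theorem IhE_ok : Tab JI IhE := E.Tab.node IhE0_ok IhE1_ok
theorem IhK0_ok : IhK0.All (KV 36) := chkKT_sound (by decide) IhK0_k
theorem IhK1_ok : IhK1.All (KV 36) := chkKT_sound (by decide) IhK1_k
theorem IhK_ok : IhK.All (KV 36) := ⟨IhK0_ok, IhK1_ok⟩
theorem IhP_ok : IhP.Ok JI :=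
  ⟨Nat.succ_pos 23, (by decide : 36 ≤ 48), (by decide : 7 ≤ 255), IhE_ok, IhK_ok⟩
theorem IhT0_c : CovC JI 183500 367002 ⟨12582912, 16777216, 0, 1048576, 0, 294912, 0, 33554432⟩ :=
  chkC_sound IhP_ok IhT0 _ IhT0_k
theorem IhT1_c : CovC JI 183500 367002 ⟨12582912, 16777216, 1048576, 1572864, 0, 294912, 0, 33554432⟩ :=
  chkC_sound IhP_ok IhT1 _ IhT1_k
theorem IhT2_c : CovC JI 183500 367002 ⟨12582912, 16777216, 1572864, 2097152, 0, 294912, 0, 33554432⟩ :=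
  chkC_sound IhP_ok IhT2 _ IhT2_k
theorem Ih_cov  : CovC JI 183500 367002 ⟨12582912, 16777216, 0, 2097152, 0, 294912, 0, 33554432⟩ :=
 (CovC.sK 1048576 IhT0_c
 (CovC.sK 1572864 IhT1_c
 IhT2_c))
end Pool.Agent.Lib.MP_33650d_pr.X
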