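import Pool.Agent.Lib.MP_33650d_pr.X.EFin
import Pool.Agent.Lib.MP_33650d_pr.X.CLeaf
import Pool.Agent.Lib.MP_33650d_pr.X.CKChk
import Pool.Agent.Lib.MP_33650d_pr.G.IiC0

set_option linter.defProp false

namespace Pool.Agent.Lib.MP_33650d_pr.X

theorem IiE000_ok : Tab JI IiE000 := IiE000_k.tabI
theorem IiE0010_ok : Tab JI IiE0010 := IiE0010_k.tabI
theorem IiE0011_ok : Tab JI IiE0011 := IiE0011_k.tabI
theorem IiE001_ok : Tab JI IiE001 := E.Tab.node IiE0010_ok IiE0011_ok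
theorem IiE00_ok : Tab JI IiE00 := E.Tab.node IiE000_ok IiE001_ok
theorem IiE010_ok : Tab JI IiE010 := IiE010_k.tabI
theorem IiE011_ok : Tab JI IiE011 := IiE011_k.tabI
theorem IiE01_ok : Tab JI IiE01 := E.Tab.node IiE010_ok IiE011_ok
theorem IiE0_ok : Tab JI IiE0 := E.Tab.node IiE00_ok IiE01_ok
theorem IiE100_ok : Tab JI IiE100 := IiE100_k.tabI
theorem IiE101_ok : Tab JI IiE101 := IiE101_k.tabI
theorem IiE10_ok : Tab JI IiE10 := E.Tab.node IiE100_ok IiE101_ok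
theorem IiE1100_ok : Tab JI IiE1100 := IiE1100_k.tabI
theorem IiE1101_ok : Tab JI IiE1101 := IiE1101_k.tabI
theorem IiE110_ok : Tab JI IiE110 := E.Tab.node IiE1100_ok IiE1101_ok
theorem IiE111_ok : Tab JI IiE111 := IiE111_k.tabI
theorem IiE11_ok : Tab JI IiE11 := E.Tab.node IiE110_ok IiE111_ok
theorem IiE1_ok : Tab JI IiE1 := E.Tab.node IiE10_ok IiE11_ok
theorem IiE_ok : Tab JI IiE := E.Tab.node IiE0_ok IiE1_ok
theorem IiK0_ok : IiK0.All (KV 36) := chkKT_sound (by decide) IiK0_k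
theorem IiK1_ok : IiK1.All (KV 36) := chkKT_sound (by decide) IiK1_k
theorem IiK_ok : IiK.All (KV 36) := ⟨IiK0_ok, IiK1_ok⟩
theorem IiP_ok : IiP.Ok JI :=
  ⟨Nat.succ_pos 23, (by decide : 36 ≤ 48), (by decide : 6 ≤ 255), IiE_ok, IiK_ok⟩
theorem IiT0_c : CovC JI 183500 367002 ⟨16777216, 25165824, 0, 1048576, 0, 294912, 0, 33554432⟩ :=
  chkC_sound IiP_ok IiT0 _ IiT0_k
theorem IiT1_c : CovC JI 183500 367002 ⟨16777216, 25165824, 1048576, 2097152, 0, 294912, 0, 33554432⟩ :=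
  chkC_sound IiP_ok IiT1 _ IiT1_k
theorem Ii_cov  : CovC JI 183500 367002 ⟨16777216, 25165824, 0, 2097152, 0, 294912, 0, 33554432⟩ :=
 (CovC.sK 1048576 IiT0_c
 IiT1_c)
end Pool.Agent.Lib.MP_33650d_pr.X
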