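import Pool.Agent.Lib.MP_33650d_pr.X.EFin
import Pool.Agent.Lib.MP_33650d_pr.X.GSnd
import Pool.Agent.Lib.MP_33650d_pr.X.CKChk
import Pool.Agent.Lib.MP_33650d_pr.G.KaC0

set_option linter.defProp false

namespace Pool.Agent.Lib.MP_33650d_pr.X

theorem KaE00_ok : Tab JI KaE00 := KaE00_k.tabI
theorem KaE01_ok : Tab JI KaE01 := KaE01_k.tabI
theorem KaE0_ok : Tab JI KaE0 := E.Tab.node KaE00_ok KaE01_ok
theorem KaE10_ok : Tab JI KaE10 := KaE10_k.tabI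
theorem KaE11_ok : Tab JI KaE11 := KaE11_k.tabI
theorem KaE1_ok : Tab JI KaE1 := E.Tab.node KaE10_ok KaE11_ok
theorem KaE_ok : Tab JI KaE := E.Tab.node KaE0_ok KaE1_ok
theorem KaT1_c : CovC JI 367002 1394607 ⟨175852, 314573, 0, 1048576, 0, 294912, 0, 8388608⟩ :=
  chkD_sound (p := KaT1P) ⟨Nat.succ_pos 7, (by decide : 12 ≤ 48), (by decide : 23 ≤ 255), KaE_ok,
    chkKT_sound (by decide) KaT1K_k⟩ KaT1 _ KaT1_k
theorem KaT3_c : CovC JI 367002 1394607 ⟨175852, 314573, 1226834, 2097152, 0, 294912, 0, 8388608⟩ :=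
  chkD_sound (p := KaT3P) ⟨Nat.succ_pos 7, (by decide : 12 ≤ 48), (by decide : 23 ≤ 255), KaE_ok,
    chkKT_sound (by decide) KaT3K_k⟩ KaT3 _ KaT3_k
theorem KaT2_c : CovC JI 367002 1394607 ⟨175852, 314573, 1048576, 1226834, 0, 294912, 0, 8388608⟩ :=
  chkD_sound (p := KaT2P) ⟨Nat.succ_pos 7, (by decide : 12 ≤ 48), (by decide : 23 ≤ 255), KaE_ok,
    chkKT_sound (by decide) KaT2K_k⟩ KaT2 _ KaT2_k
theorem KaT0_c : CovC JI 367002 1394607 ⟨98304, 175852, 0, 2097152, 0, 294912, 0, 8388608⟩ :=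
  chkD_sound (p := KaT0P) ⟨Nat.succ_pos 7, (by decide : 12 ≤ 48), (by decide : 23 ≤ 255), KaE_ok,
    chkKT_sound (by decide) KaT0K_k⟩ KaT0 _ KaT0_k
theorem Ka_cov  : CovC JI 367002 1394607 ⟨98304, 314573, 0, 2097152, 0, 294912, 0, 8388608⟩ :=
 (CovC.sN 175852 KaT0_c
 (CovC.sK 1048576 KaT1_c
 (CovC.sK 1226834 KaT2_c
 KaT3_c)))
end Pool.Agent.Lib.MP_33650d_pr.X
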