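import Pool.Agent.Lib.MP_33650d_pr.X.EFin
import Pool.Agent.Lib.MP_33650d_pr.X.GSnd
import Pool.Agent.Lib.MP_33650d_pr.X.CKChk
import Pool.Agent.Lib.MP_33650d_pr.G.KbC0
import Pool.Agent.Lib.MP_33650d_pr.G.KbC1

set_option linter.defProp false

namespace Pool.Agent.Lib.MP_33650d_pr.X

theorem KbE00000_ok : Tab JI KbE00000 := KbE00000_k.tabI
theorem KbE00001_ok : Tab JI KbE00001 := KbE00001_k.tabI
theorem KbE0000_ok : Tab JI KbE0000 := E.Tab.node KbE00000_ok KbE00001_ok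
theorem KbE00010_ok : Tab JI KbE00010 := KbE00010_k.tabI
theorem KbE00011_ok : Tab JI KbE00011 := KbE00011_k.tabI
theorem KbE0001_ok : Tab JI KbE0001 := E.Tab.node KbE00010_ok KbE00011_ok
theorem KbE000_ok : Tab JI KbE000 := E.Tab.node KbE0000_ok KbE0001_ok
theorem KbE00100_ok : Tab JI KbE00100 := KbE00100_k.tabI
theorem KbE00101_ok : Tab JI KbE00101 := KbE00101_k.tabI
theorem KbE0010_ok : Tab JI KbE0010 := E.Tab.node KbE00100_ok KbE00101_ok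
theorem KbE001100_ok : Tab JI KbE001100 := KbE001100_k.tabI
theorem KbE001101_ok : Tab JI KbE001101 := KbE001101_k.tabI
theorem KbE00110_ok : Tab JI KbE00110 := E.Tab.node KbE001100_ok KbE001101_ok
theorem KbE00111_ok : Tab JI KbE00111 := KbE00111_k.tabI
theorem KbE0011_ok : Tab JI KbE0011 := E.Tab.node KbE00110_ok KbE00111_ok
theorem KbE001_ok : Tab JI KbE001 := E.Tab.node KbE0010_ok KbE0011_ok
theorem KbE00_ok : Tab JI KbE00 := E.Tab.node KbE000_ok KbE001_ok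
theorem KbE01000_ok : Tab JI KbE01000 := KbE01000_k.tabI
theorem KbE01001_ok : Tab JI KbE01001 := KbE01001_k.tabI
theorem KbE0100_ok : Tab JI KbE0100 := E.Tab.node KbE01000_ok KbE01001_ok
theorem KbE01010_ok : Tab JI KbE01010 := KbE01010_k.tabI
theorem KbE01011_ok : Tab JI KbE01011 := KbE01011_k.tabI
theorem KbE0101_ok : Tab JI KbE0101 := E.Tab.node KbE01010_ok KbE01011_ok
theorem KbE010_ok : Tab JI KbE010 := E.Tab.node KbE0100_ok KbE0101_ok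
theorem KbE01100_ok : Tab JI KbE01100 := KbE01100_k.tabI
theorem KbE01101_ok : Tab JI KbE01101 := KbE01101_k.tabI
theorem KbE0110_ok : Tab JI KbE0110 := E.Tab.node KbE01100_ok KbE01101_ok
theorem KbE01110_ok : Tab JI KbE01110 := KbE01110_k.tabI
theorem KbE01111_ok : Tab JI KbE01111 := KbE01111_k.tabI
theorem KbE0111_ok : Tab JI KbE0111 := E.Tab.node KbE01110_ok KbE01111_ok
theorem KbE011_ok : Tab JI KbE011 := E.Tab.node KbE0110_ok KbE0111_ok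
theorem KbE01_ok : Tab JI KbE01 := E.Tab.node KbE010_ok KbE011_ok
theorem KbE0_ok : Tab JI KbE0 := E.Tab.node KbE00_ok KbE01_ok
theorem KbE10000_ok : Tab JI KbE10000 := KbE10000_k.tabI
theorem KbE100010_ok : Tab JI KbE100010 := KbE100010_k.tabI
theorem KbE100011_ok : Tab JI KbE100011 := KbE100011_k.tabI
theorem KbE10001_ok : Tab JI KbE10001 := E.Tab.node KbE100010_ok KbE100011_ok
theorem KbE1000_ok : Tab JI KbE1000 := E.Tab.node KbE10000_ok KbE10001_ok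
theorem KbE10010_ok : Tab JI KbE10010 := KbE10010_k.tabI
theorem KbE10011_ok : Tab JI KbE10011 := KbE10011_k.tabI
theorem KbE1001_ok : Tab JI KbE1001 := E.Tab.node KbE10010_ok KbE10011_ok
theorem KbE100_ok : Tab JI KbE100 := E.Tab.node KbE1000_ok KbE1001_ok
theorem KbE10100_ok : Tab JI KbE10100 := KbE10100_k.tabI
theorem KbE10101_ok : Tab JI KbE10101 := KbE10101_k.tabI
theorem KbE1010_ok : Tab JI KbE1010 := E.Tab.node KbE10100_ok KbE10101_ok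
theorem KbE10110_ok : Tab JI KbE10110 := KbE10110_k.tabI
theorem KbE101110_ok : Tab JI KbE101110 := KbE101110_k.tabI
theorem KbE101111_ok : Tab JI KbE101111 := KbE101111_k.tabI
theorem KbE10111_ok : Tab JI KbE10111 := E.Tab.node KbE101110_ok KbE101111_ok
theorem KbE1011_ok : Tab JI KbE1011 := E.Tab.node KbE10110_ok KbE10111_ok
theorem KbE101_ok : Tab JI KbE101 := E.Tab.node KbE1010_ok KbE1011_ok
theorem KbE10_ok : Tab JI KbE10 := E.Tab.node KbE100_ok KbE101_ok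
theorem KbE11000_ok : Tab JI KbE11000 := KbE11000_k.tabI
theorem KbE11001_ok : Tab JI KbE11001 := KbE11001_k.tabI
theorem KbE1100_ok : Tab JI KbE1100 := E.Tab.node KbE11000_ok KbE11001_ok
theorem KbE1101_ok : Tab JI KbE1101 := KbE1101_k.tabI
theorem KbE110_ok : Tab JI KbE110 := E.Tab.node KbE1100_ok KbE1101_ok
theorem KbE11100_ok : Tab JI KbE11100 := KbE11100_k.tabI
theorem KbE11101_ok : Tab JI KbE11101 := KbE11101_k.tabI
theorem KbE1110_ok : Tab JI KbE1110 := E.Tab.node KbE11100_ok KbE11101_ok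
theorem KbE11110_ok : Tab JI KbE11110 := KbE11110_k.tabI
theorem KbE11111_ok : Tab JI KbE11111 := KbE11111_k.tabI
theorem KbE1111_ok : Tab JI KbE1111 := E.Tab.node KbE11110_ok KbE11111_ok
theorem KbE111_ok : Tab JI KbE111 := E.Tab.node KbE1110_ok KbE1111_ok
theorem KbE11_ok : Tab JI KbE11 := E.Tab.node KbE110_ok KbE111_ok
theorem KbE1_ok : Tab JI KbE1 := E.Tab.node KbE10_ok KbE11_ok
theorem KbE_ok : Tab JI KbE := E.Tab.node KbE0_ok KbE1_ok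
theorem KbT56_c : CovC JI 367002 1394607 ⟨576930, 629146, 1226834, 1363149, 33030, 47186, 235931, 275253⟩ :=
  chkD_sound (p := KbT56P) ⟨Nat.succ_pos 15, (by decide : 28 ≤ 48), (by decide : 26 ≤ 255), KbE_ok,
    chkKT_sound (by decide) KbT56K_k⟩ KbT56 _ KbT56_k
theorem KbT54_c : CovC JI 367002 1394607 ⟨529047, 576930, 1226834, 1363149, 18874, 47186, 235931, 314574⟩ :=
  chkD_sound (p := KbT54P) ⟨Nat.succ_pos 15, (by decide : 28 ≤ 48), (by decide : 26 ≤ 255), KbE_ok,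
    chkKT_sound (by decide) KbT54K_k⟩ KbT54 _ KbT54_k
theorem KbT72_c : CovC JI 367002 1394607 ⟨529047, 629146, 1363149, 1642408, 18874, 47186, 235931, 314574⟩ :=
  chkD_sound (p := KbT72P) ⟨Nat.succ_pos 15, (by decide : 28 ≤ 48), (by decide : 26 ≤ 255), KbE_ok,
    chkKT_sound (by decide) KbT72K_k⟩ KbT72 _ KbT72_k
theorem KbT13_c : CovC JI 367002 1394607 ⟨444873, 529047, 0, 1048576, 0, 294912, 0, 8388608⟩ :=
  chkD_sound (p := KbT13P) ⟨Nat.succ_pos 7, (by decide : 12 ≤ 48), (by decide : 13 ≤ 255), KbE_ok,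
    chkKT_sound (by decide) KbT13K_k⟩ KbT13 _ KbT13_k
theorem KbT12_c : CovC JI 367002 1394607 ⟨374092, 444873, 1363149, 2097152, 0, 294912, 0, 8388608⟩ :=
  chkD_sound (p := KbT12P) ⟨Nat.succ_pos 7, (by decide : 12 ≤ 48), (by decide : 13 ≤ 255), KbE_ok,
    chkKT_sound (by decide) KbT12K_k⟩ KbT12 _ KbT12_k
theorem KbT3_c : CovC JI 367002 1394607 ⟨374092, 444873, 0, 1048576, 0, 294912, 0, 8388608⟩ :=
  chkD_sound (p := KbT3P) ⟨Nat.succ_pos 7, (by decide : 12 ≤ 48), (by decide : 13 ≤ 255), KbE_ok,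
    chkKT_sound (by decide) KbT3K_k⟩ KbT3 _ KbT3_k
theorem KbT22_c : CovC JI 367002 1394607 ⟨444873, 529047, 1226834, 1363149, 0, 47186, 81180, 264524⟩ :=
  chkD_sound (p := KbT22P) ⟨Nat.succ_pos 15, (by decide : 28 ≤ 48), (by decide : 26 ≤ 255), KbE_ok,
    chkKT_sound (by decide) KbT22K_k⟩ KbT22 _ KbT22_k
theorem KbT71_c : CovC JI 367002 1394607 ⟨529047, 629146, 1363149, 1642408, 18874, 47186, 157287, 235931⟩ :=
  chkD_sound (p := KbT71P) ⟨Nat.succ_pos 15, (by decide : 28 ≤ 48), (by decide : 26 ≤ 255), KbE_ok,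
    chkKT_sound (by decide) KbT71K_k⟩ KbT71 _ KbT71_k
theorem KbT0_c : CovC JI 367002 1394607 ⟨314573, 374092, 0, 1048576, 0, 294912, 0, 8388608⟩ :=
  chkD_sound (p := KbT0P) ⟨Nat.succ_pos 7, (by decide : 12 ≤ 48), (by decide : 13 ≤ 255), KbE_ok,
    chkKT_sound (by decide) KbT0K_k⟩ KbT0 _ KbT0_k
theorem KbT62_c : CovC JI 367002 1394607 ⟨576930, 629146, 1226834, 1363149, 47186, 82576, 196609, 235931⟩ :=
  chkD_sound (p := KbT62P) ⟨Nat.succ_pos 15, (by decide : 28 ≤ 48), (by decide : 26 ≤ 255), KbE_ok,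
    chkKT_sound (by decide) KbT62K_k⟩ KbT62 _ KbT62_k
theorem KbT55_c : CovC JI 367002 1394607 ⟨576930, 629146, 1226834, 1363149, 18874, 33030, 235931, 275253⟩ :=
  chkD_sound (p := KbT55P) ⟨Nat.succ_pos 15, (by decide : 28 ≤ 48), (by decide : 26 ≤ 255), KbE_ok,
    chkKT_sound (by decide) KbT55K_k⟩ KbT55 _ KbT55_k
theorem KbT1_c : CovC JI 367002 1394607 ⟨314573, 374092, 1048576, 1226834, 0, 294912, 0, 8388608⟩ :=
  chkD_sound (p := KbT1P) ⟨Nat.succ_pos 7, (by decide : 12 ≤ 48), (by decide : 13 ≤ 255), KbE_ok,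
    chkKT_sound (by decide) KbT1K_k⟩ KbT1 _ KbT1_k
theorem KbT34_c : CovC JI 367002 1394607 ⟨444873, 529047, 1363149, 2097152, 0, 294912, 264524, 529048⟩ :=
  chkD_sound (p := KbT34P) ⟨Nat.succ_pos 7, (by decide : 12 ≤ 48), (by decide : 13 ≤ 255), KbE_ok,
    chkKT_sound (by decide) KbT34K_k⟩ KbT34 _ KbT34_k
theorem KbT23_c : CovC JI 367002 1394607 ⟨444873, 529047, 1226834, 1363149, 47186, 117965, 81180, 264524⟩ :=
  chkD_sound (p := KbT23P) ⟨Nat.succ_pos 7, (by decide : 12 ≤ 48), (by decide : 13 ≤ 255), KbE_ok,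
    chkKT_sound (by decide) KbT23K_k⟩ KbT23 _ KbT23_k
theorem KbT31_c : CovC JI 367002 1394607 ⟨444873, 529047, 1363149, 1821268, 47186, 117965, 132262, 264524⟩ :=
  chkD_sound (p := KbT31P) ⟨Nat.succ_pos 7, (by decide : 12 ≤ 48), (by decide : 13 ≤ 255), KbE_ok,
    chkKT_sound (by decide) KbT31K_k⟩ KbT31 _ KbT31_k
theorem KbT39_c : CovC JI 367002 1394607 ⟨529047, 629146, 1048576, 1226834, 18874, 47186, 157287, 235931⟩ :=
  chkD_sound (p := KbT39P) ⟨Nat.succ_pos 15, (by decide : 28 ≤ 48), (by decide : 26 ≤ 255), KbE_ok,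
    chkKT_sound (by decide) KbT39K_k⟩ KbT39 _ KbT39_k
theorem KbT82_c : CovC JI 367002 1394607 ⟨529047, 629146, 1363149, 2097152, 117965, 294912, 0, 314574⟩ :=
  chkD_sound (p := KbT82P) ⟨Nat.succ_pos 7, (by decide : 12 ≤ 48), (by decide : 13 ≤ 255), KbE_ok,
    chkKT_sound (by decide) KbT82K_k⟩ KbT82 _ KbT82_k
theorem KbT33_c : CovC JI 367002 1394607 ⟨444873, 529047, 1363149, 2097152, 117965, 294912, 0, 264524⟩ :=
  chkD_sound (p := KbT33P) ⟨Nat.succ_pos 7, (by decide : 12 ≤ 48), (by decide : 13 ≤ 255), KbE_ok,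
    chkKT_sound (by decide) KbT33K_k⟩ KbT33 _ KbT33_k
theorem KbT5_c : CovC JI 367002 1394607 ⟨374092, 444873, 1226834, 1363149, 0, 294912, 0, 222437⟩ :=
  chkD_sound (p := KbT5P) ⟨Nat.succ_pos 7, (by decide : 12 ≤ 48), (by decide : 13 ≤ 255), KbE_ok,
    chkKT_sound (by decide) KbT5K_k⟩ KbT5 _ KbT5_k
theorem KbT77_c : CovC JI 367002 1394607 ⟨529047, 629146, 1363149, 1821268, 82576, 117965, 196609, 235931⟩ :=
  chkD_sound (p := KbT77P) ⟨Nat.succ_pos 7, (by decide : 12 ≤ 48), (by decide : 13 ≤ 255), KbE_ok,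
    chkKT_sound (by decide) KbT77K_k⟩ KbT77 _ KbT77_k
theorem KbT48_c : CovC JI 367002 1394607 ⟨529047, 629146, 1048576, 1226834, 117965, 294912, 0, 314574⟩ :=
  chkD_sound (p := KbT48P) ⟨Nat.succ_pos 7, (by decide : 12 ≤ 48), (by decide : 13 ≤ 255), KbE_ok,
    chkKT_sound (by decide) KbT48K_k⟩ KbT48 _ KbT48_k
theorem KbT66_c : CovC JI 367002 1394607 ⟨529047, 629146, 1226834, 1363149, 117965, 294912, 0, 314574⟩ :=
  chkD_sound (p := KbT66P) ⟨Nat.succ_pos 7, (by decide : 12 ≤ 48), (by decide : 13 ≤ 255), KbE_ok,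
    chkKT_sound (by decide) KbT66K_k⟩ KbT66 _ KbT66_k
theorem KbT70_c : CovC JI 367002 1394607 ⟨529047, 629146, 1363149, 1642408, 0, 18874, 157287, 314574⟩ :=
  chkD_sound (p := KbT70P) ⟨Nat.succ_pos 15, (by decide : 28 ≤ 48), (by decide : 26 ≤ 255), KbE_ok,
    chkKT_sound (by decide) KbT70K_k⟩ KbT70 _ KbT70_k
theorem KbT74_c : CovC JI 367002 1394607 ⟨529047, 629146, 1363149, 1821268, 47186, 117965, 157287, 196609⟩ :=
  chkD_sound (p := KbT74P) ⟨Nat.succ_pos 7, (by decide : 12 ≤ 48), (by decide : 13 ≤ 255), KbE_ok,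
    chkKT_sound (by decide) KbT74K_k⟩ KbT74 _ KbT74_k
theorem KbT57_c : CovC JI 367002 1394607 ⟨576930, 629146, 1226834, 1363149, 18874, 47186, 275253, 314574⟩ :=
  chkD_sound (p := KbT57P) ⟨Nat.succ_pos 15, (by decide : 28 ≤ 48), (by decide : 26 ≤ 255), KbE_ok,
    chkKT_sound (by decide) KbT57K_k⟩ KbT57 _ KbT57_k
theorem KbT45_c : CovC JI 367002 1394607 ⟨576930, 629146, 1137705, 1226834, 47186, 82576, 235931, 275253⟩ :=
  chkD_sound (p := KbT45P) ⟨Nat.succ_pos 15, (by decide : 28 ≤ 48), (by decide : 26 ≤ 255), KbE_ok,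
    chkKT_sound (by decide) KbT45K_k⟩ KbT45 _ KbT45_k
theorem KbT27_c : CovC JI 367002 1394607 ⟨444873, 529047, 1363149, 1821268, 0, 117965, 0, 132262⟩ :=
  chkD_sound (p := KbT27P) ⟨Nat.succ_pos 7, (by decide : 12 ≤ 48), (by decide : 13 ≤ 255), KbE_ok,
    chkKT_sound (by decide) KbT27K_k⟩ KbT27 _ KbT27_k
theorem KbT51_c : CovC JI 367002 1394607 ⟨529047, 629146, 1226834, 1363149, 0, 117965, 0, 157287⟩ :=
  chkD_sound (p := KbT51P) ⟨Nat.succ_pos 7, (by decide : 12 ≤ 48), (by decide : 13 ≤ 255), KbE_ok,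
    chkKT_sound (by decide) KbT51K_k⟩ KbT51 _ KbT51_k
theorem KbT44_c : CovC JI 367002 1394607 ⟨576930, 629146, 1048576, 1137705, 47186, 82576, 235931, 275253⟩ :=
  chkD_sound (p := KbT44P) ⟨Nat.succ_pos 7, (by decide : 12 ≤ 48), (by decide : 13 ≤ 255), KbE_ok,
    chkKT_sound (by decide) KbT44K_k⟩ KbT44 _ KbT44_k
theorem KbT60_c : CovC JI 367002 1394607 ⟨529047, 576930, 1226834, 1363149, 64881, 82576, 196609, 235931⟩ :=
  chkD_sound (p := KbT60P) ⟨Nat.succ_pos 7, (by decide : 12 ≤ 48), (by decide : 13 ≤ 255), KbE_ok,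
    chkKT_sound (by decide) KbT60K_k⟩ KbT60 _ KbT60_k
theorem KbT43_c : CovC JI 367002 1394607 ⟨529047, 576930, 1048576, 1226834, 47186, 82576, 235931, 314574⟩ :=
  chkD_sound (p := KbT43P) ⟨Nat.succ_pos 7, (by decide : 12 ≤ 48), (by decide : 13 ≤ 255), KbE_ok,
    chkKT_sound (by decide) KbT43K_k⟩ KbT43 _ KbT43_k
theorem KbT67_c : CovC JI 367002 1394607 ⟨529047, 629146, 1226834, 1363149, 0, 294912, 314574, 629147⟩ :=
  chkD_sound (p := KbT67P) ⟨Nat.succ_pos 7, (by decide : 12 ≤ 48), (by decide : 13 ≤ 255), KbE_ok,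
    chkKT_sound (by decide) KbT67K_k⟩ KbT67 _ KbT67_k
theorem KbT28_c : CovC JI 367002 1394607 ⟨444873, 529047, 1363149, 1642408, 0, 47186, 132262, 198393⟩ :=
  chkD_sound (p := KbT28P) ⟨Nat.succ_pos 7, (by decide : 12 ≤ 48), (by decide : 13 ≤ 255), KbE_ok,
    chkKT_sound (by decide) KbT28K_k⟩ KbT28 _ KbT28_k
theorem KbT63_c : CovC JI 367002 1394607 ⟨576930, 629146, 1226834, 1363149, 82576, 117965, 196609, 235931⟩ :=
  chkD_sound (p := KbT63P) ⟨Nat.succ_pos 7, (by decide : 12 ≤ 48), (by decide : 13 ≤ 255), KbE_ok,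
    chkKT_sound (by decide) KbT63K_k⟩ KbT63 _ KbT63_k
theorem KbT76_c : CovC JI 367002 1394607 ⟨529047, 629146, 1592209, 1821268, 47186, 82576, 196609, 235931⟩ :=
  chkD_sound (p := KbT76P) ⟨Nat.succ_pos 7, (by decide : 12 ≤ 48), (by decide : 13 ≤ 255), KbE_ok,
    chkKT_sound (by decide) KbT76K_k⟩ KbT76 _ KbT76_k
theorem KbT10_c : CovC JI 367002 1394607 ⟨374092, 444873, 1226834, 1363149, 142131, 294912, 222437, 444874⟩ :=
  chkD_sound (p := KbT10P) ⟨Nat.succ_pos 7, (by decide : 1 ≤ 48), (by decide : 1 ≤ 255), KbE_ok,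
    KT0_ok⟩ KbT10 _ KbT10_k
theorem KbT21_c : CovC JI 367002 1394607 ⟨444873, 529047, 1226834, 1363149, 0, 117965, 0, 81180⟩ :=
  chkD_sound (p := KbT21P) ⟨Nat.succ_pos 7, (by decide : 1 ≤ 48), (by decide : 1 ≤ 255), KbE_ok,
    KT0_ok⟩ KbT21 _ KbT21_k
theorem KbT32_c : CovC JI 367002 1394607 ⟨444873, 529047, 1821268, 2097152, 0, 117965, 0, 264524⟩ :=
  chkD_sound (p := KbT32P) ⟨Nat.succ_pos 7, (by decide : 1 ≤ 48), (by decide : 1 ≤ 255), KbE_ok,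
    KT0_ok⟩ KbT32 _ KbT32_k
theorem KbT81_c : CovC JI 367002 1394607 ⟨529047, 629146, 1821268, 2097152, 0, 117965, 0, 314574⟩ :=
  chkD_sound (p := KbT81P) ⟨Nat.succ_pos 7, (by decide : 1 ≤ 48), (by decide : 1 ≤ 255), KbE_ok,
    KT0_ok⟩ KbT81 _ KbT81_k
theorem KbT20_c : CovC JI 367002 1394607 ⟨444873, 529047, 1048576, 1226834, 0, 294912, 529048, 8388608⟩ :=
  chkD_sound (p := KbT20P) ⟨Nat.succ_pos 7, (by decide : 1 ≤ 48), (by decide : 1 ≤ 255), KbE_ok,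
    KT0_ok⟩ KbT20 _ KbT20_k
theorem KbT35_c : CovC JI 367002 1394607 ⟨444873, 529047, 1363149, 2097152, 0, 294912, 529048, 8388608⟩ :=
  chkD_sound (p := KbT35P) ⟨Nat.succ_pos 7, (by decide : 1 ≤ 48), (by decide : 1 ≤ 255), KbE_ok,
    KT0_ok⟩ KbT35 _ KbT35_k
theorem KbT68_c : CovC JI 367002 1394607 ⟨529047, 629146, 1226834, 1363149, 0, 294912, 629147, 8388608⟩ :=
  chkD_sound (p := KbT68P) ⟨Nat.succ_pos 7, (by decide : 1 ≤ 48), (by decide : 1 ≤ 255), KbE_ok,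
    KT0_ok⟩ KbT68 _ KbT68_k
theorem KbT64_c : CovC JI 367002 1394607 ⟨529047, 629146, 1226834, 1363149, 47186, 82576, 235931, 314574⟩ :=
  chkD_sound (p := KbT64P) ⟨Nat.succ_pos 15, (by decide : 28 ≤ 48), (by decide : 26 ≤ 255), KbE_ok,
    chkKT_sound (by decide) KbT64K_k⟩ KbT64 _ KbT64_k
theorem KbT36_c : CovC JI 367002 1394607 ⟨529047, 629146, 0, 1048576, 0, 294912, 0, 8388608⟩ :=
  chkD_sound (p := KbT36P) ⟨Nat.succ_pos 7, (by decide : 12 ≤ 48), (by decide : 13 ≤ 255), KbE_ok,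
    chkKT_sound (by decide) KbT36K_k⟩ KbT36 _ KbT36_k
theorem KbT2_c : CovC JI 367002 1394607 ⟨314573, 374092, 1226834, 2097152, 0, 294912, 0, 8388608⟩ :=
  chkD_sound (p := KbT2P) ⟨Nat.succ_pos 7, (by decide : 12 ≤ 48), (by decide : 13 ≤ 255), KbE_ok,
    chkKT_sound (by decide) KbT2K_k⟩ KbT2 _ KbT2_k
theorem KbT41_c : CovC JI 367002 1394607 ⟨576930, 629146, 1048576, 1226834, 18874, 47186, 235931, 314574⟩ :=
  chkD_sound (p := KbT41P) ⟨Nat.succ_pos 15, (by decide : 28 ≤ 48), (by decide : 26 ≤ 255), KbE_ok,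
    chkKT_sound (by decide) KbT41K_k⟩ KbT41 _ KbT41_k
theorem KbT53_c : CovC JI 367002 1394607 ⟨529047, 629146, 1226834, 1363149, 18874, 47186, 157287, 235931⟩ :=
  chkD_sound (p := KbT53P) ⟨Nat.succ_pos 15, (by decide : 28 ≤ 48), (by decide : 26 ≤ 255), KbE_ok,
    chkKT_sound (by decide) KbT53K_k⟩ KbT53 _ KbT53_k
theorem KbT40_c : CovC JI 367002 1394607 ⟨529047, 576930, 1048576, 1226834, 18874, 47186, 235931, 314574⟩ :=
  chkD_sound (p := KbT40P) ⟨Nat.succ_pos 15, (by decide : 28 ≤ 48), (by decide : 26 ≤ 255), KbE_ok,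
    chkKT_sound (by decide) KbT40K_k⟩ KbT40 _ KbT40_k
theorem KbT4_c : CovC JI 367002 1394607 ⟨374092, 444873, 1048576, 1226834, 0, 294912, 0, 8388608⟩ :=
  chkD_sound (p := KbT4P) ⟨Nat.succ_pos 7, (by decide : 12 ≤ 48), (by decide : 13 ≤ 255), KbE_ok,
    chkKT_sound (by decide) KbT4K_k⟩ KbT4 _ KbT4_k
theorem KbT78_c : CovC JI 367002 1394607 ⟨529047, 629146, 1363149, 1592209, 47186, 82576, 235931, 314574⟩ :=
  chkD_sound (p := KbT78P) ⟨Nat.succ_pos 15, (by decide : 28 ≤ 48), (by decide : 26 ≤ 255), KbE_ok,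
    chkKT_sound (by decide) KbT78K_k⟩ KbT78 _ KbT78_k
theorem KbT75_c : CovC JI 367002 1394607 ⟨529047, 629146, 1363149, 1592209, 47186, 82576, 196609, 235931⟩ :=
  chkD_sound (p := KbT75P) ⟨Nat.succ_pos 15, (by decide : 28 ≤ 48), (by decide : 26 ≤ 255), KbE_ok,
    chkKT_sound (by decide) KbT75K_k⟩ KbT75 _ KbT75_k
theorem KbT19_c : CovC JI 367002 1394607 ⟨444873, 529047, 1048576, 1226834, 0, 294912, 264524, 529048⟩ :=
  chkD_sound (p := KbT19P) ⟨Nat.succ_pos 7, (by decide : 12 ≤ 48), (by decide : 13 ≤ 255), KbE_ok,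
    chkKT_sound (by decide) KbT19K_k⟩ KbT19 _ KbT19_k
theorem KbT42_c : CovC JI 367002 1394607 ⟨529047, 629146, 1048576, 1226834, 47186, 117965, 157287, 235931⟩ :=
  chkD_sound (p := KbT42P) ⟨Nat.succ_pos 7, (by decide : 12 ≤ 48), (by decide : 13 ≤ 255), KbE_ok,
    chkKT_sound (by decide) KbT42K_k⟩ KbT42 _ KbT42_k
theorem KbT29_c : CovC JI 367002 1394607 ⟨444873, 529047, 1363149, 1642408, 0, 47186, 198393, 264524⟩ :=
  chkD_sound (p := KbT29P) ⟨Nat.succ_pos 15, (by decide : 28 ≤ 48), (by decide : 26 ≤ 255), KbE_ok,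
    chkKT_sound (by decide) KbT29K_k⟩ KbT29 _ KbT29_k
theorem KbT16_c : CovC JI 367002 1394607 ⟨444873, 529047, 1048576, 1226834, 0, 47186, 174306, 264524⟩ :=
  chkD_sound (p := KbT16P) ⟨Nat.succ_pos 15, (by decide : 28 ≤ 48), (by decide : 26 ≤ 255), KbE_ok,
    chkKT_sound (by decide) KbT16K_k⟩ KbT16 _ KbT16_k
theorem KbT25_c : CovC JI 367002 1394607 ⟨444873, 529047, 1226834, 1363149, 0, 294912, 264524, 529048⟩ :=
  chkD_sound (p := KbT25P) ⟨Nat.succ_pos 7, (by decide : 12 ≤ 48), (by decide : 13 ≤ 255), KbE_ok,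
    chkKT_sound (by decide) KbT25K_k⟩ KbT25 _ KbT25_k
theorem KbT52_c : CovC JI 367002 1394607 ⟨529047, 629146, 1226834, 1363149, 0, 18874, 157287, 314574⟩ :=
  chkD_sound (p := KbT52P) ⟨Nat.succ_pos 15, (by decide : 28 ≤ 48), (by decide : 26 ≤ 255), KbE_ok,
    chkKT_sound (by decide) KbT52K_k⟩ KbT52 _ KbT52_k
theorem KbT38_c : CovC JI 367002 1394607 ⟨529047, 629146, 1048576, 1226834, 0, 18874, 157287, 314574⟩ :=
  chkD_sound (p := KbT38P) ⟨Nat.succ_pos 15, (by decide : 28 ≤ 48), (by decide : 26 ≤ 255), KbE_ok,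
    chkKT_sound (by decide) KbT38K_k⟩ KbT38 _ KbT38_k
theorem KbT7_c : CovC JI 367002 1394607 ⟨374092, 444873, 1226834, 1363149, 22741, 56852, 222437, 361992⟩ :=
  chkD_sound (p := KbT7P) ⟨Nat.succ_pos 15, (by decide : 28 ≤ 48), (by decide : 26 ≤ 255), KbE_ok,
    chkKT_sound (by decide) KbT7K_k⟩ KbT7 _ KbT7_k
theorem KbT6_c : CovC JI 367002 1394607 ⟨374092, 444873, 1226834, 1363149, 0, 22741, 222437, 361992⟩ :=
  chkD_sound (p := KbT6P) ⟨Nat.succ_pos 7, (by decide : 12 ≤ 48), (by decide : 13 ≤ 255), KbE_ok,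
    chkKT_sound (by decide) KbT6K_k⟩ KbT6 _ KbT6_k
theorem KbT83_c : CovC JI 367002 1394607 ⟨529047, 629146, 1363149, 2097152, 0, 294912, 314574, 629147⟩ :=
  chkD_sound (p := KbT83P) ⟨Nat.succ_pos 7, (by decide : 12 ≤ 48), (by decide : 13 ≤ 255), KbE_ok,
    chkKT_sound (by decide) KbT83K_k⟩ KbT83 _ KbT83_k
theorem KbT80_c : CovC JI 367002 1394607 ⟨529047, 629146, 1363149, 1821268, 82576, 117965, 235931, 314574⟩ :=
  chkD_sound (p := KbT80P) ⟨Nat.succ_pos 7, (by decide : 12 ≤ 48), (by decide : 13 ≤ 255), KbE_ok,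
    chkKT_sound (by decide) KbT80K_k⟩ KbT80 _ KbT80_k
theorem KbT18_c : CovC JI 367002 1394607 ⟨444873, 529047, 1048576, 1226834, 117965, 294912, 0, 264524⟩ :=
  chkD_sound (p := KbT18P) ⟨Nat.succ_pos 7, (by decide : 12 ≤ 48), (by decide : 13 ≤ 255), KbE_ok,
    chkKT_sound (by decide) KbT18K_k⟩ KbT18 _ KbT18_k
theorem KbT17_c : CovC JI 367002 1394607 ⟨444873, 529047, 1048576, 1226834, 47186, 117965, 174306, 264524⟩ :=
  chkD_sound (p := KbT17P) ⟨Nat.succ_pos 7, (by decide : 12 ≤ 48), (by decide : 13 ≤ 255), KbE_ok,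
    chkKT_sound (by decide) KbT17K_k⟩ KbT17 _ KbT17_k
theorem KbT24_c : CovC JI 367002 1394607 ⟨444873, 529047, 1226834, 1363149, 117965, 294912, 0, 264524⟩ :=
  chkD_sound (p := KbT24P) ⟨Nat.succ_pos 7, (by decide : 12 ≤ 48), (by decide : 13 ≤ 255), KbE_ok,
    chkKT_sound (by decide) KbT24K_k⟩ KbT24 _ KbT24_k
theorem KbT59_c : CovC JI 367002 1394607 ⟨529047, 576930, 1226834, 1363149, 47186, 64881, 196609, 235931⟩ :=
  chkD_sound (p := KbT59P) ⟨Nat.succ_pos 15, (by decide : 28 ≤ 48), (by decide : 26 ≤ 255), KbE_ok,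
    chkKT_sound (by decide) KbT59K_k⟩ KbT59 _ KbT59_k
theorem KbT47_c : CovC JI 367002 1394607 ⟨529047, 629146, 1048576, 1226834, 82576, 117965, 235931, 314574⟩ :=
  chkD_sound (p := KbT47P) ⟨Nat.succ_pos 7, (by decide : 12 ≤ 48), (by decide : 13 ≤ 255), KbE_ok,
    chkKT_sound (by decide) KbT47K_k⟩ KbT47 _ KbT47_k
theorem KbT65_c : CovC JI 367002 1394607 ⟨529047, 629146, 1226834, 1363149, 82576, 117965, 235931, 314574⟩ :=
  chkD_sound (p := KbT65P) ⟨Nat.succ_pos 7, (by decide : 12 ≤ 48), (by decide : 13 ≤ 255), KbE_ok,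
    chkKT_sound (by decide) KbT65K_k⟩ KbT65 _ KbT65_k
theorem KbT37_c : CovC JI 367002 1394607 ⟨529047, 629146, 1048576, 1226834, 0, 117965, 0, 157287⟩ :=
  chkD_sound (p := KbT37P) ⟨Nat.succ_pos 7, (by decide : 12 ≤ 48), (by decide : 13 ≤ 255), KbE_ok,
    chkKT_sound (by decide) KbT37K_k⟩ KbT37 _ KbT37_k
theorem KbT15_c : CovC JI 367002 1394607 ⟨444873, 529047, 1048576, 1226834, 0, 117965, 84087, 174306⟩ :=
  chkD_sound (p := KbT15P) ⟨Nat.succ_pos 7, (by decide : 12 ≤ 48), (by decide : 13 ≤ 255), KbE_ok,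
    chkKT_sound (by decide) KbT15K_k⟩ KbT15 _ KbT15_k
theorem KbT58_c : CovC JI 367002 1394607 ⟨529047, 629146, 1226834, 1363149, 47186, 117965, 157287, 196609⟩ :=
  chkD_sound (p := KbT58P) ⟨Nat.succ_pos 7, (by decide : 12 ≤ 48), (by decide : 13 ≤ 255), KbE_ok,
    chkKT_sound (by decide) KbT58K_k⟩ KbT58 _ KbT58_k
theorem KbT61_c : CovC JI 367002 1394607 ⟨529047, 576930, 1226834, 1363149, 82576, 117965, 196609, 235931⟩ :=
  chkD_sound (p := KbT61P) ⟨Nat.succ_pos 7, (by decide : 12 ≤ 48), (by decide : 13 ≤ 255), KbE_ok,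
    chkKT_sound (by decide) KbT61K_k⟩ KbT61 _ KbT61_k
theorem KbT49_c : CovC JI 367002 1394607 ⟨529047, 629146, 1048576, 1226834, 0, 294912, 314574, 629147⟩ :=
  chkD_sound (p := KbT49P) ⟨Nat.succ_pos 7, (by decide : 12 ≤ 48), (by decide : 13 ≤ 255), KbE_ok,
    chkKT_sound (by decide) KbT49K_k⟩ KbT49 _ KbT49_k
theorem KbT8_c : CovC JI 367002 1394607 ⟨374092, 444873, 1226834, 1363149, 56852, 142131, 222437, 361992⟩ :=
  chkD_sound (p := KbT8P) ⟨Nat.succ_pos 7, (by decide : 12 ≤ 48), (by decide : 13 ≤ 255), KbE_ok,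
    chkKT_sound (by decide) KbT8K_k⟩ KbT8 _ KbT8_k
theorem KbT79_c : CovC JI 367002 1394607 ⟨529047, 629146, 1592209, 1821268, 47186, 82576, 235931, 314574⟩ :=
  chkD_sound (p := KbT79P) ⟨Nat.succ_pos 7, (by decide : 12 ≤ 48), (by decide : 13 ≤ 255), KbE_ok,
    chkKT_sound (by decide) KbT79K_k⟩ KbT79 _ KbT79_k
theorem KbT46_c : CovC JI 367002 1394607 ⟨576930, 629146, 1048576, 1226834, 47186, 82576, 275253, 314574⟩ :=
  chkD_sound (p := KbT46P) ⟨Nat.succ_pos 7, (by decide : 12 ≤ 48), (by decide : 13 ≤ 255), KbE_ok,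
    chkKT_sound (by decide) KbT46K_k⟩ KbT46 _ KbT46_k
theorem KbT69_c : CovC JI 367002 1394607 ⟨529047, 629146, 1363149, 1821268, 0, 117965, 0, 157287⟩ :=
  chkD_sound (p := KbT69P) ⟨Nat.succ_pos 7, (by decide : 12 ≤ 48), (by decide : 13 ≤ 255), KbE_ok,
    chkKT_sound (by decide) KbT69K_k⟩ KbT69 _ KbT69_k
theorem KbT9_c : CovC JI 367002 1394607 ⟨374092, 444873, 1226834, 1363149, 0, 142131, 361992, 444874⟩ :=
  chkD_sound (p := KbT9P) ⟨Nat.succ_pos 7, (by decide : 1 ≤ 48), (by decide : 1 ≤ 255), KbE_ok,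
    KT0_ok⟩ KbT9 _ KbT9_k
theorem KbT14_c : CovC JI 367002 1394607 ⟨444873, 529047, 1048576, 1226834, 0, 117965, 0, 84087⟩ :=
  chkD_sound (p := KbT14P) ⟨Nat.succ_pos 7, (by decide : 1 ≤ 48), (by decide : 1 ≤ 255), KbE_ok,
    KT0_ok⟩ KbT14 _ KbT14_k
theorem KbT30_c : CovC JI 367002 1394607 ⟨444873, 529047, 1642408, 1821268, 0, 47186, 132262, 264524⟩ :=
  chkD_sound (p := KbT30P) ⟨Nat.succ_pos 7, (by decide : 1 ≤ 48), (by decide : 1 ≤ 255), KbE_ok,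
    KT0_ok⟩ KbT30 _ KbT30_k
theorem KbT73_c : CovC JI 367002 1394607 ⟨529047, 629146, 1642408, 1821268, 0, 47186, 157287, 314574⟩ :=
  chkD_sound (p := KbT73P) ⟨Nat.succ_pos 7, (by decide : 1 ≤ 48), (by decide : 1 ≤ 255), KbE_ok,
    KT0_ok⟩ KbT73 _ KbT73_k
theorem KbT11_c : CovC JI 367002 1394607 ⟨374092, 444873, 1226834, 1363149, 0, 294912, 444874, 8388608⟩ :=
  chkD_sound (p := KbT11P) ⟨Nat.succ_pos 7, (by decide : 1 ≤ 48), (by decide : 1 ≤ 255), KbE_ok,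
    KT0_ok⟩ KbT11 _ KbT11_k
theorem KbT26_c : CovC JI 367002 1394607 ⟨444873, 529047, 1226834, 1363149, 0, 294912, 529048, 8388608⟩ :=
  chkD_sound (p := KbT26P) ⟨Nat.succ_pos 7, (by decide : 1 ≤ 48), (by decide : 1 ≤ 255), KbE_ok,
    KT0_ok⟩ KbT26 _ KbT26_k
theorem KbT50_c : CovC JI 367002 1394607 ⟨529047, 629146, 1048576, 1226834, 0, 294912, 629147, 8388608⟩ :=
  chkD_sound (p := KbT50P) ⟨Nat.succ_pos 7, (by decide : 1 ≤ 48), (by decide : 1 ≤ 255), KbE_ok,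
    KT0_ok⟩ KbT50 _ KbT50_k
theorem KbT84_c : CovC JI 367002 1394607 ⟨529047, 629146, 1363149, 2097152, 0, 294912, 629147, 8388608⟩ :=
  chkD_sound (p := KbT84P) ⟨Nat.succ_pos 7, (by decide : 1 ≤ 48), (by decide : 1 ≤ 255), KbE_ok,
    KT0_ok⟩ KbT84 _ KbT84_k
theorem Kb_cov  : CovC JI 367002 1394607 ⟨314573, 629146, 0, 2097152, 0, 294912, 0, 8388608⟩ :=
 (CovC.sN 374092 (CovC.sK 1048576 KbT0_c
 (CovC.sK 1226834 KbT1_c
 KbT2_c))
 (CovC.sN 444873 (CovC.sK 1048576 KbT3_c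
 (CovC.sK 1226834 KbT4_c
 (CovC.sK 1363149 (CovC.sQ 444874 (CovC.sQ 222437 KbT5_c
 (CovC.sJ 142131 (CovC.sQ 361992 (CovC.sJ 56852 (CovC.sJ 22741 KbT6_c
 KbT7_c)
 KbT8_c)
 KbT9_c)
 KbT10_c))
 KbT11_c)
 KbT12_c)))
 (CovC.sN 529047 (CovC.sK 1048576 KbT13_c
 (CovC.sK 1226834 (CovC.sQ 529048 (CovC.sQ 264524 (CovC.sJ 117965 (CovC.sQ 84087 KbT14_c
 (CovC.sQ 174306 KbT15_c
 (CovC.sJ 47186 KbT16_c
 KbT17_c)))
 KbT18_c)
 KbT19_c)
 KbT20_c)
 (CovC.sK 1363149 (CovC.sQ 529048 (CovC.sQ 264524 (CovC.sJ 117965 (CovC.sQ 81180 KbT21_c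
 (CovC.sJ 47186 KbT22_c
 KbT23_c))
 KbT24_c)
 KbT25_c)
 KbT26_c)
 (CovC.sQ 529048 (CovC.sQ 264524 (CovC.sJ 117965 (CovC.sK 1821268 (CovC.sQ 132262 KbT27_c
 (CovC.sJ 47186 (CovC.sK 1642408 (CovC.sQ 198393 KbT28_c
 KbT29_c)
 KbT30_c)
 KbT31_c))
 KbT32_c)
 KbT33_c)
 KbT34_c)
 KbT35_c))))
 (CovC.sK 1048576 KbT36_c
 (CovC.sK 1226834 (CovC.sQ 629147 (CovC.sQ 314574 (CovC.sJ 117965 (CovC.sQ 157287 KbT37_c
 (CovC.sJ 47186 (CovC.sJ 18874 KbT38_c
 (CovC.sQ 235931 KbT39_c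
 (CovC.sN 576930 KbT40_c
 KbT41_c)))
 (CovC.sQ 235931 KbT42_c
 (CovC.sJ 82576 (CovC.sN 576930 KbT43_c
 (CovC.sQ 275253 (CovC.sK 1137705 KbT44_c
 KbT45_c)
 KbT46_c))
 KbT47_c))))
 KbT48_c)
 KbT49_c)
 KbT50_c)
 (CovC.sK 1363149 (CovC.sQ 629147 (CovC.sQ 314574 (CovC.sJ 117965 (CovC.sQ 157287 KbT51_c
 (CovC.sJ 47186 (CovC.sJ 18874 KbT52_c
 (CovC.sQ 235931 KbT53_c
 (CovC.sN 576930 KbT54_c
 (CovC.sQ 275253 (CovC.sJ 33030 KbT55_c
 KbT56_c)
 KbT57_c))))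
 (CovC.sQ 235931 (CovC.sQ 196609 KbT58_c
 (CovC.sN 576930 (CovC.sJ 82576 (CovC.sJ 64881 KbT59_c
 KbT60_c)
 KbT61_c)
 (CovC.sJ 82576 KbT62_c
 KbT63_c)))
 (CovC.sJ 82576 KbT64_c
 KbT65_c))))
 KbT66_c)
 KbT67_c)
 KbT68_c)
 (CovC.sQ 629147 (CovC.sQ 314574 (CovC.sJ 117965 (CovC.sK 1821268 (CovC.sQ 157287 KbT69_c
 (CovC.sJ 47186 (CovC.sK 1642408 (CovC.sJ 18874 KbT70_c
 (CovC.sQ 235931 KbT71_c
 KbT72_c))
 KbT73_c)
 (CovC.sQ 235931 (CovC.sQ 196609 KbT74_c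
 (CovC.sJ 82576 (CovC.sK 1592209 KbT75_c
 KbT76_c)
 KbT77_c))
 (CovC.sJ 82576 (CovC.sK 1592209 KbT78_c
 KbT79_c)
 KbT80_c))))
 KbT81_c)
 KbT82_c)
 KbT83_c)
 KbT84_c)))))))
end Pool.Agent.Lib.MP_33650d_pr.X
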