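import Pool.Agent.Lib.MP_33650d_pr.X.EFin
import Pool.Agent.Lib.MP_33650d_pr.X.GSnd
import Pool.Agent.Lib.MP_33650d_pr.X.CKChk
import Pool.Agent.Lib.MP_33650d_pr.G.KcC0
import Pool.Agent.Lib.MP_33650d_pr.G.KcC1
import Pool.Agent.Lib.MP_33650d_pr.G.KcC2
import Pool.Agent.Lib.MP_33650d_pr.G.KcC3
import Pool.Agent.Lib.MP_33650d_pr.G.KcC4

set_option linter.defProp false

namespace Pool.Agent.Lib.MP_33650d_pr.X

theorem KcE000000_ok : Tab JI KcE000000 := KcE000000_k.tabI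
theorem KcE000001_ok : Tab JI KcE000001 := KcE000001_k.tabI
theorem KcE00000_ok : Tab JI KcE00000 := E.Tab.node KcE000000_ok KcE000001_ok
theorem KcE000010_ok : Tab JI KcE000010 := KcE000010_k.tabI
theorem KcE0000110_ok : Tab JI KcE0000110 := KcE0000110_k.tabI
theorem KcE0000111_ok : Tab JI KcE0000111 := KcE0000111_k.tabI
theorem KcE000011_ok : Tab JI KcE000011 := E.Tab.node KcE0000110_ok KcE0000111_ok
theorem KcE00001_ok : Tab JI KcE00001 := E.Tab.node KcE000010_ok KcE000011_ok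
theorem KcE0000_ok : Tab JI KcE0000 := E.Tab.node KcE00000_ok KcE00001_ok
theorem KcE000100_ok : Tab JI KcE000100 := KcE000100_k.tabI
theorem KcE000101_ok : Tab JI KcE000101 := KcE000101_k.tabI
theorem KcE00010_ok : Tab JI KcE00010 := E.Tab.node KcE000100_ok KcE000101_ok
theorem KcE000110_ok : Tab JI KcE000110 := KcE000110_k.tabI
theorem KcE000111_ok : Tab JI KcE000111 := KcE000111_k.tabI
theorem KcE00011_ok : Tab JI KcE00011 := E.Tab.node KcE000110_ok KcE000111_ok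
theorem KcE0001_ok : Tab JI KcE0001 := E.Tab.node KcE00010_ok KcE00011_ok
theorem KcE000_ok : Tab JI KcE000 := E.Tab.node KcE0000_ok KcE0001_ok
theorem KcE001000_ok : Tab JI KcE001000 := KcE001000_k.tabI
theorem KcE001001_ok : Tab JI KcE001001 := KcE001001_k.tabI
theorem KcE00100_ok : Tab JI KcE00100 := E.Tab.node KcE001000_ok KcE001001_ok
theorem KcE00101_ok : Tab JI KcE00101 := KcE00101_k.tabI
theorem KcE0010_ok : Tab JI KcE0010 := E.Tab.node KcE00100_ok KcE00101_ok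
theorem KcE001100_ok : Tab JI KcE001100 := KcE001100_k.tabI
theorem KcE0011010_ok : Tab JI KcE0011010 := KcE0011010_k.tabI
theorem KcE0011011_ok : Tab JI KcE0011011 := KcE0011011_k.tabI
theorem KcE001101_ok : Tab JI KcE001101 := E.Tab.node KcE0011010_ok KcE0011011_ok
theorem KcE00110_ok : Tab JI KcE00110 := E.Tab.node KcE001100_ok KcE001101_ok
theorem KcE001110_ok : Tab JI KcE001110 := KcE001110_k.tabI
theorem KcE001111_ok : Tab JI KcE001111 := KcE001111_k.tabI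
theorem KcE00111_ok : Tab JI KcE00111 := E.Tab.node KcE001110_ok KcE001111_ok
theorem KcE0011_ok : Tab JI KcE0011 := E.Tab.node KcE00110_ok KcE00111_ok
theorem KcE001_ok : Tab JI KcE001 := E.Tab.node KcE0010_ok KcE0011_ok
theorem KcE00_ok : Tab JI KcE00 := E.Tab.node KcE000_ok KcE001_ok
theorem KcE01000_ok : Tab JI KcE01000 := KcE01000_k.tabI
theorem KcE010010_ok : Tab JI KcE010010 := KcE010010_k.tabI
theorem KcE010011_ok : Tab JI KcE010011 := KcE010011_k.tabI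
theorem KcE01001_ok : Tab JI KcE01001 := E.Tab.node KcE010010_ok KcE010011_ok
theorem KcE0100_ok : Tab JI KcE0100 := E.Tab.node KcE01000_ok KcE01001_ok
theorem KcE010100_ok : Tab JI KcE010100 := KcE010100_k.tabI
theorem KcE010101_ok : Tab JI KcE010101 := KcE010101_k.tabI
theorem KcE01010_ok : Tab JI KcE01010 := E.Tab.node KcE010100_ok KcE010101_ok
theorem KcE010110_ok : Tab JI KcE010110 := KcE010110_k.tabI
theorem KcE010111_ok : Tab JI KcE010111 := KcE010111_k.tabI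
theorem KcE01011_ok : Tab JI KcE01011 := E.Tab.node KcE010110_ok KcE010111_ok
theorem KcE0101_ok : Tab JI KcE0101 := E.Tab.node KcE01010_ok KcE01011_ok
theorem KcE010_ok : Tab JI KcE010 := E.Tab.node KcE0100_ok KcE0101_ok
theorem KcE011000_ok : Tab JI KcE011000 := KcE011000_k.tabI
theorem KcE011001_ok : Tab JI KcE011001 := KcE011001_k.tabI
theorem KcE01100_ok : Tab JI KcE01100 := E.Tab.node KcE011000_ok KcE011001_ok
theorem KcE01101_ok : Tab JI KcE01101 := KcE01101_k.tabI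
theorem KcE0110_ok : Tab JI KcE0110 := E.Tab.node KcE01100_ok KcE01101_ok
theorem KcE011100_ok : Tab JI KcE011100 := KcE011100_k.tabI
theorem KcE011101_ok : Tab JI KcE011101 := KcE011101_k.tabI
theorem KcE01110_ok : Tab JI KcE01110 := E.Tab.node KcE011100_ok KcE011101_ok
theorem KcE011110_ok : Tab JI KcE011110 := KcE011110_k.tabI
theorem KcE011111_ok : Tab JI KcE011111 := KcE011111_k.tabI
theorem KcE01111_ok : Tab JI KcE01111 := E.Tab.node KcE011110_ok KcE011111_ok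
theorem KcE0111_ok : Tab JI KcE0111 := E.Tab.node KcE01110_ok KcE01111_ok
theorem KcE011_ok : Tab JI KcE011 := E.Tab.node KcE0110_ok KcE0111_ok
theorem KcE01_ok : Tab JI KcE01 := E.Tab.node KcE010_ok KcE011_ok
theorem KcE0_ok : Tab JI KcE0 := E.Tab.node KcE00_ok KcE01_ok
theorem KcE100000_ok : Tab JI KcE100000 := KcE100000_k.tabI
theorem KcE100001_ok : Tab JI KcE100001 := KcE100001_k.tabI
theorem KcE10000_ok : Tab JI KcE10000 := E.Tab.node KcE100000_ok KcE100001_ok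
theorem KcE1000100_ok : Tab JI KcE1000100 := KcE1000100_k.tabI
theorem KcE1000101_ok : Tab JI KcE1000101 := KcE1000101_k.tabI
theorem KcE100010_ok : Tab JI KcE100010 := E.Tab.node KcE1000100_ok KcE1000101_ok
theorem KcE100011_ok : Tab JI KcE100011 := KcE100011_k.tabI
theorem KcE10001_ok : Tab JI KcE10001 := E.Tab.node KcE100010_ok KcE100011_ok
theorem KcE1000_ok : Tab JI KcE1000 := E.Tab.node KcE10000_ok KcE10001_ok
theorem KcE100100_ok : Tab JI KcE100100 := KcE100100_k.tabI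
theorem KcE100101_ok : Tab JI KcE100101 := KcE100101_k.tabI
theorem KcE10010_ok : Tab JI KcE10010 := E.Tab.node KcE100100_ok KcE100101_ok
theorem KcE100110_ok : Tab JI KcE100110 := KcE100110_k.tabI
theorem KcE100111_ok : Tab JI KcE100111 := KcE100111_k.tabI
theorem KcE10011_ok : Tab JI KcE10011 := E.Tab.node KcE100110_ok KcE100111_ok
theorem KcE1001_ok : Tab JI KcE1001 := E.Tab.node KcE10010_ok KcE10011_ok
theorem KcE100_ok : Tab JI KcE100 := E.Tab.node KcE1000_ok KcE1001_ok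
theorem KcE101000_ok : Tab JI KcE101000 := KcE101000_k.tabI
theorem KcE101001_ok : Tab JI KcE101001 := KcE101001_k.tabI
theorem KcE10100_ok : Tab JI KcE10100 := E.Tab.node KcE101000_ok KcE101001_ok
theorem KcE10101_ok : Tab JI KcE10101 := KcE10101_k.tabI
theorem KcE1010_ok : Tab JI KcE1010 := E.Tab.node KcE10100_ok KcE10101_ok
theorem KcE101100_ok : Tab JI KcE101100 := KcE101100_k.tabI
theorem KcE101101_ok : Tab JI KcE101101 := KcE101101_k.tabI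
theorem KcE10110_ok : Tab JI KcE10110 := E.Tab.node KcE101100_ok KcE101101_ok
theorem KcE101110_ok : Tab JI KcE101110 := KcE101110_k.tabI
theorem KcE101111_ok : Tab JI KcE101111 := KcE101111_k.tabI
theorem KcE10111_ok : Tab JI KcE10111 := E.Tab.node KcE101110_ok KcE101111_ok
theorem KcE1011_ok : Tab JI KcE1011 := E.Tab.node KcE10110_ok KcE10111_ok
theorem KcE101_ok : Tab JI KcE101 := E.Tab.node KcE1010_ok KcE1011_ok
theorem KcE10_ok : Tab JI KcE10 := E.Tab.node KcE100_ok KcE101_ok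
theorem KcE11000_ok : Tab JI KcE11000 := KcE11000_k.tabI
theorem KcE110010_ok : Tab JI KcE110010 := KcE110010_k.tabI
theorem KcE110011_ok : Tab JI KcE110011 := KcE110011_k.tabI
theorem KcE11001_ok : Tab JI KcE11001 := E.Tab.node KcE110010_ok KcE110011_ok
theorem KcE1100_ok : Tab JI KcE1100 := E.Tab.node KcE11000_ok KcE11001_ok
theorem KcE110100_ok : Tab JI KcE110100 := KcE110100_k.tabI
theorem KcE110101_ok : Tab JI KcE110101 := KcE110101_k.tabI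
theorem KcE11010_ok : Tab JI KcE11010 := E.Tab.node KcE110100_ok KcE110101_ok
theorem KcE110110_ok : Tab JI KcE110110 := KcE110110_k.tabI
theorem KcE110111_ok : Tab JI KcE110111 := KcE110111_k.tabI
theorem KcE11011_ok : Tab JI KcE11011 := E.Tab.node KcE110110_ok KcE110111_ok
theorem KcE1101_ok : Tab JI KcE1101 := E.Tab.node KcE11010_ok KcE11011_ok
theorem KcE110_ok : Tab JI KcE110 := E.Tab.node KcE1100_ok KcE1101_ok
theorem KcE111000_ok : Tab JI KcE111000 := KcE111000_k.tabI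
theorem KcE111001_ok : Tab JI KcE111001 := KcE111001_k.tabI
theorem KcE11100_ok : Tab JI KcE11100 := E.Tab.node KcE111000_ok KcE111001_ok
theorem KcE111010_ok : Tab JI KcE111010 := KcE111010_k.tabI
theorem KcE111011_ok : Tab JI KcE111011 := KcE111011_k.tabI
theorem KcE11101_ok : Tab JI KcE11101 := E.Tab.node KcE111010_ok KcE111011_ok
theorem KcE1110_ok : Tab JI KcE1110 := E.Tab.node KcE11100_ok KcE11101_ok
theorem KcE111100_ok : Tab JI KcE111100 := KcE111100_k.tabI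
theorem KcE111101_ok : Tab JI KcE111101 := KcE111101_k.tabI
theorem KcE11110_ok : Tab JI KcE11110 := E.Tab.node KcE111100_ok KcE111101_ok
theorem KcE111110_ok : Tab JI KcE111110 := KcE111110_k.tabI
theorem KcE111111_ok : Tab JI KcE111111 := KcE111111_k.tabI
theorem KcE11111_ok : Tab JI KcE11111 := E.Tab.node KcE111110_ok KcE111111_ok
theorem KcE1111_ok : Tab JI KcE1111 := E.Tab.node KcE11110_ok KcE11111_ok
theorem KcE111_ok : Tab JI KcE111 := E.Tab.node KcE1110_ok KcE1111_ok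
theorem KcE11_ok : Tab JI KcE11 := E.Tab.node KcE110_ok KcE111_ok
theorem KcE1_ok : Tab JI KcE1 := E.Tab.node KcE10_ok KcE11_ok
theorem KcE_ok : Tab JI KcE := E.Tab.node KcE0_ok KcE1_ok
theorem KcT197_c : CovC JI 367002 1394607 ⟨922864, 1048576, 1226834, 1363149, 47186, 82576, 144494, 288988⟩ :=
  chkD_sound (p := KcT197P) ⟨Nat.succ_pos 15, (by decide : 28 ≤ 48), (by decide : 19 ≤ 255), KcE_ok,
    chkKT_sound (by decide) KcT197K_k⟩ KcT197 _ KcT197_k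
theorem KcT162_c : CovC JI 367002 1394607 ⟨812224, 922864, 1226834, 1363149, 18874, 47186, 137195, 274389⟩ :=
  chkD_sound (p := KcT162P) ⟨Nat.succ_pos 15, (by decide : 28 ≤ 48), (by decide : 19 ≤ 255), KcE_ok,
    chkKT_sound (by decide) KcT162K_k⟩ KcT162 _ KcT162_k
theorem KcT26_c : CovC JI 367002 1394607 ⟨670629, 714848, 1226834, 1363149, 33030, 47186, 220459, 244807⟩ :=
  chkD_sound (p := KcT26P) ⟨Nat.succ_pos 15, (by decide : 28 ≤ 48), (by decide : 19 ≤ 255), KcE_ok,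
    chkKT_sound (by decide) KcT26K_k⟩ KcT26 _ KcT26_k
theorem KcT104_c : CovC JI 367002 1394607 ⟨714848, 761982, 1226834, 1363149, 47186, 82576, 238662, 261119⟩ :=
  chkD_sound (p := KcT104P) ⟨Nat.succ_pos 15, (by decide : 28 ≤ 48), (by decide : 19 ≤ 255), KcE_ok,
    chkKT_sound (by decide) KcT104K_k⟩ KcT104 _ KcT104_k
theorem KcT186_c : CovC JI 367002 1394607 ⟨922864, 1048576, 1048576, 1226834, 0, 47186, 218752, 291669⟩ :=
  chkD_sound (p := KcT186P) ⟨Nat.succ_pos 15, (by decide : 28 ≤ 48), (by decide : 19 ≤ 255), KcE_ok,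
    chkKT_sound (by decide) KcT186K_k⟩ KcT186 _ KcT186_k
theorem KcT68_c : CovC JI 367002 1394607 ⟨629146, 714848, 1363149, 1738675, 62385, 155962, 245299, 490597⟩ :=
  chkD_sound (p := KcT68P) ⟨Nat.succ_pos 7, (by decide : 12 ≤ 48), (by decide : 10 ≤ 255), KcE_ok,
    chkKT_sound (by decide) KcT68K_k⟩ KcT68 _ KcT68_k
theorem KcT40_c : CovC JI 367002 1394607 ⟨629146, 670629, 1226834, 1363149, 44929, 64184, 244807, 285741⟩ :=
  chkD_sound (p := KcT40P) ⟨Nat.succ_pos 15, (by decide : 28 ≤ 48), (by decide : 19 ≤ 255), KcE_ok,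
    chkKT_sound (by decide) KcT40K_k⟩ KcT40 _ KcT40_k
theorem KcT135_c : CovC JI 367002 1394607 ⟨714848, 812224, 1363149, 2097152, 0, 294912, 258418, 516836⟩ :=
  chkD_sound (p := KcT135P) ⟨Nat.succ_pos 7, (by decide : 12 ≤ 48), (by decide : 10 ≤ 255), KcE_ok,
    chkKT_sound (by decide) KcT135K_k⟩ KcT135 _ KcT135_k
theorem KcT196_c : CovC JI 367002 1394607 ⟨922864, 1048576, 1226834, 1363149, 18874, 47186, 144494, 288988⟩ :=
  chkD_sound (p := KcT196P) ⟨Nat.succ_pos 15, (by decide : 28 ≤ 48), (by decide : 19 ≤ 255), KcE_ok,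
    chkKT_sound (by decide) KcT196K_k⟩ KcT196 _ KcT196_k
theorem KcT180_c : CovC JI 367002 1394607 ⟨812224, 922864, 1363149, 2097152, 0, 294912, 267090, 534179⟩ :=
  chkD_sound (p := KcT180P) ⟨Nat.succ_pos 7, (by decide : 12 ≤ 48), (by decide : 10 ≤ 255), KcE_ok,
    chkKT_sound (by decide) KcT180K_k⟩ KcT180 _ KcT180_k
theorem KcT157_c : CovC JI 367002 1394607 ⟨812224, 922864, 1048576, 1226834, 0, 294912, 273530, 547059⟩ :=
  chkD_sound (p := KcT157P) ⟨Nat.succ_pos 7, (by decide : 12 ≤ 48), (by decide : 10 ≤ 255), KcE_ok,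
    chkKT_sound (by decide) KcT157K_k⟩ KcT157 _ KcT157_k
theorem KcT5_c : CovC JI 367002 1394607 ⟨629146, 714848, 1048576, 1226834, 47186, 64881, 208354, 249369⟩ :=
  chkD_sound (p := KcT5P) ⟨Nat.succ_pos 15, (by decide : 28 ≤ 48), (by decide : 19 ≤ 255), KcE_ok,
    chkKT_sound (by decide) KcT5K_k⟩ KcT5 _ KcT5_k
theorem KcT177_c : CovC JI 367002 1394607 ⟨812224, 922864, 1363149, 1821268, 82576, 117965, 133545, 267090⟩ :=
  chkD_sound (p := KcT177P) ⟨Nat.succ_pos 7, (by decide : 12 ≤ 48), (by decide : 10 ≤ 255), KcE_ok,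
    chkKT_sound (by decide) KcT177K_k⟩ KcT177 _ KcT177_k
theorem KcT198_c : CovC JI 367002 1394607 ⟨922864, 1048576, 1226834, 1363149, 82576, 117965, 144494, 288988⟩ :=
  chkD_sound (p := KcT198P) ⟨Nat.succ_pos 7, (by decide : 12 ≤ 48), (by decide : 10 ≤ 255), KcE_ok,
    chkKT_sound (by decide) KcT198K_k⟩ KcT198 _ KcT198_k
theorem KcT45_c : CovC JI 367002 1394607 ⟨629146, 714848, 1226834, 1363149, 64184, 160461, 244807, 489613⟩ :=
  chkD_sound (p := KcT45P) ⟨Nat.succ_pos 7, (by decide : 12 ≤ 48), (by decide : 10 ≤ 255), KcE_ok,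
    chkKT_sound (by decide) KcT45K_k⟩ KcT45 _ KcT45_k
theorem KcT185_c : CovC JI 367002 1394607 ⟨922864, 1048576, 1048576, 1226834, 0, 117965, 145835, 218752⟩ :=
  chkD_sound (p := KcT185P) ⟨Nat.succ_pos 7, (by decide : 12 ≤ 48), (by decide : 10 ≤ 255), KcE_ok,
    chkKT_sound (by decide) KcT185K_k⟩ KcT185 _ KcT185_k
theorem KcT188_c : CovC JI 367002 1394607 ⟨983714, 1048576, 1048576, 1226834, 47186, 82576, 218752, 291669⟩ :=
  chkD_sound (p := KcT188P) ⟨Nat.succ_pos 7, (by decide : 12 ≤ 48), (by decide : 10 ≤ 255), KcE_ok,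
    chkKT_sound (by decide) KcT188K_k⟩ KcT188 _ KcT188_k
theorem KcT191_c : CovC JI 367002 1394607 ⟨922864, 1048576, 1048576, 1226834, 0, 294912, 291669, 583338⟩ :=
  chkD_sound (p := KcT191P) ⟨Nat.succ_pos 7, (by decide : 12 ≤ 48), (by decide : 10 ≤ 255), KcE_ok,
    chkKT_sound (by decide) KcT191K_k⟩ KcT191 _ KcT191_k
theorem KcT156_c : CovC JI 367002 1394607 ⟨812224, 922864, 1048576, 1226834, 117965, 294912, 0, 273530⟩ :=
  chkD_sound (p := KcT156P) ⟨Nat.succ_pos 7, (by decide : 12 ≤ 48), (by decide : 10 ≤ 255), KcE_ok,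
    chkKT_sound (by decide) KcT156K_k⟩ KcT156 _ KcT156_k
theorem KcT79_c : CovC JI 367002 1394607 ⟨714848, 812224, 1048576, 1226834, 82576, 117965, 172994, 261666⟩ :=
  chkD_sound (p := KcT79P) ⟨Nat.succ_pos 7, (by decide : 12 ≤ 48), (by decide : 10 ≤ 255), KcE_ok,
    chkKT_sound (by decide) KcT79K_k⟩ KcT79 _ KcT79_k
theorem KcT110_c : CovC JI 367002 1394607 ⟨714848, 761982, 1226834, 1363149, 45234, 64619, 261119, 304734⟩ :=
  chkD_sound (p := KcT110P) ⟨Nat.succ_pos 7, (by decide : 12 ≤ 48), (by decide : 10 ≤ 255), KcE_ok,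
    chkKT_sound (by decide) KcT110K_k⟩ KcT110 _ KcT110_k
theorem KcT9_c : CovC JI 367002 1394607 ⟨629146, 714848, 1048576, 1226834, 0, 10485, 249369, 333148⟩ :=
  chkD_sound (p := KcT9P) ⟨Nat.succ_pos 7, (by decide : 12 ≤ 48), (by decide : 10 ≤ 255), KcE_ok,
    chkKT_sound (by decide) KcT9K_k⟩ KcT9 _ KcT9_k
theorem KcT21_c : CovC JI 367002 1394607 ⟨629146, 714848, 1226834, 1363149, 0, 18874, 147414, 244807⟩ :=
  chkD_sound (p := KcT21P) ⟨Nat.succ_pos 15, (by decide : 28 ≤ 48), (by decide : 19 ≤ 255), KcE_ok,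
    chkKT_sound (by decide) KcT21K_k⟩ KcT21 _ KcT21_k
theorem KcT43_c : CovC JI 367002 1394607 ⟨629146, 714848, 1226834, 1363149, 25674, 64184, 326675, 408543⟩ :=
  chkD_sound (p := KcT43P) ⟨Nat.succ_pos 15, (by decide : 28 ≤ 48), (by decide : 19 ≤ 255), KcE_ok,
    chkKT_sound (by decide) KcT43K_k⟩ KcT43 _ KcT43_k
theorem KcT83_c : CovC JI 367002 1394607 ⟨714848, 761982, 1137705, 1226834, 26603, 66508, 261666, 306664⟩ :=
  chkD_sound (p := KcT83P) ⟨Nat.succ_pos 15, (by decide : 28 ≤ 48), (by decide : 19 ≤ 255), KcE_ok,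
    chkKT_sound (by decide) KcT83K_k⟩ KcT83 _ KcT83_k
theorem KcT88_c : CovC JI 367002 1394607 ⟨714848, 812224, 1048576, 1226834, 66508, 166269, 261666, 523332⟩ :=
  chkD_sound (p := KcT88P) ⟨Nat.succ_pos 7, (by decide : 12 ≤ 48), (by decide : 10 ≤ 255), KcE_ok,
    chkKT_sound (by decide) KcT88K_k⟩ KcT88 _ KcT88_k
theorem KcT140_c : CovC JI 367002 1394607 ⟨812224, 922864, 321190, 684883, 0, 117965, 87372, 271059⟩ :=
  chkD_sound (p := KcT140P) ⟨Nat.succ_pos 7, (by decide : 12 ≤ 48), (by decide : 10 ≤ 255), KcE_ok,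
    chkKT_sound (by decide) KcT140K_k⟩ KcT140 _ KcT140_k
theorem KcT189_c : CovC JI 367002 1394607 ⟨922864, 1048576, 1048576, 1226834, 82576, 117965, 218752, 291669⟩ :=
  chkD_sound (p := KcT189P) ⟨Nat.succ_pos 7, (by decide : 12 ≤ 48), (by decide : 10 ≤ 255), KcE_ok,
    chkKT_sound (by decide) KcT189K_k⟩ KcT189 _ KcT189_k
theorem KcT51_c : CovC JI 367002 1394607 ⟨629146, 714848, 1363149, 1642408, 0, 18874, 139744, 245299⟩ :=
  chkD_sound (p := KcT51P) ⟨Nat.succ_pos 7, (by decide : 12 ≤ 48), (by decide : 10 ≤ 255), KcE_ok,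
    chkKT_sound (by decide) KcT51K_k⟩ KcT51 _ KcT51_k
theorem KcT85_c : CovC JI 367002 1394607 ⟨714848, 812224, 1048576, 1226834, 26603, 66508, 306664, 351662⟩ :=
  chkD_sound (p := KcT85P) ⟨Nat.succ_pos 7, (by decide : 12 ≤ 48), (by decide : 10 ≤ 255), KcE_ok,
    chkKT_sound (by decide) KcT85K_k⟩ KcT85 _ KcT85_k
theorem KcT153_c : CovC JI 367002 1394607 ⟨812224, 922864, 1048576, 1226834, 47186, 117965, 83373, 178452⟩ :=
  chkD_sound (p := KcT153P) ⟨Nat.succ_pos 7, (by decide : 12 ≤ 48), (by decide : 10 ≤ 255), KcE_ok,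
    chkKT_sound (by decide) KcT153K_k⟩ KcT153 _ KcT153_k
theorem KcT16_c : CovC JI 367002 1394607 ⟨629146, 714848, 1048576, 1226834, 163832, 294912, 249369, 498738⟩ :=
  chkD_sound (p := KcT16P) ⟨Nat.succ_pos 7, (by decide : 1 ≤ 48), (by decide : 1 ≤ 255), KcE_ok,
    KT0_ok⟩ KcT16 _ KcT16_k
theorem KcT20_c : CovC JI 367002 1394607 ⟨629146, 714848, 1226834, 1363149, 0, 47186, 82764, 147414⟩ :=
  chkD_sound (p := KcT20P) ⟨Nat.succ_pos 7, (by decide : 1 ≤ 48), (by decide : 1 ≤ 255), KcE_ok,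
    KT0_ok⟩ KcT20 _ KcT20_k
theorem KcT50_c : CovC JI 367002 1394607 ⟨629146, 714848, 1363149, 1642408, 0, 47186, 73917, 139744⟩ :=
  chkD_sound (p := KcT50P) ⟨Nat.succ_pos 7, (by decide : 1 ≤ 48), (by decide : 1 ≤ 255), KcE_ok,
    KT0_ok⟩ KcT50 _ KcT50_k
theorem KcT70_c : CovC JI 367002 1394607 ⟨629146, 714848, 1738675, 2097152, 0, 294912, 245299, 490597⟩ :=
  chkD_sound (p := KcT70P) ⟨Nat.succ_pos 7, (by decide : 1 ≤ 48), (by decide : 1 ≤ 255), KcE_ok,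
    KT0_ok⟩ KcT70 _ KcT70_k
theorem KcT90_c : CovC JI 367002 1394607 ⟨714848, 812224, 1048576, 1226834, 0, 294912, 523332, 812225⟩ :=
  chkD_sound (p := KcT90P) ⟨Nat.succ_pos 7, (by decide : 1 ≤ 48), (by decide : 1 ≤ 255), KcE_ok,
    KT0_ok⟩ KcT90 _ KcT90_k
theorem KcT117_c : CovC JI 367002 1394607 ⟨714848, 812224, 1226834, 1363149, 0, 294912, 522238, 812225⟩ :=
  chkD_sound (p := KcT117P) ⟨Nat.succ_pos 7, (by decide : 1 ≤ 48), (by decide : 1 ≤ 255), KcE_ok,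
    KT0_ok⟩ KcT117 _ KcT117_k
theorem KcT139_c : CovC JI 367002 1394607 ⟨812224, 922864, 321190, 1048576, 0, 117965, 0, 87372⟩ :=
  chkD_sound (p := KcT139P) ⟨Nat.succ_pos 7, (by decide : 1 ≤ 48), (by decide : 1 ≤ 255), KcE_ok,
    KT0_ok⟩ KcT139 _ KcT139_k
theorem KcT158_c : CovC JI 367002 1394607 ⟨812224, 922864, 1048576, 1226834, 0, 294912, 547059, 922865⟩ :=
  chkD_sound (p := KcT158P) ⟨Nat.succ_pos 7, (by decide : 1 ≤ 48), (by decide : 1 ≤ 255), KcE_ok,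
    KT0_ok⟩ KcT158 _ KcT158_k
theorem KcT201_c : CovC JI 367002 1394607 ⟨922864, 1048576, 1226834, 1363149, 0, 294912, 577975, 1048577⟩ :=
  chkD_sound (p := KcT201P) ⟨Nat.succ_pos 7, (by decide : 1 ≤ 48), (by decide : 1 ≤ 255), KcE_ok,
    KT0_ok⟩ KcT201 _ KcT201_k
theorem KcT72_c : CovC JI 367002 1394607 ⟨629146, 714848, 1363149, 2097152, 0, 294912, 714849, 8388608⟩ :=
  chkD_sound (p := KcT72P) ⟨Nat.succ_pos 7, (by decide : 1 ≤ 48), (by decide : 1 ≤ 255), KcE_ok,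
    KT0_ok⟩ KcT72 _ KcT72_k
theorem KcT159_c : CovC JI 367002 1394607 ⟨812224, 922864, 1048576, 1226834, 0, 294912, 922865, 8388608⟩ :=
  chkD_sound (p := KcT159P) ⟨Nat.succ_pos 7, (by decide : 1 ≤ 48), (by decide : 1 ≤ 255), KcE_ok,
    KT0_ok⟩ KcT159 _ KcT159_k
theorem KcT212_c : CovC JI 367002 1394607 ⟨922864, 1048576, 1363149, 2097152, 0, 294912, 1048577, 8388608⟩ :=
  chkD_sound (p := KcT212P) ⟨Nat.succ_pos 7, (by decide : 1 ≤ 48), (by decide : 1 ≤ 255), KcE_ok,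
    KT0_ok⟩ KcT212 _ KcT212_k
theorem KcT205_c : CovC JI 367002 1394607 ⟨922864, 1048576, 1363149, 1592209, 47186, 82576, 141717, 283433⟩ :=
  chkD_sound (p := KcT205P) ⟨Nat.succ_pos 15, (by decide : 28 ≤ 48), (by decide : 19 ≤ 255), KcE_ok,
    chkKT_sound (by decide) KcT205K_k⟩ KcT205 _ KcT205_k
theorem KcT97_c : CovC JI 367002 1394607 ⟨714848, 761982, 1226834, 1363149, 33030, 47186, 203614, 261119⟩ :=
  chkD_sound (p := KcT97P) ⟨Nat.succ_pos 15, (by decide : 28 ≤ 48), (by decide : 19 ≤ 255), KcE_ok,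
    chkKT_sound (by decide) KcT97K_k⟩ KcT97 _ KcT97_k
theorem KcT98_c : CovC JI 367002 1394607 ⟨761982, 812224, 1226834, 1363149, 18874, 47186, 203614, 261119⟩ :=
  chkD_sound (p := KcT98P) ⟨Nat.succ_pos 15, (by decide : 28 ≤ 48), (by decide : 19 ≤ 255), KcE_ok,
    chkKT_sound (by decide) KcT98K_k⟩ KcT98 _ KcT98_k
theorem KcT103_c : CovC JI 367002 1394607 ⟨714848, 812224, 1294992, 1363149, 47186, 82576, 227433, 238662⟩ :=
  chkD_sound (p := KcT103P) ⟨Nat.succ_pos 15, (by decide : 28 ≤ 48), (by decide : 19 ≤ 255), KcE_ok,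
    chkKT_sound (by decide) KcT103K_k⟩ KcT103 _ KcT103_k
theorem KcT164_c : CovC JI 367002 1394607 ⟨812224, 922864, 1226834, 1363149, 47186, 82576, 205792, 240091⟩ :=
  chkD_sound (p := KcT164P) ⟨Nat.succ_pos 15, (by decide : 28 ≤ 48), (by decide : 19 ≤ 255), KcE_ok,
    chkKT_sound (by decide) KcT164K_k⟩ KcT164 _ KcT164_k
theorem KcT2_c : CovC JI 367002 1394607 ⟨629146, 714848, 1048576, 1226834, 0, 47186, 85306, 249369⟩ :=
  chkD_sound (p := KcT2P) ⟨Nat.succ_pos 15, (by decide : 28 ≤ 48), (by decide : 19 ≤ 255), KcE_ok,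
    chkKT_sound (by decide) KcT2K_k⟩ KcT2 _ KcT2_k
theorem KcT127_c : CovC JI 367002 1394607 ⟨714848, 761982, 1363149, 1477679, 47186, 82576, 193814, 226116⟩ :=
  chkD_sound (p := KcT127P) ⟨Nat.succ_pos 15, (by decide : 28 ≤ 48), (by decide : 19 ≤ 255), KcE_ok,
    chkKT_sound (by decide) KcT127K_k⟩ KcT127 _ KcT127_k
theorem KcT41_c : CovC JI 367002 1394607 ⟨670629, 714848, 1226834, 1363149, 44929, 64184, 244807, 285741⟩ :=
  chkD_sound (p := KcT41P) ⟨Nat.succ_pos 15, (by decide : 28 ≤ 48), (by decide : 19 ≤ 255), KcE_ok,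
    chkKT_sound (by decide) KcT41K_k⟩ KcT41 _ KcT41_k
theorem KcT64_c : CovC JI 367002 1394607 ⟨629146, 714848, 1363149, 1550912, 24954, 62385, 245299, 323274⟩ :=
  chkD_sound (p := KcT64P) ⟨Nat.succ_pos 15, (by decide : 28 ≤ 48), (by decide : 19 ≤ 255), KcE_ok,
    chkKT_sound (by decide) KcT64K_k⟩ KcT64 _ KcT64_k
theorem KcT101_c : CovC JI 367002 1394607 ⟨714848, 812224, 1226834, 1294992, 47186, 82576, 216204, 238662⟩ :=
  chkD_sound (p := KcT101P) ⟨Nat.succ_pos 15, (by decide : 28 ≤ 48), (by decide : 19 ≤ 255), KcE_ok,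
    chkKT_sound (by decide) KcT101K_k⟩ KcT101 _ KcT101_k
theorem KcT187_c : CovC JI 367002 1394607 ⟨922864, 983714, 1048576, 1226834, 47186, 82576, 218752, 291669⟩ :=
  chkD_sound (p := KcT187P) ⟨Nat.succ_pos 15, (by decide : 28 ≤ 48), (by decide : 19 ≤ 255), KcE_ok,
    chkKT_sound (by decide) KcT187K_k⟩ KcT187 _ KcT187_k
theorem KcT108_c : CovC JI 367002 1394607 ⟨714848, 812224, 1226834, 1363149, 0, 25848, 261119, 435576⟩ :=
  chkD_sound (p := KcT108P) ⟨Nat.succ_pos 7, (by decide : 12 ≤ 48), (by decide : 10 ≤ 255), KcE_ok,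
    chkKT_sound (by decide) KcT108K_k⟩ KcT108 _ KcT108_k
theorem KcT35_c : CovC JI 367002 1394607 ⟨629146, 714848, 1226834, 1363149, 10270, 25674, 244807, 285741⟩ :=
  chkD_sound (p := KcT35P) ⟨Nat.succ_pos 15, (by decide : 28 ≤ 48), (by decide : 19 ≤ 255), KcE_ok,
    chkKT_sound (by decide) KcT35K_k⟩ KcT35 _ KcT35_k
theorem KcT210_c : CovC JI 367002 1394607 ⟨922864, 1048576, 1363149, 2097152, 0, 294912, 283433, 566866⟩ :=
  chkD_sound (p := KcT210P) ⟨Nat.succ_pos 7, (by decide : 12 ≤ 48), (by decide : 10 ≤ 255), KcE_ok,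
    chkKT_sound (by decide) KcT210K_k⟩ KcT210 _ KcT210_k
theorem KcT144_c : CovC JI 367002 1394607 ⟨812224, 922864, 684883, 1048576, 47186, 117965, 87372, 271059⟩ :=
  chkD_sound (p := KcT144P) ⟨Nat.succ_pos 7, (by decide : 12 ≤ 48), (by decide : 10 ≤ 255), KcE_ok,
    chkKT_sound (by decide) KcT144K_k⟩ KcT144 _ KcT144_k
theorem KcT146_c : CovC JI 367002 1394607 ⟨812224, 922864, 321190, 1048576, 0, 294912, 271059, 542118⟩ :=
  chkD_sound (p := KcT146P) ⟨Nat.succ_pos 7, (by decide : 12 ≤ 48), (by decide : 10 ≤ 255), KcE_ok,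
    chkKT_sound (by decide) KcT146K_k⟩ KcT146 _ KcT146_k
theorem KcT129_c : CovC JI 367002 1394607 ⟨714848, 761982, 1477679, 1592209, 47186, 82576, 193814, 258418⟩ :=
  chkD_sound (p := KcT129P) ⟨Nat.succ_pos 15, (by decide : 28 ≤ 48), (by decide : 19 ≤ 255), KcE_ok,
    chkKT_sound (by decide) KcT129K_k⟩ KcT129 _ KcT129_k
theorem KcT28_c : CovC JI 367002 1394607 ⟨629146, 714848, 1226834, 1363149, 47186, 117965, 163786, 204297⟩ :=
  chkD_sound (p := KcT28P) ⟨Nat.succ_pos 7, (by decide : 12 ≤ 48), (by decide : 10 ≤ 255), KcE_ok,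
    chkKT_sound (by decide) KcT28K_k⟩ KcT28 _ KcT28_k
theorem KcT107_c : CovC JI 367002 1394607 ⟨714848, 812224, 1226834, 1363149, 117965, 294912, 0, 261119⟩ :=
  chkD_sound (p := KcT107P) ⟨Nat.succ_pos 7, (by decide : 12 ≤ 48), (by decide : 10 ≤ 255), KcE_ok,
    chkKT_sound (by decide) KcT107K_k⟩ KcT107 _ KcT107_k
theorem KcT131_c : CovC JI 367002 1394607 ⟨714848, 812224, 1363149, 1592209, 82576, 117965, 193814, 258418⟩ :=
  chkD_sound (p := KcT131P) ⟨Nat.succ_pos 15, (by decide : 28 ≤ 48), (by decide : 19 ≤ 255), KcE_ok,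
    chkKT_sound (by decide) KcT131K_k⟩ KcT131 _ KcT131_k
theorem KcT7_c : CovC JI 367002 1394607 ⟨629146, 714848, 1048576, 1226834, 82576, 117965, 167338, 249369⟩ :=
  chkD_sound (p := KcT7P) ⟨Nat.succ_pos 7, (by decide : 12 ≤ 48), (by decide : 10 ≤ 255), KcE_ok,
    chkKT_sound (by decide) KcT7K_k⟩ KcT7 _ KcT7_k
theorem KcT84_c : CovC JI 367002 1394607 ⟨761982, 812224, 1137705, 1226834, 26603, 66508, 261666, 306664⟩ :=
  chkD_sound (p := KcT84P) ⟨Nat.succ_pos 7, (by decide : 12 ≤ 48), (by decide : 10 ≤ 255), KcE_ok,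
    chkKT_sound (by decide) KcT84K_k⟩ KcT84 _ KcT84_k
theorem KcT42_c : CovC JI 367002 1394607 ⟨629146, 714848, 1226834, 1363149, 25674, 64184, 285741, 326675⟩ :=
  chkD_sound (p := KcT42P) ⟨Nat.succ_pos 15, (by decide : 28 ≤ 48), (by decide : 19 ≤ 255), KcE_ok,
    chkKT_sound (by decide) KcT42K_k⟩ KcT42 _ KcT42_k
theorem KcT59_c : CovC JI 367002 1394607 ⟨629146, 714848, 1363149, 1592209, 82576, 117965, 202454, 245299⟩ :=
  chkD_sound (p := KcT59P) ⟨Nat.succ_pos 7, (by decide : 12 ≤ 48), (by decide : 10 ≤ 255), KcE_ok,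
    chkKT_sound (by decide) KcT59K_k⟩ KcT59 _ KcT59_k
theorem KcT4_c : CovC JI 367002 1394607 ⟨629146, 714848, 1048576, 1226834, 47186, 82576, 167338, 208354⟩ :=
  chkD_sound (p := KcT4P) ⟨Nat.succ_pos 7, (by decide : 12 ≤ 48), (by decide : 10 ≤ 255), KcE_ok,
    chkKT_sound (by decide) KcT4K_k⟩ KcT4 _ KcT4_k
theorem KcT27_c : CovC JI 367002 1394607 ⟨629146, 714848, 1226834, 1363149, 47186, 117965, 82764, 163786⟩ :=
  chkD_sound (p := KcT27P) ⟨Nat.succ_pos 7, (by decide : 12 ≤ 48), (by decide : 10 ≤ 255), KcE_ok,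
    chkKT_sound (by decide) KcT27K_k⟩ KcT27 _ KcT27_k
theorem KcT171_c : CovC JI 367002 1394607 ⟨812224, 922864, 1363149, 1821268, 0, 117965, 0, 133545⟩ :=
  chkD_sound (p := KcT171P) ⟨Nat.succ_pos 7, (by decide : 12 ≤ 48), (by decide : 10 ≤ 255), KcE_ok,
    chkKT_sound (by decide) KcT171K_k⟩ KcT171 _ KcT171_k
theorem KcT34_c : CovC JI 367002 1394607 ⟨629146, 714848, 1226834, 1363149, 0, 10270, 244807, 408543⟩ :=
  chkD_sound (p := KcT34P) ⟨Nat.succ_pos 7, (by decide : 12 ≤ 48), (by decide : 10 ≤ 255), KcE_ok,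
    chkKT_sound (by decide) KcT34K_k⟩ KcT34 _ KcT34_k
theorem KcT160_c : CovC JI 367002 1394607 ⟨812224, 922864, 1226834, 1363149, 0, 117965, 0, 137195⟩ :=
  chkD_sound (p := KcT160P) ⟨Nat.succ_pos 7, (by decide : 12 ≤ 48), (by decide : 10 ≤ 255), KcE_ok,
    chkKT_sound (by decide) KcT160K_k⟩ KcT160 _ KcT160_k
theorem KcT99_c : CovC JI 367002 1394607 ⟨714848, 812224, 1226834, 1363149, 47186, 117965, 81459, 171289⟩ :=
  chkD_sound (p := KcT99P) ⟨Nat.succ_pos 7, (by decide : 12 ≤ 48), (by decide : 10 ≤ 255), KcE_ok,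
    chkKT_sound (by decide) KcT99K_k⟩ KcT99 _ KcT99_k
theorem KcT142_c : CovC JI 367002 1394607 ⟨812224, 922864, 684883, 866729, 0, 47186, 156602, 271059⟩ :=
  chkD_sound (p := KcT142P) ⟨Nat.succ_pos 7, (by decide : 12 ≤ 48), (by decide : 10 ≤ 255), KcE_ok,
    chkKT_sound (by decide) KcT142K_k⟩ KcT142 _ KcT142_k
theorem KcT14_c : CovC JI 367002 1394607 ⟨629146, 714848, 1048576, 1226834, 0, 65533, 416926, 498738⟩ :=
  chkD_sound (p := KcT14P) ⟨Nat.succ_pos 7, (by decide : 1 ≤ 48), (by decide : 1 ≤ 255), KcE_ok,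
    KT0_ok⟩ KcT14 _ KcT14_k
theorem KcT19_c : CovC JI 367002 1394607 ⟨629146, 714848, 1226834, 1363149, 0, 117965, 0, 82764⟩ :=
  chkD_sound (p := KcT19P) ⟨Nat.succ_pos 7, (by decide : 1 ≤ 48), (by decide : 1 ≤ 255), KcE_ok,
    KT0_ok⟩ KcT19 _ KcT19_k
theorem KcT49_c : CovC JI 367002 1394607 ⟨629146, 714848, 1363149, 1821268, 0, 117965, 0, 73917⟩ :=
  chkD_sound (p := KcT49P) ⟨Nat.succ_pos 7, (by decide : 1 ≤ 48), (by decide : 1 ≤ 255), KcE_ok,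
    KT0_ok⟩ KcT49 _ KcT49_k
theorem KcT69_c : CovC JI 367002 1394607 ⟨629146, 714848, 1363149, 1738675, 155962, 294912, 245299, 490597⟩ :=
  chkD_sound (p := KcT69P) ⟨Nat.succ_pos 7, (by decide : 1 ≤ 48), (by decide : 1 ≤ 255), KcE_ok,
    KT0_ok⟩ KcT69 _ KcT69_k
theorem KcT89_c : CovC JI 367002 1394607 ⟨714848, 812224, 1048576, 1226834, 166269, 294912, 261666, 523332⟩ :=
  chkD_sound (p := KcT89P) ⟨Nat.succ_pos 7, (by decide : 1 ≤ 48), (by decide : 1 ≤ 255), KcE_ok,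
    KT0_ok⟩ KcT89 _ KcT89_k
theorem KcT116_c : CovC JI 367002 1394607 ⟨714848, 812224, 1226834, 1363149, 161547, 294912, 261119, 522238⟩ :=
  chkD_sound (p := KcT116P) ⟨Nat.succ_pos 7, (by decide : 1 ≤ 48), (by decide : 1 ≤ 255), KcE_ok,
    KT0_ok⟩ KcT116 _ KcT116_k
theorem KcT138_c : CovC JI 367002 1394607 ⟨812224, 922864, 0, 321190, 0, 294912, 0, 542118⟩ :=
  chkD_sound (p := KcT138P) ⟨Nat.succ_pos 7, (by decide : 1 ≤ 48), (by decide : 1 ≤ 255), KcE_ok,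
    KT0_ok⟩ KcT138 _ KcT138_k
theorem KcT150_c : CovC JI 367002 1394607 ⟨812224, 922864, 1048576, 1226834, 0, 47186, 83373, 149827⟩ :=
  chkD_sound (p := KcT150P) ⟨Nat.succ_pos 7, (by decide : 1 ≤ 48), (by decide : 1 ≤ 255), KcE_ok,
    KT0_ok⟩ KcT150 _ KcT150_k
theorem KcT192_c : CovC JI 367002 1394607 ⟨922864, 1048576, 1048576, 1226834, 0, 294912, 583338, 1048577⟩ :=
  chkD_sound (p := KcT192P) ⟨Nat.succ_pos 7, (by decide : 1 ≤ 48), (by decide : 1 ≤ 255), KcE_ok,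
    KT0_ok⟩ KcT192 _ KcT192_k
theorem KcT48_c : CovC JI 367002 1394607 ⟨629146, 714848, 1226834, 1363149, 0, 294912, 714849, 8388608⟩ :=
  chkD_sound (p := KcT48P) ⟨Nat.succ_pos 7, (by decide : 1 ≤ 48), (by decide : 1 ≤ 255), KcE_ok,
    KT0_ok⟩ KcT48 _ KcT48_k
theorem KcT148_c : CovC JI 367002 1394607 ⟨812224, 922864, 0, 1048576, 0, 294912, 922865, 8388608⟩ :=
  chkD_sound (p := KcT148P) ⟨Nat.succ_pos 7, (by decide : 1 ≤ 48), (by decide : 1 ≤ 255), KcE_ok,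
    KT0_ok⟩ KcT148 _ KcT148_k
theorem KcT202_c : CovC JI 367002 1394607 ⟨922864, 1048576, 1226834, 1363149, 0, 294912, 1048577, 8388608⟩ :=
  chkD_sound (p := KcT202P) ⟨Nat.succ_pos 7, (by decide : 1 ≤ 48), (by decide : 1 ≤ 255), KcE_ok,
    KT0_ok⟩ KcT202 _ KcT202_k
theorem KcT73_c : CovC JI 367002 1394607 ⟨714848, 812224, 0, 1048576, 0, 294912, 0, 8388608⟩ :=
  chkD_sound (p := KcT73P) ⟨Nat.succ_pos 7, (by decide : 12 ≤ 48), (by decide : 10 ≤ 255), KcE_ok,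
    chkKT_sound (by decide) KcT73K_k⟩ KcT73 _ KcT73_k
theorem KcT77_c : CovC JI 367002 1394607 ⟨714848, 812224, 1048576, 1226834, 18874, 47186, 172994, 261666⟩ :=
  chkD_sound (p := KcT77P) ⟨Nat.succ_pos 15, (by decide : 28 ≤ 48), (by decide : 19 ≤ 255), KcE_ok,
    chkKT_sound (by decide) KcT77K_k⟩ KcT77 _ KcT77_k
theorem KcT130_c : CovC JI 367002 1394607 ⟨761982, 812224, 1363149, 1592209, 47186, 82576, 193814, 258418⟩ :=
  chkD_sound (p := KcT130P) ⟨Nat.succ_pos 15, (by decide : 28 ≤ 48), (by decide : 19 ≤ 255), KcE_ok,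
    chkKT_sound (by decide) KcT130K_k⟩ KcT130 _ KcT130_k
theorem KcT25_c : CovC JI 367002 1394607 ⟨629146, 670629, 1226834, 1363149, 33030, 47186, 220459, 244807⟩ :=
  chkD_sound (p := KcT25P) ⟨Nat.succ_pos 15, (by decide : 28 ≤ 48), (by decide : 19 ≤ 255), KcE_ok,
    chkKT_sound (by decide) KcT25K_k⟩ KcT25 _ KcT25_k
theorem KcT161_c : CovC JI 367002 1394607 ⟨812224, 922864, 1226834, 1363149, 0, 18874, 137195, 274389⟩ :=
  chkD_sound (p := KcT161P) ⟨Nat.succ_pos 15, (by decide : 28 ≤ 48), (by decide : 19 ≤ 255), KcE_ok,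
    chkKT_sound (by decide) KcT161K_k⟩ KcT161 _ KcT161_k
theorem KcT58_c : CovC JI 367002 1394607 ⟨670629, 714848, 1363149, 1592209, 47186, 82576, 202454, 245299⟩ :=
  chkD_sound (p := KcT58P) ⟨Nat.succ_pos 15, (by decide : 28 ≤ 48), (by decide : 19 ≤ 255), KcE_ok,
    chkKT_sound (by decide) KcT58K_k⟩ KcT58 _ KcT58_k
theorem KcT39_c : CovC JI 367002 1394607 ⟨670629, 714848, 1226834, 1363149, 25674, 44929, 244807, 285741⟩ :=
  chkD_sound (p := KcT39P) ⟨Nat.succ_pos 15, (by decide : 28 ≤ 48), (by decide : 19 ≤ 255), KcE_ok,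
    chkKT_sound (by decide) KcT39K_k⟩ KcT39 _ KcT39_k
theorem KcT195_c : CovC JI 367002 1394607 ⟨922864, 1048576, 1226834, 1363149, 0, 18874, 144494, 288988⟩ :=
  chkD_sound (p := KcT195P) ⟨Nat.succ_pos 15, (by decide : 28 ≤ 48), (by decide : 19 ≤ 255), KcE_ok,
    chkKT_sound (by decide) KcT195K_k⟩ KcT195 _ KcT195_k
theorem KcT78_c : CovC JI 367002 1394607 ⟨714848, 812224, 1048576, 1226834, 47186, 82576, 172994, 261666⟩ :=
  chkD_sound (p := KcT78P) ⟨Nat.succ_pos 15, (by decide : 28 ≤ 48), (by decide : 19 ≤ 255), KcE_ok,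
    chkKT_sound (by decide) KcT78K_k⟩ KcT78 _ KcT78_k
theorem KcT100_c : CovC JI 367002 1394607 ⟨714848, 812224, 1226834, 1363149, 47186, 82576, 171289, 216204⟩ :=
  chkD_sound (p := KcT100P) ⟨Nat.succ_pos 15, (by decide : 28 ≤ 48), (by decide : 19 ≤ 255), KcE_ok,
    chkKT_sound (by decide) KcT100K_k⟩ KcT100 _ KcT100_k
theorem KcT105_c : CovC JI 367002 1394607 ⟨761982, 812224, 1226834, 1363149, 47186, 82576, 238662, 261119⟩ :=
  chkD_sound (p := KcT105P) ⟨Nat.succ_pos 15, (by decide : 28 ≤ 48), (by decide : 19 ≤ 255), KcE_ok,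
    chkKT_sound (by decide) KcT105K_k⟩ KcT105 _ KcT105_k
theorem KcT179_c : CovC JI 367002 1394607 ⟨812224, 922864, 1363149, 2097152, 117965, 294912, 0, 267090⟩ :=
  chkD_sound (p := KcT179P) ⟨Nat.succ_pos 7, (by decide : 12 ≤ 48), (by decide : 10 ≤ 255), KcE_ok,
    chkKT_sound (by decide) KcT179K_k⟩ KcT179 _ KcT179_k
theorem KcT209_c : CovC JI 367002 1394607 ⟨922864, 1048576, 1363149, 2097152, 117965, 294912, 0, 283433⟩ :=
  chkD_sound (p := KcT209P) ⟨Nat.succ_pos 7, (by decide : 12 ≤ 48), (by decide : 10 ≤ 255), KcE_ok,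
    chkKT_sound (by decide) KcT209K_k⟩ KcT209 _ KcT209_k
theorem KcT145_c : CovC JI 367002 1394607 ⟨812224, 922864, 321190, 1048576, 117965, 294912, 0, 271059⟩ :=
  chkD_sound (p := KcT145P) ⟨Nat.succ_pos 7, (by decide : 12 ≤ 48), (by decide : 10 ≤ 255), KcE_ok,
    chkKT_sound (by decide) KcT145K_k⟩ KcT145 _ KcT145_k
theorem KcT111_c : CovC JI 367002 1394607 ⟨761982, 812224, 1226834, 1363149, 25848, 64619, 261119, 304734⟩ :=
  chkD_sound (p := KcT111P) ⟨Nat.succ_pos 7, (by decide : 12 ≤ 48), (by decide : 10 ≤ 255), KcE_ok,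
    chkKT_sound (by decide) KcT111K_k⟩ KcT111 _ KcT111_k
theorem KcT31_c : CovC JI 367002 1394607 ⟨670629, 714848, 1226834, 1363149, 64881, 82576, 204297, 244807⟩ :=
  chkD_sound (p := KcT31P) ⟨Nat.succ_pos 15, (by decide : 28 ≤ 48), (by decide : 19 ≤ 255), KcE_ok,
    chkKT_sound (by decide) KcT31K_k⟩ KcT31 _ KcT31_k
theorem KcT76_c : CovC JI 367002 1394607 ⟨714848, 812224, 1048576, 1226834, 0, 18874, 172994, 261666⟩ :=
  chkD_sound (p := KcT76P) ⟨Nat.succ_pos 15, (by decide : 28 ≤ 48), (by decide : 19 ≤ 255), KcE_ok,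
    chkKT_sound (by decide) KcT76K_k⟩ KcT76 _ KcT76_k
theorem KcT206_c : CovC JI 367002 1394607 ⟨922864, 1048576, 1363149, 1592209, 82576, 117965, 141717, 283433⟩ :=
  chkD_sound (p := KcT206P) ⟨Nat.succ_pos 7, (by decide : 12 ≤ 48), (by decide : 10 ≤ 255), KcE_ok,
    chkKT_sound (by decide) KcT206K_k⟩ KcT206 _ KcT206_k
theorem KcT8_c : CovC JI 367002 1394607 ⟨629146, 714848, 1048576, 1226834, 117965, 294912, 0, 249369⟩ :=
  chkD_sound (p := KcT8P) ⟨Nat.succ_pos 7, (by decide : 12 ≤ 48), (by decide : 10 ≤ 255), KcE_ok,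
    chkKT_sound (by decide) KcT8K_k⟩ KcT8 _ KcT8_k
theorem KcT190_c : CovC JI 367002 1394607 ⟨922864, 1048576, 1048576, 1226834, 117965, 294912, 0, 291669⟩ :=
  chkD_sound (p := KcT190P) ⟨Nat.succ_pos 7, (by decide : 12 ≤ 48), (by decide : 10 ≤ 255), KcE_ok,
    chkKT_sound (by decide) KcT190K_k⟩ KcT190 _ KcT190_k
theorem KcT106_c : CovC JI 367002 1394607 ⟨714848, 812224, 1226834, 1363149, 82576, 117965, 171289, 261119⟩ :=
  chkD_sound (p := KcT106P) ⟨Nat.succ_pos 7, (by decide : 12 ≤ 48), (by decide : 10 ≤ 255), KcE_ok,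
    chkKT_sound (by decide) KcT106K_k⟩ KcT106 _ KcT106_k
theorem KcT24_c : CovC JI 367002 1394607 ⟨629146, 714848, 1226834, 1363149, 18874, 33030, 220459, 244807⟩ :=
  chkD_sound (p := KcT24P) ⟨Nat.succ_pos 15, (by decide : 28 ≤ 48), (by decide : 19 ≤ 255), KcE_ok,
    chkKT_sound (by decide) KcT24K_k⟩ KcT24 _ KcT24_k
theorem KcT121_c : CovC JI 367002 1394607 ⟨714848, 812224, 1363149, 1642408, 18874, 47186, 129209, 193814⟩ :=
  chkD_sound (p := KcT121P) ⟨Nat.succ_pos 15, (by decide : 28 ≤ 48), (by decide : 19 ≤ 255), KcE_ok,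
    chkKT_sound (by decide) KcT121K_k⟩ KcT121 _ KcT121_k
theorem KcT32_c : CovC JI 367002 1394607 ⟨629146, 714848, 1226834, 1363149, 82576, 117965, 204297, 244807⟩ :=
  chkD_sound (p := KcT32P) ⟨Nat.succ_pos 7, (by decide : 12 ≤ 48), (by decide : 10 ≤ 255), KcE_ok,
    chkKT_sound (by decide) KcT32K_k⟩ KcT32 _ KcT32_k
theorem KcT75_c : CovC JI 367002 1394607 ⟨714848, 812224, 1048576, 1226834, 0, 117965, 84322, 172994⟩ :=
  chkD_sound (p := KcT75P) ⟨Nat.succ_pos 7, (by decide : 12 ≤ 48), (by decide : 10 ≤ 255), KcE_ok,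
    chkKT_sound (by decide) KcT75K_k⟩ KcT75 _ KcT75_k
theorem KcT109_c : CovC JI 367002 1394607 ⟨714848, 761982, 1226834, 1363149, 25848, 45234, 261119, 304734⟩ :=
  chkD_sound (p := KcT109P) ⟨Nat.succ_pos 15, (by decide : 28 ≤ 48), (by decide : 19 ≤ 255), KcE_ok,
    chkKT_sound (by decide) KcT109K_k⟩ KcT109 _ KcT109_k
theorem KcT184_c : CovC JI 367002 1394607 ⟨922864, 1048576, 1048576, 1226834, 0, 117965, 0, 145835⟩ :=
  chkD_sound (p := KcT184P) ⟨Nat.succ_pos 7, (by decide : 12 ≤ 48), (by decide : 10 ≤ 255), KcE_ok,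
    chkKT_sound (by decide) KcT184K_k⟩ KcT184 _ KcT184_k
theorem KcT176_c : CovC JI 367002 1394607 ⟨812224, 922864, 1592209, 1821268, 47186, 82576, 200318, 267090⟩ :=
  chkD_sound (p := KcT176P) ⟨Nat.succ_pos 7, (by decide : 12 ≤ 48), (by decide : 10 ≤ 255), KcE_ok,
    chkKT_sound (by decide) KcT176K_k⟩ KcT176 _ KcT176_k
theorem KcT11_c : CovC JI 367002 1394607 ⟨629146, 714848, 1048576, 1226834, 10485, 26213, 291259, 333148⟩ :=
  chkD_sound (p := KcT11P) ⟨Nat.succ_pos 7, (by decide : 12 ≤ 48), (by decide : 10 ≤ 255), KcE_ok,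
    chkKT_sound (by decide) KcT11K_k⟩ KcT11 _ KcT11_k
theorem KcT86_c : CovC JI 367002 1394607 ⟨714848, 812224, 1048576, 1226834, 26603, 66508, 351662, 441658⟩ :=
  chkD_sound (p := KcT86P) ⟨Nat.succ_pos 7, (by decide : 12 ≤ 48), (by decide : 10 ≤ 255), KcE_ok,
    chkKT_sound (by decide) KcT86K_k⟩ KcT86 _ KcT86_k
theorem KcT66_c : CovC JI 367002 1394607 ⟨629146, 714848, 1363149, 1738675, 24954, 62385, 323274, 401249⟩ :=
  chkD_sound (p := KcT66P) ⟨Nat.succ_pos 7, (by decide : 12 ≤ 48), (by decide : 10 ≤ 255), KcE_ok,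
    chkKT_sound (by decide) KcT66K_k⟩ KcT66 _ KcT66_k
theorem KcT1_c : CovC JI 367002 1394607 ⟨629146, 714848, 1048576, 1226834, 0, 117965, 0, 85306⟩ :=
  chkD_sound (p := KcT1P) ⟨Nat.succ_pos 7, (by decide : 1 ≤ 48), (by decide : 1 ≤ 255), KcE_ok,
    KT0_ok⟩ KcT1 _ KcT1_k
theorem KcT17_c : CovC JI 367002 1394607 ⟨629146, 714848, 1048576, 1226834, 0, 294912, 498738, 714849⟩ :=
  chkD_sound (p := KcT17P) ⟨Nat.succ_pos 7, (by decide : 1 ≤ 48), (by decide : 1 ≤ 255), KcE_ok,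
    KT0_ok⟩ KcT17 _ KcT17_k
theorem KcT47_c : CovC JI 367002 1394607 ⟨629146, 714848, 1226834, 1363149, 0, 294912, 489613, 714849⟩ :=
  chkD_sound (p := KcT47P) ⟨Nat.succ_pos 7, (by decide : 1 ≤ 48), (by decide : 1 ≤ 255), KcE_ok,
    KT0_ok⟩ KcT47 _ KcT47_k
theorem KcT67_c : CovC JI 367002 1394607 ⟨629146, 714848, 1363149, 1738675, 0, 62385, 401249, 490597⟩ :=
  chkD_sound (p := KcT67P) ⟨Nat.succ_pos 7, (by decide : 1 ≤ 48), (by decide : 1 ≤ 255), KcE_ok,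
    KT0_ok⟩ KcT67 _ KcT67_k
theorem KcT87_c : CovC JI 367002 1394607 ⟨714848, 812224, 1048576, 1226834, 0, 66508, 441658, 523332⟩ :=
  chkD_sound (p := KcT87P) ⟨Nat.succ_pos 7, (by decide : 1 ≤ 48), (by decide : 1 ≤ 255), KcE_ok,
    KT0_ok⟩ KcT87 _ KcT87_k
theorem KcT114_c : CovC JI 367002 1394607 ⟨714848, 812224, 1226834, 1363149, 0, 64619, 435576, 522238⟩ :=
  chkD_sound (p := KcT114P) ⟨Nat.succ_pos 7, (by decide : 1 ≤ 48), (by decide : 1 ≤ 255), KcE_ok,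
    KT0_ok⟩ KcT114 _ KcT114_k
theorem KcT136_c : CovC JI 367002 1394607 ⟨714848, 812224, 1363149, 2097152, 0, 294912, 516836, 812225⟩ :=
  chkD_sound (p := KcT136P) ⟨Nat.succ_pos 7, (by decide : 1 ≤ 48), (by decide : 1 ≤ 255), KcE_ok,
    KT0_ok⟩ KcT136 _ KcT136_k
theorem KcT149_c : CovC JI 367002 1394607 ⟨812224, 922864, 1048576, 1226834, 0, 117965, 0, 83373⟩ :=
  chkD_sound (p := KcT149P) ⟨Nat.succ_pos 7, (by decide : 1 ≤ 48), (by decide : 1 ≤ 255), KcE_ok,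
    KT0_ok⟩ KcT149 _ KcT149_k
theorem KcT181_c : CovC JI 367002 1394607 ⟨812224, 922864, 1363149, 2097152, 0, 294912, 534179, 922865⟩ :=
  chkD_sound (p := KcT181P) ⟨Nat.succ_pos 7, (by decide : 1 ≤ 48), (by decide : 1 ≤ 255), KcE_ok,
    KT0_ok⟩ KcT181 _ KcT181_k
theorem KcT18_c : CovC JI 367002 1394607 ⟨629146, 714848, 1048576, 1226834, 0, 294912, 714849, 8388608⟩ :=
  chkD_sound (p := KcT18P) ⟨Nat.succ_pos 7, (by decide : 1 ≤ 48), (by decide : 1 ≤ 255), KcE_ok,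
    KT0_ok⟩ KcT18 _ KcT18_k
theorem KcT137_c : CovC JI 367002 1394607 ⟨714848, 812224, 1363149, 2097152, 0, 294912, 812225, 8388608⟩ :=
  chkD_sound (p := KcT137P) ⟨Nat.succ_pos 7, (by decide : 1 ≤ 48), (by decide : 1 ≤ 255), KcE_ok,
    KT0_ok⟩ KcT137 _ KcT137_k
theorem KcT193_c : CovC JI 367002 1394607 ⟨922864, 1048576, 1048576, 1226834, 0, 294912, 1048577, 8388608⟩ :=
  chkD_sound (p := KcT193P) ⟨Nat.succ_pos 7, (by decide : 1 ≤ 48), (by decide : 1 ≤ 255), KcE_ok,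
    KT0_ok⟩ KcT193 _ KcT193_k
theorem KcT183_c : CovC JI 367002 1394607 ⟨922864, 1048576, 0, 1048576, 0, 294912, 0, 8388608⟩ :=
  chkD_sound (p := KcT183P) ⟨Nat.succ_pos 7, (by decide : 12 ≤ 48), (by decide : 10 ≤ 255), KcE_ok,
    chkKT_sound (by decide) KcT183K_k⟩ KcT183 _ KcT183_k
theorem KcT30_c : CovC JI 367002 1394607 ⟨670629, 714848, 1226834, 1363149, 47186, 64881, 204297, 244807⟩ :=
  chkD_sound (p := KcT30P) ⟨Nat.succ_pos 15, (by decide : 28 ≤ 48), (by decide : 19 ≤ 255), KcE_ok,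
    chkKT_sound (by decide) KcT30K_k⟩ KcT30 _ KcT30_k
theorem KcT0_c : CovC JI 367002 1394607 ⟨629146, 714848, 0, 1048576, 0, 294912, 0, 8388608⟩ :=
  chkD_sound (p := KcT0P) ⟨Nat.succ_pos 7, (by decide : 12 ≤ 48), (by decide : 10 ≤ 255), KcE_ok,
    chkKT_sound (by decide) KcT0K_k⟩ KcT0 _ KcT0_k
theorem KcT174_c : CovC JI 367002 1394607 ⟨812224, 865778, 1363149, 1592209, 47186, 82576, 200318, 267090⟩ :=
  chkD_sound (p := KcT174P) ⟨Nat.succ_pos 15, (by decide : 28 ≤ 48), (by decide : 19 ≤ 255), KcE_ok,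
    chkKT_sound (by decide) KcT174K_k⟩ KcT174 _ KcT174_k
theorem KcT154_c : CovC JI 367002 1394607 ⟨812224, 922864, 1048576, 1226834, 47186, 82576, 178452, 273530⟩ :=
  chkD_sound (p := KcT154P) ⟨Nat.succ_pos 15, (by decide : 28 ≤ 48), (by decide : 19 ≤ 255), KcE_ok,
    chkKT_sound (by decide) KcT154K_k⟩ KcT154 _ KcT154_k
theorem KcT165_c : CovC JI 367002 1394607 ⟨812224, 922864, 1226834, 1363149, 47186, 82576, 240091, 274389⟩ :=
  chkD_sound (p := KcT165P) ⟨Nat.succ_pos 15, (by decide : 28 ≤ 48), (by decide : 19 ≤ 255), KcE_ok,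
    chkKT_sound (by decide) KcT165K_k⟩ KcT165 _ KcT165_k
theorem KcT172_c : CovC JI 367002 1394607 ⟨812224, 922864, 1363149, 1821268, 0, 47186, 133545, 267090⟩ :=
  chkD_sound (p := KcT172P) ⟨Nat.succ_pos 15, (by decide : 28 ≤ 48), (by decide : 19 ≤ 255), KcE_ok,
    chkKT_sound (by decide) KcT172K_k⟩ KcT172 _ KcT172_k
theorem KcT13_c : CovC JI 367002 1394607 ⟨629146, 714848, 1048576, 1226834, 26213, 65533, 249369, 416926⟩ :=
  chkD_sound (p := KcT13P) ⟨Nat.succ_pos 15, (by decide : 28 ≤ 48), (by decide : 19 ≤ 255), KcE_ok,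
    chkKT_sound (by decide) KcT13K_k⟩ KcT13 _ KcT13_k
theorem KcT175_c : CovC JI 367002 1394607 ⟨865778, 922864, 1363149, 1592209, 47186, 82576, 200318, 267090⟩ :=
  chkD_sound (p := KcT175P) ⟨Nat.succ_pos 15, (by decide : 28 ≤ 48), (by decide : 19 ≤ 255), KcE_ok,
    chkKT_sound (by decide) KcT175K_k⟩ KcT175 _ KcT175_k
theorem KcT151_c : CovC JI 367002 1394607 ⟨812224, 922864, 1048576, 1226834, 0, 18874, 149827, 273530⟩ :=
  chkD_sound (p := KcT151P) ⟨Nat.succ_pos 15, (by decide : 28 ≤ 48), (by decide : 19 ≤ 255), KcE_ok,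
    chkKT_sound (by decide) KcT151K_k⟩ KcT151 _ KcT151_k
theorem KcT168_c : CovC JI 367002 1394607 ⟨812224, 922864, 1226834, 1363149, 0, 294912, 274389, 548778⟩ :=
  chkD_sound (p := KcT168P) ⟨Nat.succ_pos 7, (by decide : 12 ≤ 48), (by decide : 10 ≤ 255), KcE_ok,
    chkKT_sound (by decide) KcT168K_k⟩ KcT168 _ KcT168_k
theorem KcT126_c : CovC JI 367002 1394607 ⟨714848, 812224, 1363149, 1821268, 47186, 117965, 129209, 193814⟩ :=
  chkD_sound (p := KcT126P) ⟨Nat.succ_pos 7, (by decide : 12 ≤ 48), (by decide : 10 ≤ 255), KcE_ok,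
    chkKT_sound (by decide) KcT126K_k⟩ KcT126 _ KcT126_k
theorem KcT115_c : CovC JI 367002 1394607 ⟨714848, 812224, 1226834, 1363149, 64619, 161547, 261119, 522238⟩ :=
  chkD_sound (p := KcT115P) ⟨Nat.succ_pos 7, (by decide : 12 ≤ 48), (by decide : 10 ≤ 255), KcE_ok,
    chkKT_sound (by decide) KcT115K_k⟩ KcT115 _ KcT115_k
theorem KcT62_c : CovC JI 367002 1394607 ⟨629146, 714848, 1363149, 2097152, 117965, 294912, 0, 245299⟩ :=
  chkD_sound (p := KcT62P) ⟨Nat.succ_pos 7, (by decide : 12 ≤ 48), (by decide : 10 ≤ 255), KcE_ok,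
    chkKT_sound (by decide) KcT62K_k⟩ KcT62 _ KcT62_k
theorem KcT143_c : CovC JI 367002 1394607 ⟨812224, 922864, 866729, 1048576, 0, 47186, 156602, 271059⟩ :=
  chkD_sound (p := KcT143P) ⟨Nat.succ_pos 15, (by decide : 28 ≤ 48), (by decide : 19 ≤ 255), KcE_ok,
    chkKT_sound (by decide) KcT143K_k⟩ KcT143 _ KcT143_k
theorem KcT200_c : CovC JI 367002 1394607 ⟨922864, 1048576, 1226834, 1363149, 0, 294912, 288988, 577975⟩ :=
  chkD_sound (p := KcT200P) ⟨Nat.succ_pos 7, (by decide : 12 ≤ 48), (by decide : 10 ≤ 255), KcE_ok,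
    chkKT_sound (by decide) KcT200K_k⟩ KcT200 _ KcT200_k
theorem KcT120_c : CovC JI 367002 1394607 ⟨714848, 812224, 1363149, 1642408, 0, 18874, 129209, 258418⟩ :=
  chkD_sound (p := KcT120P) ⟨Nat.succ_pos 15, (by decide : 28 ≤ 48), (by decide : 19 ≤ 255), KcE_ok,
    chkKT_sound (by decide) KcT120K_k⟩ KcT120 _ KcT120_k
theorem KcT60_c : CovC JI 367002 1394607 ⟨629146, 714848, 1592209, 1821268, 47186, 117965, 159608, 245299⟩ :=
  chkD_sound (p := KcT60P) ⟨Nat.succ_pos 7, (by decide : 12 ≤ 48), (by decide : 10 ≤ 255), KcE_ok,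
    chkKT_sound (by decide) KcT60K_k⟩ KcT60 _ KcT60_k
theorem KcT33_c : CovC JI 367002 1394607 ⟨629146, 714848, 1226834, 1363149, 117965, 294912, 0, 244807⟩ :=
  chkD_sound (p := KcT33P) ⟨Nat.succ_pos 7, (by decide : 12 ≤ 48), (by decide : 10 ≤ 255), KcE_ok,
    chkKT_sound (by decide) KcT33K_k⟩ KcT33 _ KcT33_k
theorem KcT199_c : CovC JI 367002 1394607 ⟨922864, 1048576, 1226834, 1363149, 117965, 294912, 0, 288988⟩ :=
  chkD_sound (p := KcT199P) ⟨Nat.succ_pos 7, (by decide : 12 ≤ 48), (by decide : 10 ≤ 255), KcE_ok,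
    chkKT_sound (by decide) KcT199K_k⟩ KcT199 _ KcT199_k
theorem KcT10_c : CovC JI 367002 1394607 ⟨629146, 714848, 1048576, 1226834, 10485, 26213, 249369, 291259⟩ :=
  chkD_sound (p := KcT10P) ⟨Nat.succ_pos 15, (by decide : 28 ≤ 48), (by decide : 19 ≤ 255), KcE_ok,
    chkKT_sound (by decide) KcT10K_k⟩ KcT10 _ KcT10_k
theorem KcT155_c : CovC JI 367002 1394607 ⟨812224, 922864, 1048576, 1226834, 82576, 117965, 178452, 273530⟩ :=
  chkD_sound (p := KcT155P) ⟨Nat.succ_pos 7, (by decide : 12 ≤ 48), (by decide : 10 ≤ 255), KcE_ok,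
    chkKT_sound (by decide) KcT155K_k⟩ KcT155 _ KcT155_k
theorem KcT163_c : CovC JI 367002 1394607 ⟨812224, 922864, 1226834, 1363149, 47186, 82576, 137195, 205792⟩ :=
  chkD_sound (p := KcT163P) ⟨Nat.succ_pos 15, (by decide : 28 ≤ 48), (by decide : 19 ≤ 255), KcE_ok,
    chkKT_sound (by decide) KcT163K_k⟩ KcT163 _ KcT163_k
theorem KcT95_c : CovC JI 367002 1394607 ⟨714848, 812224, 1226834, 1363149, 18874, 47186, 146109, 203614⟩ :=
  chkD_sound (p := KcT95P) ⟨Nat.succ_pos 15, (by decide : 28 ≤ 48), (by decide : 19 ≤ 255), KcE_ok,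
    chkKT_sound (by decide) KcT95K_k⟩ KcT95 _ KcT95_k
theorem KcT23_c : CovC JI 367002 1394607 ⟨629146, 714848, 1226834, 1363149, 18874, 47186, 196111, 220459⟩ :=
  chkD_sound (p := KcT23P) ⟨Nat.succ_pos 15, (by decide : 28 ≤ 48), (by decide : 19 ≤ 255), KcE_ok,
    chkKT_sound (by decide) KcT23K_k⟩ KcT23 _ KcT23_k
theorem KcT65_c : CovC JI 367002 1394607 ⟨629146, 714848, 1550912, 1738675, 24954, 62385, 245299, 323274⟩ :=
  chkD_sound (p := KcT65P) ⟨Nat.succ_pos 7, (by decide : 12 ≤ 48), (by decide : 10 ≤ 255), KcE_ok,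
    chkKT_sound (by decide) KcT65K_k⟩ KcT65 _ KcT65_k
theorem KcT194_c : CovC JI 367002 1394607 ⟨922864, 1048576, 1226834, 1363149, 0, 117965, 0, 144494⟩ :=
  chkD_sound (p := KcT194P) ⟨Nat.succ_pos 7, (by decide : 12 ≤ 48), (by decide : 10 ≤ 255), KcE_ok,
    chkKT_sound (by decide) KcT194K_k⟩ KcT194 _ KcT194_k
theorem KcT12_c : CovC JI 367002 1394607 ⟨629146, 714848, 1048576, 1226834, 0, 26213, 333148, 416926⟩ :=
  chkD_sound (p := KcT12P) ⟨Nat.succ_pos 7, (by decide : 12 ≤ 48), (by decide : 10 ≤ 255), KcE_ok,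
    chkKT_sound (by decide) KcT12K_k⟩ KcT12 _ KcT12_k
theorem KcT52_c : CovC JI 367002 1394607 ⟨629146, 714848, 1363149, 1642408, 18874, 47186, 139744, 192522⟩ :=
  chkD_sound (p := KcT52P) ⟨Nat.succ_pos 7, (by decide : 12 ≤ 48), (by decide : 10 ≤ 255), KcE_ok,
    chkKT_sound (by decide) KcT52K_k⟩ KcT52 _ KcT52_k
theorem KcT112_c : CovC JI 367002 1394607 ⟨714848, 812224, 1226834, 1363149, 25848, 64619, 304734, 348348⟩ :=
  chkD_sound (p := KcT112P) ⟨Nat.succ_pos 7, (by decide : 12 ≤ 48), (by decide : 10 ≤ 255), KcE_ok,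
    chkKT_sound (by decide) KcT112K_k⟩ KcT112 _ KcT112_k
theorem KcT36_c : CovC JI 367002 1394607 ⟨629146, 714848, 1226834, 1363149, 10270, 25674, 285741, 326675⟩ :=
  chkD_sound (p := KcT36P) ⟨Nat.succ_pos 7, (by decide : 12 ≤ 48), (by decide : 10 ≤ 255), KcE_ok,
    chkKT_sound (by decide) KcT36K_k⟩ KcT36 _ KcT36_k
theorem KcT55_c : CovC JI 367002 1394607 ⟨629146, 714848, 1363149, 1821268, 47186, 117965, 73917, 159608⟩ :=
  chkD_sound (p := KcT55P) ⟨Nat.succ_pos 7, (by decide : 12 ≤ 48), (by decide : 10 ≤ 255), KcE_ok,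
    chkKT_sound (by decide) KcT55K_k⟩ KcT55 _ KcT55_k
theorem KcT44_c : CovC JI 367002 1394607 ⟨629146, 714848, 1226834, 1363149, 0, 64184, 408543, 489613⟩ :=
  chkD_sound (p := KcT44P) ⟨Nat.succ_pos 7, (by decide : 1 ≤ 48), (by decide : 1 ≤ 255), KcE_ok,
    KT0_ok⟩ KcT44 _ KcT44_k
theorem KcT54_c : CovC JI 367002 1394607 ⟨629146, 714848, 1642408, 1821268, 0, 47186, 73917, 245299⟩ :=
  chkD_sound (p := KcT54P) ⟨Nat.succ_pos 7, (by decide : 1 ≤ 48), (by decide : 1 ≤ 255), KcE_ok,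
    KT0_ok⟩ KcT54 _ KcT54_k
theorem KcT71_c : CovC JI 367002 1394607 ⟨629146, 714848, 1363149, 2097152, 0, 294912, 490597, 714849⟩ :=
  chkD_sound (p := KcT71P) ⟨Nat.succ_pos 7, (by decide : 1 ≤ 48), (by decide : 1 ≤ 255), KcE_ok,
    KT0_ok⟩ KcT71 _ KcT71_k
theorem KcT92_c : CovC JI 367002 1394607 ⟨714848, 812224, 1226834, 1363149, 0, 117965, 0, 81459⟩ :=
  chkD_sound (p := KcT92P) ⟨Nat.succ_pos 7, (by decide : 1 ≤ 48), (by decide : 1 ≤ 255), KcE_ok,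
    KT0_ok⟩ KcT92 _ KcT92_k
theorem KcT125_c : CovC JI 367002 1394607 ⟨714848, 812224, 1642408, 1821268, 0, 47186, 129209, 258418⟩ :=
  chkD_sound (p := KcT125P) ⟨Nat.succ_pos 7, (by decide : 1 ≤ 48), (by decide : 1 ≤ 255), KcE_ok,
    KT0_ok⟩ KcT125 _ KcT125_k
theorem KcT141_c : CovC JI 367002 1394607 ⟨812224, 922864, 684883, 1048576, 0, 47186, 87372, 156602⟩ :=
  chkD_sound (p := KcT141P) ⟨Nat.succ_pos 7, (by decide : 1 ≤ 48), (by decide : 1 ≤ 255), KcE_ok,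
    KT0_ok⟩ KcT141 _ KcT141_k
theorem KcT169_c : CovC JI 367002 1394607 ⟨812224, 922864, 1226834, 1363149, 0, 294912, 548778, 922865⟩ :=
  chkD_sound (p := KcT169P) ⟨Nat.succ_pos 7, (by decide : 1 ≤ 48), (by decide : 1 ≤ 255), KcE_ok,
    KT0_ok⟩ KcT169 _ KcT169_k
theorem KcT208_c : CovC JI 367002 1394607 ⟨922864, 1048576, 1821268, 2097152, 0, 117965, 0, 283433⟩ :=
  chkD_sound (p := KcT208P) ⟨Nat.succ_pos 7, (by decide : 1 ≤ 48), (by decide : 1 ≤ 255), KcE_ok,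
    KT0_ok⟩ KcT208 _ KcT208_k
theorem KcT91_c : CovC JI 367002 1394607 ⟨714848, 812224, 1048576, 1226834, 0, 294912, 812225, 8388608⟩ :=
  chkD_sound (p := KcT91P) ⟨Nat.succ_pos 7, (by decide : 1 ≤ 48), (by decide : 1 ≤ 255), KcE_ok,
    KT0_ok⟩ KcT91 _ KcT91_k
theorem KcT170_c : CovC JI 367002 1394607 ⟨812224, 922864, 1226834, 1363149, 0, 294912, 922865, 8388608⟩ :=
  chkD_sound (p := KcT170P) ⟨Nat.succ_pos 7, (by decide : 1 ≤ 48), (by decide : 1 ≤ 255), KcE_ok,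
    KT0_ok⟩ KcT170 _ KcT170_k
theorem KcT53_c : CovC JI 367002 1394607 ⟨629146, 714848, 1363149, 1642408, 18874, 47186, 192522, 245299⟩ :=
  chkD_sound (p := KcT53P) ⟨Nat.succ_pos 15, (by decide : 28 ≤ 48), (by decide : 19 ≤ 255), KcE_ok,
    chkKT_sound (by decide) KcT53K_k⟩ KcT53 _ KcT53_k
theorem KcT152_c : CovC JI 367002 1394607 ⟨812224, 922864, 1048576, 1226834, 18874, 47186, 149827, 273530⟩ :=
  chkD_sound (p := KcT152P) ⟨Nat.succ_pos 15, (by decide : 28 ≤ 48), (by decide : 19 ≤ 255), KcE_ok,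
    chkKT_sound (by decide) KcT152K_k⟩ KcT152 _ KcT152_k
theorem KcT38_c : CovC JI 367002 1394607 ⟨629146, 670629, 1226834, 1363149, 25674, 44929, 244807, 285741⟩ :=
  chkD_sound (p := KcT38P) ⟨Nat.succ_pos 15, (by decide : 28 ≤ 48), (by decide : 19 ≤ 255), KcE_ok,
    chkKT_sound (by decide) KcT38K_k⟩ KcT38 _ KcT38_k
theorem KcT29_c : CovC JI 367002 1394607 ⟨629146, 670629, 1226834, 1363149, 47186, 82576, 204297, 244807⟩ :=
  chkD_sound (p := KcT29P) ⟨Nat.succ_pos 15, (by decide : 28 ≤ 48), (by decide : 19 ≤ 255), KcE_ok,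
    chkKT_sound (by decide) KcT29K_k⟩ KcT29 _ KcT29_k
theorem KcT128_c : CovC JI 367002 1394607 ⟨714848, 761982, 1363149, 1477679, 47186, 82576, 226116, 258418⟩ :=
  chkD_sound (p := KcT128P) ⟨Nat.succ_pos 15, (by decide : 28 ≤ 48), (by decide : 19 ≤ 255), KcE_ok,
    chkKT_sound (by decide) KcT128K_k⟩ KcT128 _ KcT128_k
theorem KcT122_c : CovC JI 367002 1394607 ⟨714848, 761982, 1363149, 1502779, 18874, 47186, 193814, 258418⟩ :=
  chkD_sound (p := KcT122P) ⟨Nat.succ_pos 15, (by decide : 28 ≤ 48), (by decide : 19 ≤ 255), KcE_ok,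
    chkKT_sound (by decide) KcT122K_k⟩ KcT122 _ KcT122_k
theorem KcT57_c : CovC JI 367002 1394607 ⟨629146, 670629, 1363149, 1592209, 47186, 82576, 202454, 245299⟩ :=
  chkD_sound (p := KcT57P) ⟨Nat.succ_pos 15, (by decide : 28 ≤ 48), (by decide : 19 ≤ 255), KcE_ok,
    chkKT_sound (by decide) KcT57K_k⟩ KcT57 _ KcT57_k
theorem KcT123_c : CovC JI 367002 1394607 ⟨761982, 812224, 1363149, 1502779, 18874, 47186, 193814, 258418⟩ :=
  chkD_sound (p := KcT123P) ⟨Nat.succ_pos 15, (by decide : 28 ≤ 48), (by decide : 19 ≤ 255), KcE_ok,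
    chkKT_sound (by decide) KcT123K_k⟩ KcT123 _ KcT123_k
theorem KcT204_c : CovC JI 367002 1394607 ⟨922864, 1048576, 1363149, 1821268, 0, 47186, 141717, 283433⟩ :=
  chkD_sound (p := KcT204P) ⟨Nat.succ_pos 15, (by decide : 28 ≤ 48), (by decide : 19 ≤ 255), KcE_ok,
    chkKT_sound (by decide) KcT204K_k⟩ KcT204 _ KcT204_k
theorem KcT102_c : CovC JI 367002 1394607 ⟨714848, 812224, 1294992, 1363149, 47186, 82576, 216204, 227433⟩ :=
  chkD_sound (p := KcT102P) ⟨Nat.succ_pos 15, (by decide : 28 ≤ 48), (by decide : 19 ≤ 255), KcE_ok,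
    chkKT_sound (by decide) KcT102K_k⟩ KcT102 _ KcT102_k
theorem KcT96_c : CovC JI 367002 1394607 ⟨714848, 761982, 1226834, 1363149, 18874, 33030, 203614, 261119⟩ :=
  chkD_sound (p := KcT96P) ⟨Nat.succ_pos 15, (by decide : 28 ≤ 48), (by decide : 19 ≤ 255), KcE_ok,
    chkKT_sound (by decide) KcT96K_k⟩ KcT96 _ KcT96_k
theorem KcT94_c : CovC JI 367002 1394607 ⟨714848, 812224, 1226834, 1363149, 0, 18874, 146109, 261119⟩ :=
  chkD_sound (p := KcT94P) ⟨Nat.succ_pos 15, (by decide : 28 ≤ 48), (by decide : 19 ≤ 255), KcE_ok,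
    chkKT_sound (by decide) KcT94K_k⟩ KcT94 _ KcT94_k
theorem KcT173_c : CovC JI 367002 1394607 ⟨812224, 922864, 1363149, 1821268, 47186, 82576, 133545, 200318⟩ :=
  chkD_sound (p := KcT173P) ⟨Nat.succ_pos 7, (by decide : 12 ≤ 48), (by decide : 10 ≤ 255), KcE_ok,
    chkKT_sound (by decide) KcT173K_k⟩ KcT173 _ KcT173_k
theorem KcT134_c : CovC JI 367002 1394607 ⟨714848, 812224, 1363149, 2097152, 117965, 294912, 0, 258418⟩ :=
  chkD_sound (p := KcT134P) ⟨Nat.succ_pos 7, (by decide : 12 ≤ 48), (by decide : 10 ≤ 255), KcE_ok,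
    chkKT_sound (by decide) KcT134K_k⟩ KcT134 _ KcT134_k
theorem KcT56_c : CovC JI 367002 1394607 ⟨629146, 714848, 1363149, 1592209, 47186, 117965, 159608, 202454⟩ :=
  chkD_sound (p := KcT56P) ⟨Nat.succ_pos 7, (by decide : 12 ≤ 48), (by decide : 10 ≤ 255), KcE_ok,
    chkKT_sound (by decide) KcT56K_k⟩ KcT56 _ KcT56_k
theorem KcT81_c : CovC JI 367002 1394607 ⟨714848, 812224, 1048576, 1226834, 0, 26603, 261666, 441658⟩ :=
  chkD_sound (p := KcT81P) ⟨Nat.succ_pos 7, (by decide : 12 ≤ 48), (by decide : 10 ≤ 255), KcE_ok,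
    chkKT_sound (by decide) KcT81K_k⟩ KcT81 _ KcT81_k
theorem KcT166_c : CovC JI 367002 1394607 ⟨812224, 922864, 1226834, 1363149, 82576, 117965, 137195, 274389⟩ :=
  chkD_sound (p := KcT166P) ⟨Nat.succ_pos 15, (by decide : 28 ≤ 48), (by decide : 19 ≤ 255), KcE_ok,
    chkKT_sound (by decide) KcT166K_k⟩ KcT166 _ KcT166_k
theorem KcT167_c : CovC JI 367002 1394607 ⟨812224, 922864, 1226834, 1363149, 117965, 294912, 0, 274389⟩ :=
  chkD_sound (p := KcT167P) ⟨Nat.succ_pos 7, (by decide : 12 ≤ 48), (by decide : 10 ≤ 255), KcE_ok,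
    chkKT_sound (by decide) KcT167K_k⟩ KcT167 _ KcT167_k
theorem KcT80_c : CovC JI 367002 1394607 ⟨714848, 812224, 1048576, 1226834, 117965, 294912, 0, 261666⟩ :=
  chkD_sound (p := KcT80P) ⟨Nat.succ_pos 7, (by decide : 12 ≤ 48), (by decide : 10 ≤ 255), KcE_ok,
    chkKT_sound (by decide) KcT80K_k⟩ KcT80 _ KcT80_k
theorem KcT63_c : CovC JI 367002 1394607 ⟨629146, 714848, 1363149, 1738675, 0, 24954, 245299, 401249⟩ :=
  chkD_sound (p := KcT63P) ⟨Nat.succ_pos 7, (by decide : 12 ≤ 48), (by decide : 10 ≤ 255), KcE_ok,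
    chkKT_sound (by decide) KcT63K_k⟩ KcT63 _ KcT63_k
theorem KcT207_c : CovC JI 367002 1394607 ⟨922864, 1048576, 1592209, 1821268, 47186, 117965, 141717, 283433⟩ :=
  chkD_sound (p := KcT207P) ⟨Nat.succ_pos 7, (by decide : 12 ≤ 48), (by decide : 10 ≤ 255), KcE_ok,
    chkKT_sound (by decide) KcT207K_k⟩ KcT207 _ KcT207_k
theorem KcT15_c : CovC JI 367002 1394607 ⟨629146, 714848, 1048576, 1226834, 65533, 163832, 249369, 498738⟩ :=
  chkD_sound (p := KcT15P) ⟨Nat.succ_pos 7, (by decide : 12 ≤ 48), (by decide : 10 ≤ 255), KcE_ok,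
    chkKT_sound (by decide) KcT15K_k⟩ KcT15 _ KcT15_k
theorem KcT6_c : CovC JI 367002 1394607 ⟨629146, 714848, 1048576, 1226834, 64881, 82576, 208354, 249369⟩ :=
  chkD_sound (p := KcT6P) ⟨Nat.succ_pos 7, (by decide : 12 ≤ 48), (by decide : 10 ≤ 255), KcE_ok,
    chkKT_sound (by decide) KcT6K_k⟩ KcT6 _ KcT6_k
theorem KcT22_c : CovC JI 367002 1394607 ⟨629146, 714848, 1226834, 1363149, 18874, 47186, 147414, 196111⟩ :=
  chkD_sound (p := KcT22P) ⟨Nat.succ_pos 15, (by decide : 28 ≤ 48), (by decide : 19 ≤ 255), KcE_ok,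
    chkKT_sound (by decide) KcT22K_k⟩ KcT22 _ KcT22_k
theorem KcT132_c : CovC JI 367002 1394607 ⟨714848, 812224, 1592209, 1821268, 47186, 117965, 193814, 258418⟩ :=
  chkD_sound (p := KcT132P) ⟨Nat.succ_pos 7, (by decide : 12 ≤ 48), (by decide : 10 ≤ 255), KcE_ok,
    chkKT_sound (by decide) KcT132K_k⟩ KcT132 _ KcT132_k
theorem KcT37_c : CovC JI 367002 1394607 ⟨629146, 714848, 1226834, 1363149, 10270, 25674, 326675, 408543⟩ :=
  chkD_sound (p := KcT37P) ⟨Nat.succ_pos 7, (by decide : 12 ≤ 48), (by decide : 10 ≤ 255), KcE_ok,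
    chkKT_sound (by decide) KcT37K_k⟩ KcT37 _ KcT37_k
theorem KcT119_c : CovC JI 367002 1394607 ⟨714848, 812224, 1363149, 1821268, 0, 117965, 0, 129209⟩ :=
  chkD_sound (p := KcT119P) ⟨Nat.succ_pos 7, (by decide : 12 ≤ 48), (by decide : 10 ≤ 255), KcE_ok,
    chkKT_sound (by decide) KcT119K_k⟩ KcT119 _ KcT119_k
theorem KcT203_c : CovC JI 367002 1394607 ⟨922864, 1048576, 1363149, 1821268, 0, 117965, 0, 141717⟩ :=
  chkD_sound (p := KcT203P) ⟨Nat.succ_pos 7, (by decide : 12 ≤ 48), (by decide : 10 ≤ 255), KcE_ok,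
    chkKT_sound (by decide) KcT203K_k⟩ KcT203 _ KcT203_k
theorem KcT3_c : CovC JI 367002 1394607 ⟨629146, 714848, 1048576, 1226834, 47186, 117965, 85306, 167338⟩ :=
  chkD_sound (p := KcT3P) ⟨Nat.succ_pos 7, (by decide : 12 ≤ 48), (by decide : 10 ≤ 255), KcE_ok,
    chkKT_sound (by decide) KcT3K_k⟩ KcT3 _ KcT3_k
theorem KcT82_c : CovC JI 367002 1394607 ⟨714848, 812224, 1048576, 1137705, 26603, 66508, 261666, 306664⟩ :=
  chkD_sound (p := KcT82P) ⟨Nat.succ_pos 7, (by decide : 12 ≤ 48), (by decide : 10 ≤ 255), KcE_ok,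
    chkKT_sound (by decide) KcT82K_k⟩ KcT82 _ KcT82_k
theorem KcT124_c : CovC JI 367002 1394607 ⟨714848, 812224, 1502779, 1642408, 18874, 47186, 193814, 258418⟩ :=
  chkD_sound (p := KcT124P) ⟨Nat.succ_pos 15, (by decide : 28 ≤ 48), (by decide : 19 ≤ 255), KcE_ok,
    chkKT_sound (by decide) KcT124K_k⟩ KcT124 _ KcT124_k
theorem KcT113_c : CovC JI 367002 1394607 ⟨714848, 812224, 1226834, 1363149, 25848, 64619, 348348, 435576⟩ :=
  chkD_sound (p := KcT113P) ⟨Nat.succ_pos 7, (by decide : 12 ≤ 48), (by decide : 10 ≤ 255), KcE_ok,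
    chkKT_sound (by decide) KcT113K_k⟩ KcT113 _ KcT113_k
theorem KcT46_c : CovC JI 367002 1394607 ⟨629146, 714848, 1226834, 1363149, 160461, 294912, 244807, 489613⟩ :=
  chkD_sound (p := KcT46P) ⟨Nat.succ_pos 7, (by decide : 1 ≤ 48), (by decide : 1 ≤ 255), KcE_ok,
    KT0_ok⟩ KcT46 _ KcT46_k
theorem KcT61_c : CovC JI 367002 1394607 ⟨629146, 714848, 1821268, 2097152, 0, 117965, 0, 245299⟩ :=
  chkD_sound (p := KcT61P) ⟨Nat.succ_pos 7, (by decide : 1 ≤ 48), (by decide : 1 ≤ 255), KcE_ok,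
    KT0_ok⟩ KcT61 _ KcT61_k
theorem KcT74_c : CovC JI 367002 1394607 ⟨714848, 812224, 1048576, 1226834, 0, 117965, 0, 84322⟩ :=
  chkD_sound (p := KcT74P) ⟨Nat.succ_pos 7, (by decide : 1 ≤ 48), (by decide : 1 ≤ 255), KcE_ok,
    KT0_ok⟩ KcT74 _ KcT74_k
theorem KcT93_c : CovC JI 367002 1394607 ⟨714848, 812224, 1226834, 1363149, 0, 47186, 81459, 146109⟩ :=
  chkD_sound (p := KcT93P) ⟨Nat.succ_pos 7, (by decide : 1 ≤ 48), (by decide : 1 ≤ 255), KcE_ok,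
    KT0_ok⟩ KcT93 _ KcT93_k
theorem KcT133_c : CovC JI 367002 1394607 ⟨714848, 812224, 1821268, 2097152, 0, 117965, 0, 258418⟩ :=
  chkD_sound (p := KcT133P) ⟨Nat.succ_pos 7, (by decide : 1 ≤ 48), (by decide : 1 ≤ 255), KcE_ok,
    KT0_ok⟩ KcT133 _ KcT133_k
theorem KcT147_c : CovC JI 367002 1394607 ⟨812224, 922864, 0, 1048576, 0, 294912, 542118, 922865⟩ :=
  chkD_sound (p := KcT147P) ⟨Nat.succ_pos 7, (by decide : 1 ≤ 48), (by decide : 1 ≤ 255), KcE_ok,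
    KT0_ok⟩ KcT147 _ KcT147_k
theorem KcT178_c : CovC JI 367002 1394607 ⟨812224, 922864, 1821268, 2097152, 0, 117965, 0, 267090⟩ :=
  chkD_sound (p := KcT178P) ⟨Nat.succ_pos 7, (by decide : 1 ≤ 48), (by decide : 1 ≤ 255), KcE_ok,
    KT0_ok⟩ KcT178 _ KcT178_k
theorem KcT211_c : CovC JI 367002 1394607 ⟨922864, 1048576, 1363149, 2097152, 0, 294912, 566866, 1048577⟩ :=
  chkD_sound (p := KcT211P) ⟨Nat.succ_pos 7, (by decide : 1 ≤ 48), (by decide : 1 ≤ 255), KcE_ok,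
    KT0_ok⟩ KcT211 _ KcT211_k
theorem KcT118_c : CovC JI 367002 1394607 ⟨714848, 812224, 1226834, 1363149, 0, 294912, 812225, 8388608⟩ :=
  chkD_sound (p := KcT118P) ⟨Nat.succ_pos 7, (by decide : 1 ≤ 48), (by decide : 1 ≤ 255), KcE_ok,
    KT0_ok⟩ KcT118 _ KcT118_k
theorem KcT182_c : CovC JI 367002 1394607 ⟨812224, 922864, 1363149, 2097152, 0, 294912, 922865, 8388608⟩ :=
  chkD_sound (p := KcT182P) ⟨Nat.succ_pos 7, (by decide : 1 ≤ 48), (by decide : 1 ≤ 255), KcE_ok,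
    KT0_ok⟩ KcT182 _ KcT182_k
theorem Kc_cov  : CovC JI 367002 1394607 ⟨629146, 1048576, 0, 2097152, 0, 294912, 0, 8388608⟩ :=
 (CovC.sN 714848 (CovC.sK 1048576 KcT0_c
 (CovC.sK 1226834 (CovC.sQ 714849 (CovC.sQ 498738 (CovC.sQ 249369 (CovC.sJ 117965 (CovC.sQ 85306 KcT1_c
 (CovC.sJ 47186 KcT2_c
 (CovC.sQ 167338 KcT3_c
 (CovC.sJ 82576 (CovC.sQ 208354 KcT4_c
 (CovC.sJ 64881 KcT5_c
 KcT6_c))
 KcT7_c))))
 KcT8_c)
 (CovC.sJ 163832 (CovC.sJ 65533 (CovC.sQ 416926 (CovC.sJ 26213 (CovC.sQ 333148 (CovC.sJ 10485 KcT9_c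
 (CovC.sQ 291259 KcT10_c
 KcT11_c))
 KcT12_c)
 KcT13_c)
 KcT14_c)
 KcT15_c)
 KcT16_c))
 KcT17_c)
 KcT18_c)
 (CovC.sK 1363149 (CovC.sQ 714849 (CovC.sQ 489613 (CovC.sQ 244807 (CovC.sJ 117965 (CovC.sQ 82764 KcT19_c
 (CovC.sJ 47186 (CovC.sQ 147414 KcT20_c
 (CovC.sJ 18874 KcT21_c
 (CovC.sQ 196111 KcT22_c
 (CovC.sQ 220459 KcT23_c
 (CovC.sJ 33030 KcT24_c
 (CovC.sN 670629 KcT25_c
 KcT26_c))))))
 (CovC.sQ 163786 KcT27_c
 (CovC.sQ 204297 KcT28_c
 (CovC.sJ 82576 (CovC.sN 670629 KcT29_c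
 (CovC.sJ 64881 KcT30_c
 KcT31_c))
 KcT32_c)))))
 KcT33_c)
 (CovC.sJ 160461 (CovC.sJ 64184 (CovC.sQ 408543 (CovC.sJ 25674 (CovC.sJ 10270 KcT34_c
 (CovC.sQ 326675 (CovC.sQ 285741 KcT35_c
 KcT36_c)
 KcT37_c))
 (CovC.sQ 326675 (CovC.sQ 285741 (CovC.sJ 44929 (CovC.sN 670629 KcT38_c
 KcT39_c)
 (CovC.sN 670629 KcT40_c
 KcT41_c))
 KcT42_c)
 KcT43_c))
 KcT44_c)
 KcT45_c)
 KcT46_c))
 KcT47_c)
 KcT48_c)
 (CovC.sQ 714849 (CovC.sQ 490597 (CovC.sQ 245299 (CovC.sJ 117965 (CovC.sK 1821268 (CovC.sQ 73917 KcT49_c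
 (CovC.sJ 47186 (CovC.sK 1642408 (CovC.sQ 139744 KcT50_c
 (CovC.sJ 18874 KcT51_c
 (CovC.sQ 192522 KcT52_c
 KcT53_c)))
 KcT54_c)
 (CovC.sQ 159608 KcT55_c
 (CovC.sK 1592209 (CovC.sQ 202454 KcT56_c
 (CovC.sJ 82576 (CovC.sN 670629 KcT57_c
 KcT58_c)
 KcT59_c))
 KcT60_c))))
 KcT61_c)
 KcT62_c)
 (CovC.sK 1738675 (CovC.sJ 155962 (CovC.sJ 62385 (CovC.sQ 401249 (CovC.sJ 24954 KcT63_c
 (CovC.sQ 323274 (CovC.sK 1550912 KcT64_c
 KcT65_c)
 KcT66_c))
 KcT67_c)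
 KcT68_c)
 KcT69_c)
 KcT70_c))
 KcT71_c)
 KcT72_c))))
 (CovC.sN 812224 (CovC.sK 1048576 KcT73_c
 (CovC.sK 1226834 (CovC.sQ 812225 (CovC.sQ 523332 (CovC.sQ 261666 (CovC.sJ 117965 (CovC.sQ 84322 KcT74_c
 (CovC.sQ 172994 KcT75_c
 (CovC.sJ 47186 (CovC.sJ 18874 KcT76_c
 KcT77_c)
 (CovC.sJ 82576 KcT78_c
 KcT79_c))))
 KcT80_c)
 (CovC.sJ 166269 (CovC.sJ 66508 (CovC.sQ 441658 (CovC.sJ 26603 KcT81_c
 (CovC.sQ 351662 (CovC.sQ 306664 (CovC.sK 1137705 KcT82_c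
 (CovC.sN 761982 KcT83_c
 KcT84_c))
 KcT85_c)
 KcT86_c))
 KcT87_c)
 KcT88_c)
 KcT89_c))
 KcT90_c)
 KcT91_c)
 (CovC.sK 1363149 (CovC.sQ 812225 (CovC.sQ 522238 (CovC.sQ 261119 (CovC.sJ 117965 (CovC.sQ 81459 KcT92_c
 (CovC.sJ 47186 (CovC.sQ 146109 KcT93_c
 (CovC.sJ 18874 KcT94_c
 (CovC.sQ 203614 KcT95_c
 (CovC.sN 761982 (CovC.sJ 33030 KcT96_c
 KcT97_c)
 KcT98_c))))
 (CovC.sQ 171289 KcT99_c
 (CovC.sJ 82576 (CovC.sQ 216204 KcT100_c
 (CovC.sQ 238662 (CovC.sK 1294992 KcT101_c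
 (CovC.sQ 227433 KcT102_c
 KcT103_c))
 (CovC.sN 761982 KcT104_c
 KcT105_c)))
 KcT106_c))))
 KcT107_c)
 (CovC.sJ 161547 (CovC.sJ 64619 (CovC.sQ 435576 (CovC.sJ 25848 KcT108_c
 (CovC.sQ 348348 (CovC.sQ 304734 (CovC.sN 761982 (CovC.sJ 45234 KcT109_c
 KcT110_c)
 KcT111_c)
 KcT112_c)
 KcT113_c))
 KcT114_c)
 KcT115_c)
 KcT116_c))
 KcT117_c)
 KcT118_c)
 (CovC.sQ 812225 (CovC.sQ 516836 (CovC.sQ 258418 (CovC.sJ 117965 (CovC.sK 1821268 (CovC.sQ 129209 KcT119_c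
 (CovC.sJ 47186 (CovC.sK 1642408 (CovC.sJ 18874 KcT120_c
 (CovC.sQ 193814 KcT121_c
 (CovC.sK 1502779 (CovC.sN 761982 KcT122_c
 KcT123_c)
 KcT124_c)))
 KcT125_c)
 (CovC.sQ 193814 KcT126_c
 (CovC.sK 1592209 (CovC.sJ 82576 (CovC.sN 761982 (CovC.sK 1477679 (CovC.sQ 226116 KcT127_c
 KcT128_c)
 KcT129_c)
 KcT130_c)
 KcT131_c)
 KcT132_c))))
 KcT133_c)
 KcT134_c)
 KcT135_c)
 KcT136_c)
 KcT137_c))))
 (CovC.sN 922864 (CovC.sK 1048576 (CovC.sQ 922865 (CovC.sQ 542118 (CovC.sK 321190 KcT138_c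
 (CovC.sQ 271059 (CovC.sJ 117965 (CovC.sQ 87372 KcT139_c
 (CovC.sK 684883 KcT140_c
 (CovC.sJ 47186 (CovC.sQ 156602 KcT141_c
 (CovC.sK 866729 KcT142_c
 KcT143_c))
 KcT144_c)))
 KcT145_c)
 KcT146_c))
 KcT147_c)
 KcT148_c)
 (CovC.sK 1226834 (CovC.sQ 922865 (CovC.sQ 547059 (CovC.sQ 273530 (CovC.sJ 117965 (CovC.sQ 83373 KcT149_c
 (CovC.sJ 47186 (CovC.sQ 149827 KcT150_c
 (CovC.sJ 18874 KcT151_c
 KcT152_c))
 (CovC.sQ 178452 KcT153_c
 (CovC.sJ 82576 KcT154_c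
 KcT155_c))))
 KcT156_c)
 KcT157_c)
 KcT158_c)
 KcT159_c)
 (CovC.sK 1363149 (CovC.sQ 922865 (CovC.sQ 548778 (CovC.sQ 274389 (CovC.sJ 117965 (CovC.sQ 137195 KcT160_c
 (CovC.sJ 47186 (CovC.sJ 18874 KcT161_c
 KcT162_c)
 (CovC.sJ 82576 (CovC.sQ 205792 KcT163_c
 (CovC.sQ 240091 KcT164_c
 KcT165_c))
 KcT166_c)))
 KcT167_c)
 KcT168_c)
 KcT169_c)
 KcT170_c)
 (CovC.sQ 922865 (CovC.sQ 534179 (CovC.sQ 267090 (CovC.sJ 117965 (CovC.sK 1821268 (CovC.sQ 133545 KcT171_c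
 (CovC.sJ 47186 KcT172_c
 (CovC.sJ 82576 (CovC.sQ 200318 KcT173_c
 (CovC.sK 1592209 (CovC.sN 865778 KcT174_c
 KcT175_c)
 KcT176_c))
 KcT177_c)))
 KcT178_c)
 KcT179_c)
 KcT180_c)
 KcT181_c)
 KcT182_c))))
 (CovC.sK 1048576 KcT183_c
 (CovC.sK 1226834 (CovC.sQ 1048577 (CovC.sQ 583338 (CovC.sQ 291669 (CovC.sJ 117965 (CovC.sQ 145835 KcT184_c
 (CovC.sQ 218752 KcT185_c
 (CovC.sJ 47186 KcT186_c
 (CovC.sJ 82576 (CovC.sN 983714 KcT187_c
 KcT188_c)
 KcT189_c))))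
 KcT190_c)
 KcT191_c)
 KcT192_c)
 KcT193_c)
 (CovC.sK 1363149 (CovC.sQ 1048577 (CovC.sQ 577975 (CovC.sQ 288988 (CovC.sJ 117965 (CovC.sQ 144494 KcT194_c
 (CovC.sJ 47186 (CovC.sJ 18874 KcT195_c
 KcT196_c)
 (CovC.sJ 82576 KcT197_c
 KcT198_c)))
 KcT199_c)
 KcT200_c)
 KcT201_c)
 KcT202_c)
 (CovC.sQ 1048577 (CovC.sQ 566866 (CovC.sQ 283433 (CovC.sJ 117965 (CovC.sK 1821268 (CovC.sQ 141717 KcT203_c
 (CovC.sJ 47186 KcT204_c
 (CovC.sK 1592209 (CovC.sJ 82576 KcT205_c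
 KcT206_c)
 KcT207_c)))
 KcT208_c)
 KcT209_c)
 KcT210_c)
 KcT211_c)
 KcT212_c)))))))
end Pool.Agent.Lib.MP_33650d_pr.X
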