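import Pool.Agent.Lib.MP_33650d_pr.X.EFin
import Pool.Agent.Lib.MP_33650d_pr.X.GSnd
import Pool.Agent.Lib.MP_33650d_pr.X.CKChk
import Pool.Agent.Lib.MP_33650d_pr.G.KdC0
import Pool.Agent.Lib.MP_33650d_pr.G.KdC1
import Pool.Agent.Lib.MP_33650d_pr.G.KdC2

set_option linter.defProp false

namespace Pool.Agent.Lib.MP_33650d_pr.X

theorem KdE00000_ok : Tab JI KdE00000 := KdE00000_k.tabI
theorem KdE00001_ok : Tab JI KdE00001 := KdE00001_k.tabI
theorem KdE0000_ok : Tab JI KdE0000 := E.Tab.node KdE00000_ok KdE00001_ok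
theorem KdE00010_ok : Tab JI KdE00010 := KdE00010_k.tabI
theorem KdE000110_ok : Tab JI KdE000110 := KdE000110_k.tabI
theorem KdE000111_ok : Tab JI KdE000111 := KdE000111_k.tabI
theorem KdE00011_ok : Tab JI KdE00011 := E.Tab.node KdE000110_ok KdE000111_ok
theorem KdE0001_ok : Tab JI KdE0001 := E.Tab.node KdE00010_ok KdE00011_ok
theorem KdE000_ok : Tab JI KdE000 := E.Tab.node KdE0000_ok KdE0001_ok
theorem KdE00100_ok : Tab JI KdE00100 := KdE00100_k.tabI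
theorem KdE00101_ok : Tab JI KdE00101 := KdE00101_k.tabI
theorem KdE0010_ok : Tab JI KdE0010 := E.Tab.node KdE00100_ok KdE00101_ok
theorem KdE00110_ok : Tab JI KdE00110 := KdE00110_k.tabI
theorem KdE00111_ok : Tab JI KdE00111 := KdE00111_k.tabI
theorem KdE0011_ok : Tab JI KdE0011 := E.Tab.node KdE00110_ok KdE00111_ok
theorem KdE001_ok : Tab JI KdE001 := E.Tab.node KdE0010_ok KdE0011_ok
theorem KdE00_ok : Tab JI KdE00 := E.Tab.node KdE000_ok KdE001_ok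
theorem KdE010000_ok : Tab JI KdE010000 := KdE010000_k.tabI
theorem KdE010001_ok : Tab JI KdE010001 := KdE010001_k.tabI
theorem KdE01000_ok : Tab JI KdE01000 := E.Tab.node KdE010000_ok KdE010001_ok
theorem KdE01001_ok : Tab JI KdE01001 := KdE01001_k.tabI
theorem KdE0100_ok : Tab JI KdE0100 := E.Tab.node KdE01000_ok KdE01001_ok
theorem KdE01010_ok : Tab JI KdE01010 := KdE01010_k.tabI
theorem KdE01011_ok : Tab JI KdE01011 := KdE01011_k.tabI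
theorem KdE0101_ok : Tab JI KdE0101 := E.Tab.node KdE01010_ok KdE01011_ok
theorem KdE010_ok : Tab JI KdE010 := E.Tab.node KdE0100_ok KdE0101_ok
theorem KdE01100_ok : Tab JI KdE01100 := KdE01100_k.tabI
theorem KdE01101_ok : Tab JI KdE01101 := KdE01101_k.tabI
theorem KdE0110_ok : Tab JI KdE0110 := E.Tab.node KdE01100_ok KdE01101_ok
theorem KdE01110_ok : Tab JI KdE01110 := KdE01110_k.tabI
theorem KdE01111_ok : Tab JI KdE01111 := KdE01111_k.tabI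
theorem KdE0111_ok : Tab JI KdE0111 := E.Tab.node KdE01110_ok KdE01111_ok
theorem KdE011_ok : Tab JI KdE011 := E.Tab.node KdE0110_ok KdE0111_ok
theorem KdE01_ok : Tab JI KdE01 := E.Tab.node KdE010_ok KdE011_ok
theorem KdE0_ok : Tab JI KdE0 := E.Tab.node KdE00_ok KdE01_ok
theorem KdE10000_ok : Tab JI KdE10000 := KdE10000_k.tabI
theorem KdE10001_ok : Tab JI KdE10001 := KdE10001_k.tabI
theorem KdE1000_ok : Tab JI KdE1000 := E.Tab.node KdE10000_ok KdE10001_ok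
theorem KdE10010_ok : Tab JI KdE10010 := KdE10010_k.tabI
theorem KdE10011_ok : Tab JI KdE10011 := KdE10011_k.tabI
theorem KdE1001_ok : Tab JI KdE1001 := E.Tab.node KdE10010_ok KdE10011_ok
theorem KdE100_ok : Tab JI KdE100 := E.Tab.node KdE1000_ok KdE1001_ok
theorem KdE10100_ok : Tab JI KdE10100 := KdE10100_k.tabI
theorem KdE10101_ok : Tab JI KdE10101 := KdE10101_k.tabI
theorem KdE1010_ok : Tab JI KdE1010 := E.Tab.node KdE10100_ok KdE10101_ok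
theorem KdE10110_ok : Tab JI KdE10110 := KdE10110_k.tabI
theorem KdE10111_ok : Tab JI KdE10111 := KdE10111_k.tabI
theorem KdE1011_ok : Tab JI KdE1011 := E.Tab.node KdE10110_ok KdE10111_ok
theorem KdE101_ok : Tab JI KdE101 := E.Tab.node KdE1010_ok KdE1011_ok
theorem KdE10_ok : Tab JI KdE10 := E.Tab.node KdE100_ok KdE101_ok
theorem KdE11000_ok : Tab JI KdE11000 := KdE11000_k.tabI
theorem KdE11001_ok : Tab JI KdE11001 := KdE11001_k.tabI
theorem KdE1100_ok : Tab JI KdE1100 := E.Tab.node KdE11000_ok KdE11001_ok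
theorem KdE11010_ok : Tab JI KdE11010 := KdE11010_k.tabI
theorem KdE11011_ok : Tab JI KdE11011 := KdE11011_k.tabI
theorem KdE1101_ok : Tab JI KdE1101 := E.Tab.node KdE11010_ok KdE11011_ok
theorem KdE110_ok : Tab JI KdE110 := E.Tab.node KdE1100_ok KdE1101_ok
theorem KdE11100_ok : Tab JI KdE11100 := KdE11100_k.tabI
theorem KdE11101_ok : Tab JI KdE11101 := KdE11101_k.tabI
theorem KdE1110_ok : Tab JI KdE1110 := E.Tab.node KdE11100_ok KdE11101_ok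
theorem KdE111100_ok : Tab JI KdE111100 := KdE111100_k.tabI
theorem KdE111101_ok : Tab JI KdE111101 := KdE111101_k.tabI
theorem KdE11110_ok : Tab JI KdE11110 := E.Tab.node KdE111100_ok KdE111101_ok
theorem KdE11111_ok : Tab JI KdE11111 := KdE11111_k.tabI
theorem KdE1111_ok : Tab JI KdE1111 := E.Tab.node KdE11110_ok KdE11111_ok
theorem KdE111_ok : Tab JI KdE111 := E.Tab.node KdE1110_ok KdE1111_ok
theorem KdE11_ok : Tab JI KdE11 := E.Tab.node KdE110_ok KdE111_ok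
theorem KdE1_ok : Tab JI KdE1 := E.Tab.node KdE10_ok KdE11_ok
theorem KdE_ok : Tab JI KdE := E.Tab.node KdE0_ok KdE1_ok
theorem KdT89_c : CovC JI 367002 1394607 ⟨1160440, 1284238, 1363149, 2097152, 0, 294912, 0, 8388608⟩ :=
  chkD_sound (p := KdT89P) ⟨Nat.succ_pos 7, (by decide : 12 ≤ 48), (by decide : 7 ≤ 255), KdE_ok,
    chkKT_sound (by decide) KdT89K_k⟩ KdT89 _ KdT89_k
theorem KdT140_c : CovC JI 367002 1394607 ⟨1421243, 1572864, 1048576, 1226834, 0, 47186, 169534, 339067⟩ :=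
  chkD_sound (p := KdT140P) ⟨Nat.succ_pos 15, (by decide : 28 ≤ 48), (by decide : 14 ≤ 255), KdE_ok,
    chkKT_sound (by decide) KdT140K_k⟩ KdT140 _ KdT140_k
theorem KdT112_c : CovC JI 367002 1394607 ⟨1284238, 1421243, 1226834, 1363149, 0, 7550, 243777, 325035⟩ :=
  chkD_sound (p := KdT112P) ⟨Nat.succ_pos 15, (by decide : 28 ≤ 48), (by decide : 14 ≤ 255), KdE_ok,
    chkKT_sound (by decide) KdT112K_k⟩ KdT112 _ KdT112_k
theorem KdT83_c : CovC JI 367002 1394607 ⟨1160440, 1284238, 1226834, 1363149, 18874, 47186, 156391, 312782⟩ :=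
  chkD_sound (p := KdT83P) ⟨Nat.succ_pos 15, (by decide : 28 ≤ 48), (by decide : 14 ≤ 255), KdE_ok,
    chkKT_sound (by decide) KdT83K_k⟩ KdT83 _ KdT83_k
theorem KdT73_c : CovC JI 367002 1394607 ⟨1160440, 1284238, 1048576, 1226834, 18874, 47186, 157180, 314360⟩ :=
  chkD_sound (p := KdT73P) ⟨Nat.succ_pos 15, (by decide : 28 ≤ 48), (by decide : 14 ≤ 255), KdE_ok,
    chkKT_sound (by decide) KdT73K_k⟩ KdT73 _ KdT73_k
theorem KdT45_c : CovC JI 367002 1394607 ⟨1048576, 1160440, 1363149, 1821268, 0, 47186, 148496, 296992⟩ :=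
  chkD_sound (p := KdT45P) ⟨Nat.succ_pos 15, (by decide : 28 ≤ 48), (by decide : 14 ≤ 255), KdE_ok,
    chkKT_sound (by decide) KdT45K_k⟩ KdT45 _ KdT45_k
theorem KdT151_c : CovC JI 367002 1394607 ⟨1421243, 1572864, 1226834, 1363149, 18874, 47186, 168725, 337450⟩ :=
  chkD_sound (p := KdT151P) ⟨Nat.succ_pos 15, (by decide : 28 ≤ 48), (by decide : 14 ≤ 255), KdE_ok,
    chkKT_sound (by decide) KdT151K_k⟩ KdT151 _ KdT151_k
theorem KdT16_c : CovC JI 367002 1394607 ⟨1048576, 1160440, 1048576, 1226834, 7550, 18874, 227511, 303347⟩ :=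
  chkD_sound (p := KdT16P) ⟨Nat.succ_pos 15, (by decide : 28 ≤ 48), (by decide : 14 ≤ 255), KdE_ok,
    chkKT_sound (by decide) KdT16K_k⟩ KdT16 _ KdT16_k
theorem KdT84_c : CovC JI 367002 1394607 ⟨1160440, 1284238, 1226834, 1363149, 47186, 117965, 156391, 312782⟩ :=
  chkD_sound (p := KdT84P) ⟨Nat.succ_pos 7, (by decide : 12 ≤ 48), (by decide : 7 ≤ 255), KdE_ok,
    chkKT_sound (by decide) KdT84K_k⟩ KdT84 _ KdT84_k
theorem KdT104_c : CovC JI 367002 1394607 ⟨1284238, 1421243, 1048576, 1226834, 18874, 47186, 164799, 329598⟩ :=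
  chkD_sound (p := KdT104P) ⟨Nat.succ_pos 15, (by decide : 28 ≤ 48), (by decide : 14 ≤ 255), KdE_ok,
    chkKT_sound (by decide) KdT104K_k⟩ KdT104 _ KdT104_k
theorem KdT133_c : CovC JI 367002 1394607 ⟨1421243, 1572864, 684883, 1048576, 0, 47186, 167896, 335791⟩ :=
  chkD_sound (p := KdT133P) ⟨Nat.succ_pos 15, (by decide : 28 ≤ 48), (by decide : 14 ≤ 255), KdE_ok,
    chkKT_sound (by decide) KdT133K_k⟩ KdT133 _ KdT133_k
theorem KdT135_c : CovC JI 367002 1394607 ⟨1421243, 1572864, 321190, 1048576, 117965, 294912, 0, 335791⟩ :=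
  chkD_sound (p := KdT135P) ⟨Nat.succ_pos 7, (by decide : 12 ≤ 48), (by decide : 7 ≤ 255), KdE_ok,
    chkKT_sound (by decide) KdT135K_k⟩ KdT135 _ KdT135_k
theorem KdT122_c : CovC JI 367002 1394607 ⟨1284238, 1421243, 1363149, 1643508, 18874, 47186, 161716, 323432⟩ :=
  chkD_sound (p := KdT122P) ⟨Nat.succ_pos 15, (by decide : 28 ≤ 48), (by decide : 14 ≤ 255), KdE_ok,
    chkKT_sound (by decide) KdT122K_k⟩ KdT122 _ KdT122_k
theorem KdT111_c : CovC JI 367002 1394607 ⟨1284238, 1421243, 1226834, 1363149, 0, 18874, 162518, 243777⟩ :=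
  chkD_sound (p := KdT111P) ⟨Nat.succ_pos 15, (by decide : 28 ≤ 48), (by decide : 14 ≤ 255), KdE_ok,
    chkKT_sound (by decide) KdT111K_k⟩ KdT111 _ KdT111_k
theorem KdT54_c : CovC JI 367002 1394607 ⟨1048576, 1160440, 1363149, 2097152, 0, 294912, 296992, 593983⟩ :=
  chkD_sound (p := KdT54P) ⟨Nat.succ_pos 7, (by decide : 12 ≤ 48), (by decide : 7 ≤ 255), KdE_ok,
    chkKT_sound (by decide) KdT54K_k⟩ KdT54 _ KdT54_k
theorem KdT29_c : CovC JI 367002 1394607 ⟨1048576, 1160440, 1048576, 1226834, 0, 294912, 303347, 606694⟩ :=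
  chkD_sound (p := KdT29P) ⟨Nat.succ_pos 7, (by decide : 12 ≤ 48), (by decide : 7 ≤ 255), KdE_ok,
    chkKT_sound (by decide) KdT29K_k⟩ KdT29 _ KdT29_k
theorem KdT141_c : CovC JI 367002 1394607 ⟨1421243, 1495133, 1048576, 1137705, 47186, 82576, 169534, 339067⟩ :=
  chkD_sound (p := KdT141P) ⟨Nat.succ_pos 7, (by decide : 12 ≤ 48), (by decide : 7 ≤ 255), KdE_ok,
    chkKT_sound (by decide) KdT141K_k⟩ KdT141 _ KdT141_k
theorem KdT17_c : CovC JI 367002 1394607 ⟨1048576, 1160440, 1048576, 1226834, 18874, 47186, 227511, 303347⟩ :=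
  chkD_sound (p := KdT17P) ⟨Nat.succ_pos 15, (by decide : 28 ≤ 48), (by decide : 14 ≤ 255), KdE_ok,
    chkKT_sound (by decide) KdT17K_k⟩ KdT17 _ KdT17_k
theorem KdT86_c : CovC JI 367002 1394607 ⟨1160440, 1284238, 1226834, 1363149, 0, 294912, 312782, 625563⟩ :=
  chkD_sound (p := KdT86P) ⟨Nat.succ_pos 7, (by decide : 12 ≤ 48), (by decide : 7 ≤ 255), KdE_ok,
    chkKT_sound (by decide) KdT86K_k⟩ KdT86 _ KdT86_k
theorem KdT106_c : CovC JI 367002 1394607 ⟨1284238, 1421243, 1048576, 1226834, 117965, 294912, 0, 329598⟩ :=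
  chkD_sound (p := KdT106P) ⟨Nat.succ_pos 7, (by decide : 12 ≤ 48), (by decide : 7 ≤ 255), KdE_ok,
    chkKT_sound (by decide) KdT106K_k⟩ KdT106 _ KdT106_k
theorem KdT85_c : CovC JI 367002 1394607 ⟨1160440, 1284238, 1226834, 1363149, 117965, 294912, 0, 312782⟩ :=
  chkD_sound (p := KdT85P) ⟨Nat.succ_pos 7, (by decide : 12 ≤ 48), (by decide : 7 ≤ 255), KdE_ok,
    chkKT_sound (by decide) KdT85K_k⟩ KdT85 _ KdT85_k
theorem KdT28_c : CovC JI 367002 1394607 ⟨1048576, 1160440, 1048576, 1226834, 117965, 294912, 0, 303347⟩ :=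
  chkD_sound (p := KdT28P) ⟨Nat.succ_pos 7, (by decide : 12 ≤ 48), (by decide : 7 ≤ 255), KdE_ok,
    chkKT_sound (by decide) KdT28K_k⟩ KdT28 _ KdT28_k
theorem KdT154_c : CovC JI 367002 1394607 ⟨1421243, 1572864, 1226834, 1363149, 117965, 294912, 0, 337450⟩ :=
  chkD_sound (p := KdT154P) ⟨Nat.succ_pos 7, (by decide : 12 ≤ 48), (by decide : 7 ≤ 255), KdE_ok,
    chkKT_sound (by decide) KdT154K_k⟩ KdT154 _ KdT154_k
theorem KdT8_c : CovC JI 367002 1394607 ⟨1048576, 1160440, 321190, 1048576, 0, 294912, 297292, 594583⟩ :=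
  chkD_sound (p := KdT8P) ⟨Nat.succ_pos 7, (by decide : 12 ≤ 48), (by decide : 7 ≤ 255), KdE_ok,
    chkKT_sound (by decide) KdT8K_k⟩ KdT8 _ KdT8_k
theorem KdT165_c : CovC JI 367002 1394607 ⟨1421243, 1572864, 1363149, 2097152, 0, 294912, 334643, 669285⟩ :=
  chkD_sound (p := KdT165P) ⟨Nat.succ_pos 7, (by decide : 12 ≤ 48), (by decide : 7 ≤ 255), KdE_ok,
    chkKT_sound (by decide) KdT165K_k⟩ KdT165 _ KdT165_k
theorem KdT63_c : CovC JI 367002 1394607 ⟨1160440, 1284238, 684883, 1048576, 47186, 117965, 154523, 309045⟩ :=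
  chkD_sound (p := KdT63P) ⟨Nat.succ_pos 7, (by decide : 12 ≤ 48), (by decide : 7 ≤ 255), KdE_ok,
    chkKT_sound (by decide) KdT63K_k⟩ KdT63 _ KdT63_k
theorem KdT158_c : CovC JI 367002 1394607 ⟨1421243, 1572864, 1363149, 1821268, 0, 117965, 0, 167322⟩ :=
  chkD_sound (p := KdT158P) ⟨Nat.succ_pos 7, (by decide : 12 ≤ 48), (by decide : 7 ≤ 255), KdE_ok,
    chkKT_sound (by decide) KdT158K_k⟩ KdT158 _ KdT158_k
theorem KdT105_c : CovC JI 367002 1394607 ⟨1284238, 1421243, 1048576, 1226834, 47186, 117965, 164799, 329598⟩ :=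
  chkD_sound (p := KdT105P) ⟨Nat.succ_pos 7, (by decide : 12 ≤ 48), (by decide : 7 ≤ 255), KdE_ok,
    chkKT_sound (by decide) KdT105K_k⟩ KdT105 _ KdT105_k
theorem KdT146_c : CovC JI 367002 1394607 ⟨1421243, 1572864, 1048576, 1226834, 0, 294912, 339067, 678133⟩ :=
  chkD_sound (p := KdT146P) ⟨Nat.succ_pos 7, (by decide : 12 ≤ 48), (by decide : 7 ≤ 255), KdE_ok,
    chkKT_sound (by decide) KdT146K_k⟩ KdT146 _ KdT146_k
theorem KdT36_c : CovC JI 367002 1394607 ⟨1048576, 1160440, 1226834, 1363149, 47186, 82576, 206993, 225810⟩ :=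
  chkD_sound (p := KdT36P) ⟨Nat.succ_pos 15, (by decide : 28 ≤ 48), (by decide : 14 ≤ 255), KdE_ok,
    chkKT_sound (by decide) KdT36K_k⟩ KdT36 _ KdT36_k
theorem KdT35_c : CovC JI 367002 1394607 ⟨1048576, 1160440, 1226834, 1363149, 47186, 82576, 188175, 206993⟩ :=
  chkD_sound (p := KdT35P) ⟨Nat.succ_pos 7, (by decide : 12 ≤ 48), (by decide : 7 ≤ 255), KdE_ok,
    chkKT_sound (by decide) KdT35K_k⟩ KdT35 _ KdT35_k
theorem KdT21_c : CovC JI 367002 1394607 ⟨1048576, 1075488, 1182270, 1226834, 47186, 82576, 227511, 265429⟩ :=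
  chkD_sound (p := KdT21P) ⟨Nat.succ_pos 15, (by decide : 28 ≤ 48), (by decide : 14 ≤ 255), KdE_ok,
    chkKT_sound (by decide) KdT21K_k⟩ KdT21 _ KdT21_k
theorem KdT80_c : CovC JI 367002 1394607 ⟨1160440, 1284238, 1226834, 1363149, 0, 18874, 156391, 234587⟩ :=
  chkD_sound (p := KdT80P) ⟨Nat.succ_pos 15, (by decide : 28 ≤ 48), (by decide : 14 ≤ 255), KdE_ok,
    chkKT_sound (by decide) KdT80K_k⟩ KdT80 _ KdT80_k
theorem KdT139_c : CovC JI 367002 1394607 ⟨1421243, 1572864, 1048576, 1226834, 0, 117965, 0, 169534⟩ :=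
  chkD_sound (p := KdT139P) ⟨Nat.succ_pos 7, (by decide : 12 ≤ 48), (by decide : 7 ≤ 255), KdE_ok,
    chkKT_sound (by decide) KdT139K_k⟩ KdT139 _ KdT139_k
theorem KdT44_c : CovC JI 367002 1394607 ⟨1048576, 1160440, 1363149, 1821268, 0, 117965, 0, 148496⟩ :=
  chkD_sound (p := KdT44P) ⟨Nat.succ_pos 7, (by decide : 12 ≤ 48), (by decide : 7 ≤ 255), KdE_ok,
    chkKT_sound (by decide) KdT44K_k⟩ KdT44 _ KdT44_k
theorem KdT79_c : CovC JI 367002 1394607 ⟨1160440, 1284238, 1226834, 1363149, 0, 117965, 0, 156391⟩ :=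
  chkD_sound (p := KdT79P) ⟨Nat.succ_pos 7, (by decide : 12 ≤ 48), (by decide : 7 ≤ 255), KdE_ok,
    chkKT_sound (by decide) KdT79K_k⟩ KdT79 _ KdT79_k
theorem KdT110_c : CovC JI 367002 1394607 ⟨1284238, 1421243, 1226834, 1363149, 0, 117965, 0, 162518⟩ :=
  chkD_sound (p := KdT110P) ⟨Nat.succ_pos 7, (by decide : 12 ≤ 48), (by decide : 7 ≤ 255), KdE_ok,
    chkKT_sound (by decide) KdT110K_k⟩ KdT110 _ KdT110_k
theorem KdT19_c : CovC JI 367002 1394607 ⟨1048576, 1160440, 1048576, 1137705, 47186, 82576, 227511, 303347⟩ :=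
  chkD_sound (p := KdT19P) ⟨Nat.succ_pos 7, (by decide : 12 ≤ 48), (by decide : 7 ≤ 255), KdE_ok,
    chkKT_sound (by decide) KdT19K_k⟩ KdT19 _ KdT19_k
theorem KdT27_c : CovC JI 367002 1394607 ⟨1048576, 1160440, 1048576, 1226834, 82576, 117965, 227511, 303347⟩ :=
  chkD_sound (p := KdT27P) ⟨Nat.succ_pos 7, (by decide : 12 ≤ 48), (by decide : 7 ≤ 255), KdE_ok,
    chkKT_sound (by decide) KdT27K_k⟩ KdT27 _ KdT27_k
theorem KdT143_c : CovC JI 367002 1394607 ⟨1495133, 1572864, 1048576, 1226834, 47186, 82576, 169534, 339067⟩ :=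
  chkD_sound (p := KdT143P) ⟨Nat.succ_pos 7, (by decide : 12 ≤ 48), (by decide : 7 ≤ 255), KdE_ok,
    chkKT_sound (by decide) KdT143K_k⟩ KdT143 _ KdT143_k
theorem KdT11_c : CovC JI 367002 1394607 ⟨1048576, 1160440, 1048576, 1226834, 0, 117965, 0, 151674⟩ :=
  chkD_sound (p := KdT11P) ⟨Nat.succ_pos 7, (by decide : 12 ≤ 48), (by decide : 7 ≤ 255), KdE_ok,
    chkKT_sound (by decide) KdT11K_k⟩ KdT11 _ KdT11_k
theorem KdT3_c : CovC JI 367002 1394607 ⟨1048576, 1160440, 684883, 866729, 0, 47186, 148646, 297292⟩ :=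
  chkD_sound (p := KdT3P) ⟨Nat.succ_pos 7, (by decide : 12 ≤ 48), (by decide : 7 ≤ 255), KdE_ok,
    chkKT_sound (by decide) KdT3K_k⟩ KdT3 _ KdT3_k
theorem KdT93_c : CovC JI 367002 1394607 ⟨1284238, 1421243, 684883, 866729, 0, 47186, 158749, 317497⟩ :=
  chkD_sound (p := KdT93P) ⟨Nat.succ_pos 7, (by decide : 12 ≤ 48), (by decide : 7 ≤ 255), KdE_ok,
    chkKT_sound (by decide) KdT93K_k⟩ KdT93 _ KdT93_k
theorem KdT9_c : CovC JI 367002 1394607 ⟨1048576, 1160440, 0, 1048576, 0, 294912, 594583, 1160441⟩ :=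
  chkD_sound (p := KdT9P) ⟨Nat.succ_pos 7, (by decide : 1 ≤ 48), (by decide : 1 ≤ 255), KdE_ok,
    KT0_ok⟩ KdT9 _ KdT9_k
theorem KdT42_c : CovC JI 367002 1394607 ⟨1048576, 1160440, 1226834, 1363149, 0, 294912, 602159, 1160441⟩ :=
  chkD_sound (p := KdT42P) ⟨Nat.succ_pos 7, (by decide : 1 ≤ 48), (by decide : 1 ≤ 255), KdE_ok,
    KT0_ok⟩ KdT42 _ KdT42_k
theorem KdT57_c : CovC JI 367002 1394607 ⟨1160440, 1284238, 0, 321190, 0, 294912, 0, 618089⟩ :=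
  chkD_sound (p := KdT57P) ⟨Nat.succ_pos 7, (by decide : 1 ≤ 48), (by decide : 1 ≤ 255), KdE_ok,
    KT0_ok⟩ KdT57 _ KdT57_k
theorem KdT87_c : CovC JI 367002 1394607 ⟨1160440, 1284238, 1226834, 1363149, 0, 294912, 625563, 1284239⟩ :=
  chkD_sound (p := KdT87P) ⟨Nat.succ_pos 7, (by decide : 1 ≤ 48), (by decide : 1 ≤ 255), KdE_ok,
    KT0_ok⟩ KdT87 _ KdT87_k
theorem KdT108_c : CovC JI 367002 1394607 ⟨1284238, 1421243, 1048576, 1226834, 0, 294912, 659196, 1421244⟩ :=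
  chkD_sound (p := KdT108P) ⟨Nat.succ_pos 7, (by decide : 1 ≤ 48), (by decide : 1 ≤ 255), KdE_ok,
    KT0_ok⟩ KdT108 _ KdT108_k
theorem KdT125_c : CovC JI 367002 1394607 ⟨1284238, 1421243, 1821268, 2097152, 0, 117965, 0, 323432⟩ :=
  chkD_sound (p := KdT125P) ⟨Nat.succ_pos 7, (by decide : 1 ≤ 48), (by decide : 1 ≤ 255), KdE_ok,
    KT0_ok⟩ KdT125 _ KdT125_k
theorem KdT137_c : CovC JI 367002 1394607 ⟨1421243, 1572864, 0, 1048576, 0, 294912, 671581, 1572865⟩ :=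
  chkD_sound (p := KdT137P) ⟨Nat.succ_pos 7, (by decide : 1 ≤ 48), (by decide : 1 ≤ 255), KdE_ok,
    KT0_ok⟩ KdT137 _ KdT137_k
theorem KdT163_c : CovC JI 367002 1394607 ⟨1421243, 1572864, 1821268, 2097152, 0, 117965, 0, 334643⟩ :=
  chkD_sound (p := KdT163P) ⟨Nat.succ_pos 7, (by decide : 1 ≤ 48), (by decide : 1 ≤ 255), KdE_ok,
    KT0_ok⟩ KdT163 _ KdT163_k
theorem KdT31_c : CovC JI 367002 1394607 ⟨1048576, 1160440, 1048576, 1226834, 0, 294912, 1160441, 8388608⟩ :=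
  chkD_sound (p := KdT31P) ⟨Nat.succ_pos 7, (by decide : 1 ≤ 48), (by decide : 1 ≤ 255), KdE_ok,
    KT0_ok⟩ KdT31 _ KdT31_k
theorem KdT67_c : CovC JI 367002 1394607 ⟨1160440, 1284238, 0, 1048576, 0, 294912, 1284239, 8388608⟩ :=
  chkD_sound (p := KdT67P) ⟨Nat.succ_pos 7, (by decide : 1 ≤ 48), (by decide : 1 ≤ 255), KdE_ok,
    KT0_ok⟩ KdT67 _ KdT67_k
theorem KdT99_c : CovC JI 367002 1394607 ⟨1284238, 1421243, 0, 1048576, 0, 294912, 1421244, 8388608⟩ :=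
  chkD_sound (p := KdT99P) ⟨Nat.succ_pos 7, (by decide : 1 ≤ 48), (by decide : 1 ≤ 255), KdE_ok,
    KT0_ok⟩ KdT99 _ KdT99_k
theorem KdT129_c : CovC JI 367002 1394607 ⟨1284238, 1421243, 1363149, 2097152, 0, 294912, 1421244, 8388608⟩ :=
  chkD_sound (p := KdT129P) ⟨Nat.succ_pos 7, (by decide : 1 ≤ 48), (by decide : 1 ≤ 255), KdE_ok,
    KT0_ok⟩ KdT129 _ KdT129_k
theorem KdT157_c : CovC JI 367002 1394607 ⟨1421243, 1572864, 1226834, 1363149, 0, 294912, 1572865, 8388608⟩ :=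
  chkD_sound (p := KdT157P) ⟨Nat.succ_pos 7, (by decide : 1 ≤ 48), (by decide : 1 ≤ 255), KdE_ok,
    KT0_ok⟩ KdT157 _ KdT157_k
theorem KdT33_c : CovC JI 367002 1394607 ⟨1048576, 1160440, 1226834, 1363149, 0, 47186, 150540, 301080⟩ :=
  chkD_sound (p := KdT33P) ⟨Nat.succ_pos 15, (by decide : 28 ≤ 48), (by decide : 14 ≤ 255), KdE_ok,
    chkKT_sound (by decide) KdT33K_k⟩ KdT33 _ KdT33_k
theorem KdT14_c : CovC JI 367002 1394607 ⟨1048576, 1103091, 1137705, 1226834, 0, 7550, 227511, 303347⟩ :=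
  chkD_sound (p := KdT14P) ⟨Nat.succ_pos 15, (by decide : 28 ≤ 48), (by decide : 14 ≤ 255), KdE_ok,
    chkKT_sound (by decide) KdT14K_k⟩ KdT14 _ KdT14_k
theorem KdT72_c : CovC JI 367002 1394607 ⟨1160440, 1284238, 1137705, 1226834, 7550, 18874, 235770, 314360⟩ :=
  chkD_sound (p := KdT72P) ⟨Nat.succ_pos 15, (by decide : 28 ≤ 48), (by decide : 14 ≤ 255), KdE_ok,
    chkKT_sound (by decide) KdT72K_k⟩ KdT72 _ KdT72_k
theorem KdT113_c : CovC JI 367002 1394607 ⟨1284238, 1421243, 1226834, 1363149, 7550, 18874, 243777, 325035⟩ :=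
  chkD_sound (p := KdT113P) ⟨Nat.succ_pos 15, (by decide : 28 ≤ 48), (by decide : 14 ≤ 255), KdE_ok,
    chkKT_sound (by decide) KdT113K_k⟩ KdT113 _ KdT113_k
theorem KdT81_c : CovC JI 367002 1394607 ⟨1160440, 1284238, 1226834, 1363149, 0, 7550, 234587, 312782⟩ :=
  chkD_sound (p := KdT81P) ⟨Nat.succ_pos 15, (by decide : 28 ≤ 48), (by decide : 14 ≤ 255), KdE_ok,
    chkKT_sound (by decide) KdT81K_k⟩ KdT81 _ KdT81_k
theorem KdT103_c : CovC JI 367002 1394607 ⟨1284238, 1421243, 1137705, 1226834, 0, 18874, 247199, 329598⟩ :=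
  chkD_sound (p := KdT103P) ⟨Nat.succ_pos 15, (by decide : 28 ≤ 48), (by decide : 14 ≤ 255), KdE_ok,
    chkKT_sound (by decide) KdT103K_k⟩ KdT103 _ KdT103_k
theorem KdT124_c : CovC JI 367002 1394607 ⟨1284238, 1421243, 1363149, 1821268, 47186, 117965, 161716, 323432⟩ :=
  chkD_sound (p := KdT124P) ⟨Nat.succ_pos 7, (by decide : 12 ≤ 48), (by decide : 7 ≤ 255), KdE_ok,
    chkKT_sound (by decide) KdT124K_k⟩ KdT124 _ KdT124_k
theorem KdT53_c : CovC JI 367002 1394607 ⟨1048576, 1160440, 1363149, 2097152, 117965, 294912, 0, 296992⟩ :=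
  chkD_sound (p := KdT53P) ⟨Nat.succ_pos 7, (by decide : 12 ≤ 48), (by decide : 7 ≤ 255), KdE_ok,
    chkKT_sound (by decide) KdT53K_k⟩ KdT53 _ KdT53_k
theorem KdT70_c : CovC JI 367002 1394607 ⟨1160440, 1284238, 1048576, 1226834, 0, 7550, 235770, 314360⟩ :=
  chkD_sound (p := KdT70P) ⟨Nat.succ_pos 15, (by decide : 28 ≤ 48), (by decide : 14 ≤ 255), KdE_ok,
    chkKT_sound (by decide) KdT70K_k⟩ KdT70 _ KdT70_k
theorem KdT159_c : CovC JI 367002 1394607 ⟨1421243, 1572864, 1363149, 1592209, 0, 47186, 167322, 334643⟩ :=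
  chkD_sound (p := KdT159P) ⟨Nat.succ_pos 15, (by decide : 28 ≤ 48), (by decide : 14 ≤ 255), KdE_ok,
    chkKT_sound (by decide) KdT159K_k⟩ KdT159 _ KdT159_k
theorem KdT136_c : CovC JI 367002 1394607 ⟨1421243, 1572864, 321190, 1048576, 0, 294912, 335791, 671581⟩ :=
  chkD_sound (p := KdT136P) ⟨Nat.succ_pos 7, (by decide : 12 ≤ 48), (by decide : 7 ≤ 255), KdE_ok,
    chkKT_sound (by decide) KdT136K_k⟩ KdT136 _ KdT136_k
theorem KdT7_c : CovC JI 367002 1394607 ⟨1048576, 1160440, 321190, 1048576, 117965, 294912, 0, 297292⟩ :=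
  chkD_sound (p := KdT7P) ⟨Nat.succ_pos 7, (by decide : 12 ≤ 48), (by decide : 7 ≤ 255), KdE_ok,
    chkKT_sound (by decide) KdT7K_k⟩ KdT7 _ KdT7_k
theorem KdT96_c : CovC JI 367002 1394607 ⟨1284238, 1421243, 321190, 1048576, 117965, 294912, 0, 317497⟩ :=
  chkD_sound (p := KdT96P) ⟨Nat.succ_pos 7, (by decide : 12 ≤ 48), (by decide : 7 ≤ 255), KdE_ok,
    chkKT_sound (by decide) KdT96K_k⟩ KdT96 _ KdT96_k
theorem KdT115_c : CovC JI 367002 1394607 ⟨1284238, 1421243, 1226834, 1363149, 47186, 117965, 162518, 325035⟩ :=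
  chkD_sound (p := KdT115P) ⟨Nat.succ_pos 7, (by decide : 12 ≤ 48), (by decide : 7 ≤ 255), KdE_ok,
    chkKT_sound (by decide) KdT115K_k⟩ KdT115 _ KdT115_k
theorem KdT26_c : CovC JI 367002 1394607 ⟨1103091, 1160440, 1137705, 1226834, 47186, 82576, 227511, 303347⟩ :=
  chkD_sound (p := KdT26P) ⟨Nat.succ_pos 7, (by decide : 12 ≤ 48), (by decide : 7 ≤ 255), KdE_ok,
    chkKT_sound (by decide) KdT26K_k⟩ KdT26 _ KdT26_k
theorem KdT47_c : CovC JI 367002 1394607 ⟨1048576, 1160440, 1363149, 1592209, 47186, 82576, 185620, 222744⟩ :=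
  chkD_sound (p := KdT47P) ⟨Nat.succ_pos 15, (by decide : 28 ≤ 48), (by decide : 14 ≤ 255), KdE_ok,
    chkKT_sound (by decide) KdT47K_k⟩ KdT47 _ KdT47_k
theorem KdT62_c : CovC JI 367002 1394607 ⟨1160440, 1284238, 957652, 1048576, 0, 47186, 154523, 309045⟩ :=
  chkD_sound (p := KdT62P) ⟨Nat.succ_pos 15, (by decide : 28 ≤ 48), (by decide : 14 ≤ 255), KdE_ok,
    chkKT_sound (by decide) KdT62K_k⟩ KdT62 _ KdT62_k
theorem KdT101_c : CovC JI 367002 1394607 ⟨1284238, 1421243, 1048576, 1226834, 0, 18874, 164799, 247199⟩ :=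
  chkD_sound (p := KdT101P) ⟨Nat.succ_pos 15, (by decide : 28 ≤ 48), (by decide : 14 ≤ 255), KdE_ok,
    chkKT_sound (by decide) KdT101K_k⟩ KdT101 _ KdT101_k
theorem KdT75_c : CovC JI 367002 1394607 ⟨1160440, 1284238, 1048576, 1226834, 117965, 294912, 0, 314360⟩ :=
  chkD_sound (p := KdT75P) ⟨Nat.succ_pos 7, (by decide : 12 ≤ 48), (by decide : 7 ≤ 255), KdE_ok,
    chkKT_sound (by decide) KdT75K_k⟩ KdT75 _ KdT75_k
theorem KdT107_c : CovC JI 367002 1394607 ⟨1284238, 1421243, 1048576, 1226834, 0, 294912, 329598, 659196⟩ :=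
  chkD_sound (p := KdT107P) ⟨Nat.succ_pos 7, (by decide : 12 ≤ 48), (by decide : 7 ≤ 255), KdE_ok,
    chkKT_sound (by decide) KdT107K_k⟩ KdT107 _ KdT107_k
theorem KdT41_c : CovC JI 367002 1394607 ⟨1048576, 1160440, 1226834, 1363149, 0, 294912, 301080, 602159⟩ :=
  chkD_sound (p := KdT41P) ⟨Nat.succ_pos 7, (by decide : 12 ≤ 48), (by decide : 7 ≤ 255), KdE_ok,
    chkKT_sound (by decide) KdT41K_k⟩ KdT41 _ KdT41_k
theorem KdT13_c : CovC JI 367002 1394607 ⟨1048576, 1160440, 1048576, 1137705, 0, 7550, 227511, 303347⟩ :=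
  chkD_sound (p := KdT13P) ⟨Nat.succ_pos 15, (by decide : 28 ≤ 48), (by decide : 14 ≤ 255), KdE_ok,
    chkKT_sound (by decide) KdT13K_k⟩ KdT13 _ KdT13_k
theorem KdT51_c : CovC JI 367002 1394607 ⟨1048576, 1160440, 1592209, 1821268, 47186, 117965, 148496, 296992⟩ :=
  chkD_sound (p := KdT51P) ⟨Nat.succ_pos 7, (by decide : 12 ≤ 48), (by decide : 7 ≤ 255), KdE_ok,
    chkKT_sound (by decide) KdT51K_k⟩ KdT51 _ KdT51_k
theorem KdT152_c : CovC JI 367002 1394607 ⟨1421243, 1572864, 1226834, 1363149, 47186, 82576, 168725, 337450⟩ :=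
  chkD_sound (p := KdT152P) ⟨Nat.succ_pos 15, (by decide : 28 ≤ 48), (by decide : 14 ≤ 255), KdE_ok,
    chkKT_sound (by decide) KdT152K_k⟩ KdT152 _ KdT152_k
theorem KdT127_c : CovC JI 367002 1394607 ⟨1284238, 1421243, 1363149, 2097152, 0, 294912, 323432, 646864⟩ :=
  chkD_sound (p := KdT127P) ⟨Nat.succ_pos 7, (by decide : 12 ≤ 48), (by decide : 7 ≤ 255), KdE_ok,
    chkKT_sound (by decide) KdT127K_k⟩ KdT127 _ KdT127_k
theorem KdT144_c : CovC JI 367002 1394607 ⟨1421243, 1572864, 1048576, 1226834, 82576, 117965, 169534, 339067⟩ :=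
  chkD_sound (p := KdT144P) ⟨Nat.succ_pos 7, (by decide : 12 ≤ 48), (by decide : 7 ≤ 255), KdE_ok,
    chkKT_sound (by decide) KdT144K_k⟩ KdT144 _ KdT144_k
theorem KdT1_c : CovC JI 367002 1394607 ⟨1048576, 1160440, 321190, 1048576, 0, 117965, 0, 148646⟩ :=
  chkD_sound (p := KdT1P) ⟨Nat.succ_pos 7, (by decide : 12 ≤ 48), (by decide : 7 ≤ 255), KdE_ok,
    chkKT_sound (by decide) KdT1K_k⟩ KdT1 _ KdT1_k
theorem KdT58_c : CovC JI 367002 1394607 ⟨1160440, 1284238, 321190, 1048576, 0, 117965, 0, 154523⟩ :=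
  chkD_sound (p := KdT58P) ⟨Nat.succ_pos 7, (by decide : 12 ≤ 48), (by decide : 7 ≤ 255), KdE_ok,
    chkKT_sound (by decide) KdT58K_k⟩ KdT58 _ KdT58_k
theorem KdT131_c : CovC JI 367002 1394607 ⟨1421243, 1572864, 321190, 1048576, 0, 117965, 0, 167896⟩ :=
  chkD_sound (p := KdT131P) ⟨Nat.succ_pos 7, (by decide : 12 ≤ 48), (by decide : 7 ≤ 255), KdE_ok,
    chkKT_sound (by decide) KdT131K_k⟩ KdT131 _ KdT131_k
theorem KdT155_c : CovC JI 367002 1394607 ⟨1421243, 1572864, 1226834, 1363149, 0, 294912, 337450, 674899⟩ :=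
  chkD_sound (p := KdT155P) ⟨Nat.succ_pos 7, (by decide : 12 ≤ 48), (by decide : 7 ≤ 255), KdE_ok,
    chkKT_sound (by decide) KdT155K_k⟩ KdT155 _ KdT155_k
theorem KdT142_c : CovC JI 367002 1394607 ⟨1421243, 1495133, 1137705, 1226834, 47186, 82576, 169534, 339067⟩ :=
  chkD_sound (p := KdT142P) ⟨Nat.succ_pos 15, (by decide : 28 ≤ 48), (by decide : 14 ≤ 255), KdE_ok,
    chkKT_sound (by decide) KdT142K_k⟩ KdT142 _ KdT142_k
theorem KdT12_c : CovC JI 367002 1394607 ⟨1048576, 1160440, 1048576, 1226834, 0, 47186, 151674, 227511⟩ :=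
  chkD_sound (p := KdT12P) ⟨Nat.succ_pos 15, (by decide : 28 ≤ 48), (by decide : 14 ≤ 255), KdE_ok,
    chkKT_sound (by decide) KdT12K_k⟩ KdT12 _ KdT12_k
theorem KdT69_c : CovC JI 367002 1394607 ⟨1160440, 1284238, 1048576, 1226834, 0, 18874, 157180, 235770⟩ :=
  chkD_sound (p := KdT69P) ⟨Nat.succ_pos 15, (by decide : 28 ≤ 48), (by decide : 14 ≤ 255), KdE_ok,
    chkKT_sound (by decide) KdT69K_k⟩ KdT69 _ KdT69_k
theorem KdT50_c : CovC JI 367002 1394607 ⟨1048576, 1160440, 1363149, 1592209, 82576, 117965, 222744, 296992⟩ :=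
  chkD_sound (p := KdT50P) ⟨Nat.succ_pos 7, (by decide : 12 ≤ 48), (by decide : 7 ≤ 255), KdE_ok,
    chkKT_sound (by decide) KdT50K_k⟩ KdT50 _ KdT50_k
theorem KdT2_c : CovC JI 367002 1394607 ⟨1048576, 1160440, 321190, 684883, 0, 117965, 148646, 297292⟩ :=
  chkD_sound (p := KdT2P) ⟨Nat.succ_pos 7, (by decide : 12 ≤ 48), (by decide : 7 ≤ 255), KdE_ok,
    chkKT_sound (by decide) KdT2K_k⟩ KdT2 _ KdT2_k
theorem KdT59_c : CovC JI 367002 1394607 ⟨1160440, 1284238, 321190, 684883, 0, 117965, 154523, 309045⟩ :=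
  chkD_sound (p := KdT59P) ⟨Nat.succ_pos 7, (by decide : 12 ≤ 48), (by decide : 7 ≤ 255), KdE_ok,
    chkKT_sound (by decide) KdT59K_k⟩ KdT59 _ KdT59_k
theorem KdT92_c : CovC JI 367002 1394607 ⟨1284238, 1421243, 321190, 684883, 0, 117965, 158749, 317497⟩ :=
  chkD_sound (p := KdT92P) ⟨Nat.succ_pos 7, (by decide : 12 ≤ 48), (by decide : 7 ≤ 255), KdE_ok,
    chkKT_sound (by decide) KdT92K_k⟩ KdT92 _ KdT92_k
theorem KdT132_c : CovC JI 367002 1394607 ⟨1421243, 1572864, 321190, 684883, 0, 117965, 167896, 335791⟩ :=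
  chkD_sound (p := KdT132P) ⟨Nat.succ_pos 7, (by decide : 12 ≤ 48), (by decide : 7 ≤ 255), KdE_ok,
    chkKT_sound (by decide) KdT132K_k⟩ KdT132 _ KdT132_k
theorem KdT25_c : CovC JI 367002 1394607 ⟨1048576, 1103091, 1137705, 1226834, 47186, 82576, 265429, 303347⟩ :=
  chkD_sound (p := KdT25P) ⟨Nat.succ_pos 7, (by decide : 12 ≤ 48), (by decide : 7 ≤ 255), KdE_ok,
    chkKT_sound (by decide) KdT25K_k⟩ KdT25 _ KdT25_k
theorem KdT39_c : CovC JI 367002 1394607 ⟨1048576, 1160440, 1226834, 1363149, 82576, 117965, 225810, 301080⟩ :=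
  chkD_sound (p := KdT39P) ⟨Nat.succ_pos 7, (by decide : 12 ≤ 48), (by decide : 7 ≤ 255), KdE_ok,
    chkKT_sound (by decide) KdT39K_k⟩ KdT39 _ KdT39_k
theorem KdT120_c : CovC JI 367002 1394607 ⟨1284238, 1421243, 1363149, 1821268, 0, 117965, 0, 161716⟩ :=
  chkD_sound (p := KdT120P) ⟨Nat.succ_pos 7, (by decide : 12 ≤ 48), (by decide : 7 ≤ 255), KdE_ok,
    chkKT_sound (by decide) KdT120K_k⟩ KdT120 _ KdT120_k
theorem KdT24_c : CovC JI 367002 1394607 ⟨1075488, 1103091, 1182270, 1226834, 64881, 82576, 227511, 265429⟩ :=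
  chkD_sound (p := KdT24P) ⟨Nat.succ_pos 7, (by decide : 12 ≤ 48), (by decide : 7 ≤ 255), KdE_ok,
    chkKT_sound (by decide) KdT24K_k⟩ KdT24 _ KdT24_k
theorem KdT60_c : CovC JI 367002 1394607 ⟨1160440, 1284238, 684883, 866729, 0, 47186, 154523, 309045⟩ :=
  chkD_sound (p := KdT60P) ⟨Nat.succ_pos 7, (by decide : 12 ≤ 48), (by decide : 7 ≤ 255), KdE_ok,
    chkKT_sound (by decide) KdT60K_k⟩ KdT60 _ KdT60_k
theorem KdT0_c : CovC JI 367002 1394607 ⟨1048576, 1160440, 0, 321190, 0, 294912, 0, 594583⟩ :=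
  chkD_sound (p := KdT0P) ⟨Nat.succ_pos 7, (by decide : 1 ≤ 48), (by decide : 1 ≤ 255), KdE_ok,
    KT0_ok⟩ KdT0 _ KdT0_k
theorem KdT30_c : CovC JI 367002 1394607 ⟨1048576, 1160440, 1048576, 1226834, 0, 294912, 606694, 1160441⟩ :=
  chkD_sound (p := KdT30P) ⟨Nat.succ_pos 7, (by decide : 1 ≤ 48), (by decide : 1 ≤ 255), KdE_ok,
    KT0_ok⟩ KdT30 _ KdT30_k
theorem KdT55_c : CovC JI 367002 1394607 ⟨1048576, 1160440, 1363149, 2097152, 0, 294912, 593983, 1160441⟩ :=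
  chkD_sound (p := KdT55P) ⟨Nat.succ_pos 7, (by decide : 1 ≤ 48), (by decide : 1 ≤ 255), KdE_ok,
    KT0_ok⟩ KdT55 _ KdT55_k
theorem KdT77_c : CovC JI 367002 1394607 ⟨1160440, 1284238, 1048576, 1226834, 0, 294912, 628719, 1284239⟩ :=
  chkD_sound (p := KdT77P) ⟨Nat.succ_pos 7, (by decide : 1 ≤ 48), (by decide : 1 ≤ 255), KdE_ok,
    KT0_ok⟩ KdT77 _ KdT77_k
theorem KdT98_c : CovC JI 367002 1394607 ⟨1284238, 1421243, 0, 1048576, 0, 294912, 634993, 1421244⟩ :=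
  chkD_sound (p := KdT98P) ⟨Nat.succ_pos 7, (by decide : 1 ≤ 48), (by decide : 1 ≤ 255), KdE_ok,
    KT0_ok⟩ KdT98 _ KdT98_k
theorem KdT123_c : CovC JI 367002 1394607 ⟨1284238, 1421243, 1643508, 1821268, 0, 47186, 161716, 323432⟩ :=
  chkD_sound (p := KdT123P) ⟨Nat.succ_pos 7, (by decide : 1 ≤ 48), (by decide : 1 ≤ 255), KdE_ok,
    KT0_ok⟩ KdT123 _ KdT123_k
theorem KdT130_c : CovC JI 367002 1394607 ⟨1421243, 1572864, 0, 321190, 0, 294912, 0, 671581⟩ :=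
  chkD_sound (p := KdT130P) ⟨Nat.succ_pos 7, (by decide : 1 ≤ 48), (by decide : 1 ≤ 255), KdE_ok,
    KT0_ok⟩ KdT130 _ KdT130_k
theorem KdT156_c : CovC JI 367002 1394607 ⟨1421243, 1572864, 1226834, 1363149, 0, 294912, 674899, 1572865⟩ :=
  chkD_sound (p := KdT156P) ⟨Nat.succ_pos 7, (by decide : 1 ≤ 48), (by decide : 1 ≤ 255), KdE_ok,
    KT0_ok⟩ KdT156 _ KdT156_k
theorem KdT10_c : CovC JI 367002 1394607 ⟨1048576, 1160440, 0, 1048576, 0, 294912, 1160441, 8388608⟩ :=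
  chkD_sound (p := KdT10P) ⟨Nat.succ_pos 7, (by decide : 1 ≤ 48), (by decide : 1 ≤ 255), KdE_ok,
    KT0_ok⟩ KdT10 _ KdT10_k
theorem KdT56_c : CovC JI 367002 1394607 ⟨1048576, 1160440, 1363149, 2097152, 0, 294912, 1160441, 8388608⟩ :=
  chkD_sound (p := KdT56P) ⟨Nat.succ_pos 7, (by decide : 1 ≤ 48), (by decide : 1 ≤ 255), KdE_ok,
    KT0_ok⟩ KdT56 _ KdT56_k
theorem KdT88_c : CovC JI 367002 1394607 ⟨1160440, 1284238, 1226834, 1363149, 0, 294912, 1284239, 8388608⟩ :=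
  chkD_sound (p := KdT88P) ⟨Nat.succ_pos 7, (by decide : 1 ≤ 48), (by decide : 1 ≤ 255), KdE_ok,
    KT0_ok⟩ KdT88 _ KdT88_k
theorem KdT119_c : CovC JI 367002 1394607 ⟨1284238, 1421243, 1226834, 1363149, 0, 294912, 1421244, 8388608⟩ :=
  chkD_sound (p := KdT119P) ⟨Nat.succ_pos 7, (by decide : 1 ≤ 48), (by decide : 1 ≤ 255), KdE_ok,
    KT0_ok⟩ KdT119 _ KdT119_k
theorem KdT148_c : CovC JI 367002 1394607 ⟨1421243, 1572864, 1048576, 1226834, 0, 294912, 1572865, 8388608⟩ :=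
  chkD_sound (p := KdT148P) ⟨Nat.succ_pos 7, (by decide : 1 ≤ 48), (by decide : 1 ≤ 255), KdE_ok,
    KT0_ok⟩ KdT148 _ KdT148_k
theorem KdT102_c : CovC JI 367002 1394607 ⟨1284238, 1421243, 1048576, 1137705, 0, 18874, 247199, 329598⟩ :=
  chkD_sound (p := KdT102P) ⟨Nat.succ_pos 15, (by decide : 28 ≤ 48), (by decide : 14 ≤ 255), KdE_ok,
    chkKT_sound (by decide) KdT102K_k⟩ KdT102 _ KdT102_k
theorem KdT121_c : CovC JI 367002 1394607 ⟨1284238, 1421243, 1363149, 1643508, 0, 18874, 161716, 323432⟩ :=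
  chkD_sound (p := KdT121P) ⟨Nat.succ_pos 15, (by decide : 28 ≤ 48), (by decide : 14 ≤ 255), KdE_ok,
    chkKT_sound (by decide) KdT121K_k⟩ KdT121 _ KdT121_k
theorem KdT82_c : CovC JI 367002 1394607 ⟨1160440, 1284238, 1226834, 1363149, 7550, 18874, 234587, 312782⟩ :=
  chkD_sound (p := KdT82P) ⟨Nat.succ_pos 15, (by decide : 28 ≤ 48), (by decide : 14 ≤ 255), KdE_ok,
    chkKT_sound (by decide) KdT82K_k⟩ KdT82 _ KdT82_k
theorem KdT150_c : CovC JI 367002 1394607 ⟨1421243, 1572864, 1226834, 1363149, 0, 18874, 168725, 337450⟩ :=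
  chkD_sound (p := KdT150P) ⟨Nat.succ_pos 15, (by decide : 28 ≤ 48), (by decide : 14 ≤ 255), KdE_ok,
    chkKT_sound (by decide) KdT150K_k⟩ KdT150 _ KdT150_k
theorem KdT38_c : CovC JI 367002 1394607 ⟨1048576, 1160440, 1226834, 1363149, 47186, 82576, 225810, 301080⟩ :=
  chkD_sound (p := KdT38P) ⟨Nat.succ_pos 15, (by decide : 28 ≤ 48), (by decide : 14 ≤ 255), KdE_ok,
    chkKT_sound (by decide) KdT38K_k⟩ KdT38 _ KdT38_k
theorem KdT114_c : CovC JI 367002 1394607 ⟨1284238, 1421243, 1226834, 1363149, 18874, 47186, 162518, 325035⟩ :=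
  chkD_sound (p := KdT114P) ⟨Nat.succ_pos 15, (by decide : 28 ≤ 48), (by decide : 14 ≤ 255), KdE_ok,
    chkKT_sound (by decide) KdT114K_k⟩ KdT114 _ KdT114_k
theorem KdT49_c : CovC JI 367002 1394607 ⟨1048576, 1160440, 1363149, 1592209, 47186, 82576, 222744, 296992⟩ :=
  chkD_sound (p := KdT49P) ⟨Nat.succ_pos 15, (by decide : 28 ≤ 48), (by decide : 14 ≤ 255), KdE_ok,
    chkKT_sound (by decide) KdT49K_k⟩ KdT49 _ KdT49_k
theorem KdT15_c : CovC JI 367002 1394607 ⟨1103091, 1160440, 1137705, 1226834, 0, 7550, 227511, 303347⟩ :=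
  chkD_sound (p := KdT15P) ⟨Nat.succ_pos 15, (by decide : 28 ≤ 48), (by decide : 14 ≤ 255), KdE_ok,
    chkKT_sound (by decide) KdT15K_k⟩ KdT15 _ KdT15_k
theorem KdT71_c : CovC JI 367002 1394607 ⟨1160440, 1284238, 1048576, 1137705, 7550, 18874, 235770, 314360⟩ :=
  chkD_sound (p := KdT71P) ⟨Nat.succ_pos 15, (by decide : 28 ≤ 48), (by decide : 14 ≤ 255), KdE_ok,
    chkKT_sound (by decide) KdT71K_k⟩ KdT71 _ KdT71_k
theorem KdT18_c : CovC JI 367002 1394607 ⟨1048576, 1160440, 1048576, 1226834, 47186, 117965, 151674, 227511⟩ :=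
  chkD_sound (p := KdT18P) ⟨Nat.succ_pos 7, (by decide : 12 ≤ 48), (by decide : 7 ≤ 255), KdE_ok,
    chkKT_sound (by decide) KdT18K_k⟩ KdT18 _ KdT18_k
theorem KdT74_c : CovC JI 367002 1394607 ⟨1160440, 1284238, 1048576, 1226834, 47186, 117965, 157180, 314360⟩ :=
  chkD_sound (p := KdT74P) ⟨Nat.succ_pos 7, (by decide : 12 ≤ 48), (by decide : 7 ≤ 255), KdE_ok,
    chkKT_sound (by decide) KdT74K_k⟩ KdT74 _ KdT74_k
theorem KdT64_c : CovC JI 367002 1394607 ⟨1160440, 1284238, 321190, 1048576, 117965, 294912, 0, 309045⟩ :=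
  chkD_sound (p := KdT64P) ⟨Nat.succ_pos 7, (by decide : 12 ≤ 48), (by decide : 7 ≤ 255), KdE_ok,
    chkKT_sound (by decide) KdT64K_k⟩ KdT64 _ KdT64_k
theorem KdT126_c : CovC JI 367002 1394607 ⟨1284238, 1421243, 1363149, 2097152, 117965, 294912, 0, 323432⟩ :=
  chkD_sound (p := KdT126P) ⟨Nat.succ_pos 7, (by decide : 12 ≤ 48), (by decide : 7 ≤ 255), KdE_ok,
    chkKT_sound (by decide) KdT126K_k⟩ KdT126 _ KdT126_k
theorem KdT6_c : CovC JI 367002 1394607 ⟨1048576, 1160440, 684883, 1048576, 47186, 117965, 148646, 297292⟩ :=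
  chkD_sound (p := KdT6P) ⟨Nat.succ_pos 7, (by decide : 12 ≤ 48), (by decide : 7 ≤ 255), KdE_ok,
    chkKT_sound (by decide) KdT6K_k⟩ KdT6 _ KdT6_k
theorem KdT164_c : CovC JI 367002 1394607 ⟨1421243, 1572864, 1363149, 2097152, 117965, 294912, 0, 334643⟩ :=
  chkD_sound (p := KdT164P) ⟨Nat.succ_pos 7, (by decide : 12 ≤ 48), (by decide : 7 ≤ 255), KdE_ok,
    chkKT_sound (by decide) KdT164K_k⟩ KdT164 _ KdT164_k
theorem KdT5_c : CovC JI 367002 1394607 ⟨1048576, 1160440, 957652, 1048576, 0, 47186, 148646, 297292⟩ :=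
  chkD_sound (p := KdT5P) ⟨Nat.succ_pos 15, (by decide : 28 ≤ 48), (by decide : 14 ≤ 255), KdE_ok,
    chkKT_sound (by decide) KdT5K_k⟩ KdT5 _ KdT5_k
theorem KdT94_c : CovC JI 367002 1394607 ⟨1284238, 1421243, 866729, 1048576, 0, 47186, 158749, 317497⟩ :=
  chkD_sound (p := KdT94P) ⟨Nat.succ_pos 15, (by decide : 28 ≤ 48), (by decide : 14 ≤ 255), KdE_ok,
    chkKT_sound (by decide) KdT94K_k⟩ KdT94 _ KdT94_k
theorem KdT40_c : CovC JI 367002 1394607 ⟨1048576, 1160440, 1226834, 1363149, 117965, 294912, 0, 301080⟩ :=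
  chkD_sound (p := KdT40P) ⟨Nat.succ_pos 7, (by decide : 12 ≤ 48), (by decide : 7 ≤ 255), KdE_ok,
    chkKT_sound (by decide) KdT40K_k⟩ KdT40 _ KdT40_k
theorem KdT162_c : CovC JI 367002 1394607 ⟨1421243, 1572864, 1592209, 1821268, 0, 117965, 167322, 334643⟩ :=
  chkD_sound (p := KdT162P) ⟨Nat.succ_pos 7, (by decide : 12 ≤ 48), (by decide : 7 ≤ 255), KdE_ok,
    chkKT_sound (by decide) KdT162K_k⟩ KdT162 _ KdT162_k
theorem KdT116_c : CovC JI 367002 1394607 ⟨1284238, 1421243, 1226834, 1363149, 117965, 294912, 0, 325035⟩ :=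
  chkD_sound (p := KdT116P) ⟨Nat.succ_pos 7, (by decide : 12 ≤ 48), (by decide : 7 ≤ 255), KdE_ok,
    chkKT_sound (by decide) KdT116K_k⟩ KdT116 _ KdT116_k
theorem KdT117_c : CovC JI 367002 1394607 ⟨1284238, 1421243, 1226834, 1363149, 0, 294912, 325035, 650069⟩ :=
  chkD_sound (p := KdT117P) ⟨Nat.succ_pos 7, (by decide : 12 ≤ 48), (by decide : 7 ≤ 255), KdE_ok,
    chkKT_sound (by decide) KdT117K_k⟩ KdT117 _ KdT117_k
theorem KdT153_c : CovC JI 367002 1394607 ⟨1421243, 1572864, 1226834, 1363149, 82576, 117965, 168725, 337450⟩ :=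
  chkD_sound (p := KdT153P) ⟨Nat.succ_pos 7, (by decide : 12 ≤ 48), (by decide : 7 ≤ 255), KdE_ok,
    chkKT_sound (by decide) KdT153K_k⟩ KdT153 _ KdT153_k
theorem KdT145_c : CovC JI 367002 1394607 ⟨1421243, 1572864, 1048576, 1226834, 117965, 294912, 0, 339067⟩ :=
  chkD_sound (p := KdT145P) ⟨Nat.succ_pos 7, (by decide : 12 ≤ 48), (by decide : 7 ≤ 255), KdE_ok,
    chkKT_sound (by decide) KdT145K_k⟩ KdT145 _ KdT145_k
theorem KdT160_c : CovC JI 367002 1394607 ⟨1421243, 1572864, 1363149, 1592209, 47186, 117965, 167322, 250983⟩ :=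
  chkD_sound (p := KdT160P) ⟨Nat.succ_pos 15, (by decide : 28 ≤ 48), (by decide : 14 ≤ 255), KdE_ok,
    chkKT_sound (by decide) KdT160K_k⟩ KdT160 _ KdT160_k
theorem KdT97_c : CovC JI 367002 1394607 ⟨1284238, 1421243, 321190, 1048576, 0, 294912, 317497, 634993⟩ :=
  chkD_sound (p := KdT97P) ⟨Nat.succ_pos 7, (by decide : 12 ≤ 48), (by decide : 7 ≤ 255), KdE_ok,
    chkKT_sound (by decide) KdT97K_k⟩ KdT97 _ KdT97_k
theorem KdT65_c : CovC JI 367002 1394607 ⟨1160440, 1284238, 321190, 1048576, 0, 294912, 309045, 618089⟩ :=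
  chkD_sound (p := KdT65P) ⟨Nat.succ_pos 7, (by decide : 12 ≤ 48), (by decide : 7 ≤ 255), KdE_ok,
    chkKT_sound (by decide) KdT65K_k⟩ KdT65 _ KdT65_k
theorem KdT76_c : CovC JI 367002 1394607 ⟨1160440, 1284238, 1048576, 1226834, 0, 294912, 314360, 628719⟩ :=
  chkD_sound (p := KdT76P) ⟨Nat.succ_pos 7, (by decide : 12 ≤ 48), (by decide : 7 ≤ 255), KdE_ok,
    chkKT_sound (by decide) KdT76K_k⟩ KdT76 _ KdT76_k
theorem KdT91_c : CovC JI 367002 1394607 ⟨1284238, 1421243, 321190, 1048576, 0, 117965, 0, 158749⟩ :=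
  chkD_sound (p := KdT91P) ⟨Nat.succ_pos 7, (by decide : 12 ≤ 48), (by decide : 7 ≤ 255), KdE_ok,
    chkKT_sound (by decide) KdT91K_k⟩ KdT91 _ KdT91_k
theorem KdT20_c : CovC JI 367002 1394607 ⟨1048576, 1075488, 1137705, 1182270, 47186, 82576, 227511, 265429⟩ :=
  chkD_sound (p := KdT20P) ⟨Nat.succ_pos 7, (by decide : 12 ≤ 48), (by decide : 7 ≤ 255), KdE_ok,
    chkKT_sound (by decide) KdT20K_k⟩ KdT20 _ KdT20_k
theorem KdT134_c : CovC JI 367002 1394607 ⟨1421243, 1572864, 684883, 1048576, 47186, 117965, 167896, 335791⟩ :=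
  chkD_sound (p := KdT134P) ⟨Nat.succ_pos 7, (by decide : 12 ≤ 48), (by decide : 7 ≤ 255), KdE_ok,
    chkKT_sound (by decide) KdT134K_k⟩ KdT134 _ KdT134_k
theorem KdT48_c : CovC JI 367002 1394607 ⟨1048576, 1160440, 1363149, 1592209, 82576, 117965, 148496, 222744⟩ :=
  chkD_sound (p := KdT48P) ⟨Nat.succ_pos 7, (by decide : 12 ≤ 48), (by decide : 7 ≤ 255), KdE_ok,
    chkKT_sound (by decide) KdT48K_k⟩ KdT48 _ KdT48_k
theorem KdT95_c : CovC JI 367002 1394607 ⟨1284238, 1421243, 684883, 1048576, 47186, 117965, 158749, 317497⟩ :=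
  chkD_sound (p := KdT95P) ⟨Nat.succ_pos 7, (by decide : 12 ≤ 48), (by decide : 7 ≤ 255), KdE_ok,
    chkKT_sound (by decide) KdT95K_k⟩ KdT95 _ KdT95_k
theorem KdT23_c : CovC JI 367002 1394607 ⟨1075488, 1103091, 1182270, 1226834, 47186, 64881, 227511, 265429⟩ :=
  chkD_sound (p := KdT23P) ⟨Nat.succ_pos 15, (by decide : 28 ≤ 48), (by decide : 14 ≤ 255), KdE_ok,
    chkKT_sound (by decide) KdT23K_k⟩ KdT23 _ KdT23_k
theorem KdT34_c : CovC JI 367002 1394607 ⟨1048576, 1160440, 1226834, 1363149, 47186, 117965, 150540, 188175⟩ :=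
  chkD_sound (p := KdT34P) ⟨Nat.succ_pos 7, (by decide : 12 ≤ 48), (by decide : 7 ≤ 255), KdE_ok,
    chkKT_sound (by decide) KdT34K_k⟩ KdT34 _ KdT34_k
theorem KdT149_c : CovC JI 367002 1394607 ⟨1421243, 1572864, 1226834, 1363149, 0, 117965, 0, 168725⟩ :=
  chkD_sound (p := KdT149P) ⟨Nat.succ_pos 7, (by decide : 12 ≤ 48), (by decide : 7 ≤ 255), KdE_ok,
    chkKT_sound (by decide) KdT149K_k⟩ KdT149 _ KdT149_k
theorem KdT68_c : CovC JI 367002 1394607 ⟨1160440, 1284238, 1048576, 1226834, 0, 117965, 0, 157180⟩ :=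
  chkD_sound (p := KdT68P) ⟨Nat.succ_pos 7, (by decide : 12 ≤ 48), (by decide : 7 ≤ 255), KdE_ok,
    chkKT_sound (by decide) KdT68K_k⟩ KdT68 _ KdT68_k
theorem KdT100_c : CovC JI 367002 1394607 ⟨1284238, 1421243, 1048576, 1226834, 0, 117965, 0, 164799⟩ :=
  chkD_sound (p := KdT100P) ⟨Nat.succ_pos 7, (by decide : 12 ≤ 48), (by decide : 7 ≤ 255), KdE_ok,
    chkKT_sound (by decide) KdT100K_k⟩ KdT100 _ KdT100_k
theorem KdT4_c : CovC JI 367002 1394607 ⟨1048576, 1160440, 866729, 957652, 0, 47186, 148646, 297292⟩ :=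
  chkD_sound (p := KdT4P) ⟨Nat.succ_pos 7, (by decide : 12 ≤ 48), (by decide : 7 ≤ 255), KdE_ok,
    chkKT_sound (by decide) KdT4K_k⟩ KdT4 _ KdT4_k
theorem KdT22_c : CovC JI 367002 1394607 ⟨1075488, 1103091, 1137705, 1182270, 47186, 82576, 227511, 265429⟩ :=
  chkD_sound (p := KdT22P) ⟨Nat.succ_pos 7, (by decide : 12 ≤ 48), (by decide : 7 ≤ 255), KdE_ok,
    chkKT_sound (by decide) KdT22K_k⟩ KdT22 _ KdT22_k
theorem KdT37_c : CovC JI 367002 1394607 ⟨1048576, 1160440, 1226834, 1363149, 82576, 117965, 188175, 225810⟩ :=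
  chkD_sound (p := KdT37P) ⟨Nat.succ_pos 7, (by decide : 12 ≤ 48), (by decide : 7 ≤ 255), KdE_ok,
    chkKT_sound (by decide) KdT37K_k⟩ KdT37 _ KdT37_k
theorem KdT161_c : CovC JI 367002 1394607 ⟨1421243, 1572864, 1363149, 1592209, 47186, 117965, 250983, 334643⟩ :=
  chkD_sound (p := KdT161P) ⟨Nat.succ_pos 7, (by decide : 12 ≤ 48), (by decide : 7 ≤ 255), KdE_ok,
    chkKT_sound (by decide) KdT161K_k⟩ KdT161 _ KdT161_k
theorem KdT32_c : CovC JI 367002 1394607 ⟨1048576, 1160440, 1226834, 1363149, 0, 117965, 0, 150540⟩ :=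
  chkD_sound (p := KdT32P) ⟨Nat.succ_pos 7, (by decide : 12 ≤ 48), (by decide : 7 ≤ 255), KdE_ok,
    chkKT_sound (by decide) KdT32K_k⟩ KdT32 _ KdT32_k
theorem KdT46_c : CovC JI 367002 1394607 ⟨1048576, 1160440, 1363149, 1592209, 47186, 82576, 148496, 185620⟩ :=
  chkD_sound (p := KdT46P) ⟨Nat.succ_pos 7, (by decide : 12 ≤ 48), (by decide : 7 ≤ 255), KdE_ok,
    chkKT_sound (by decide) KdT46K_k⟩ KdT46 _ KdT46_k
theorem KdT61_c : CovC JI 367002 1394607 ⟨1160440, 1284238, 866729, 957652, 0, 47186, 154523, 309045⟩ :=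
  chkD_sound (p := KdT61P) ⟨Nat.succ_pos 7, (by decide : 12 ≤ 48), (by decide : 7 ≤ 255), KdE_ok,
    chkKT_sound (by decide) KdT61K_k⟩ KdT61 _ KdT61_k
theorem KdT52_c : CovC JI 367002 1394607 ⟨1048576, 1160440, 1821268, 2097152, 0, 117965, 0, 296992⟩ :=
  chkD_sound (p := KdT52P) ⟨Nat.succ_pos 7, (by decide : 1 ≤ 48), (by decide : 1 ≤ 255), KdE_ok,
    KT0_ok⟩ KdT52 _ KdT52_k
theorem KdT66_c : CovC JI 367002 1394607 ⟨1160440, 1284238, 0, 1048576, 0, 294912, 618089, 1284239⟩ :=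
  chkD_sound (p := KdT66P) ⟨Nat.succ_pos 7, (by decide : 1 ≤ 48), (by decide : 1 ≤ 255), KdE_ok,
    KT0_ok⟩ KdT66 _ KdT66_k
theorem KdT90_c : CovC JI 367002 1394607 ⟨1284238, 1421243, 0, 321190, 0, 294912, 0, 634993⟩ :=
  chkD_sound (p := KdT90P) ⟨Nat.succ_pos 7, (by decide : 1 ≤ 48), (by decide : 1 ≤ 255), KdE_ok,
    KT0_ok⟩ KdT90 _ KdT90_k
theorem KdT118_c : CovC JI 367002 1394607 ⟨1284238, 1421243, 1226834, 1363149, 0, 294912, 650069, 1421244⟩ :=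
  chkD_sound (p := KdT118P) ⟨Nat.succ_pos 7, (by decide : 1 ≤ 48), (by decide : 1 ≤ 255), KdE_ok,
    KT0_ok⟩ KdT118 _ KdT118_k
theorem KdT128_c : CovC JI 367002 1394607 ⟨1284238, 1421243, 1363149, 2097152, 0, 294912, 646864, 1421244⟩ :=
  chkD_sound (p := KdT128P) ⟨Nat.succ_pos 7, (by decide : 1 ≤ 48), (by decide : 1 ≤ 255), KdE_ok,
    KT0_ok⟩ KdT128 _ KdT128_k
theorem KdT147_c : CovC JI 367002 1394607 ⟨1421243, 1572864, 1048576, 1226834, 0, 294912, 678133, 1572865⟩ :=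
  chkD_sound (p := KdT147P) ⟨Nat.succ_pos 7, (by decide : 1 ≤ 48), (by decide : 1 ≤ 255), KdE_ok,
    KT0_ok⟩ KdT147 _ KdT147_k
theorem KdT166_c : CovC JI 367002 1394607 ⟨1421243, 1572864, 1363149, 2097152, 0, 294912, 669285, 1572865⟩ :=
  chkD_sound (p := KdT166P) ⟨Nat.succ_pos 7, (by decide : 1 ≤ 48), (by decide : 1 ≤ 255), KdE_ok,
    KT0_ok⟩ KdT166 _ KdT166_k
theorem KdT43_c : CovC JI 367002 1394607 ⟨1048576, 1160440, 1226834, 1363149, 0, 294912, 1160441, 8388608⟩ :=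
  chkD_sound (p := KdT43P) ⟨Nat.succ_pos 7, (by decide : 1 ≤ 48), (by decide : 1 ≤ 255), KdE_ok,
    KT0_ok⟩ KdT43 _ KdT43_k
theorem KdT78_c : CovC JI 367002 1394607 ⟨1160440, 1284238, 1048576, 1226834, 0, 294912, 1284239, 8388608⟩ :=
  chkD_sound (p := KdT78P) ⟨Nat.succ_pos 7, (by decide : 1 ≤ 48), (by decide : 1 ≤ 255), KdE_ok,
    KT0_ok⟩ KdT78 _ KdT78_k
theorem KdT109_c : CovC JI 367002 1394607 ⟨1284238, 1421243, 1048576, 1226834, 0, 294912, 1421244, 8388608⟩ :=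
  chkD_sound (p := KdT109P) ⟨Nat.succ_pos 7, (by decide : 1 ≤ 48), (by decide : 1 ≤ 255), KdE_ok,
    KT0_ok⟩ KdT109 _ KdT109_k
theorem KdT138_c : CovC JI 367002 1394607 ⟨1421243, 1572864, 0, 1048576, 0, 294912, 1572865, 8388608⟩ :=
  chkD_sound (p := KdT138P) ⟨Nat.succ_pos 7, (by decide : 1 ≤ 48), (by decide : 1 ≤ 255), KdE_ok,
    KT0_ok⟩ KdT138 _ KdT138_k
theorem KdT167_c : CovC JI 367002 1394607 ⟨1421243, 1572864, 1363149, 2097152, 0, 294912, 1572865, 8388608⟩ :=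
  chkD_sound (p := KdT167P) ⟨Nat.succ_pos 7, (by decide : 1 ≤ 48), (by decide : 1 ≤ 255), KdE_ok,
    KT0_ok⟩ KdT167 _ KdT167_k
theorem Kd_cov  : CovC JI 367002 1394607 ⟨1048576, 1572864, 0, 2097152, 0, 294912, 0, 8388608⟩ :=
 (CovC.sN 1160440 (CovC.sK 1048576 (CovC.sQ 1160441 (CovC.sQ 594583 (CovC.sK 321190 KdT0_c
 (CovC.sQ 297292 (CovC.sJ 117965 (CovC.sQ 148646 KdT1_c
 (CovC.sK 684883 KdT2_c
 (CovC.sJ 47186 (CovC.sK 866729 KdT3_c
 (CovC.sK 957652 KdT4_c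
 KdT5_c))
 KdT6_c)))
 KdT7_c)
 KdT8_c))
 KdT9_c)
 KdT10_c)
 (CovC.sK 1226834 (CovC.sQ 1160441 (CovC.sQ 606694 (CovC.sQ 303347 (CovC.sJ 117965 (CovC.sQ 151674 KdT11_c
 (CovC.sJ 47186 (CovC.sQ 227511 KdT12_c
 (CovC.sJ 18874 (CovC.sJ 7550 (CovC.sK 1137705 KdT13_c
 (CovC.sN 1103091 KdT14_c
 KdT15_c))
 KdT16_c)
 KdT17_c))
 (CovC.sQ 227511 KdT18_c
 (CovC.sJ 82576 (CovC.sK 1137705 KdT19_c
 (CovC.sN 1103091 (CovC.sQ 265429 (CovC.sN 1075488 (CovC.sK 1182270 KdT20_c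
 KdT21_c)
 (CovC.sK 1182270 KdT22_c
 (CovC.sJ 64881 KdT23_c
 KdT24_c)))
 KdT25_c)
 KdT26_c))
 KdT27_c))))
 KdT28_c)
 KdT29_c)
 KdT30_c)
 KdT31_c)
 (CovC.sK 1363149 (CovC.sQ 1160441 (CovC.sQ 602159 (CovC.sQ 301080 (CovC.sJ 117965 (CovC.sQ 150540 KdT32_c
 (CovC.sJ 47186 KdT33_c
 (CovC.sQ 225810 (CovC.sQ 188175 KdT34_c
 (CovC.sJ 82576 (CovC.sQ 206993 KdT35_c
 KdT36_c)
 KdT37_c))
 (CovC.sJ 82576 KdT38_c
 KdT39_c))))
 KdT40_c)
 KdT41_c)
 KdT42_c)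
 KdT43_c)
 (CovC.sQ 1160441 (CovC.sQ 593983 (CovC.sQ 296992 (CovC.sJ 117965 (CovC.sK 1821268 (CovC.sQ 148496 KdT44_c
 (CovC.sJ 47186 KdT45_c
 (CovC.sK 1592209 (CovC.sQ 222744 (CovC.sJ 82576 (CovC.sQ 185620 KdT46_c
 KdT47_c)
 KdT48_c)
 (CovC.sJ 82576 KdT49_c
 KdT50_c))
 KdT51_c)))
 KdT52_c)
 KdT53_c)
 KdT54_c)
 KdT55_c)
 KdT56_c))))
 (CovC.sN 1284238 (CovC.sK 1048576 (CovC.sQ 1284239 (CovC.sQ 618089 (CovC.sK 321190 KdT57_c
 (CovC.sQ 309045 (CovC.sJ 117965 (CovC.sQ 154523 KdT58_c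
 (CovC.sK 684883 KdT59_c
 (CovC.sJ 47186 (CovC.sK 866729 KdT60_c
 (CovC.sK 957652 KdT61_c
 KdT62_c))
 KdT63_c)))
 KdT64_c)
 KdT65_c))
 KdT66_c)
 KdT67_c)
 (CovC.sK 1226834 (CovC.sQ 1284239 (CovC.sQ 628719 (CovC.sQ 314360 (CovC.sJ 117965 (CovC.sQ 157180 KdT68_c
 (CovC.sJ 47186 (CovC.sJ 18874 (CovC.sQ 235770 KdT69_c
 (CovC.sJ 7550 KdT70_c
 (CovC.sK 1137705 KdT71_c
 KdT72_c)))
 KdT73_c)
 KdT74_c))
 KdT75_c)
 KdT76_c)
 KdT77_c)
 KdT78_c)
 (CovC.sK 1363149 (CovC.sQ 1284239 (CovC.sQ 625563 (CovC.sQ 312782 (CovC.sJ 117965 (CovC.sQ 156391 KdT79_c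
 (CovC.sJ 47186 (CovC.sJ 18874 (CovC.sQ 234587 KdT80_c
 (CovC.sJ 7550 KdT81_c
 KdT82_c))
 KdT83_c)
 KdT84_c))
 KdT85_c)
 KdT86_c)
 KdT87_c)
 KdT88_c)
 KdT89_c)))
 (CovC.sN 1421243 (CovC.sK 1048576 (CovC.sQ 1421244 (CovC.sQ 634993 (CovC.sK 321190 KdT90_c
 (CovC.sQ 317497 (CovC.sJ 117965 (CovC.sQ 158749 KdT91_c
 (CovC.sK 684883 KdT92_c
 (CovC.sJ 47186 (CovC.sK 866729 KdT93_c
 KdT94_c)
 KdT95_c)))
 KdT96_c)
 KdT97_c))
 KdT98_c)
 KdT99_c)
 (CovC.sK 1226834 (CovC.sQ 1421244 (CovC.sQ 659196 (CovC.sQ 329598 (CovC.sJ 117965 (CovC.sQ 164799 KdT100_c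
 (CovC.sJ 47186 (CovC.sJ 18874 (CovC.sQ 247199 KdT101_c
 (CovC.sK 1137705 KdT102_c
 KdT103_c))
 KdT104_c)
 KdT105_c))
 KdT106_c)
 KdT107_c)
 KdT108_c)
 KdT109_c)
 (CovC.sK 1363149 (CovC.sQ 1421244 (CovC.sQ 650069 (CovC.sQ 325035 (CovC.sJ 117965 (CovC.sQ 162518 KdT110_c
 (CovC.sJ 47186 (CovC.sJ 18874 (CovC.sQ 243777 KdT111_c
 (CovC.sJ 7550 KdT112_c
 KdT113_c))
 KdT114_c)
 KdT115_c))
 KdT116_c)
 KdT117_c)
 KdT118_c)
 KdT119_c)
 (CovC.sQ 1421244 (CovC.sQ 646864 (CovC.sQ 323432 (CovC.sJ 117965 (CovC.sK 1821268 (CovC.sQ 161716 KdT120_c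
 (CovC.sJ 47186 (CovC.sK 1643508 (CovC.sJ 18874 KdT121_c
 KdT122_c)
 KdT123_c)
 KdT124_c))
 KdT125_c)
 KdT126_c)
 KdT127_c)
 KdT128_c)
 KdT129_c))))
 (CovC.sK 1048576 (CovC.sQ 1572865 (CovC.sQ 671581 (CovC.sK 321190 KdT130_c
 (CovC.sQ 335791 (CovC.sJ 117965 (CovC.sQ 167896 KdT131_c
 (CovC.sK 684883 KdT132_c
 (CovC.sJ 47186 KdT133_c
 KdT134_c)))
 KdT135_c)
 KdT136_c))
 KdT137_c)
 KdT138_c)
 (CovC.sK 1226834 (CovC.sQ 1572865 (CovC.sQ 678133 (CovC.sQ 339067 (CovC.sJ 117965 (CovC.sQ 169534 KdT139_c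
 (CovC.sJ 47186 KdT140_c
 (CovC.sJ 82576 (CovC.sN 1495133 (CovC.sK 1137705 KdT141_c
 KdT142_c)
 KdT143_c)
 KdT144_c)))
 KdT145_c)
 KdT146_c)
 KdT147_c)
 KdT148_c)
 (CovC.sK 1363149 (CovC.sQ 1572865 (CovC.sQ 674899 (CovC.sQ 337450 (CovC.sJ 117965 (CovC.sQ 168725 KdT149_c
 (CovC.sJ 47186 (CovC.sJ 18874 KdT150_c
 KdT151_c)
 (CovC.sJ 82576 KdT152_c
 KdT153_c)))
 KdT154_c)
 KdT155_c)
 KdT156_c)
 KdT157_c)
 (CovC.sQ 1572865 (CovC.sQ 669285 (CovC.sQ 334643 (CovC.sJ 117965 (CovC.sK 1821268 (CovC.sQ 167322 KdT158_c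
 (CovC.sK 1592209 (CovC.sJ 47186 KdT159_c
 (CovC.sQ 250983 KdT160_c
 KdT161_c))
 KdT162_c))
 KdT163_c)
 KdT164_c)
 KdT165_c)
 KdT166_c)
 KdT167_c)))))))
end Pool.Agent.Lib.MP_33650d_pr.X
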