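import Pool.Agent.Lib.MP_33650d_pr.X.EFin
import Pool.Agent.Lib.MP_33650d_pr.X.GSnd
import Pool.Agent.Lib.MP_33650d_pr.X.CKChk
import Pool.Agent.Lib.MP_33650d_pr.G.KeC0
import Pool.Agent.Lib.MP_33650d_pr.G.KeC1

set_option linter.defProp false

namespace Pool.Agent.Lib.MP_33650d_pr.X

theorem KeE00000_ok : Tab JI KeE00000 := KeE00000_k.tabI
theorem KeE00001_ok : Tab JI KeE00001 := KeE00001_k.tabI
theorem KeE0000_ok : Tab JI KeE0000 := E.Tab.node KeE00000_ok KeE00001_ok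
theorem KeE00010_ok : Tab JI KeE00010 := KeE00010_k.tabI
theorem KeE00011_ok : Tab JI KeE00011 := KeE00011_k.tabI
theorem KeE0001_ok : Tab JI KeE0001 := E.Tab.node KeE00010_ok KeE00011_ok
theorem KeE000_ok : Tab JI KeE000 := E.Tab.node KeE0000_ok KeE0001_ok
theorem KeE00100_ok : Tab JI KeE00100 := KeE00100_k.tabI
theorem KeE00101_ok : Tab JI KeE00101 := KeE00101_k.tabI
theorem KeE0010_ok : Tab JI KeE0010 := E.Tab.node KeE00100_ok KeE00101_ok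
theorem KeE00110_ok : Tab JI KeE00110 := KeE00110_k.tabI
theorem KeE00111_ok : Tab JI KeE00111 := KeE00111_k.tabI
theorem KeE0011_ok : Tab JI KeE0011 := E.Tab.node KeE00110_ok KeE00111_ok
theorem KeE001_ok : Tab JI KeE001 := E.Tab.node KeE0010_ok KeE0011_ok
theorem KeE00_ok : Tab JI KeE00 := E.Tab.node KeE000_ok KeE001_ok
theorem KeE01000_ok : Tab JI KeE01000 := KeE01000_k.tabI
theorem KeE01001_ok : Tab JI KeE01001 := KeE01001_k.tabI
theorem KeE0100_ok : Tab JI KeE0100 := E.Tab.node KeE01000_ok KeE01001_ok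
theorem KeE01010_ok : Tab JI KeE01010 := KeE01010_k.tabI
theorem KeE010110_ok : Tab JI KeE010110 := KeE010110_k.tabI
theorem KeE010111_ok : Tab JI KeE010111 := KeE010111_k.tabI
theorem KeE01011_ok : Tab JI KeE01011 := E.Tab.node KeE010110_ok KeE010111_ok
theorem KeE0101_ok : Tab JI KeE0101 := E.Tab.node KeE01010_ok KeE01011_ok
theorem KeE010_ok : Tab JI KeE010 := E.Tab.node KeE0100_ok KeE0101_ok
theorem KeE01100_ok : Tab JI KeE01100 := KeE01100_k.tabI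
theorem KeE01101_ok : Tab JI KeE01101 := KeE01101_k.tabI
theorem KeE0110_ok : Tab JI KeE0110 := E.Tab.node KeE01100_ok KeE01101_ok
theorem KeE01110_ok : Tab JI KeE01110 := KeE01110_k.tabI
theorem KeE01111_ok : Tab JI KeE01111 := KeE01111_k.tabI
theorem KeE0111_ok : Tab JI KeE0111 := E.Tab.node KeE01110_ok KeE01111_ok
theorem KeE011_ok : Tab JI KeE011 := E.Tab.node KeE0110_ok KeE0111_ok
theorem KeE01_ok : Tab JI KeE01 := E.Tab.node KeE010_ok KeE011_ok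
theorem KeE0_ok : Tab JI KeE0 := E.Tab.node KeE00_ok KeE01_ok
theorem KeE10000_ok : Tab JI KeE10000 := KeE10000_k.tabI
theorem KeE10001_ok : Tab JI KeE10001 := KeE10001_k.tabI
theorem KeE1000_ok : Tab JI KeE1000 := E.Tab.node KeE10000_ok KeE10001_ok
theorem KeE10010_ok : Tab JI KeE10010 := KeE10010_k.tabI
theorem KeE10011_ok : Tab JI KeE10011 := KeE10011_k.tabI
theorem KeE1001_ok : Tab JI KeE1001 := E.Tab.node KeE10010_ok KeE10011_ok
theorem KeE100_ok : Tab JI KeE100 := E.Tab.node KeE1000_ok KeE1001_ok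
theorem KeE10100_ok : Tab JI KeE10100 := KeE10100_k.tabI
theorem KeE10101_ok : Tab JI KeE10101 := KeE10101_k.tabI
theorem KeE1010_ok : Tab JI KeE1010 := E.Tab.node KeE10100_ok KeE10101_ok
theorem KeE10110_ok : Tab JI KeE10110 := KeE10110_k.tabI
theorem KeE10111_ok : Tab JI KeE10111 := KeE10111_k.tabI
theorem KeE1011_ok : Tab JI KeE1011 := E.Tab.node KeE10110_ok KeE10111_ok
theorem KeE101_ok : Tab JI KeE101 := E.Tab.node KeE1010_ok KeE1011_ok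
theorem KeE10_ok : Tab JI KeE10 := E.Tab.node KeE100_ok KeE101_ok
theorem KeE11000_ok : Tab JI KeE11000 := KeE11000_k.tabI
theorem KeE11001_ok : Tab JI KeE11001 := KeE11001_k.tabI
theorem KeE1100_ok : Tab JI KeE1100 := E.Tab.node KeE11000_ok KeE11001_ok
theorem KeE11010_ok : Tab JI KeE11010 := KeE11010_k.tabI
theorem KeE11011_ok : Tab JI KeE11011 := KeE11011_k.tabI
theorem KeE1101_ok : Tab JI KeE1101 := E.Tab.node KeE11010_ok KeE11011_ok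
theorem KeE110_ok : Tab JI KeE110 := E.Tab.node KeE1100_ok KeE1101_ok
theorem KeE11100_ok : Tab JI KeE11100 := KeE11100_k.tabI
theorem KeE11101_ok : Tab JI KeE11101 := KeE11101_k.tabI
theorem KeE1110_ok : Tab JI KeE1110 := E.Tab.node KeE11100_ok KeE11101_ok
theorem KeE11110_ok : Tab JI KeE11110 := KeE11110_k.tabI
theorem KeE11111_ok : Tab JI KeE11111 := KeE11111_k.tabI
theorem KeE1111_ok : Tab JI KeE1111 := E.Tab.node KeE11110_ok KeE11111_ok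
theorem KeE111_ok : Tab JI KeE111 := E.Tab.node KeE1110_ok KeE1111_ok
theorem KeE11_ok : Tab JI KeE11 := E.Tab.node KeE110_ok KeE111_ok
theorem KeE1_ok : Tab JI KeE1 := E.Tab.node KeE10_ok KeE11_ok
theorem KeE_ok : Tab JI KeE := E.Tab.node KeE0_ok KeE1_ok
theorem KeT21_c : CovC JI 367002 1394607 ⟨1572864, 1750251, 1363149, 2097152, 0, 294912, 0, 352682⟩ :=
  chkD_sound (p := KeT21P) ⟨Nat.succ_pos 15, (by decide : 28 ≤ 48), (by decide : 12 ≤ 255), KeE_ok,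
    chkKT_sound (by decide) KeT21K_k⟩ KeT21 _ KeT21_k
theorem KeT68_c : CovC JI 367002 1394607 ⟨1947644, 2167298, 1226834, 1363149, 0, 117965, 0, 388397⟩ :=
  chkD_sound (p := KeT68P) ⟨Nat.succ_pos 15, (by decide : 28 ≤ 48), (by decide : 12 ≤ 255), KeE_ok,
    chkKT_sound (by decide) KeT68K_k⟩ KeT68 _ KeT68_k
theorem KeT13_c : CovC JI 367002 1394607 ⟨1572864, 1750251, 1226834, 1363149, 0, 7550, 177070, 354140⟩ :=
  chkD_sound (p := KeT13P) ⟨Nat.succ_pos 15, (by decide : 28 ≤ 48), (by decide : 12 ≤ 255), KeE_ok,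
    chkKT_sound (by decide) KeT13K_k⟩ KeT13 _ KeT13_k
theorem KeT73_c : CovC JI 367002 1394607 ⟨1947644, 2167298, 1363149, 2097152, 0, 294912, 0, 8388608⟩ :=
  chkD_sound (p := KeT73P) ⟨Nat.succ_pos 15, (by decide : 28 ≤ 48), (by decide : 12 ≤ 255), KeE_ok,
    chkKT_sound (by decide) KeT73K_k⟩ KeT73 _ KeT73_k
theorem KeT29_c : CovC JI 367002 1394607 ⟨1750251, 1947644, 1226834, 1294992, 0, 3020, 229836, 275803⟩ :=
  chkD_sound (p := KeT29P) ⟨Nat.succ_pos 15, (by decide : 28 ≤ 48), (by decide : 12 ≤ 255), KeE_ok,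
    chkKT_sound (by decide) KeT29K_k⟩ KeT29 _ KeT29_k
theorem KeT0_c : CovC JI 367002 1394607 ⟨1572864, 1750251, 0, 1048576, 0, 294912, 0, 8388608⟩ :=
  chkD_sound (p := KeT0P) ⟨Nat.succ_pos 15, (by decide : 28 ≤ 48), (by decide : 12 ≤ 255), KeE_ok,
    chkKT_sound (by decide) KeT0K_k⟩ KeT0 _ KeT0_k
theorem KeT42_c : CovC JI 367002 1394607 ⟨1947644, 2167298, 321190, 1048576, 0, 294912, 0, 375098⟩ :=
  chkD_sound (p := KeT42P) ⟨Nat.succ_pos 15, (by decide : 28 ≤ 48), (by decide : 12 ≤ 255), KeE_ok,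
    chkKT_sound (by decide) KeT42K_k⟩ KeT42 _ KeT42_k
theorem KeT50_c : CovC JI 367002 1394607 ⟨2000377, 2027277, 654784, 684883, 117655, 127893, 425687, 431731⟩ :=
  chkD_sound (p := KeT50P) ⟨Nat.succ_pos 15, (by decide : 28 ≤ 48), (by decide : 12 ≤ 255), KeE_ok,
    chkKT_sound (by decide) KeT50K_k⟩ KeT50 _ KeT50_k
theorem KeT30_c : CovC JI 367002 1394607 ⟨1750251, 1947644, 1226834, 1294992, 3020, 7550, 229836, 275803⟩ :=
  chkD_sound (p := KeT30P) ⟨Nat.succ_pos 15, (by decide : 28 ≤ 48), (by decide : 12 ≤ 255), KeE_ok,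
    chkKT_sound (by decide) KeT30K_k⟩ KeT30 _ KeT30_k
theorem KeT34_c : CovC JI 367002 1394607 ⟨1750251, 1947644, 1226834, 1363149, 18874, 47186, 183869, 367737⟩ :=
  chkD_sound (p := KeT34P) ⟨Nat.succ_pos 15, (by decide : 28 ≤ 48), (by decide : 12 ≤ 255), KeE_ok,
    chkKT_sound (by decide) KeT34K_k⟩ KeT34 _ KeT34_k
theorem KeT86_c : CovC JI 367002 1394607 ⟨2167298, 2411725, 1363149, 1592209, 0, 47186, 0, 8388608⟩ :=
  chkD_sound (p := KeT86P) ⟨Nat.succ_pos 15, (by decide : 28 ≤ 48), (by decide : 12 ≤ 255), KeE_ok,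
    chkKT_sound (by decide) KeT86K_k⟩ KeT86 _ KeT86_k
theorem KeT6_c : CovC JI 367002 1394607 ⟨1572864, 1750251, 1048576, 1226834, 18874, 47186, 177736, 355472⟩ :=
  chkD_sound (p := KeT6P) ⟨Nat.succ_pos 15, (by decide : 28 ≤ 48), (by decide : 12 ≤ 255), KeE_ok,
    chkKT_sound (by decide) KeT6K_k⟩ KeT6 _ KeT6_k
theorem KeT84_c : CovC JI 367002 1394607 ⟨2167298, 2411725, 1226834, 1363149, 82576, 117965, 0, 8388608⟩ :=
  chkD_sound (p := KeT84P) ⟨Nat.succ_pos 15, (by decide : 28 ≤ 48), (by decide : 12 ≤ 255), KeE_ok,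
    chkKT_sound (by decide) KeT84K_k⟩ KeT84 _ KeT84_k
theorem KeT56_c : CovC JI 367002 1394607 ⟨1947644, 2167298, 654784, 684883, 113886, 138130, 449863, 476275⟩ :=
  chkD_sound (p := KeT56P) ⟨Nat.succ_pos 15, (by decide : 28 ≤ 48), (by decide : 12 ≤ 255), KeE_ok,
    chkKT_sound (by decide) KeT56K_k⟩ KeT56 _ KeT56_k
theorem KeT77_c : CovC JI 367002 1394607 ⟨2167298, 2411725, 1048576, 1226834, 47186, 117965, 0, 8388608⟩ :=
  chkD_sound (p := KeT77P) ⟨Nat.succ_pos 15, (by decide : 28 ≤ 48), (by decide : 12 ≤ 255), KeE_ok,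
    chkKT_sound (by decide) KeT77K_k⟩ KeT77 _ KeT77_k
theorem KeT81_c : CovC JI 367002 1394607 ⟨2167298, 2225978, 1226834, 1363149, 47186, 82576, 0, 8388608⟩ :=
  chkD_sound (p := KeT81P) ⟨Nat.succ_pos 15, (by decide : 28 ≤ 48), (by decide : 12 ≤ 255), KeE_ok,
    chkKT_sound (by decide) KeT81K_k⟩ KeT81 _ KeT81_k
theorem KeT76_c : CovC JI 367002 1394607 ⟨2167298, 2411725, 1048576, 1226834, 18874, 47186, 0, 8388608⟩ :=
  chkD_sound (p := KeT76P) ⟨Nat.succ_pos 15, (by decide : 28 ≤ 48), (by decide : 12 ≤ 255), KeE_ok,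
    chkKT_sound (by decide) KeT76K_k⟩ KeT76 _ KeT76_k
theorem KeT17_c : CovC JI 367002 1394607 ⟨1572864, 1750251, 1226834, 1363149, 117965, 294912, 0, 354140⟩ :=
  chkD_sound (p := KeT17P) ⟨Nat.succ_pos 15, (by decide : 28 ≤ 48), (by decide : 12 ≤ 255), KeE_ok,
    chkKT_sound (by decide) KeT17K_k⟩ KeT17 _ KeT17_k
theorem KeT64_c : CovC JI 367002 1394607 ⟨1947644, 2167298, 1048576, 1226834, 117965, 294912, 0, 388759⟩ :=
  chkD_sound (p := KeT64P) ⟨Nat.succ_pos 15, (by decide : 28 ≤ 48), (by decide : 12 ≤ 255), KeE_ok,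
    chkKT_sound (by decide) KeT64K_k⟩ KeT64 _ KeT64_k
theorem KeT35_c : CovC JI 367002 1394607 ⟨1750251, 1947644, 1226834, 1363149, 47186, 117965, 183869, 367737⟩ :=
  chkD_sound (p := KeT35P) ⟨Nat.succ_pos 15, (by decide : 28 ≤ 48), (by decide : 12 ≤ 255), KeE_ok,
    chkKT_sound (by decide) KeT35K_k⟩ KeT35 _ KeT35_k
theorem KeT69_c : CovC JI 367002 1394607 ⟨1947644, 2167298, 1226834, 1363149, 117965, 294912, 0, 388397⟩ :=
  chkD_sound (p := KeT69P) ⟨Nat.succ_pos 15, (by decide : 28 ≤ 48), (by decide : 12 ≤ 255), KeE_ok,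
    chkKT_sound (by decide) KeT69K_k⟩ KeT69 _ KeT69_k
theorem KeT36_c : CovC JI 367002 1394607 ⟨1750251, 1947644, 1226834, 1363149, 117965, 294912, 0, 367737⟩ :=
  chkD_sound (p := KeT36P) ⟨Nat.succ_pos 15, (by decide : 28 ≤ 48), (by decide : 12 ≤ 255), KeE_ok,
    chkKT_sound (by decide) KeT36K_k⟩ KeT36 _ KeT36_k
theorem KeT45_c : CovC JI 367002 1394607 ⟨1947644, 2167298, 579657, 684883, 77512, 193779, 375098, 425687⟩ :=
  chkD_sound (p := KeT45P) ⟨Nat.succ_pos 15, (by decide : 28 ≤ 48), (by decide : 12 ≤ 255), KeE_ok,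
    chkKT_sound (by decide) KeT45K_k⟩ KeT45 _ KeT45_k
theorem KeT88_c : CovC JI 367002 1394607 ⟨2167298, 2286247, 1363149, 1477679, 64881, 82576, 0, 8388608⟩ :=
  chkD_sound (p := KeT88P) ⟨Nat.succ_pos 15, (by decide : 28 ≤ 48), (by decide : 12 ≤ 255), KeE_ok,
    chkKT_sound (by decide) KeT88K_k⟩ KeT88 _ KeT88_k
theorem KeT22_c : CovC JI 367002 1394607 ⟨1572864, 1750251, 1363149, 2097152, 0, 294912, 352682, 705363⟩ :=
  chkD_sound (p := KeT22P) ⟨Nat.succ_pos 15, (by decide : 28 ≤ 48), (by decide : 12 ≤ 255), KeE_ok,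
    chkKT_sound (by decide) KeT22K_k⟩ KeT22 _ KeT22_k
theorem KeT70_c : CovC JI 367002 1394607 ⟨1947644, 2167298, 1226834, 1363149, 0, 294912, 388397, 776793⟩ :=
  chkD_sound (p := KeT70P) ⟨Nat.succ_pos 15, (by decide : 28 ≤ 48), (by decide : 12 ≤ 255), KeE_ok,
    chkKT_sound (by decide) KeT70K_k⟩ KeT70 _ KeT70_k
theorem KeT9_c : CovC JI 367002 1394607 ⟨1572864, 1750251, 1048576, 1226834, 0, 294912, 355472, 710944⟩ :=
  chkD_sound (p := KeT9P) ⟨Nat.succ_pos 15, (by decide : 28 ≤ 48), (by decide : 12 ≤ 255), KeE_ok,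
    chkKT_sound (by decide) KeT9K_k⟩ KeT9 _ KeT9_k
theorem KeT90_c : CovC JI 367002 1394607 ⟨2167298, 2411725, 1477679, 1592209, 47186, 82576, 0, 8388608⟩ :=
  chkD_sound (p := KeT90P) ⟨Nat.succ_pos 15, (by decide : 28 ≤ 48), (by decide : 12 ≤ 255), KeE_ok,
    chkKT_sound (by decide) KeT90K_k⟩ KeT90 _ KeT90_k
theorem KeT31_c : CovC JI 367002 1394607 ⟨1750251, 1947644, 1226834, 1294992, 7550, 18874, 229836, 275803⟩ :=
  chkD_sound (p := KeT31P) ⟨Nat.succ_pos 15, (by decide : 28 ≤ 48), (by decide : 12 ≤ 255), KeE_ok,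
    chkKT_sound (by decide) KeT31K_k⟩ KeT31 _ KeT31_k
theorem KeT78_c : CovC JI 367002 1394607 ⟨2167298, 2411725, 1048576, 1226834, 117965, 294912, 0, 8388608⟩ :=
  chkD_sound (p := KeT78P) ⟨Nat.succ_pos 15, (by decide : 28 ≤ 48), (by decide : 12 ≤ 255), KeE_ok,
    chkKT_sound (by decide) KeT78K_k⟩ KeT78 _ KeT78_k
theorem KeT87_c : CovC JI 367002 1394607 ⟨2167298, 2286247, 1363149, 1477679, 47186, 64881, 0, 8388608⟩ :=
  chkD_sound (p := KeT87P) ⟨Nat.succ_pos 15, (by decide : 28 ≤ 48), (by decide : 12 ≤ 255), KeE_ok,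
    chkKT_sound (by decide) KeT87K_k⟩ KeT87 _ KeT87_k
theorem KeT28_c : CovC JI 367002 1394607 ⟨1750251, 1947644, 1226834, 1363149, 0, 18874, 183869, 229836⟩ :=
  chkD_sound (p := KeT28P) ⟨Nat.succ_pos 15, (by decide : 28 ≤ 48), (by decide : 12 ≤ 255), KeE_ok,
    chkKT_sound (by decide) KeT28K_k⟩ KeT28 _ KeT28_k
theorem KeT33_c : CovC JI 367002 1394607 ⟨1750251, 1947644, 1226834, 1363149, 0, 18874, 275803, 367737⟩ :=
  chkD_sound (p := KeT33P) ⟨Nat.succ_pos 15, (by decide : 28 ≤ 48), (by decide : 12 ≤ 255), KeE_ok,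
    chkKT_sound (by decide) KeT33K_k⟩ KeT33 _ KeT33_k
theorem KeT48_c : CovC JI 367002 1394607 ⟨1947644, 2054538, 654784, 684883, 113886, 117655, 425687, 449863⟩ :=
  chkD_sound (p := KeT48P) ⟨Nat.succ_pos 15, (by decide : 28 ≤ 48), (by decide : 12 ≤ 255), KeE_ok,
    chkKT_sound (by decide) KeT48K_k⟩ KeT48 _ KeT48_k
theorem KeT12_c : CovC JI 367002 1394607 ⟨1572864, 1750251, 1226834, 1363149, 0, 117965, 0, 177070⟩ :=
  chkD_sound (p := KeT12P) ⟨Nat.succ_pos 15, (by decide : 28 ≤ 48), (by decide : 12 ≤ 255), KeE_ok,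
    chkKT_sound (by decide) KeT12K_k⟩ KeT12 _ KeT12_k
theorem KeT2_c : CovC JI 367002 1394607 ⟨1572864, 1750251, 1048576, 1226834, 0, 18874, 177736, 222170⟩ :=
  chkD_sound (p := KeT2P) ⟨Nat.succ_pos 15, (by decide : 28 ≤ 48), (by decide : 12 ≤ 255), KeE_ok,
    chkKT_sound (by decide) KeT2K_k⟩ KeT2 _ KeT2_k
theorem KeT58_c : CovC JI 367002 1394607 ⟨1947644, 2167298, 321190, 684883, 77512, 193779, 476275, 750195⟩ :=
  chkD_sound (p := KeT58P) ⟨Nat.succ_pos 15, (by decide : 28 ≤ 48), (by decide : 12 ≤ 255), KeE_ok,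
    chkKT_sound (by decide) KeT58K_k⟩ KeT58 _ KeT58_k
theorem KeT53_c : CovC JI 367002 1394607 ⟨2000377, 2054538, 654784, 684883, 117655, 138130, 431731, 437775⟩ :=
  chkD_sound (p := KeT53P) ⟨Nat.succ_pos 15, (by decide : 28 ≤ 48), (by decide : 12 ≤ 255), KeE_ok,
    chkKT_sound (by decide) KeT53K_k⟩ KeT53 _ KeT53_k
theorem KeT92_c : CovC JI 367002 1394607 ⟨2167298, 2411725, 1363149, 1477679, 100271, 117965, 0, 8388608⟩ :=
  chkD_sound (p := KeT92P) ⟨Nat.succ_pos 15, (by decide : 28 ≤ 48), (by decide : 12 ≤ 255), KeE_ok,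
    chkKT_sound (by decide) KeT92K_k⟩ KeT92 _ KeT92_k
theorem KeT23_c : CovC JI 367002 1394607 ⟨1572864, 1750251, 1363149, 2097152, 0, 294912, 705363, 1750252⟩ :=
  chkD_sound (p := KeT23P) ⟨Nat.succ_pos 7, (by decide : 1 ≤ 48), (by decide : 1 ≤ 255), KeE_ok,
    KT0_ok⟩ KeT23 _ KeT23_k
theorem KeT41_c : CovC JI 367002 1394607 ⟨1947644, 2167298, 0, 321190, 0, 294912, 0, 750195⟩ :=
  chkD_sound (p := KeT41P) ⟨Nat.succ_pos 7, (by decide : 1 ≤ 48), (by decide : 1 ≤ 255), KeE_ok,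
    KT0_ok⟩ KeT41 _ KeT41_k
theorem KeT47_c : CovC JI 367002 1394607 ⟨1947644, 2167298, 654784, 684883, 77512, 113886, 425687, 476275⟩ :=
  chkD_sound (p := KeT47P) ⟨Nat.succ_pos 7, (by decide : 1 ≤ 48), (by decide : 1 ≤ 255), KeE_ok,
    KT0_ok⟩ KeT47 _ KeT47_k
theorem KeT60_c : CovC JI 367002 1394607 ⟨1947644, 2167298, 321190, 1048576, 193779, 294912, 375098, 750195⟩ :=
  chkD_sound (p := KeT60P) ⟨Nat.succ_pos 7, (by decide : 1 ≤ 48), (by decide : 1 ≤ 255), KeE_ok,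
    KT0_ok⟩ KeT60 _ KeT60_k
theorem KeT66_c : CovC JI 367002 1394607 ⟨1947644, 2167298, 1048576, 1226834, 0, 294912, 777518, 2167299⟩ :=
  chkD_sound (p := KeT66P) ⟨Nat.succ_pos 7, (by decide : 1 ≤ 48), (by decide : 1 ≤ 255), KeE_ok,
    KT0_ok⟩ KeT66 _ KeT66_k
theorem KeT95_c : CovC JI 367002 1394607 ⟨2167298, 2411725, 1821268, 2097152, 0, 117965, 0, 8388608⟩ :=
  chkD_sound (p := KeT95P) ⟨Nat.succ_pos 7, (by decide : 1 ≤ 48), (by decide : 1 ≤ 255), KeE_ok,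
    KT0_ok⟩ KeT95 _ KeT95_k
theorem KeT20_c : CovC JI 367002 1394607 ⟨1572864, 1750251, 1226834, 1363149, 0, 294912, 1750252, 8388608⟩ :=
  chkD_sound (p := KeT20P) ⟨Nat.succ_pos 7, (by decide : 1 ≤ 48), (by decide : 1 ≤ 255), KeE_ok,
    KT0_ok⟩ KeT20 _ KeT20_k
theorem KeT39_c : CovC JI 367002 1394607 ⟨1750251, 1947644, 1226834, 1363149, 0, 294912, 1947645, 8388608⟩ :=
  chkD_sound (p := KeT39P) ⟨Nat.succ_pos 7, (by decide : 1 ≤ 48), (by decide : 1 ≤ 255), KeE_ok,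
    KT0_ok⟩ KeT39 _ KeT39_k
theorem KeT67_c : CovC JI 367002 1394607 ⟨1947644, 2167298, 1048576, 1226834, 0, 294912, 2167299, 8388608⟩ :=
  chkD_sound (p := KeT67P) ⟨Nat.succ_pos 7, (by decide : 1 ≤ 48), (by decide : 1 ≤ 255), KeE_ok,
    KT0_ok⟩ KeT67 _ KeT67_k
theorem KeT26_c : CovC JI 367002 1394607 ⟨1750251, 1947644, 1048576, 1226834, 0, 294912, 0, 8388608⟩ :=
  chkD_sound (p := KeT26P) ⟨Nat.succ_pos 15, (by decide : 28 ≤ 48), (by decide : 12 ≤ 255), KeE_ok,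
    chkKT_sound (by decide) KeT26K_k⟩ KeT26 _ KeT26_k
theorem KeT63_c : CovC JI 367002 1394607 ⟨1947644, 2167298, 1048576, 1226834, 0, 117965, 0, 388759⟩ :=
  chkD_sound (p := KeT63P) ⟨Nat.succ_pos 15, (by decide : 28 ≤ 48), (by decide : 12 ≤ 255), KeE_ok,
    chkKT_sound (by decide) KeT63K_k⟩ KeT63 _ KeT63_k
theorem KeT14_c : CovC JI 367002 1394607 ⟨1572864, 1750251, 1226834, 1363149, 7550, 18874, 177070, 354140⟩ :=
  chkD_sound (p := KeT14P) ⟨Nat.succ_pos 15, (by decide : 28 ≤ 48), (by decide : 12 ≤ 255), KeE_ok,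
    chkKT_sound (by decide) KeT14K_k⟩ KeT14 _ KeT14_k
theorem KeT40_c : CovC JI 367002 1394607 ⟨1750251, 1947644, 1363149, 2097152, 0, 294912, 0, 8388608⟩ :=
  chkD_sound (p := KeT40P) ⟨Nat.succ_pos 15, (by decide : 28 ≤ 48), (by decide : 12 ≤ 255), KeE_ok,
    chkKT_sound (by decide) KeT40K_k⟩ KeT40 _ KeT40_k
theorem KeT25_c : CovC JI 367002 1394607 ⟨1750251, 1947644, 0, 1048576, 0, 294912, 0, 8388608⟩ :=
  chkD_sound (p := KeT25P) ⟨Nat.succ_pos 15, (by decide : 28 ≤ 48), (by decide : 12 ≤ 255), KeE_ok,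
    chkKT_sound (by decide) KeT25K_k⟩ KeT25 _ KeT25_k
theorem KeT3_c : CovC JI 367002 1394607 ⟨1572864, 1750251, 1048576, 1226834, 0, 7550, 222170, 266604⟩ :=
  chkD_sound (p := KeT3P) ⟨Nat.succ_pos 15, (by decide : 28 ≤ 48), (by decide : 12 ≤ 255), KeE_ok,
    chkKT_sound (by decide) KeT3K_k⟩ KeT3 _ KeT3_k
theorem KeT51_c : CovC JI 367002 1394607 ⟨2027277, 2054538, 654784, 684883, 117655, 127893, 425687, 431731⟩ :=
  chkD_sound (p := KeT51P) ⟨Nat.succ_pos 15, (by decide : 28 ≤ 48), (by decide : 12 ≤ 255), KeE_ok,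
    chkKT_sound (by decide) KeT51K_k⟩ KeT51 _ KeT51_k
theorem KeT15_c : CovC JI 367002 1394607 ⟨1572864, 1750251, 1226834, 1363149, 18874, 47186, 177070, 354140⟩ :=
  chkD_sound (p := KeT15P) ⟨Nat.succ_pos 15, (by decide : 28 ≤ 48), (by decide : 12 ≤ 255), KeE_ok,
    chkKT_sound (by decide) KeT15K_k⟩ KeT15 _ KeT15_k
theorem KeT4_c : CovC JI 367002 1394607 ⟨1572864, 1750251, 1048576, 1226834, 7550, 18874, 222170, 266604⟩ :=
  chkD_sound (p := KeT4P) ⟨Nat.succ_pos 15, (by decide : 28 ≤ 48), (by decide : 12 ≤ 255), KeE_ok,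
    chkKT_sound (by decide) KeT4K_k⟩ KeT4 _ KeT4_k
theorem KeT49_c : CovC JI 367002 1394607 ⟨1947644, 2000377, 654784, 684883, 117655, 138130, 425687, 437775⟩ :=
  chkD_sound (p := KeT49P) ⟨Nat.succ_pos 15, (by decide : 28 ≤ 48), (by decide : 12 ≤ 255), KeE_ok,
    chkKT_sound (by decide) KeT49K_k⟩ KeT49 _ KeT49_k
theorem KeT79_c : CovC JI 367002 1394607 ⟨2167298, 2411725, 1226834, 1363149, 0, 18874, 0, 8388608⟩ :=
  chkD_sound (p := KeT79P) ⟨Nat.succ_pos 15, (by decide : 28 ≤ 48), (by decide : 12 ≤ 255), KeE_ok,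
    chkKT_sound (by decide) KeT79K_k⟩ KeT79 _ KeT79_k
theorem KeT32_c : CovC JI 367002 1394607 ⟨1750251, 1947644, 1294992, 1363149, 0, 18874, 229836, 275803⟩ :=
  chkD_sound (p := KeT32P) ⟨Nat.succ_pos 15, (by decide : 28 ≤ 48), (by decide : 12 ≤ 255), KeE_ok,
    chkKT_sound (by decide) KeT32K_k⟩ KeT32 _ KeT32_k
theorem KeT74_c : CovC JI 367002 1394607 ⟨2167298, 2411725, 0, 1048576, 0, 294912, 0, 8388608⟩ :=
  chkD_sound (p := KeT74P) ⟨Nat.succ_pos 15, (by decide : 28 ≤ 48), (by decide : 12 ≤ 255), KeE_ok,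
    chkKT_sound (by decide) KeT74K_k⟩ KeT74 _ KeT74_k
theorem KeT75_c : CovC JI 367002 1394607 ⟨2167298, 2411725, 1048576, 1226834, 0, 18874, 0, 8388608⟩ :=
  chkD_sound (p := KeT75P) ⟨Nat.succ_pos 15, (by decide : 28 ≤ 48), (by decide : 12 ≤ 255), KeE_ok,
    chkKT_sound (by decide) KeT75K_k⟩ KeT75 _ KeT75_k
theorem KeT16_c : CovC JI 367002 1394607 ⟨1572864, 1750251, 1226834, 1363149, 47186, 117965, 177070, 354140⟩ :=
  chkD_sound (p := KeT16P) ⟨Nat.succ_pos 15, (by decide : 28 ≤ 48), (by decide : 12 ≤ 255), KeE_ok,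
    chkKT_sound (by decide) KeT16K_k⟩ KeT16 _ KeT16_k
theorem KeT83_c : CovC JI 367002 1394607 ⟨2286247, 2411725, 1226834, 1363149, 47186, 82576, 0, 8388608⟩ :=
  chkD_sound (p := KeT83P) ⟨Nat.succ_pos 15, (by decide : 28 ≤ 48), (by decide : 12 ≤ 255), KeE_ok,
    chkKT_sound (by decide) KeT83K_k⟩ KeT83 _ KeT83_k
theorem KeT80_c : CovC JI 367002 1394607 ⟨2167298, 2411725, 1226834, 1363149, 18874, 47186, 0, 8388608⟩ :=
  chkD_sound (p := KeT80P) ⟨Nat.succ_pos 15, (by decide : 28 ≤ 48), (by decide : 12 ≤ 255), KeE_ok,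
    chkKT_sound (by decide) KeT80K_k⟩ KeT80 _ KeT80_k
theorem KeT8_c : CovC JI 367002 1394607 ⟨1572864, 1750251, 1048576, 1226834, 117965, 294912, 0, 355472⟩ :=
  chkD_sound (p := KeT8P) ⟨Nat.succ_pos 15, (by decide : 28 ≤ 48), (by decide : 12 ≤ 255), KeE_ok,
    chkKT_sound (by decide) KeT8K_k⟩ KeT8 _ KeT8_k
theorem KeT93_c : CovC JI 367002 1394607 ⟨2167298, 2411725, 1477679, 1592209, 82576, 117965, 0, 8388608⟩ :=
  chkD_sound (p := KeT93P) ⟨Nat.succ_pos 15, (by decide : 28 ≤ 48), (by decide : 12 ≤ 255), KeE_ok,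
    chkKT_sound (by decide) KeT93K_k⟩ KeT93 _ KeT93_k
theorem KeT91_c : CovC JI 367002 1394607 ⟨2167298, 2411725, 1363149, 1477679, 82576, 100271, 0, 8388608⟩ :=
  chkD_sound (p := KeT91P) ⟨Nat.succ_pos 15, (by decide : 28 ≤ 48), (by decide : 12 ≤ 255), KeE_ok,
    chkKT_sound (by decide) KeT91K_k⟩ KeT91 _ KeT91_k
theorem KeT82_c : CovC JI 367002 1394607 ⟨2225978, 2286247, 1226834, 1363149, 47186, 82576, 0, 8388608⟩ :=
  chkD_sound (p := KeT82P) ⟨Nat.succ_pos 15, (by decide : 28 ≤ 48), (by decide : 12 ≤ 255), KeE_ok,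
    chkKT_sound (by decide) KeT82K_k⟩ KeT82 _ KeT82_k
theorem KeT96_c : CovC JI 367002 1394607 ⟨2167298, 2411725, 1363149, 2097152, 117965, 294912, 0, 8388608⟩ :=
  chkD_sound (p := KeT96P) ⟨Nat.succ_pos 15, (by decide : 28 ≤ 48), (by decide : 12 ≤ 255), KeE_ok,
    chkKT_sound (by decide) KeT96K_k⟩ KeT96 _ KeT96_k
theorem KeT5_c : CovC JI 367002 1394607 ⟨1572864, 1750251, 1048576, 1226834, 0, 18874, 266604, 355472⟩ :=
  chkD_sound (p := KeT5P) ⟨Nat.succ_pos 15, (by decide : 28 ≤ 48), (by decide : 12 ≤ 255), KeE_ok,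
    chkKT_sound (by decide) KeT5K_k⟩ KeT5 _ KeT5_k
theorem KeT7_c : CovC JI 367002 1394607 ⟨1572864, 1750251, 1048576, 1226834, 47186, 117965, 177736, 355472⟩ :=
  chkD_sound (p := KeT7P) ⟨Nat.succ_pos 15, (by decide : 28 ≤ 48), (by decide : 12 ≤ 255), KeE_ok,
    chkKT_sound (by decide) KeT7K_k⟩ KeT7 _ KeT7_k
theorem KeT65_c : CovC JI 367002 1394607 ⟨1947644, 2167298, 1048576, 1226834, 0, 294912, 388759, 777518⟩ :=
  chkD_sound (p := KeT65P) ⟨Nat.succ_pos 15, (by decide : 28 ≤ 48), (by decide : 12 ≤ 255), KeE_ok,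
    chkKT_sound (by decide) KeT65K_k⟩ KeT65 _ KeT65_k
theorem KeT37_c : CovC JI 367002 1394607 ⟨1750251, 1947644, 1226834, 1363149, 0, 294912, 367737, 735474⟩ :=
  chkD_sound (p := KeT37P) ⟨Nat.succ_pos 15, (by decide : 28 ≤ 48), (by decide : 12 ≤ 255), KeE_ok,
    chkKT_sound (by decide) KeT37K_k⟩ KeT37 _ KeT37_k
theorem KeT18_c : CovC JI 367002 1394607 ⟨1572864, 1750251, 1226834, 1363149, 0, 294912, 354140, 708280⟩ :=
  chkD_sound (p := KeT18P) ⟨Nat.succ_pos 15, (by decide : 28 ≤ 48), (by decide : 12 ≤ 255), KeE_ok,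
    chkKT_sound (by decide) KeT18K_k⟩ KeT18 _ KeT18_k
theorem KeT46_c : CovC JI 367002 1394607 ⟨1947644, 2167298, 579657, 654784, 77512, 138130, 425687, 476275⟩ :=
  chkD_sound (p := KeT46P) ⟨Nat.succ_pos 15, (by decide : 28 ≤ 48), (by decide : 12 ≤ 255), KeE_ok,
    chkKT_sound (by decide) KeT46K_k⟩ KeT46 _ KeT46_k
theorem KeT94_c : CovC JI 367002 1394607 ⟨2167298, 2411725, 1592209, 1821268, 0, 117965, 0, 8388608⟩ :=
  chkD_sound (p := KeT94P) ⟨Nat.succ_pos 15, (by decide : 28 ≤ 48), (by decide : 12 ≤ 255), KeE_ok,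
    chkKT_sound (by decide) KeT94K_k⟩ KeT94 _ KeT94_k
theorem KeT89_c : CovC JI 367002 1394607 ⟨2286247, 2411725, 1363149, 1477679, 47186, 82576, 0, 8388608⟩ :=
  chkD_sound (p := KeT89P) ⟨Nat.succ_pos 15, (by decide : 28 ≤ 48), (by decide : 12 ≤ 255), KeE_ok,
    chkKT_sound (by decide) KeT89K_k⟩ KeT89 _ KeT89_k
theorem KeT85_c : CovC JI 367002 1394607 ⟨2167298, 2411725, 1226834, 1363149, 117965, 294912, 0, 8388608⟩ :=
  chkD_sound (p := KeT85P) ⟨Nat.succ_pos 15, (by decide : 28 ≤ 48), (by decide : 12 ≤ 255), KeE_ok,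
    chkKT_sound (by decide) KeT85K_k⟩ KeT85 _ KeT85_k
theorem KeT1_c : CovC JI 367002 1394607 ⟨1572864, 1750251, 1048576, 1226834, 0, 117965, 0, 177736⟩ :=
  chkD_sound (p := KeT1P) ⟨Nat.succ_pos 15, (by decide : 28 ≤ 48), (by decide : 12 ≤ 255), KeE_ok,
    chkKT_sound (by decide) KeT1K_k⟩ KeT1 _ KeT1_k
theorem KeT43_c : CovC JI 367002 1394607 ⟨1947644, 2167298, 321190, 1048576, 0, 77512, 375098, 750195⟩ :=
  chkD_sound (p := KeT43P) ⟨Nat.succ_pos 15, (by decide : 28 ≤ 48), (by decide : 12 ≤ 255), KeE_ok,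
    chkKT_sound (by decide) KeT43K_k⟩ KeT43 _ KeT43_k
theorem KeT57_c : CovC JI 367002 1394607 ⟨1947644, 2167298, 579657, 684883, 138130, 193779, 425687, 476275⟩ :=
  chkD_sound (p := KeT57P) ⟨Nat.succ_pos 15, (by decide : 28 ≤ 48), (by decide : 12 ≤ 255), KeE_ok,
    chkKT_sound (by decide) KeT57K_k⟩ KeT57 _ KeT57_k
theorem KeT27_c : CovC JI 367002 1394607 ⟨1750251, 1947644, 1226834, 1363149, 0, 117965, 0, 183869⟩ :=
  chkD_sound (p := KeT27P) ⟨Nat.succ_pos 15, (by decide : 28 ≤ 48), (by decide : 12 ≤ 255), KeE_ok,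
    chkKT_sound (by decide) KeT27K_k⟩ KeT27 _ KeT27_k
theorem KeT54_c : CovC JI 367002 1394607 ⟨1947644, 2054538, 654784, 684883, 117655, 138130, 437775, 449863⟩ :=
  chkD_sound (p := KeT54P) ⟨Nat.succ_pos 15, (by decide : 28 ≤ 48), (by decide : 12 ≤ 255), KeE_ok,
    chkKT_sound (by decide) KeT54K_k⟩ KeT54 _ KeT54_k
theorem KeT55_c : CovC JI 367002 1394607 ⟨2054538, 2167298, 654784, 684883, 113886, 138130, 425687, 449863⟩ :=
  chkD_sound (p := KeT55P) ⟨Nat.succ_pos 15, (by decide : 28 ≤ 48), (by decide : 12 ≤ 255), KeE_ok,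
    chkKT_sound (by decide) KeT55K_k⟩ KeT55 _ KeT55_k
theorem KeT59_c : CovC JI 367002 1394607 ⟨1947644, 2167298, 684883, 1048576, 77512, 193779, 375098, 750195⟩ :=
  chkD_sound (p := KeT59P) ⟨Nat.succ_pos 15, (by decide : 28 ≤ 48), (by decide : 12 ≤ 255), KeE_ok,
    chkKT_sound (by decide) KeT59K_k⟩ KeT59 _ KeT59_k
theorem KeT10_c : CovC JI 367002 1394607 ⟨1572864, 1750251, 1048576, 1226834, 0, 294912, 710944, 1750252⟩ :=
  chkD_sound (p := KeT10P) ⟨Nat.succ_pos 7, (by decide : 1 ≤ 48), (by decide : 1 ≤ 255), KeE_ok,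
    KT0_ok⟩ KeT10 _ KeT10_k
theorem KeT19_c : CovC JI 367002 1394607 ⟨1572864, 1750251, 1226834, 1363149, 0, 294912, 708280, 1750252⟩ :=
  chkD_sound (p := KeT19P) ⟨Nat.succ_pos 7, (by decide : 1 ≤ 48), (by decide : 1 ≤ 255), KeE_ok,
    KT0_ok⟩ KeT19 _ KeT19_k
theorem KeT38_c : CovC JI 367002 1394607 ⟨1750251, 1947644, 1226834, 1363149, 0, 294912, 735474, 1947645⟩ :=
  chkD_sound (p := KeT38P) ⟨Nat.succ_pos 7, (by decide : 1 ≤ 48), (by decide : 1 ≤ 255), KeE_ok,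
    KT0_ok⟩ KeT38 _ KeT38_k
theorem KeT44_c : CovC JI 367002 1394607 ⟨1947644, 2167298, 321190, 579657, 77512, 193779, 375098, 476275⟩ :=
  chkD_sound (p := KeT44P) ⟨Nat.succ_pos 7, (by decide : 1 ≤ 48), (by decide : 1 ≤ 255), KeE_ok,
    KT0_ok⟩ KeT44 _ KeT44_k
theorem KeT52_c : CovC JI 367002 1394607 ⟨2000377, 2054538, 654784, 684883, 127893, 138130, 425687, 431731⟩ :=
  chkD_sound (p := KeT52P) ⟨Nat.succ_pos 7, (by decide : 1 ≤ 48), (by decide : 1 ≤ 255), KeE_ok,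
    KT0_ok⟩ KeT52 _ KeT52_k
theorem KeT61_c : CovC JI 367002 1394607 ⟨1947644, 2167298, 0, 1048576, 0, 294912, 750195, 2167299⟩ :=
  chkD_sound (p := KeT61P) ⟨Nat.succ_pos 7, (by decide : 1 ≤ 48), (by decide : 1 ≤ 255), KeE_ok,
    KT0_ok⟩ KeT61 _ KeT61_k
theorem KeT71_c : CovC JI 367002 1394607 ⟨1947644, 2167298, 1226834, 1363149, 0, 294912, 776793, 2167299⟩ :=
  chkD_sound (p := KeT71P) ⟨Nat.succ_pos 7, (by decide : 1 ≤ 48), (by decide : 1 ≤ 255), KeE_ok,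
    KT0_ok⟩ KeT71 _ KeT71_k
theorem KeT11_c : CovC JI 367002 1394607 ⟨1572864, 1750251, 1048576, 1226834, 0, 294912, 1750252, 8388608⟩ :=
  chkD_sound (p := KeT11P) ⟨Nat.succ_pos 7, (by decide : 1 ≤ 48), (by decide : 1 ≤ 255), KeE_ok,
    KT0_ok⟩ KeT11 _ KeT11_k
theorem KeT24_c : CovC JI 367002 1394607 ⟨1572864, 1750251, 1363149, 2097152, 0, 294912, 1750252, 8388608⟩ :=
  chkD_sound (p := KeT24P) ⟨Nat.succ_pos 7, (by decide : 1 ≤ 48), (by decide : 1 ≤ 255), KeE_ok,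
    KT0_ok⟩ KeT24 _ KeT24_k
theorem KeT62_c : CovC JI 367002 1394607 ⟨1947644, 2167298, 0, 1048576, 0, 294912, 2167299, 8388608⟩ :=
  chkD_sound (p := KeT62P) ⟨Nat.succ_pos 7, (by decide : 1 ≤ 48), (by decide : 1 ≤ 255), KeE_ok,
    KT0_ok⟩ KeT62 _ KeT62_k
theorem KeT72_c : CovC JI 367002 1394607 ⟨1947644, 2167298, 1226834, 1363149, 0, 294912, 2167299, 8388608⟩ :=
  chkD_sound (p := KeT72P) ⟨Nat.succ_pos 7, (by decide : 1 ≤ 48), (by decide : 1 ≤ 255), KeE_ok,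
    KT0_ok⟩ KeT72 _ KeT72_k
theorem Ke_cov  : CovC JI 367002 1394607 ⟨1572864, 2411725, 0, 2097152, 0, 294912, 0, 8388608⟩ :=
 (CovC.sN 1750251 (CovC.sK 1048576 KeT0_c
 (CovC.sK 1226834 (CovC.sQ 1750252 (CovC.sQ 710944 (CovC.sQ 355472 (CovC.sJ 117965 (CovC.sQ 177736 KeT1_c
 (CovC.sJ 47186 (CovC.sJ 18874 (CovC.sQ 266604 (CovC.sQ 222170 KeT2_c
 (CovC.sJ 7550 KeT3_c
 KeT4_c))
 KeT5_c)
 KeT6_c)
 KeT7_c))
 KeT8_c)
 KeT9_c)
 KeT10_c)
 KeT11_c)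
 (CovC.sK 1363149 (CovC.sQ 1750252 (CovC.sQ 708280 (CovC.sQ 354140 (CovC.sJ 117965 (CovC.sQ 177070 KeT12_c
 (CovC.sJ 47186 (CovC.sJ 18874 (CovC.sJ 7550 KeT13_c
 KeT14_c)
 KeT15_c)
 KeT16_c))
 KeT17_c)
 KeT18_c)
 KeT19_c)
 KeT20_c)
 (CovC.sQ 1750252 (CovC.sQ 705363 (CovC.sQ 352682 KeT21_c
 KeT22_c)
 KeT23_c)
 KeT24_c))))
 (CovC.sN 1947644 (CovC.sK 1048576 KeT25_c
 (CovC.sK 1226834 KeT26_c
 (CovC.sK 1363149 (CovC.sQ 1947645 (CovC.sQ 735474 (CovC.sQ 367737 (CovC.sJ 117965 (CovC.sQ 183869 KeT27_c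
 (CovC.sJ 47186 (CovC.sJ 18874 (CovC.sQ 275803 (CovC.sQ 229836 KeT28_c
 (CovC.sK 1294992 (CovC.sJ 7550 (CovC.sJ 3020 KeT29_c
 KeT30_c)
 KeT31_c)
 KeT32_c))
 KeT33_c)
 KeT34_c)
 KeT35_c))
 KeT36_c)
 KeT37_c)
 KeT38_c)
 KeT39_c)
 KeT40_c)))
 (CovC.sN 2167298 (CovC.sK 1048576 (CovC.sQ 2167299 (CovC.sQ 750195 (CovC.sK 321190 KeT41_c
 (CovC.sQ 375098 KeT42_c
 (CovC.sJ 193779 (CovC.sJ 77512 KeT43_c
 (CovC.sK 684883 (CovC.sQ 476275 (CovC.sK 579657 KeT44_c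
 (CovC.sQ 425687 KeT45_c
 (CovC.sJ 138130 (CovC.sK 654784 KeT46_c
 (CovC.sJ 113886 KeT47_c
 (CovC.sQ 449863 (CovC.sN 2054538 (CovC.sJ 117655 KeT48_c
 (CovC.sQ 437775 (CovC.sN 2000377 KeT49_c
 (CovC.sQ 431731 (CovC.sJ 127893 (CovC.sN 2027277 KeT50_c
 KeT51_c)
 KeT52_c)
 KeT53_c))
 KeT54_c))
 KeT55_c)
 KeT56_c)))
 KeT57_c)))
 KeT58_c)
 KeT59_c))
 KeT60_c)))
 KeT61_c)
 KeT62_c)
 (CovC.sK 1226834 (CovC.sQ 2167299 (CovC.sQ 777518 (CovC.sQ 388759 (CovC.sJ 117965 KeT63_c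
 KeT64_c)
 KeT65_c)
 KeT66_c)
 KeT67_c)
 (CovC.sK 1363149 (CovC.sQ 2167299 (CovC.sQ 776793 (CovC.sQ 388397 (CovC.sJ 117965 KeT68_c
 KeT69_c)
 KeT70_c)
 KeT71_c)
 KeT72_c)
 KeT73_c)))
 (CovC.sK 1048576 KeT74_c
 (CovC.sK 1226834 (CovC.sJ 117965 (CovC.sJ 47186 (CovC.sJ 18874 KeT75_c
 KeT76_c)
 KeT77_c)
 KeT78_c)
 (CovC.sK 1363149 (CovC.sJ 117965 (CovC.sJ 47186 (CovC.sJ 18874 KeT79_c
 KeT80_c)
 (CovC.sJ 82576 (CovC.sN 2286247 (CovC.sN 2225978 KeT81_c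
 KeT82_c)
 KeT83_c)
 KeT84_c))
 KeT85_c)
 (CovC.sJ 117965 (CovC.sK 1821268 (CovC.sK 1592209 (CovC.sJ 47186 KeT86_c
 (CovC.sJ 82576 (CovC.sK 1477679 (CovC.sN 2286247 (CovC.sJ 64881 KeT87_c
 KeT88_c)
 KeT89_c)
 KeT90_c)
 (CovC.sK 1477679 (CovC.sJ 100271 KeT91_c
 KeT92_c)
 KeT93_c)))
 KeT94_c)
 KeT95_c)
 KeT96_c)))))))
end Pool.Agent.Lib.MP_33650d_pr.X
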