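import Pool.Agent.Lib.MP_33650d_pr.X.EFin
import Pool.Agent.Lib.MP_33650d_pr.X.GSnd
import Pool.Agent.Lib.MP_33650d_pr.X.CKChk
import Pool.Agent.Lib.MP_33650d_pr.G.KfC0

set_option linter.defProp false

namespace Pool.Agent.Lib.MP_33650d_pr.X

theorem KfE0000_ok : Tab JI KfE0000 := KfE0000_k.tabI
theorem KfE0001_ok : Tab JI KfE0001 := KfE0001_k.tabI
theorem KfE000_ok : Tab JI KfE000 := E.Tab.node KfE0000_ok KfE0001_ok
theorem KfE0010_ok : Tab JI KfE0010 := KfE0010_k.tabI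
theorem KfE0011_ok : Tab JI KfE0011 := KfE0011_k.tabI
theorem KfE001_ok : Tab JI KfE001 := E.Tab.node KfE0010_ok KfE0011_ok
theorem KfE00_ok : Tab JI KfE00 := E.Tab.node KfE000_ok KfE001_ok
theorem KfE0100_ok : Tab JI KfE0100 := KfE0100_k.tabI
theorem KfE0101_ok : Tab JI KfE0101 := KfE0101_k.tabI
theorem KfE010_ok : Tab JI KfE010 := E.Tab.node KfE0100_ok KfE0101_ok
theorem KfE0110_ok : Tab JI KfE0110 := KfE0110_k.tabI
theorem KfE0111_ok : Tab JI KfE0111 := KfE0111_k.tabI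
theorem KfE011_ok : Tab JI KfE011 := E.Tab.node KfE0110_ok KfE0111_ok
theorem KfE01_ok : Tab JI KfE01 := E.Tab.node KfE010_ok KfE011_ok
theorem KfE0_ok : Tab JI KfE0 := E.Tab.node KfE00_ok KfE01_ok
theorem KfE1000_ok : Tab JI KfE1000 := KfE1000_k.tabI
theorem KfE1001_ok : Tab JI KfE1001 := KfE1001_k.tabI
theorem KfE100_ok : Tab JI KfE100 := E.Tab.node KfE1000_ok KfE1001_ok
theorem KfE1010_ok : Tab JI KfE1010 := KfE1010_k.tabI
theorem KfE1011_ok : Tab JI KfE1011 := KfE1011_k.tabI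
theorem KfE101_ok : Tab JI KfE101 := E.Tab.node KfE1010_ok KfE1011_ok
theorem KfE10_ok : Tab JI KfE10 := E.Tab.node KfE100_ok KfE101_ok
theorem KfE1100_ok : Tab JI KfE1100 := KfE1100_k.tabI
theorem KfE1101_ok : Tab JI KfE1101 := KfE1101_k.tabI
theorem KfE110_ok : Tab JI KfE110 := E.Tab.node KfE1100_ok KfE1101_ok
theorem KfE1110_ok : Tab JI KfE1110 := KfE1110_k.tabI
theorem KfE1111_ok : Tab JI KfE1111 := KfE1111_k.tabI
theorem KfE111_ok : Tab JI KfE111 := E.Tab.node KfE1110_ok KfE1111_ok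
theorem KfE11_ok : Tab JI KfE11 := E.Tab.node KfE110_ok KfE111_ok
theorem KfE1_ok : Tab JI KfE1 := E.Tab.node KfE10_ok KfE11_ok
theorem KfE_ok : Tab JI KfE := E.Tab.node KfE0_ok KfE1_ok
theorem KfT7_c : CovC JI 367002 1394607 ⟨2411725, 3065022, 1363149, 2097152, 0, 117965, 0, 8388608⟩ :=
  chkD_sound (p := KfT7P) ⟨Nat.succ_pos 15, (by decide : 28 ≤ 48), (by decide : 10 ≤ 255), KfE_ok,
    chkKT_sound (by decide) KfT7K_k⟩ KfT7 _ KfT7_k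
theorem KfT9_c : CovC JI 367002 1394607 ⟨3065022, 3895287, 0, 2097152, 0, 294912, 0, 8388608⟩ :=
  chkD_sound (p := KfT9P) ⟨Nat.succ_pos 15, (by decide : 28 ≤ 48), (by decide : 10 ≤ 255), KfE_ok,
    chkKT_sound (by decide) KfT9K_k⟩ KfT9 _ KfT9_k
theorem KfT10_c : CovC JI 367002 1394607 ⟨3895287, 6291456, 0, 2097152, 0, 294912, 0, 8388608⟩ :=
  chkD_sound (p := KfT10P) ⟨Nat.succ_pos 15, (by decide : 28 ≤ 48), (by decide : 10 ≤ 255), KfE_ok,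
    chkKT_sound (by decide) KfT10K_k⟩ KfT10 _ KfT10_k
theorem KfT5_c : CovC JI 367002 1394607 ⟨2411725, 3065022, 1226834, 1363149, 47186, 117965, 0, 8388608⟩ :=
  chkD_sound (p := KfT5P) ⟨Nat.succ_pos 15, (by decide : 28 ≤ 48), (by decide : 10 ≤ 255), KfE_ok,
    chkKT_sound (by decide) KfT5K_k⟩ KfT5 _ KfT5_k
theorem KfT1_c : CovC JI 367002 1394607 ⟨2411725, 3065022, 1048576, 1226834, 0, 294912, 0, 8388608⟩ :=
  chkD_sound (p := KfT1P) ⟨Nat.succ_pos 15, (by decide : 28 ≤ 48), (by decide : 10 ≤ 255), KfE_ok,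
    chkKT_sound (by decide) KfT1K_k⟩ KfT1 _ KfT1_k
theorem KfT0_c : CovC JI 367002 1394607 ⟨2411725, 3065022, 0, 1048576, 0, 294912, 0, 8388608⟩ :=
  chkD_sound (p := KfT0P) ⟨Nat.succ_pos 15, (by decide : 28 ≤ 48), (by decide : 10 ≤ 255), KfE_ok,
    chkKT_sound (by decide) KfT0K_k⟩ KfT0 _ KfT0_k
theorem KfT2_c : CovC JI 367002 1394607 ⟨2411725, 3065022, 1226834, 1363149, 0, 18874, 0, 8388608⟩ :=
  chkD_sound (p := KfT2P) ⟨Nat.succ_pos 15, (by decide : 28 ≤ 48), (by decide : 10 ≤ 255), KfE_ok,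
    chkKT_sound (by decide) KfT2K_k⟩ KfT2 _ KfT2_k
theorem KfT3_c : CovC JI 367002 1394607 ⟨2411725, 2718821, 1226834, 1363149, 18874, 47186, 0, 8388608⟩ :=
  chkD_sound (p := KfT3P) ⟨Nat.succ_pos 15, (by decide : 28 ≤ 48), (by decide : 10 ≤ 255), KfE_ok,
    chkKT_sound (by decide) KfT3K_k⟩ KfT3 _ KfT3_k
theorem KfT8_c : CovC JI 367002 1394607 ⟨2411725, 3065022, 1363149, 2097152, 117965, 294912, 0, 8388608⟩ :=
  chkD_sound (p := KfT8P) ⟨Nat.succ_pos 15, (by decide : 28 ≤ 48), (by decide : 10 ≤ 255), KfE_ok,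
    chkKT_sound (by decide) KfT8K_k⟩ KfT8 _ KfT8_k
theorem KfT4_c : CovC JI 367002 1394607 ⟨2718821, 3065022, 1226834, 1363149, 18874, 47186, 0, 8388608⟩ :=
  chkD_sound (p := KfT4P) ⟨Nat.succ_pos 15, (by decide : 28 ≤ 48), (by decide : 10 ≤ 255), KfE_ok,
    chkKT_sound (by decide) KfT4K_k⟩ KfT4 _ KfT4_k
theorem KfT6_c : CovC JI 367002 1394607 ⟨2411725, 3065022, 1226834, 1363149, 117965, 294912, 0, 8388608⟩ :=
  chkD_sound (p := KfT6P) ⟨Nat.succ_pos 15, (by decide : 28 ≤ 48), (by decide : 10 ≤ 255), KfE_ok,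
    chkKT_sound (by decide) KfT6K_k⟩ KfT6 _ KfT6_k
theorem Kf_cov  : CovC JI 367002 1394607 ⟨2411725, 6291456, 0, 2097152, 0, 294912, 0, 8388608⟩ :=
 (CovC.sN 3065022 (CovC.sK 1048576 KfT0_c
 (CovC.sK 1226834 KfT1_c
 (CovC.sK 1363149 (CovC.sJ 117965 (CovC.sJ 47186 (CovC.sJ 18874 KfT2_c
 (CovC.sN 2718821 KfT3_c
 KfT4_c))
 KfT5_c)
 KfT6_c)
 (CovC.sJ 117965 KfT7_c
 KfT8_c))))
 (CovC.sN 3895287 KfT9_c
 KfT10_c))
end Pool.Agent.Lib.MP_33650d_pr.X
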