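import Pool.Agent.Lib.MP_33650d_pr.X.CLeaf

namespace Pool.Agent.Lib.MP_33650d_pr.X

/-- The bound in the middle range of the Lyapunov ratio, from the two root cells. -/
theorem mid_of_roots
    (r1 : CovC JI 183500 367002 ⟨1310720, 25165824, 0, 2097152, 0, 294912, 0, 33554432⟩)
    (r2 : CovC JI 367002 1394607 ⟨98304, 6291456, 0, 2097152, 0, 294912, 0, 8388608⟩)
    (S : Sys) (h : S.Ok) (a : 0.175 ≤ S.lam) (b : S.lam ≤ 1.33) : S.Bound := by
  rcases le_total S.lam (((367002 : ℕ) : ℝ) / 2 ^ 20) with c | c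
  · exact root_cov (Or.inl rfl) r1 (by norm_num) (by norm_num) (by norm_num) h
      (le_trans (by norm_num) a) c
  · exact root_cov (Or.inl rfl) r2 (by norm_num) (by norm_num) (by norm_num) h c
      (le_trans b (by norm_num))

end Pool.Agent.Lib.MP_33650d_pr.X
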