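import Pool.Agent.Lib.MP_33650d_pr.G.Ia
import Pool.Agent.Lib.MP_33650d_pr.G.Ib
import Pool.Agent.Lib.MP_33650d_pr.G.Ic
import Pool.Agent.Lib.MP_33650d_pr.G.Id
import Pool.Agent.Lib.MP_33650d_pr.G.Ie
import Pool.Agent.Lib.MP_33650d_pr.G.If
import Pool.Agent.Lib.MP_33650d_pr.G.Ig
import Pool.Agent.Lib.MP_33650d_pr.G.Ih
import Pool.Agent.Lib.MP_33650d_pr.G.Ii

namespace Pool.Agent.Lib.MP_33650d_pr.X

theorem rootI :
    CovC JI 183500 367002 ⟨1310720, 25165824, 0, 2097152, 0, 294912, 0, 33554432⟩ :=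
  CovC.sN 2097152 Ia_cov (CovC.sN 3145728 Ib_cov (CovC.sN 4194304 Ic_cov (CovC.sN 6291456 Id_cov
    (CovC.sN 8388608 Ie_cov (CovC.sN 10485760 If_cov (CovC.sN 12582912 Ig_cov
      (CovC.sN 16777216 Ih_cov Ii_cov)))))))

end Pool.Agent.Lib.MP_33650d_pr.X
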