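import Pool.Agent.Lib.MP_33650d_pr.G.Ka
import Pool.Agent.Lib.MP_33650d_pr.G.Kb
import Pool.Agent.Lib.MP_33650d_pr.G.Kc
import Pool.Agent.Lib.MP_33650d_pr.G.Kd
import Pool.Agent.Lib.MP_33650d_pr.G.Ke
import Pool.Agent.Lib.MP_33650d_pr.G.Kf

namespace Pool.Agent.Lib.MP_33650d_pr.X

theorem rootK :
    CovC JI 367002 1394607 ⟨98304, 6291456, 0, 2097152, 0, 294912, 0, 8388608⟩ :=
  CovC.sN 314573 Ka_cov (CovC.sN 629146 Kb_cov (CovC.sN 1048576 Kc_cov (CovC.sN 1572864 Kd_cov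
    (CovC.sN 2411725 Ke_cov Kf_cov))))

end Pool.Agent.Lib.MP_33650d_pr.X
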